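import Pool.Agent.H28.PT4.LgD
import Pool.Agent.H11.TS.Rtt

/-!
# POINTS THEOREM, LOG VERSION, RtL: the root trick with logarithms

Model: `root_trick` (`Pool/Agent/H11/TS/Rtt.lean`; uniform: `root_trick_u` in `Pool/Agent/H33/PT/Rtu.lean`). `L₀ := log (3 N A)`, `A = degP L γ ≥ 1`, `h_i = h(γ_i)`.
`h1` for `γ_i` alone: `c ≤ [L(γ_i):L] (log (3 N [L(γ_i):L]))^C h_i ≤ A L₀^C h_i` (`h1` has exponent `1/1 = 1`), so `h_i ≥ c / (A L₀^C) > 0`. `h₀ = min h_i`, `t_i = ⌈h_i/h₀⌉ ≤ 2 h_i/h₀`, `ρ_i^(t_i) = γ_i`, `h(ρ_i) ≤ h₀`, independent modulo `Λ`, `A' = degP L ρ ≤ A ∏ t_i`.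
If some `h_i > 1`: hmm, then `t_i` may be large; `∏ t_i ≤ 2^k ∏ h_i / h₀^k`. `hk`: `c ≤ A'^(1/k) (log (3 N A'))^C h₀`, raise to the power `k`: `c^k ≤ A' (log (3 N A'))^(kC) h₀^k ≤ 2^k A ∏ h_i (log (3 N A'))^(kC)`.
`log (3 N A') ≤ L₀ + log ∏ t_i`, `∏ t_i ≤ 2^k P / h₀^k`, `P = ∏ h_i`; `1/h₀ ≤ A L₀^C / c`, so `log ∏ t_i ≤ k log 2 + log P⁺ + k (L₀ + C log L₀ + log (1/c)⁺) ≤ B₁ L₀ + log⁺ P`. So `c^k ≤ 2^k A P (B₁ L₀ + log⁺ P)^(kC)`.
If `P ≤ 1`: `c^k ≤ 2^k B₁^(kC) A L₀^(kC) P`. If `P > 1`: the claim `c₃ ≤ A L₀^(C₃) P` is trivial for `c₃ ≤ 1` (`A ≥ 1`, `L₀ ≥ log 3 ≥ 1`). So `c₃ = min 1 (c^k / (2^k B₁^(kC)))`, `C₃ = k C`.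
-/

set_option autoImplicit false
set_option linter.unusedSectionVars false

open NumberField IntermediateField

namespace Pool.Agent.H28.PT4

open Pool.Agent.H33.TR Pool.Agent.H72.PB Pool.Agent.H72.RM Pool.Agent.H72.RG Pool.Agent.H11.TS

private theorem rtl_one {E Ω : Type} [Field E] [Field Ω] [Algebra E Ω] (x : Ω) (t : ℕ)
    (ht : 1 ≤ t) (y : E) (h : x ^ t = algebraMap E Ω y) :
    IsIntegral E x ∧ Module.finrank E (IntermediateField.adjoin E {x}) ≤ t := by
  have hm : (Polynomial.X ^ t - Polynomial.C y).Monic :=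
    Polynomial.monic_X_pow_sub_C y (by omega)
  have h0 : Polynomial.aeval x (Polynomial.X ^ t - Polynomial.C y) = 0 := by
    simp [h]
  have hi : IsIntegral E x := ⟨_, hm, h0⟩
  refine ⟨hi, ?_⟩
  rw [IntermediateField.adjoin.finrank hi]
  have h1 := Polynomial.natDegree_le_natDegree (minpoly.min E x hm h0)
  rwa [Polynomial.natDegree_X_pow_sub_C] at h1

private theorem rtl_fin {E Ω I : Type} [Field E] [Field Ω] [Algebra E Ω] [DecidableEq I]
    (x : I → Ω) (t : I → ℕ) (ht : ∀ i, 1 ≤ t i) (h : ∀ i, ∃ y : E, x i ^ t i = algebraMap E Ω y)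
    (s : Finset I) :
    Module.finrank E (IntermediateField.adjoin E (x '' (s : Set I))) ≤ ∏ i ∈ s, t i := by
  induction s using Finset.induction_on with
  | empty =>
    rw [Finset.coe_empty, Set.image_empty, IntermediateField.adjoin_empty, Finset.prod_empty,
      IntermediateField.finrank_bot]
  | insert i s hi ih =>
    rw [Finset.coe_insert, Set.image_insert_eq, Set.insert_eq, IntermediateField.adjoin_union,
      Finset.prod_insert hi]
    obtain ⟨y, hy⟩ := h i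
    exact (IntermediateField.finrank_sup_le _ _).trans
      (Nat.mul_le_mul (rtl_one (x i) (t i) (ht i) y hy).2 ih)

private theorem rtl_deg {L Ω : Type} [Field L] [Field Ω] [Algebra L Ω] [Algebra.IsAlgebraic L Ω]
    {k : ℕ} (γ ρ : Fin k → Ω) (t : Fin k → ℕ) (ht : ∀ i, 1 ≤ t i) (h : ∀ i, ρ i ^ t i = γ i) :
    Module.finrank L (IntermediateField.adjoin L (Set.range ρ)) ≤
      Module.finrank L (IntermediateField.adjoin L (Set.range γ)) * ∏ i, t i := by
  classical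
  set E := IntermediateField.adjoin L (Set.range γ) with hE
  have hmem : ∀ i, γ i ∈ E := fun i => IntermediateField.subset_adjoin L _ ⟨i, rfl⟩
  have h1 := rtl_fin (E := E) ρ t ht (fun i => ⟨⟨γ i, hmem i⟩, h i⟩) Finset.univ
  rw [Finset.coe_univ, Set.image_univ] at h1
  set F := IntermediateField.adjoin E (Set.range ρ) with hF
  have hfE : FiniteDimensional L E :=
    IntermediateField.finiteDimensional_adjoin fun x _ => (Algebra.IsAlgebraic.isAlgebraic x).isIntegral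
  have hfF : FiniteDimensional E F :=
    IntermediateField.finiteDimensional_adjoin fun x hx => by
      obtain ⟨i, rfl⟩ := hx
      exact (rtl_one (E := E) (ρ i) (t i) (ht i) ⟨γ i, hmem i⟩ (h i)).1
  have hfL : FiniteDimensional L F := FiniteDimensional.trans L E F
  have hle : IntermediateField.adjoin L (Set.range ρ) ≤ F.restrictScalars L := by
    rw [IntermediateField.adjoin_le_iff]
    intro x hx
    exact IntermediateField.subset_adjoin E _ hx
  have h2 : Module.finrank L (IntermediateField.adjoin L (Set.range ρ)) ≤ Module.finrank L F := by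
    have hf' : FiniteDimensional L (F.restrictScalars L) := hfL
    exact LinearMap.finrank_le_finrank_of_injective
      (f := (IntermediateField.inclusion hle).toLinearMap)
      (IntermediateField.inclusion_injective hle)
  calc _ ≤ Module.finrank L F := h2
    _ = Module.finrank L E * Module.finrank E F := (Module.finrank_mul_finrank L E F).symm
    _ ≤ _ := Nat.mul_le_mul le_rfl h1

private theorem rtl_mono {L Ω : Type} [Field L] [Field Ω] [Algebra L Ω] [Algebra.IsAlgebraic L Ω]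
    {k : ℕ} (γ : Fin k → Ω) (i : Fin k) :
    Module.finrank L (IntermediateField.adjoin L (Set.range fun _ : Fin 1 => γ i)) ≤
      Module.finrank L (IntermediateField.adjoin L (Set.range γ)) := by
  have hfE : FiniteDimensional L (IntermediateField.adjoin L (Set.range γ)) :=
    IntermediateField.finiteDimensional_adjoin fun x _ => (Algebra.IsAlgebraic.isAlgebraic x).isIntegral
  have hle : IntermediateField.adjoin L (Set.range fun _ : Fin 1 => γ i) ≤
      IntermediateField.adjoin L (Set.range γ) := by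
    refine IntermediateField.adjoin.mono _ _ _ ?_
    rintro _ ⟨_, rfl⟩
    exact ⟨i, rfl⟩
  exact LinearMap.finrank_le_finrank_of_injective
    (f := (IntermediateField.inclusion hle).toLinearMap)
    (IntermediateField.inclusion_injective hle)

private theorem rtl_pos {L Ω : Type} [Field L] [Field Ω] [Algebra L Ω] [Algebra.IsAlgebraic L Ω]
    {k : ℕ} (γ : Fin k → Ω) :
    1 ≤ Module.finrank L (IntermediateField.adjoin L (Set.range γ)) := by
  have hfE : FiniteDimensional L (IntermediateField.adjoin L (Set.range γ)) :=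
    IntermediateField.finiteDimensional_adjoin fun x _ => (Algebra.IsAlgebraic.isAlgebraic x).isIntegral
  exact Module.finrank_pos

private theorem rtl_ind {Ω : Type} [Field Ω] (Λ : Subgroup Ωˣ) {k : ℕ} {γ : Fin k → Ωˣ}
    (h : IndM Λ γ) (i : Fin k) : IndM Λ fun _ : Fin 1 => γ i := by
  intro a ha m hm hmem
  have ha0 : a 0 ≠ 0 := by
    intro h0
    apply ha
    funext j
    rw [Subsingleton.elim j 0]
    exact h0
  refine h (Pi.single i (a 0)) ?_ m hm ?_
  · intro h0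
    apply ha0
    have h1 := congrFun h0 i
    rwa [Pi.single_eq_same] at h1
  · have h1 : (∏ j, γ j ^ (Pi.single i (a 0) : Fin k → ℤ) j) = γ i ^ a 0 := by
      rw [Finset.prod_eq_single i]
      · rw [Pi.single_eq_same]
      · intro j _ hj
        rw [Pi.single_eq_of_ne hj, zpow_zero]
      · intro h2
        exact absurd (Finset.mem_univ i) h2
    rw [h1]
    rwa [Fin.prod_univ_one] at hmem

private theorem rtl_root {Ω : Type} [Field Ω] (Λ : Subgroup Ωˣ) {k : ℕ} {γ ρ : Fin k → Ωˣ}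
    (h : IndM Λ γ) (t : Fin k → ℕ) (ht : ∀ i, 1 ≤ t i) (hρ : ∀ i, ρ i ^ t i = γ i) :
    IndM Λ ρ := by
  intro a ha m hm hmem
  refine h (fun i => a i * ∏ j ∈ Finset.univ.erase i, (t j : ℤ)) ?_ m hm ?_
  · intro h0
    apply ha
    funext i
    have h1 := congrFun h0 i
    have h2 : (∏ j ∈ Finset.univ.erase i, (t j : ℤ)) ≠ 0 := by
      refine Finset.prod_ne_zero_iff.2 fun j _ => ?_
      have := ht j
      omega
    exact (mul_eq_zero.1 h1).resolve_right h2
  · have h1 : (∏ i, γ i ^ (a i * ∏ j ∈ Finset.univ.erase i, (t j : ℤ))) =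
        (∏ i, ρ i ^ a i) ^ (∏ j, t j) := by
      rw [← Finset.prod_pow]
      refine Finset.prod_congr rfl fun i _ => ?_
      rw [← hρ i, ← zpow_natCast (ρ i) (t i), ← zpow_mul, ← zpow_natCast (ρ i ^ a i), ← zpow_mul]
      congr 1
      push_cast
      rw [← Finset.mul_prod_erase Finset.univ (fun j => (t j : ℤ)) (Finset.mem_univ i)]
      ring
    rw [h1, ← pow_mul, mul_comm, pow_mul]
    exact pow_mem hmem _

private theorem rtl_num (k : ℕ) (hk : 1 ≤ k) (C : ℕ) (c : ℝ) (hc0 : 0 < c) (A M h₀ : ℝ)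
    (hA : 1 ≤ A) (hM : 3 * A ≤ M) (hh₀ : 0 < h₀) (h : Fin k → ℝ) (t : Fin k → ℕ)
    (hh : ∀ i, 0 < h i) (ht1 : ∀ i, 1 ≤ t i) (ht : ∀ i, (t i : ℝ) ≤ 2 * (h i / h₀))
    (hc : c ≤ A * Real.log M ^ C * h₀)
    (hc' : c ≤ (A * ∏ i, (t i : ℝ)) ^ (1 / (k : ℝ)) * Real.log (M * ∏ i, (t i : ℝ)) ^ C * h₀) :
    min 1 (c ^ k / (2 ^ k * (k * (2 + C + |Real.log c|) + 1) ^ (k * C))) ≤
      A * Real.log M ^ (k * C) * ∏ i, h i := by
  have hA0 : 0 < A := by linarith
  have hM3 : 3 ≤ M := by linarith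
  have hM0 : 0 < M := by linarith
  have hk0 : (1 : ℝ) ≤ k := by exact_mod_cast hk
  have hP : 0 < ∏ i, h i := Finset.prod_pos fun i _ => hh i
  have hT1 : 1 ≤ ∏ i, (t i : ℝ) := by
    have h1 : ∏ _i : Fin k, (1 : ℝ) ≤ ∏ i, (t i : ℝ) :=
      Finset.prod_le_prod (fun i _ => zero_le_one) fun i _ => by exact_mod_cast ht1 i
    rwa [Finset.prod_const_one] at h1
  have hT : 0 < ∏ i, (t i : ℝ) := by linarith
  set T : ℝ := ∏ i, (t i : ℝ) with hTd
  set P : ℝ := ∏ i, h i with hPd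
  set L₀ : ℝ := Real.log M with hL
  have hL1 : 1 ≤ L₀ := by
    rw [hL, Real.le_log_iff_exp_le hM0]
    have h1 := Real.exp_one_lt_d9
    linarith
  have hL0 : 0 < L₀ := by linarith
  have hCr : (0 : ℝ) ≤ C := Nat.cast_nonneg _
  -- the bound for `T`
  have hTP : T * h₀ ^ k ≤ 2 ^ k * P := by
    have h1 : T ≤ ∏ i, (2 * (h i / h₀)) :=
      Finset.prod_le_prod (fun i _ => Nat.cast_nonneg _) fun i _ => ht i
    have h2 : ∏ i, (2 * (h i / h₀)) = 2 ^ k * P / h₀ ^ k := by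
      rw [Finset.prod_mul_distrib, Finset.prod_div_distrib, Finset.prod_const, Finset.prod_const,
        Finset.card_univ, Fintype.card_fin, mul_div_assoc]
    rw [h2, le_div_iff₀ (by positivity)] at h1
    exact h1
  by_cases hP1 : 1 < P
  · refine (min_le_left _ _).trans ?_
    have h1 : 1 ≤ A * L₀ ^ (k * C) := one_le_mul_of_one_le_of_one_le hA (one_le_pow₀ hL1)
    exact one_le_mul_of_one_le_of_one_le h1 hP1.le
  · refine (min_le_right _ _).trans ?_
    have hlT : Real.log T ≤ k * Real.log 2 - k * Real.log h₀ := by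
      have h1 := Real.log_le_log (by positivity) hTP
      rw [Real.log_mul hT.ne' (by positivity), Real.log_mul (by positivity) hP.ne', Real.log_pow,
        Real.log_pow] at h1
      have h2 : Real.log P ≤ 0 := Real.log_nonpos hP.le (not_lt.1 hP1)
      linarith
    have hlh : Real.log c ≤ Real.log A + C * Real.log L₀ + Real.log h₀ := by
      have h1 := Real.log_le_log hc0 hc
      rwa [Real.log_mul (by positivity) hh₀.ne', Real.log_mul hA0.ne' (by positivity),
        Real.log_pow] at h1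
    have hlA : Real.log A ≤ L₀ := Real.log_le_log hA0 (by linarith)
    have hlL : Real.log L₀ ≤ L₀ := (Real.log_le_sub_one_of_pos hL0).trans (by linarith)
    have hl2 : Real.log 2 ≤ L₀ := Real.log_le_log (by norm_num) (by linarith)
    have hlc : -Real.log c ≤ |Real.log c| * L₀ :=
      (neg_le_abs _).trans (le_mul_of_one_le_right (abs_nonneg _) hL1)
    have hb : L₀ + Real.log T ≤ (k * (2 + C + |Real.log c|) + 1) * L₀ := by
      have h1 : -Real.log h₀ ≤ L₀ + C * L₀ + |Real.log c| * L₀ := by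
        have h2 := mul_le_mul_of_nonneg_left hlL hCr
        linarith
      have h3 : (k : ℝ) * (Real.log 2 + -Real.log h₀) ≤
          k * (L₀ + (L₀ + C * L₀ + |Real.log c| * L₀)) :=
        mul_le_mul_of_nonneg_left (by linarith) (by linarith)
      have h4 : (k : ℝ) * (L₀ + (L₀ + C * L₀ + |Real.log c| * L₀)) =
          (k * (2 + C + |Real.log c|)) * L₀ := by ring
      nlinarith
    have hlT0 : 0 ≤ Real.log T := Real.log_nonneg hT1
    have hlog : Real.log (M * T) = L₀ + Real.log T := Real.log_mul hM0.ne' hT.ne'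
    rw [hlog] at hc'
    -- the power
    have h5 : c ^ k ≤ A * T * (L₀ + Real.log T) ^ (k * C) * h₀ ^ k := by
      have h6 := pow_le_pow_left₀ hc0.le hc' k
      have h7 : ((A * T) ^ (1 / (k : ℝ))) ^ k = A * T := by
        rw [one_div]
        exact Real.rpow_inv_natCast_pow (by positivity) (by omega)
      rw [mul_pow, mul_pow, h7, ← pow_mul, mul_comm C k] at h6
      exact h6
    have hB0 : (0 : ℝ) < k * (2 + C + |Real.log c|) + 1 := by positivity
    have h6 : A * T * (L₀ + Real.log T) ^ (k * C) * h₀ ^ k ≤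
        A * ((k * (2 + C + |Real.log c|) + 1) * L₀) ^ (k * C) * (2 ^ k * P) := by
      have h7 : (L₀ + Real.log T) ^ (k * C) ≤
          ((k * (2 + C + |Real.log c|) + 1) * L₀) ^ (k * C) :=
        pow_le_pow_left₀ (by linarith) hb _
      have h8 : 0 ≤ T * h₀ ^ k := by positivity
      calc A * T * (L₀ + Real.log T) ^ (k * C) * h₀ ^ k
          = A * (L₀ + Real.log T) ^ (k * C) * (T * h₀ ^ k) := by ring
        _ ≤ A * ((k * (2 + C + |Real.log c|) + 1) * L₀) ^ (k * C) * (T * h₀ ^ k) :=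
            mul_le_mul_of_nonneg_right (mul_le_mul_of_nonneg_left h7 hA0.le) h8
        _ ≤ _ := mul_le_mul_of_nonneg_left hTP (by positivity)
    rw [div_le_iff₀ (by positivity)]
    refine (h5.trans h6).trans (le_of_eq ?_)
    rw [mul_pow]
    ring

theorem root_trickL (k : ℕ) (hk : 1 ≤ k) (C : ℕ) (c : ℝ) (hc : 0 < c) :
    ∃ (C₃ : ℕ) (c₃ : ℝ), 0 < c₃ ∧ ∀ (K Ω : Type) [Field K] [NumberField K] [Field Ω] [CharZero Ω]
      [IsAlgClosed Ω] [Algebra K Ω] [IsGalois K Ω] (L : IntermediateField K Ω) (Λ : Subgroup Ωˣ)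
      (N : ℕ) (_ : 1 ≤ N) (_ : LogH L Λ 1 N C c) (_ : LogH L Λ k N C c), LogB L Λ k N C₃ c₃ := by
  have hne : Nonempty (Fin k) := ⟨⟨0, hk⟩⟩
  refine ⟨k * C, min 1 (c ^ k / (2 ^ k * (k * (2 + C + |Real.log c|) + 1) ^ (k * C))),
    lt_min one_pos (by positivity), ?_⟩
  intro K Ω _ _ _ _ _ _ _ L Λ N hN h1 hk' γ hγ
  have halg : Algebra.IsAlgebraic L Ω := Algebra.IsAlgebraic.tower_top (K := K) L
  have hNr : (1 : ℝ) ≤ (N : ℝ) := by exact_mod_cast hN
  have hA1' : 1 ≤ degP L γ := rtl_pos fun i => (γ i : Ω)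
  have hA1 : (1 : ℝ) ≤ (degP L γ : ℝ) := Nat.one_le_cast.2 hA1'
  obtain ⟨A, hA⟩ : ∃ A : ℝ, A = (degP L γ : ℝ) := ⟨_, rfl⟩
  have hM3 : 3 * A ≤ 3 * N * degP L γ := by
    rw [hA]
    nlinarith
  have hlow : ∀ i, c ≤ A * Real.log (3 * N * degP L γ) ^ C * absLogHeight₁ (γ i : Ω) := by
    intro i
    have h2 : degP L (fun _ : Fin 1 => γ i) ≤ degP L γ := rtl_mono (fun i => (γ i : Ω)) i
    have h2' : (degP L (fun _ : Fin 1 => γ i) : ℝ) ≤ degP L γ := Nat.cast_le.2 h2
    have h3 : 1 ≤ degP L (fun _ : Fin 1 => γ i) := rtl_pos fun _ => (γ i : Ω)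
    have h3' : (1 : ℝ) ≤ (degP L (fun _ : Fin 1 => γ i) : ℝ) := Nat.one_le_cast.2 h3
    have h4 := h1 (fun _ => γ i) (rtl_ind Λ hγ i) (absLogHeight₁ (γ i : Ω)) fun _ => le_rfl
    rw [Nat.cast_one, div_one, Real.rpow_one] at h4
    refine h4.trans (mul_le_mul_of_nonneg_right ?_ (ht_nonneg _))
    rw [hA]
    have h5 : (1 : ℝ) ≤ 3 * N * degP L (fun _ : Fin 1 => γ i) := by nlinarith
    refine mul_le_mul h2' (pow_le_pow_left₀ (Real.log_nonneg h5) (Real.log_le_log (by linarith)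
      ?_) C) (pow_nonneg (Real.log_nonneg h5) _) (by linarith)
    exact mul_le_mul_of_nonneg_left h2' (by linarith)
  have hpos : ∀ i, 0 < absLogHeight₁ (γ i : Ω) := by
    intro i
    have h2 := hlow i
    by_contra h3
    have h4 : absLogHeight₁ (γ i : Ω) = 0 := le_antisymm (not_lt.1 h3) (ht_nonneg _)
    rw [h4, mul_zero] at h2
    linarith
  obtain ⟨j, -, hj⟩ := Finset.exists_min_image Finset.univ
    (fun i => absLogHeight₁ (γ i : Ω)) Finset.univ_nonempty
  set h₀ := absLogHeight₁ (γ j : Ω) with hh₀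
  have h₀0 : 0 < h₀ := hpos j
  set t : Fin k → ℕ := fun i => ⌈absLogHeight₁ (γ i : Ω) / h₀⌉₊ with htdef
  have hq : ∀ i, 1 ≤ absLogHeight₁ (γ i : Ω) / h₀ := by
    intro i
    rw [le_div_iff₀ h₀0, one_mul]
    exact hj i (Finset.mem_univ i)
  have ht1 : ∀ i, 1 ≤ t i := by
    intro i
    exact Nat.one_le_iff_ne_zero.2 (Nat.pos_iff_ne_zero.1 (Nat.ceil_pos.2 (by
      have := hq i
      linarith)))
  have ht2 : ∀ i, (t i : ℝ) ≤ 2 * (absLogHeight₁ (γ i : Ω) / h₀) := by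
    intro i
    have h2 := Nat.ceil_lt_add_one (by
      have := hq i
      linarith : 0 ≤ absLogHeight₁ (γ i : Ω) / h₀)
    have h3 := hq i
    have h4 : (t i : ℝ) = (⌈absLogHeight₁ (γ i : Ω) / h₀⌉₊ : ℝ) := rfl
    rw [h4]
    linarith
  have ht3 : ∀ i, absLogHeight₁ (γ i : Ω) ≤ t i * h₀ := by
    intro i
    have h2 := Nat.le_ceil (absLogHeight₁ (γ i : Ω) / h₀)
    rw [div_le_iff₀ h₀0] at h2
    exact h2
  -- the roots
  have hex : ∀ i, ∃ z : Ωˣ, z ^ t i = γ i := by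
    intro i
    obtain ⟨z, hz⟩ := IsAlgClosed.exists_pow_nat_eq (γ i : Ω)
      (Nat.lt_of_lt_of_le Nat.zero_lt_one (ht1 i))
    have hz0 : z ≠ 0 := by
      rintro rfl
      rw [zero_pow (Nat.one_le_iff_ne_zero.1 (ht1 i))] at hz
      exact (γ i).ne_zero hz.symm
    refine ⟨Units.mk0 z hz0, Units.ext ?_⟩
    rw [Units.val_pow_eq_pow_val, Units.val_mk0, hz]
  choose ρ hρ using hex
  have hρh : ∀ i, absLogHeight₁ (ρ i : Ω) ≤ h₀ := by
    intro i
    have h2 := Pool.Agent.H4.RR.absLogHeight_pow Ω (ρ i : Ω) (int_all K _) (t i)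
    rw [← Units.val_pow_eq_pow_val, hρ i] at h2
    have h3 := ht3 i
    rw [h2] at h3
    have h4 : (0 : ℝ) < t i := by
      have := ht1 i
      exact_mod_cast this
    exact le_of_mul_le_mul_left h3 h4
  have hd' : degP L ρ ≤ degP L γ * ∏ i, t i :=
    rtl_deg (fun i => (γ i : Ω)) (fun i => (ρ i : Ω)) t ht1 fun i => by
      rw [← Units.val_pow_eq_pow_val, hρ i]
  have hd : (degP L ρ : ℝ) ≤ degP L γ * ∏ i, (t i : ℝ) := by
    have h3 : ((degP L γ * ∏ i, t i : ℕ) : ℝ) = degP L γ * ∏ i, (t i : ℝ) := by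
      push_cast
      rfl
    rw [← h3]
    exact_mod_cast hd'
  have hρ1 : 1 ≤ degP L ρ := rtl_pos fun i => (ρ i : Ω)
  have hρ1' : (1 : ℝ) ≤ (degP L ρ : ℝ) := Nat.one_le_cast.2 hρ1
  have hfin := hk' ρ (rtl_root Λ hγ t ht1 hρ) h₀ hρh
  have hfin' : c ≤ (A * ∏ i, (t i : ℝ)) ^ (1 / (k : ℝ)) *
      Real.log ((3 * N * degP L γ) * ∏ i, (t i : ℝ)) ^ C * h₀ := by
    refine hfin.trans (mul_le_mul_of_nonneg_right ?_ h₀0.le)
    have h5 : (1 : ℝ) ≤ 3 * N * degP L ρ := by nlinarith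
    rw [hA]
    refine mul_le_mul (Real.rpow_le_rpow (Nat.cast_nonneg _) hd (by positivity))
      (pow_le_pow_left₀ (Real.log_nonneg h5) (Real.log_le_log (by linarith) ?_) C)
      (pow_nonneg (Real.log_nonneg h5) _) (Real.rpow_nonneg (by positivity) _)
    rw [mul_assoc (3 * (N : ℝ))]
    exact mul_le_mul_of_nonneg_left hd (by linarith)
  have hres := rtl_num k hk C c hc A (3 * N * degP L γ) h₀ (by rw [hA]; exact hA1) hM3 h₀0 _ t
    hpos ht1 ht2 (hlow j) hfin'
  rw [hA] at hres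
  exact hres

private theorem rtl_log {N d : ℕ} (hN : 1 ≤ N) (hd : 1 ≤ d) : 1 ≤ Real.log (3 * N * d) := by
  have h1 : (1 : ℝ) ≤ (N : ℝ) := by exact_mod_cast hN
  have h2 : (1 : ℝ) ≤ (d : ℝ) := by exact_mod_cast hd
  have h3 : (3 : ℝ) ≤ 3 * N * d := by nlinarith
  rw [Real.le_log_iff_exp_le (by linarith)]
  have h4 := Real.exp_one_lt_d9
  linarith

/-- larger exponents and smaller constants -/
theorem logB_mono {K Ω : Type} [Field K] [NumberField K] [Field Ω] [CharZero Ω] [IsAlgClosed Ω]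
    [Algebra K Ω] [IsGalois K Ω] {L : IntermediateField K Ω} {Λ : Subgroup Ωˣ} {k N C C' : ℕ}
    (hN : 1 ≤ N) {c c' : ℝ} (hC : C ≤ C') (hc : c' ≤ c) (h : LogB L Λ k N C c) :
    LogB L Λ k N C' c' := by
  intro γ hγ
  have halg : Algebra.IsAlgebraic L Ω := Algebra.IsAlgebraic.tower_top (K := K) L
  have hA1' : 1 ≤ degP L γ := rtl_pos fun i => (γ i : Ω)
  refine hc.trans ((h γ hγ).trans (mul_le_mul_of_nonneg_right (mul_le_mul_of_nonneg_left
    (pow_le_pow_right₀ (rtl_log hN hA1') hC) (Nat.cast_nonneg _))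
    (Finset.prod_nonneg fun i _ => ht_nonneg _)))

theorem logH_mono {K Ω : Type} [Field K] [NumberField K] [Field Ω] [CharZero Ω] [IsAlgClosed Ω]
    [Algebra K Ω] [IsGalois K Ω] {L : IntermediateField K Ω} {Λ : Subgroup Ωˣ} {k N C C' : ℕ}
    (hk : 1 ≤ k) (hN : 1 ≤ N) {c c' : ℝ} (hC : C ≤ C') (hc : c' ≤ c) (h : LogH L Λ k N C c) :
    LogH L Λ k N C' c' := by
  intro γ hγ h₀ hh₀
  have halg : Algebra.IsAlgebraic L Ω := Algebra.IsAlgebraic.tower_top (K := K) L
  have hA1' : 1 ≤ degP L γ := rtl_pos fun i => (γ i : Ω)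
  have h0 : 0 ≤ h₀ := (ht_nonneg _).trans (hh₀ ⟨0, hk⟩)
  refine hc.trans ((h γ hγ h₀ hh₀).trans (mul_le_mul_of_nonneg_right (mul_le_mul_of_nonneg_left
    (pow_le_pow_right₀ (rtl_log hN hA1') hC) (Real.rpow_nonneg (Nat.cast_nonneg _) _)) h0))

end Pool.Agent.H28.PT4
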