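import Pool.Agent.H28.PT4.CoU

/-!
# POINTS THEOREM, PART IV, LOG VERSION, LgD: definitions

All bounds with a power of the logarithm, `N` the level (prime to `S`; `N = 1` in the basic version).
* `LogB L Λ k N C c`: `c ≤ [L(γ):L] (log (3 N [L(γ):L]))^C ∏ h(γ_i)` for all `γ ∈ G_m^k` independent modulo `Λ`.
* `LogH L Λ k N C c`: `c ≤ [L(γ):L]^(1/k) (log (3 N [L(γ):L]))^C h` for all `h ≥ h(γ_i)`.
* `GpL k L Λ N a₀ a₁ K₀`: no relations of small degree (the log version of `gp`).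
* `EndL b NN k`: the last step.
-/

set_option autoImplicit false
set_option linter.unusedSectionVars false

open NumberField IntermediateField

namespace Pool.Agent.H28.PT4

open Pool.Agent.H33.TR Pool.Agent.H72.PB Pool.Agent.H72.RM Pool.Agent.H72.RG Pool.Agent.H11.TS

/-- product form with a power of the logarithm -/
def LogB {K Ω : Type} [Field K] [Field Ω] [CharZero Ω] [Algebra K Ω] (L : IntermediateField K Ω)
    (Λ : Subgroup Ωˣ) (k N C : ℕ) (c : ℝ) : Prop :=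
  ∀ γ : Fin k → Ωˣ, IndM Λ γ →
    c ≤ (degP L γ : ℝ) * Real.log (3 * N * degP L γ) ^ C * ∏ i, absLogHeight₁ (γ i : Ω)

/-- equal height form with a power of the logarithm -/
def LogH {K Ω : Type} [Field K] [Field Ω] [CharZero Ω] [Algebra K Ω] (L : IntermediateField K Ω)
    (Λ : Subgroup Ωˣ) (k N C : ℕ) (c : ℝ) : Prop :=
  ∀ γ : Fin k → Ωˣ, IndM Λ γ → ∀ h : ℝ, (∀ i, absLogHeight₁ (γ i : Ω) ≤ h) →
    c ≤ (degP L γ : ℝ) ^ (1 / (k : ℝ)) * Real.log (3 * N * degP L γ) ^ C * h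

/-- no relations of small degree, log version -/
def GpL {K Ω : Type} [Field K] [Field Ω] [CharZero Ω] [Algebra K Ω] (k : ℕ)
    (L : IntermediateField K Ω) (Λ : Subgroup Ωˣ) (N a₀ a₁ K₀ : ℕ) : Prop :=
  ∀ γ : Fin k → Ωˣ, IndM Λ γ → ∀ Z : ℕ, (K₀ * Real.log (3 * N * degP L γ)) ^ K₀ ≤ Z →
    ∀ h : ℝ, (∀ i, absLogHeight₁ (γ i : Ω) ≤ h) → (Z : ℝ) ^ a₀ * ((degP L γ : ℝ) * h ^ k) ≤ 1 →
    ∀ M₁ : ℕ, M₁ ^ k * Z ^ a₁ ≤ degP L γ → GPI L (fun i => (γ i : Ω)) M₁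

/-- the statement of the last step, log version -/
def EndL {K : Type} (Ω : Type) [Field K] [NumberField K] [Field Ω] [CharZero Ω] [Algebra K Ω]
    {r : ℕ} (b : Fin r → K) (NN : Set ℕ) (k : ℕ) : Prop :=
  ∃ (C : ℕ) (c : ℝ), 0 < c ∧ ∀ n' ∈ NN, ∀ R : ℕ, 1 ≤ R → ∀ w y : Fin k → Ωˣ,
    (∀ i, ((w i / y i : Ωˣ) : Ω) ∈ DivG Ω b) →
    (∀ a : Fin k → ℤ, a ≠ 0 → ((∏ i, w i ^ a i : Ωˣ) : Ω) ∉ DivG Ω b) →
    ∀ θ : ℝ, 0 < θ → θ ≤ 1 → (∀ i, absLogHeight₁ (w i : Ω) ≤ θ) →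
    c ≤ (degP (RF Ω b n' R) y : ℝ) * θ ^ k *
      Real.log (3 * R * degP (RF Ω b n' R) y / θ) ^ C

end Pool.Agent.H28.PT4
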