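import Mathlib

/-!
# POINTS THEOREM, PART IV, Aub: Auerbach bases

`auerbach`: `R` a subspace of `F^ι`, `v` an absolute value, `w` positive weights: a basis `f_u`, `u ∈ S`, of `R` with `f_u u' = δ` for `u, u' ∈ S` and `v (f_u b) w_b ≤ w_u` for all `b`.
PROOF. `r = finrank R`, a basis `g_1, .., g_r` of `R` (`Module.finBasis`, as vectors). For an injective `c : Fin r → ι` let `Δ(c) = det (g_i (c j))` and `P(c) = v Δ(c) * ∏_j w (c j)`. Some `Δ(c) ≠ 0`: the matrix `(g_i b)` (`Fin r × ι`) has independent rows, so rank `r`, so
it has `r` independent columns (`Matrix.rank_transpose`, or: the coordinate functionals `R → F` span the dual of `R`, choose `r` of them which are a basis, `exists_linearIndependent'`/`Basis`). Choose `c : Fin r → ι` with `P(c)` largest among all functions (finite set); then `P(c) > 0`, `Δ(c) ≠ 0`, `c` is injective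
(two equal columns give `0`). `S = image c`. For `u = c j` let `f_u = ∑_i a_ij g_i` with `a = (g_i (c j))⁻¹` (transposed suitably), so `f_(c j) (c j') = δ_jj'`, `f_u ∈ R`. For `b : ι` let `c'` be `c` with the value at `j` replaced by `b` (`Function.update`): `Δ(c') = f_u b * Δ(c)`: the column of `b`, `(g_i b)_i`,
is `∑_j' f_(c j') b (g_i (c j'))_i` (because `g_i = ∑_j' g_i (c j') f_(c j')`: both sides in `R` agree on `S` and an element `∑ x_j' f_(c j')` of `R` is determined by its values on `S`; or directly Cramer's rule: `Matrix.cramer`, `Matrix.det_updateCol..`). `P(c') ≤ P(c)` gives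
`v (f_u b) w_b ≤ w_u` (divide by `v Δ(c) ∏_(j' ≠ j) w (c j') > 0`).
-/

set_option autoImplicit false
set_option linter.unusedSectionVars false

namespace Pool.Agent.H28.PT4

open Matrix in
theorem auerbach_det {F ι : Type} [Field F] [Fintype ι] {r : ℕ} (g : Fin r → ι → F)
    (hg : LinearIndependent F g) :
    ∃ c : Fin r → ι, (Matrix.of fun i j => g i (c j)).det ≠ 0 := by
  classical
  set A : Matrix (Fin r) ι F := Matrix.of g with hA
  have hrank : A.rank = r := by
    have h := LinearIndependent.rank_matrix (M := A) hg
    simpa using h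
  have hspan : Submodule.span F (Set.range A.col) = ⊤ := by
    apply Submodule.eq_top_of_finrank_eq
    rw [← Matrix.rank_eq_finrank_span_cols, hrank]
    simp
  obtain ⟨f, hf1, -, hf3⟩ := Submodule.exists_fun_fin_finrank_span_eq F (Set.range A.col)
  have hr : Module.finrank F (Submodule.span F (Set.range A.col)) = r := by
    rw [hspan]; simp
  choose c' hc' using hf1
  refine ⟨fun j => c' (Fin.cast hr.symm j), ?_⟩
  set M : Matrix (Fin r) (Fin r) F := Matrix.of fun i j => g i (c' (Fin.cast hr.symm j)) with hM
  have hcol : M.col = fun j => f (Fin.cast hr.symm j) := by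
    funext j
    rw [← hc' (Fin.cast hr.symm j)]
    rfl
  have hli : LinearIndependent F M.col := by
    rw [hcol]
    exact hf3.comp _ (Fin.cast_injective hr.symm)
  have hu := Matrix.linearIndependent_cols_iff_isUnit.1 hli
  exact ((Matrix.isUnit_iff_isUnit_det M).1 hu).ne_zero

theorem auerbach {F ι : Type} [Field F] [Fintype ι] [DecidableEq ι] (v : AbsoluteValue F ℝ)
    (w : ι → ℝ) (hw : ∀ i, 0 < w i) (R : Submodule F (ι → F)) :
    ∃ (S : Finset ι) (f : ι → ι → F), S.card = Module.finrank F R ∧
      ∀ u ∈ S, f u ∈ R ∧ f u u = 1 ∧ (∀ u' ∈ S, u' ≠ u → f u u' = 0) ∧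
        ∀ b, v (f u b) * w b ≤ w u := by
  classical
  set r := Module.finrank F R with hr
  let B := Module.finBasis F R
  let g : Fin r → ι → F := fun i => (B i : ι → F)
  have hg : LinearIndependent F g := B.linearIndependent.map' R.subtype (Submodule.ker_subtype R)
  let G : (Fin r → ι) → Matrix (Fin r) (Fin r) F := fun c => Matrix.of fun i j => g i (c j)
  let P : (Fin r → ι) → ℝ := fun c => v (G c).det * ∏ j, w (c j)
  obtain ⟨c0, hc0⟩ := auerbach_det g hg
  have hP0 : 0 < P c0 := mul_pos (v.pos hc0) (Finset.prod_pos fun j _ => hw _)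
  obtain ⟨c, -, hc⟩ := Finset.exists_max_image (Finset.univ : Finset (Fin r → ι)) P ⟨c0, Finset.mem_univ _⟩
  have hPc : 0 < P c := hP0.trans_le (hc c0 (Finset.mem_univ _))
  have hdet : (G c).det ≠ 0 := by
    intro h
    have : P c = 0 := by simp [P, h]
    exact absurd hPc (by rw [this]; exact lt_irrefl _)
  have hinj : Function.Injective c := by
    intro j j' hjj
    by_contra hne
    exact hdet (Matrix.det_zero_of_column_eq hne (fun k => by simp [G, hjj]))
  let F0 : Fin r → ι → F := fun j b => ((G c).det)⁻¹ * (Matrix.cramer (G c) (fun i => g i b)) j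
  have hF0 : ∀ j b, F0 j b = ((G c).det)⁻¹ * (G (Function.update c j b)).det := by
    intro j b
    simp only [F0, Matrix.cramer_apply]
    congr 2
    ext i k
    by_cases hk : k = j
    · subst hk; simp [G]
    · simp [G, Matrix.updateCol_ne hk, Function.update_of_ne hk]
  have hmem : ∀ j, F0 j ∈ R := by
    intro j
    have : F0 j = ∑ i, (((G c).det)⁻¹ * (G c).adjugate j i) • g i := by
      funext b
      simp only [F0, Matrix.cramer_eq_adjugate_mulVec, Matrix.mulVec, dotProduct, Finset.sum_apply,
        Pi.smul_apply, smul_eq_mul, Finset.mul_sum, mul_assoc]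
    rw [this]
    exact Submodule.sum_mem _ fun i _ => Submodule.smul_mem _ _ (B i).2
  have hdel : ∀ j j', F0 j (c j') = if j' = j then 1 else 0 := by
    intro j j'
    have h := Matrix.cramer_row_self (G c) (fun i => g i (c j')) j' (fun k => rfl)
    simp only [F0, h]
    by_cases hj : j' = j
    · subst hj; simp [hdet]
    · rw [if_neg hj, Pi.single_eq_of_ne (Ne.symm hj), mul_zero]
  have hbd : ∀ j b, v (F0 j b) * w b ≤ w (c j) := by
    intro j b
    have h1 := hc (Function.update c j b) (Finset.mem_univ _)
    have h2 : ∏ k, w (Function.update c j b k) = w b * ∏ k ∈ Finset.univ \ {j}, w (c k) := by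
      have : (fun k => w (Function.update c j b k)) = Function.update (fun k => w (c k)) j (w b) := by
        funext k
        by_cases hk : k = j
        · subst hk; simp
        · simp [Function.update_of_ne hk]
      rw [this, Finset.prod_update_of_mem (Finset.mem_univ j)]
    have h3 : ∏ k, w (c k) = w (c j) * ∏ k ∈ Finset.univ \ {j}, w (c k) := by
      have h := Finset.prod_update_of_mem (Finset.mem_univ j) (fun k => w (c k)) (w (c j))
      rw [← h]
      simp
    have hq : 0 < ∏ k ∈ Finset.univ \ {j}, w (c k) := Finset.prod_pos fun k _ => hw _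
    have hv : 0 < v (G c).det := v.pos hdet
    simp only [P] at h1
    rw [h2, h3] at h1
    rw [hF0, map_mul, map_inv₀]
    have h4 : v (G (Function.update c j b)).det * w b ≤ v (G c).det * w (c j) := by
      have : (v (G (Function.update c j b)).det * w b) * ∏ k ∈ Finset.univ \ {j}, w (c k) ≤
          (v (G c).det * w (c j)) * ∏ k ∈ Finset.univ \ {j}, w (c k) := by
        linarith
      exact le_of_mul_le_mul_right this hq
    calc (v (G c).det)⁻¹ * v (G (Function.update c j b)).det * w b
        = (v (G c).det)⁻¹ * (v (G (Function.update c j b)).det * w b) := by ring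
      _ ≤ (v (G c).det)⁻¹ * (v (G c).det * w (c j)) :=
          mul_le_mul_of_nonneg_left h4 (inv_nonneg.2 hv.le)
      _ = w (c j) := by field_simp
  refine ⟨Finset.univ.image c, fun u => if h : ∃ j, c j = u then F0 h.choose else 0, ?_, ?_⟩
  · rw [Finset.card_image_of_injective _ hinj]; simp
  · intro u hu
    obtain ⟨j, -, rfl⟩ := Finset.mem_image.1 hu
    have hex : ∃ j', c j' = c j := ⟨j, rfl⟩
    have hch : hex.choose = j := hinj hex.choose_spec
    simp only [hex, dif_pos, hch]
    refine ⟨hmem j, by rw [hdel]; simp, ?_, hbd j⟩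
    intro u' hu' hne
    obtain ⟨j', -, rfl⟩ := Finset.mem_image.1 hu'
    rw [hdel, if_neg]
    rintro rfl
    exact hne rfl

end Pool.Agent.H28.PT4
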