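import Pool.Agent.H72.PB.DiscPF
import Pool.Agent.H33.TR.Loc

/-!
# POINTS THEOREM, PART IV, Pf: the product formula for a determinant of monomials, with `p`-adic gains

Model: `disc_pf` in `Pool/Agent/H72/PB/DiscPF.lean` (same structure, the determinant of monomials in the place of the discriminant).
`bogCyc_rep` (`H4/RR/BogCyc.lean`) for every `x i l ≠ 0`: `x i l = v_il / u_il`, `u_il, v_il ∈ 𝓞 E` nonzero, `J_il = (u_il, v_il)` prime to `p`. `δ = ∏_i ∏_l u_il^M * det (mn (Cc j) (x i)) = det (∏_l u_il^(M - C_jl) v_il^(C_jl)) ∈ 𝓞 E` (`Matrix.det_mul_column`/`det_mul_row`: row `i` multiplied by `∏_l u_il^M`), nonzero. It lies in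
`I' = ∏_i ∏_l J_il^M` (every term of the determinant: `∏_i (..)`, `Ideal.prod_mem_prod`, `u^(M-a) v^a ∈ J^M`), prime to `p`, `absNorm I' = ∏ (absNorm J_il)^M`.
`p`-adic side: `max ‖κ u_il‖ ‖κ v_il‖ = 1` (`norm_max_eq_one`), so `‖κ u_il‖ max(1, ‖κ x_il‖) = 1` and `‖κ δ‖ = ∏ ‖κ u_il‖^M ‖κ det‖ ≤ G κ`. `padic_prod2` (`H72/PB/PadicProd2.lean`): `∏ (absNorm J_il)^M ≤ (∏_τ ‖τ δ‖) ∏_κ G κ`. Complex side: `‖τ δ‖ ≤ (card I)! ∏_i ∏_l M_(τ,i,l)^M`,
`M_(τ,i,l) = max ‖τ u_il‖ ‖τ v_il‖`, `∏_τ M_(τ,i,l) = mulHeight₁ (x i l) * absNorm J_il` (`Pool.Agent.H4.RR.height_mul_absNorm`). Cancel the norms, take logarithms: `log (n!) ≤ n log n`.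
-/

set_option autoImplicit false
set_option linter.unusedSectionVars false

open NumberField IntermediateField

namespace Pool.Agent.H28.PT4

open Pool.Agent.H33.TR Pool.Agent.H72.PB Pool.Agent.H72.RM

variable {p : ℕ} [Fact p.Prime] {C : Type} [NormedField C] [NormedAlgebra ℚ_[p] C]
  [IsUltrametricDist C] [IsAlgClosed C] [CharZero C]

/-- the matrix of `𝓞 E` -/
private noncomputable def pmat {E : Type} [Field E] [NumberField E] {I : Type} {k M : ℕ}
    (u v : I → Fin k → 𝓞 E) (Cc : I → Bx k M) : Matrix I I (𝓞 E) :=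
  Matrix.of fun i j => ∏ l, (u i l ^ (M - (Cc j l : ℕ)) * v i l ^ (Cc j l : ℕ))

private theorem pmat_mem {E : Type} [Field E] [NumberField E] {I : Type} [Fintype I] [DecidableEq I] {k M : ℕ}
    (u v : I → Fin k → 𝓞 E) (Cc : I → Bx k M) (J : I → Fin k → Ideal (𝓞 E)) (hu : ∀ i l, u i l ∈ J i l)
    (hv : ∀ i l, v i l ∈ J i l) : (pmat u v Cc).det ∈ ∏ i, ∏ l, J i l ^ M := by
  rw [Matrix.det_apply']
  refine Ideal.sum_mem _ fun σ _ => Ideal.mul_mem_left _ _ ?_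
  have h1 : ∏ i, ∏ l, J i l ^ M = ∏ i, ∏ l, J (σ i) l ^ M :=
    (Equiv.prod_comp σ (fun i => ∏ l, J i l ^ M)).symm
  rw [h1]
  refine Ideal.prod_mem_prod fun i _ => ?_
  rw [pmat, Matrix.of_apply]
  refine Ideal.prod_mem_prod fun l _ => ?_
  have h2 : J (σ i) l ^ M = J (σ i) l ^ (M - (Cc i l : ℕ)) * J (σ i) l ^ (Cc i l : ℕ) := by
    rw [← pow_add, Nat.sub_add_cancel (Nat.lt_succ_iff.1 (Cc i l).2)]
  rw [h2]
  exact Ideal.mul_mem_mul (Ideal.pow_mem_pow (hu _ _) _) (Ideal.pow_mem_pow (hv _ _) _)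

private theorem pmat_det {E : Type} [Field E] [NumberField E] {I : Type} [Fintype I] [DecidableEq I] {k M : ℕ}
    (u v : I → Fin k → 𝓞 E) (Cc : I → Bx k M) (x : I → Fin k → E)
    (hv : ∀ i l, (v i l : E) = x i l * (u i l : E)) :
    ((pmat u v Cc).det : E) = (∏ i, ∏ l, (u i l : E) ^ M) *
      Matrix.det (Matrix.of fun i j : I => mn (Cc j) (x i)) := by
  have h0 : (((pmat u v Cc).det : 𝓞 E) : E) = algebraMap (𝓞 E) E (pmat u v Cc).det := rfl
  rw [h0, RingHom.map_det, ← Matrix.det_mul_column]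
  congr 1
  ext i j
  rw [RingHom.mapMatrix_apply, Matrix.map_apply, pmat, Matrix.of_apply, Matrix.of_apply, Matrix.of_apply, mn,
    map_prod, ← Finset.prod_mul_distrib]
  refine Finset.prod_congr rfl fun l _ => ?_
  rw [map_mul, map_pow, map_pow]
  have h1 : (algebraMap (𝓞 E) E) (v i l) = x i l * (algebraMap (𝓞 E) E) (u i l) := hv i l
  rw [h1]
  have h2 : ((u i l : E)) = (algebraMap (𝓞 E) E) (u i l) := rfl
  rw [h2]
  have h3 : (algebraMap (𝓞 E) E) (u i l) ^ M = (algebraMap (𝓞 E) E) (u i l) ^ (M - (Cc j l : ℕ)) *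
      (algebraMap (𝓞 E) E) (u i l) ^ (Cc j l : ℕ) := by
    rw [← pow_add, Nat.sub_add_cancel (Nat.lt_succ_iff.1 (Cc j l).2)]
  rw [h3]
  ring

private theorem pmat_arch {E : Type} [Field E] [NumberField E] {I : Type} [Fintype I] [DecidableEq I] {k M : ℕ}
    (u v : I → Fin k → 𝓞 E) (Cc : I → Bx k M) (τ : E →+* ℂ) :
    ‖τ ((pmat u v Cc).det : E)‖ ≤ ((Fintype.card I).factorial : ℝ) *
      ∏ i, ∏ l, (max ‖τ (u i l : E)‖ ‖τ (v i l : E)‖) ^ M := by
  have h0 : τ (((pmat u v Cc).det : 𝓞 E) : E) = (τ.comp (algebraMap (𝓞 E) E)) (pmat u v Cc).det := rfl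
  rw [h0, Matrix.det_apply', map_sum]
  refine (norm_sum_le _ _).trans ?_
  have h1 : ∀ σ ∈ (Finset.univ : Finset (Equiv.Perm I)),
      ‖(τ.comp (algebraMap (𝓞 E) E)) ((((Equiv.Perm.sign σ : ℤˣ) : ℤ) : 𝓞 E) * ∏ i, pmat u v Cc (σ i) i)‖ ≤
        ∏ i, ∏ l, (max ‖τ (u i l : E)‖ ‖τ (v i l : E)‖) ^ M := by
    intro σ _
    rw [map_mul, norm_mul, map_intCast]
    have h2 : ‖((((Equiv.Perm.sign σ : ℤˣ) : ℤ)) : ℂ)‖ = 1 := by
      rcases Int.units_eq_one_or (Equiv.Perm.sign σ) with h | h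
      · rw [h]; simp
      · rw [h]; simp
    rw [h2, one_mul, map_prod, norm_prod]
    have h3 : ∏ i, ∏ l, (max ‖τ (u i l : E)‖ ‖τ (v i l : E)‖) ^ M =
        ∏ i, ∏ l, (max ‖τ (u (σ i) l : E)‖ ‖τ (v (σ i) l : E)‖) ^ M :=
      (Equiv.prod_comp σ (fun i => ∏ l, (max ‖τ (u i l : E)‖ ‖τ (v i l : E)‖) ^ M)).symm
    rw [h3]
    refine Finset.prod_le_prod (fun i _ => norm_nonneg _) fun i _ => ?_
    rw [pmat, Matrix.of_apply, map_prod, norm_prod]
    refine Finset.prod_le_prod (fun l _ => norm_nonneg _) fun l _ => ?_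
    rw [map_mul, map_pow, map_pow, norm_mul, norm_pow, norm_pow]
    have h4 : (max ‖τ (u (σ i) l : E)‖ ‖τ (v (σ i) l : E)‖) ^ M =
        (max ‖τ (u (σ i) l : E)‖ ‖τ (v (σ i) l : E)‖) ^ (M - (Cc i l : ℕ)) *
        (max ‖τ (u (σ i) l : E)‖ ‖τ (v (σ i) l : E)‖) ^ (Cc i l : ℕ) := by
      rw [← pow_add, Nat.sub_add_cancel (Nat.lt_succ_iff.1 (Cc i l).2)]
    rw [h4]
    exact mul_le_mul (pow_le_pow_left₀ (norm_nonneg _) (le_max_left _ _) _)
      (pow_le_pow_left₀ (norm_nonneg _) (le_max_right _ _) _) (pow_nonneg (norm_nonneg _) _)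
      (pow_nonneg ((norm_nonneg _).trans (le_max_left _ _)) _)
  refine (Finset.sum_le_sum h1).trans (le_of_eq ?_)
  rw [Finset.sum_const, Finset.card_univ, Fintype.card_perm, nsmul_eq_mul]

include p in
theorem det_pf (E : Type) [Field E] [NumberField E] {I : Type} [Fintype I] [DecidableEq I]
    {k M : ℕ} (x : I → Fin k → E) (hx0 : ∀ i l, x i l ≠ 0) (Cc : I → Bx k M)
    (hdet : Matrix.det (Matrix.of fun i j : I => mn (Cc j) (x i)) ≠ 0) (G : (E →+* C) → ℝ)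
    (hG0 : ∀ κ, 0 < G κ)
    (hκ : ∀ κ : E →+* C, ‖κ (Matrix.det (Matrix.of fun i j : I => mn (Cc j) (x i)))‖ ≤
      G κ * ∏ i, ∏ l, (max 1 ‖κ (x i l)‖) ^ M) :
    0 ≤ (Module.finrank ℚ E : ℝ) * (Fintype.card I * Real.log (Fintype.card I)) +
      (M : ℝ) * ∑ i, ∑ l, Height.logHeight₁ (x i l) + ∑ κ : E →+* C, Real.log (G κ) := by
  have hpp : p.Prime := Fact.out
  choose u v hu hv hxv hcop using fun i l => Pool.Agent.H4.RR.bogCyc_rep E p hpp (x i l) (hx0 i l)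
  obtain ⟨m, hm⟩ : ∃ m, m = Fintype.card I := ⟨_, rfl⟩
  obtain ⟨n, hn⟩ : ∃ n, n = Module.finrank ℚ E := ⟨_, rfl⟩
  set J : I → Fin k → Ideal (𝓞 E) := fun i l => Ideal.span {u i l, v i l} with hJ
  have huJ : ∀ i l, u i l ∈ J i l := fun i l => Ideal.subset_span (by simp)
  have hvJ : ∀ i l, v i l ∈ J i l := fun i l => Ideal.subset_span (by simp)
  have hue : ∀ i l, (u i l : E) ≠ 0 := fun i l => by exact_mod_cast hu i l
  have hve : ∀ i l, (v i l : E) = x i l * (u i l : E) := by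
    intro i l
    have := hue i l
    rw [hxv i l]
    field_simp
  have hJ0 : ∀ i l, J i l ≠ ⊥ := by
    intro i l h0
    have h1 := huJ i l
    rw [h0] at h1
    exact hu i l (by simpa using h1)
  set δ : 𝓞 E := (pmat u v Cc).det with hδ
  have hδE := pmat_det u v Cc x hve
  rw [← hδ] at hδE
  have hδ0 : δ ≠ 0 := by
    intro h0
    rw [h0] at hδE
    have h1 : (∏ i, ∏ l, (u i l : E) ^ M) * Matrix.det (Matrix.of fun i j : I => mn (Cc j) (x i)) = 0 := by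
      rw [← hδE]
      rfl
    rcases mul_eq_zero.1 h1 with h2 | h2
    · obtain ⟨i, -, hi⟩ := Finset.prod_eq_zero_iff.1 h2
      obtain ⟨l, -, hl⟩ := Finset.prod_eq_zero_iff.1 hi
      exact hue i l (eq_zero_of_pow_eq_zero hl)
    · exact hdet h2
  set I' : Ideal (𝓞 E) := ∏ i, ∏ l, J i l ^ M with hI'
  have hδI : δ ∈ I' := pmat_mem u v Cc J huJ hvJ
  have hcop' : IsCoprime I' (Ideal.span {(p : 𝓞 E)}) := by
    rw [hI']
    exact IsCoprime.prod_left fun i _ => IsCoprime.prod_left fun l _ => (hcop i l).pow_left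
  -- the p-adic side
  have hB : ∀ κ : E →+* C, ‖κ (δ : E)‖ ≤ G κ := by
    intro κ
    have hmax : ∀ i l, ‖κ (u i l : E)‖ * max 1 ‖κ (x i l)‖ = 1 := by
      intro i l
      have h1 := norm_max_eq_one E κ (u i l) (v i l) (hcop i l)
      rw [hve i l, map_mul, norm_mul] at h1
      rw [mul_max_of_nonneg _ _ (norm_nonneg _), mul_one, mul_comm ‖κ (u i l : E)‖]
      exact h1
    rw [hδE, map_mul, norm_mul, map_prod, norm_prod]
    have h2 : ∏ i, ‖κ (∏ l, (u i l : E) ^ M)‖ = ∏ i, ∏ l, ‖κ (u i l : E)‖ ^ M := by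
      refine Finset.prod_congr rfl fun i _ => ?_
      rw [map_prod, norm_prod]
      refine Finset.prod_congr rfl fun l _ => ?_
      rw [map_pow, norm_pow]
    rw [h2]
    have h3 : 0 ≤ ∏ i, ∏ l, ‖κ (u i l : E)‖ ^ M :=
      Finset.prod_nonneg fun i _ => Finset.prod_nonneg fun l _ => pow_nonneg (norm_nonneg _) _
    refine (mul_le_mul_of_nonneg_left (hκ κ) h3).trans (le_of_eq ?_)
    rw [mul_left_comm, ← Finset.prod_mul_distrib]
    have h5 : ∏ i, ((∏ l, ‖κ (u i l : E)‖ ^ M) * ∏ l, (max 1 ‖κ (x i l)‖) ^ M) = 1 := by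
      refine Finset.prod_eq_one fun i _ => ?_
      rw [← Finset.prod_mul_distrib]
      refine Finset.prod_eq_one fun l _ => ?_
      rw [← mul_pow, hmax i l, one_pow]
    rw [h5, mul_one]
  have hlow := padic_prod2 (p := p) E δ hδ0 I' hδI hcop' G hB
  have hN : (Ideal.absNorm I' : ℝ) = ∏ i, ∏ l, (Ideal.absNorm (J i l) : ℝ) ^ M := by
    rw [hI', map_prod, Nat.cast_prod]
    refine Finset.prod_congr rfl fun i _ => ?_
    rw [map_prod, Nat.cast_prod]
    refine Finset.prod_congr rfl fun l _ => ?_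
    rw [map_pow, Nat.cast_pow]
  rw [hN] at hlow
  -- the complex side
  have hH : ∀ i l, Height.mulHeight₁ (x i l) * (Ideal.absNorm (J i l) : ℝ) =
      ∏ τ : E →+* ℂ, max ‖τ (u i l : E)‖ ‖τ (v i l : E)‖ := by
    intro i l
    have h1 := Pool.Agent.H4.RR.height_mul_absNorm E (u i l) (v i l) (hu i l)
    rw [← hxv i l] at h1
    exact h1
  have hup : ∏ τ : E →+* ℂ, ‖τ (δ : E)‖ ≤
      (m.factorial : ℝ) ^ n * ∏ i, ∏ l, (Height.mulHeight₁ (x i l) * (Ideal.absNorm (J i l) : ℝ)) ^ M := by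
    have h1 : ∀ τ : E →+* ℂ, ‖τ (δ : E)‖ ≤ (m.factorial : ℝ) *
        ∏ i, ∏ l, (max ‖τ (u i l : E)‖ ‖τ (v i l : E)‖) ^ M := by
      intro τ
      rw [hm]
      exact pmat_arch u v Cc τ
    refine (Finset.prod_le_prod (fun τ _ => norm_nonneg _) fun τ _ => h1 τ).trans (le_of_eq ?_)
    rw [Finset.prod_mul_distrib, Finset.prod_const, Finset.card_univ,
      NumberField.Embeddings.card, ← hn, Finset.prod_comm]
    congr 1
    refine Finset.prod_congr rfl fun i _ => ?_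
    rw [Finset.prod_comm]
    refine Finset.prod_congr rfl fun l _ => ?_
    rw [hH i l, Finset.prod_pow]
  have hNpos : ∀ i l, (0 : ℝ) < (Ideal.absNorm (J i l) : ℝ) := by
    intro i l
    have : Ideal.absNorm (J i l) ≠ 0 := fun h0 => hJ0 i l (Ideal.absNorm_eq_zero_iff.1 h0)
    exact_mod_cast Nat.pos_of_ne_zero this
  have hNN : 0 < ∏ i, ∏ l, (Ideal.absNorm (J i l) : ℝ) ^ M :=
    Finset.prod_pos fun i _ => Finset.prod_pos fun l _ => pow_pos (hNpos i l) _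
  have hGG : 0 < ∏ κ : E →+* C, G κ := Finset.prod_pos fun κ _ => hG0 κ
  have hHi : ∀ i l, 0 < Height.mulHeight₁ (x i l) := fun i l => Height.mulHeight₁_pos (x i l)
  have hHH : 0 < ∏ i, ∏ l, Height.mulHeight₁ (x i l) ^ M :=
    Finset.prod_pos fun i _ => Finset.prod_pos fun l _ => pow_pos (hHi i l) _
  have hfm : (0 : ℝ) < m.factorial := by exact_mod_cast Nat.factorial_pos m
  have h7 := hlow.trans (mul_le_mul_of_nonneg_right hup hGG.le)
  have h8 : 1 * ∏ i, ∏ l, (Ideal.absNorm (J i l) : ℝ) ^ M ≤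
      ((m.factorial : ℝ) ^ n * (∏ i, ∏ l, Height.mulHeight₁ (x i l) ^ M) *
        ∏ κ : E →+* C, G κ) * ∏ i, ∏ l, (Ideal.absNorm (J i l) : ℝ) ^ M := by
    rw [one_mul]
    refine h7.trans (le_of_eq ?_)
    simp only [mul_pow, Finset.prod_mul_distrib]
    ring
  have h9 := le_of_mul_le_mul_right h8 hNN
  have h10 := Real.log_le_log one_pos h9
  rw [Real.log_one, Real.log_mul (by positivity) hGG.ne', Real.log_mul (by positivity) hHH.ne',
    Real.log_pow, Real.log_prod (fun i _ => (Finset.prod_pos fun l _ => pow_pos (hHi i l) _).ne'),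
    Real.log_prod (fun κ _ => (hG0 κ).ne')] at h10
  have h12 : ∑ i, Real.log (∏ l, Height.mulHeight₁ (x i l) ^ M) =
      (M : ℝ) * ∑ i, ∑ l, Height.logHeight₁ (x i l) := by
    rw [Finset.mul_sum]
    refine Finset.sum_congr rfl fun i _ => ?_
    rw [Real.log_prod (fun l _ => (pow_pos (hHi i l) _).ne'), Finset.mul_sum]
    refine Finset.sum_congr rfl fun l _ => ?_
    rw [Real.log_pow, Height.logHeight₁_eq_log_mulHeight₁]
  rw [h12] at h10
  have h13 : Real.log (m.factorial : ℝ) ≤ m * Real.log m := by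
    rw [← Real.log_pow]
    refine Real.log_le_log hfm ?_
    exact_mod_cast Nat.factorial_le_pow m
  rw [← hm, ← hn]
  have hn0 : (0 : ℝ) ≤ n := Nat.cast_nonneg n
  nlinarith [mul_le_mul_of_nonneg_left h13 hn0]

end Pool.Agent.H28.PT4
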