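import Pool.Agent.H28.PT4.Deg
import Pool.Agent.H33.PT.Reg

/-!
# POINTS THEOREM, PART IV, Reg: a minor of the conjugates of `y^q`

`reg_det`. PROOF: `m = M₁ / q` (natural division), `q m ≤ M₁`. The monomials `mn a (y^q)`, `a ∈ [0, m]^k`, are among the `mn a' y`, `a' = q a ∈ [0, M₁]^k`, so independent over `𝓛` (`LinearIndependent.comp`), hence over `P ≤ 𝓛`
(`LinearIndependent.restrict_scalars`, or write out: a relation over `P` is one over `𝓛`). So `finrank P (sp P (y^q) m) ≥ (m+1)^k` (`sp` of `Pool/Agent/H33/PT/Reg.lean`, constant exponent `fun _ => m`), and the same for `m' = fun _ => m + 1` (`sp_mono`).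
`deg_eq`: `finrank P (adjoin P (range (y^q))) = dgT P (y^q) ≤ N (m+1)^k ≤ N finrank (sp P (y^q) m')`. `reg_box` (`m' i ≥ 1`, `A = N`): `sp P (y^q) ((2 N^2) • m')` is the whole field; hence so is `sp P (y^q) (fun _ => B)` (`sp_mono`, `sp_le`), which is the span of the
`mn a (y^q)`, `a : Bx k B`. `X` has `dgT P (y^q) = finrank` elements. Choose `C : X → Bx k B` with `mn (C j) (y^q)` a basis of the field (`exists_linearIndependent'` or as `exists_ind` in `Pool/Agent/H11/TS/ThA.lean`; an injective family of `finrank` indices).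
If the determinant vanishes there is a nonzero `c : X → Ω` with `∑_x c x * mn (C j) x = 0` for all `j` (`Matrix.exists_vecMul_eq_zero_iff`); every `mn a (y^q)` is a `P`-combination of the `mn (C j) (y^q)`, apply the automorphisms over `P`: `mn a x` is the same
combination of the `mn (C j) x` for all `x ∈ X`; so `∑_x c x * mn a x = 0` for all `a : Bx k B`, contradiction to `indep`.
-/

set_option autoImplicit false
set_option linter.unusedSectionVars false

open NumberField IntermediateField

namespace Pool.Agent.H28.PT4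

open Pool.Agent.H33.TR Pool.Agent.H72.PB Pool.Agent.H11.TS

variable {K Ω : Type} [Field K] [Field Ω] [CharZero Ω] [IsAlgClosed Ω] [Algebra K Ω]
  [IsGalois K Ω] {k : ℕ}

private theorem exists_ind (L : Type) {F B : Type} [Field L] [Field F] [Algebra L F] [Fintype B]
    (w : B → F) : ∃ (κ : Type) (_ : Fintype κ) (a : κ → B), Function.Injective a ∧
      Submodule.span L (Set.range (w ∘ a)) = Submodule.span L (Set.range w) ∧
      LinearIndependent L (w ∘ a) ∧ Fintype.card κ = Module.finrank L (Submodule.span L (Set.range w)) := by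
  obtain ⟨κ, a, ha, hs, hli⟩ := exists_linearIndependent' L w
  have : Finite κ := Finite.of_injective a ha
  have := Fintype.ofFinite κ
  refine ⟨κ, this, a, ha, hs, hli, ?_⟩
  rw [← hs, finrank_span_eq_card hli]

private theorem range_mn {F : Type} [Field F] {k m : ℕ} (z : Fin k → F) :
    (Set.range fun a : Bx k m => mn a z) = Pool.Agent.H33.PT.mo z '' {a | ∀ i, a i ≤ m} := by
  ext x
  constructor
  · rintro ⟨a, rfl⟩
    exact ⟨fun i => (a i : ℕ), fun i => Nat.lt_succ_iff.1 (a i).2, rfl⟩
  · rintro ⟨a, ha, rfl⟩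
    exact ⟨fun i => ⟨a i, Nat.lt_succ_iff.2 (ha i)⟩, rfl⟩

theorem reg_det (P 𝓛 : IntermediateField K Ω) (hP : P ≤ 𝓛) (y : Fin k → Ω) (q M₁ : ℕ)
    (hq : 1 ≤ q) (hG : GPI 𝓛 y M₁) (N : ℕ) (hN : dgT P (y ^ q) ≤ N * (M₁ / q + 1) ^ k) (B : ℕ)
    (hB : 2 * N ^ 2 * (M₁ / q + 1) ≤ B) (X : Finset (Fin k → Ω))
    (hX : (X : Set (Fin k → Ω)) = OrbT P (y ^ q)) [DecidableEq X] :
    ∃ C : X → Bx k B, Function.Injective C ∧
      Matrix.det (Matrix.of fun i j : X => mn (C j) (i : Fin k → Ω)) ≠ 0 := by
  classical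
  obtain ⟨z, hz⟩ : ∃ z : Fin k → Ω, z = y ^ q := ⟨_, rfl⟩
  obtain ⟨m, hm⟩ : ∃ m : ℕ, m = M₁ / q := ⟨_, rfl⟩
  rw [← hz] at hN hX
  rw [← hm] at hN hB
  have hqm : q * m ≤ M₁ := by
    rw [hm]
    exact Nat.mul_div_le M₁ q
  -- independence of the monomials in `z`
  have hli1 : LinearIndependent 𝓛 (fun a : Bx k m => mn a z) := by
    let ι : Bx k m → Bx k M₁ := fun a i => ⟨q * (a i : ℕ), by
      have h1 : (a i : ℕ) ≤ m := Nat.lt_succ_iff.1 (a i).2
      have h2 : q * (a i : ℕ) ≤ q * m := Nat.mul_le_mul_left _ h1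
      omega⟩
    have hι : Function.Injective ι := by
      intro a b h
      funext i
      have h1 := congrArg Fin.val (congrFun h i)
      have h2 : q * (a i : ℕ) = q * (b i : ℕ) := h1
      exact Fin.ext (Nat.eq_of_mul_eq_mul_left hq h2)
    have h1 := LinearIndependent.comp hG ι hι
    refine (linearIndependent_equiv' (Equiv.refl _) ?_).1 h1
    funext a
    change mn a z = mn (ι a) y
    unfold mn
    refine Finset.prod_congr rfl fun i _ => ?_
    rw [hz, Pi.pow_apply, ← pow_mul]
  have hli : LinearIndependent P (fun a : Bx k m => mn a z) := by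
    rw [Fintype.linearIndependent_iff] at hli1 ⊢
    intro g hg a
    have h1 := hli1 (fun a => ⟨(g a : Ω), hP (g a).2⟩) hg a
    have h2 : ((g a : P) : Ω) = 0 := congrArg Subtype.val h1
    exact Subtype.ext h2
  have hcard : (m + 1) ^ k ≤ Module.finrank P (Pool.Agent.H33.PT.sp P z (fun _ => m)) := by
    have h1 := finrank_span_eq_card hli
    rw [range_mn, Fintype.card_fun, Fintype.card_fin, Fintype.card_fin] at h1
    exact h1.symm.le
  have hfd : FiniteDimensional P (IntermediateField.adjoin P (Set.range z)) := by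
    have hint : ∀ x : Ω, IsIntegral P x := fun x =>
      ((Algebra.IsAlgebraic.isAlgebraic (R := K) x).isIntegral).tower_top
    exact IntermediateField.finiteDimensional_adjoin fun x _ => hint x
  have hfs : FiniteDimensional P (Pool.Agent.H33.PT.sp P z (fun _ => m + 1)) :=
    Pool.Agent.H33.PT.sp_fin P z _
  have hdeg : Module.finrank P (IntermediateField.adjoin P (Set.range z)) ≤
      N * Module.finrank P (Pool.Agent.H33.PT.sp P z (fun _ => m + 1)) := by
    rw [deg_eq]
    refine hN.trans (Nat.mul_le_mul_left _ (hcard.trans ?_))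
    exact Submodule.finrank_mono (Pool.Agent.H33.PT.sp_mono P z fun _ => Nat.le_succ m)
  have hbox := Pool.Agent.H33.PT.reg_box (k := P) z (fun _ => m + 1) (fun _ => Nat.le_add_left _ _)
    hfd N hdeg
  have hB' : Pool.Agent.H33.PT.sp P z (fun _ => B) =
      Subalgebra.toSubmodule (IntermediateField.adjoin P (Set.range z)).toSubalgebra := by
    refine le_antisymm (Pool.Agent.H33.PT.sp_le P z _) ?_
    rw [← hbox]
    refine Pool.Agent.H33.PT.sp_mono P z ?_
    intro i
    simpa using hB
  have hsp : Submodule.span P (Set.range fun a : Bx k B => mn a z) =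
      Subalgebra.toSubmodule (IntermediateField.adjoin P (Set.range z)).toSubalgebra := by
    rw [range_mn]
    exact hB'
  obtain ⟨κ, _, a, ha, has, hali, hac⟩ := exists_ind P (fun b : Bx k B => mn b z)
  have hXc : X.card = Fintype.card κ := by
    rw [hac, hsp]
    have h1 : X.card = dgT P z := by
      unfold dgT
      rw [← hX, Set.ncard_coe_finset]
    rw [h1, ← deg_eq]
    rfl
  obtain ⟨f⟩ : Nonempty (X ≃ κ) := by
    refine ⟨Fintype.equivOfCardEq ?_⟩
    rw [Fintype.card_coe, hXc]
  refine ⟨fun j => a (f j), ha.comp f.injective, ?_⟩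
  intro hdet
  rw [← Matrix.exists_vecMul_eq_zero_iff] at hdet
  obtain ⟨c, hc, hc0⟩ := hdet
  have hcol : ∀ j : κ, ∑ x : X, c x * mn (a j) (x : Fin k → Ω) = 0 := by
    intro j
    have h1 := congrFun hc0 (f.symm j)
    have h2 : (Matrix.vecMul c (Matrix.of fun i j : X => mn (a (f j)) (i : Fin k → Ω))) (f.symm j) =
        ∑ x : X, c x * mn (a j) (x : Fin k → Ω) := by
      unfold Matrix.vecMul dotProduct
      refine Finset.sum_congr rfl fun x _ => ?_
      show c x * mn (a (f (f.symm j))) (x : Fin k → Ω) = _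
      rw [Equiv.apply_symm_apply]
    rw [h2] at h1
    exact h1
  obtain ⟨c', hc'⟩ : ∃ c' : (Fin k → Ω) → Ω, ∀ x : X, c' (x : Fin k → Ω) = c x :=
    ⟨fun x => if h : x ∈ X then c ⟨x, h⟩ else 0, fun x => by
      show (if h : (x : Fin k → Ω) ∈ X then c ⟨x, h⟩ else 0) = c x
      rw [dif_pos x.2]⟩
  have hall : ∀ b : Bx k B, ∑ x ∈ X, c' x * mn b x = 0 := by
    intro b
    have h1 : mn b z ∈ Submodule.span P (Set.range ((fun b : Bx k B => mn b z) ∘ a)) := by
      rw [has]
      exact Submodule.subset_span ⟨b, rfl⟩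
    obtain ⟨p, hp⟩ := (Submodule.mem_span_range_iff_exists_fun P).1 h1
    have h2 : ∀ x : X, mn b (x : Fin k → Ω) = ∑ j, (p j : Ω) * mn (a j) (x : Fin k → Ω) := by
      intro x
      have hx : (x : Fin k → Ω) ∈ OrbT P z := by
        rw [← hX]
        exact x.2
      obtain ⟨ρ, hρ, hρx⟩ := hx
      rw [← hρx, ← act_mn, ← hp, map_sum]
      refine Finset.sum_congr rfl fun j _ => ?_
      rw [Algebra.smul_def, map_mul, Function.comp_apply, act_mn]
      congr 1
      exact hρ _ (p j).2
    rw [← Finset.sum_coe_sort X (fun x => c' x * mn b x)]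
    calc ∑ x : X, c' (x : Fin k → Ω) * mn b (x : Fin k → Ω)
        = ∑ x : X, ∑ j, (p j : Ω) * (c x * mn (a j) (x : Fin k → Ω)) := by
          refine Finset.sum_congr rfl fun x _ => ?_
          rw [hc', h2, Finset.mul_sum]
          exact Finset.sum_congr rfl fun j _ => by ring
      _ = ∑ j, (p j : Ω) * ∑ x : X, c x * mn (a j) (x : Fin k → Ω) := by
          rw [Finset.sum_comm]
          exact Finset.sum_congr rfl fun j _ => (Finset.mul_sum _ _ _).symm
      _ = 0 := Finset.sum_eq_zero fun j _ => by rw [hcol, mul_zero]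
  have hzero := indep P z B hsp X hX c' hall
  apply hc
  funext x
  rw [Pi.zero_apply, ← hc']
  exact hzero x x.2


end Pool.Agent.H28.PT4
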