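import Pool.Agent.H28.PT4.Row
import Pool.Agent.H28.PT4.Pf
import Pool.Agent.H28.PT4.Reg
import Pool.Agent.H72.PB.HTwist
import Pool.Agent.H72.PB.HNonneg

/-!
# POINTS THEOREM, PART IV, Bad: the number of bad conjugates

Model: `bad_count` in `Pool/Agent/H72/PB/BadCount.lean` (same structure: restrictions `hres`, `hA1'`, the orbit `X`, the bad pairs `hbad`, `hcount`, the embeddings `mk g`, the points, the gains, the heights), with tuples.
`q = p^s`, `z = y^q`, `X` the finset with `X = OrbT Lb z`, `n = #X ≤ A dgT Lt y ≤ A G (M₁+1)^k ≤ N (M₁/q + 1)^k` with `N = A G q^k` (`M₁ + 1 ≤ q (M₁/q + 1)`). `m := 2 N^2 (M₁/q + 1)`. `reg_det` (`P = Lb ≤ 𝓛`, `B := T * m ≥ m`): injective `Cc : X → Bx k (T * m)` with `det (mn (Cc j) i) ≠ 0`, so also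
`det (mn (Cc j) (γ^q i)) = ∏_j mn (Cc j) (γ^q) * det ≠ 0` (`mn_hmul`, `Matrix.det_mul_row/column`, `mn_ne_zero`).
Points `x i l ∈ E` with value `(γ^q * i) l`, `i ∈ X` (`i = act h z`, coordinates in `E`). `G κ := e^(-(T log p/4) #{i ∈ X | bad g i})` if `κ = mk g`, `1` otherwise. `hκ`: for `κ = mk g`: `row_boundT` for `κ' = ι ∘ lift g`, `θ = (lift g)⁻¹ θ₀ (lift g)` (exactly as in `hgain` of the model; `Bd` = the bad `i`); other `κ`: all entries of row `i` are at most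
`∏_l max(1, ‖κ x_il‖)^(T m)`: ultrametric bound of the determinant (`Matrix.det_apply`; every embedding `E → C` is in fact some... not needed).
`det_pf` with `M = T m`: `0 ≤ finrank ℚ E (n log n) + T m ∑_i ∑_l logHeight₁ (x i l) - (T log p/4) ∑_g #{i | bad g i}`; `∑_g #{i | bad g i} = n #Bad` (`hcount`), `logHeight₁ (x i l) = finrank ℚ E * q * absLogHeight₁ (γ l * y l) ≤ finrank ℚ E * q * h` (`Pool.Agent.H4.RR.absLogHeight_eq`, `absLogHeight_pow`, `height_twist`, as in the model).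
So `(T log p/4) n #Bad ≤ finrank ℚ E (n log n + n k T m q h)`; divide by `n ≥ 1`; `k T m q h ≤ 1` by `hh` (`M₁/q + 1 ≤ M₁ + 1`; `h ≥ 0` if `k ≥ 1`: heights are nonnegative; `k = 0`: the sum is empty), `log n ≤ log A + log (dgT Lt y)`, `finrank ℚ E = finrank ℚ K * #G`.
-/

set_option autoImplicit false
set_option linter.unusedSectionVars false

open NumberField IntermediateField

namespace Pool.Agent.H28.PT4

open Pool.Agent.H33.TR Pool.Agent.H72.PB Pool.Agent.H72.RM Pool.Agent.H72.RG Pool.Agent.H11.TS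

variable {p : ℕ} [Fact p.Prime] {C : Type} [NormedField C] [NormedAlgebra ℚ_[p] C]
  [IsUltrametricDist C] [IsAlgClosed C] [Algebra.IsAlgebraic ℚ_[p] C] [IsoEnv p C]
  {K Ω : Type} [Field K] [NumberField K] [Field Ω] [CharZero Ω] [IsAlgClosed Ω] [Algebra K Ω]
  [IsGalois K Ω] {k : ℕ}

private theorem mn_ringHom {F F' : Type} [Field F] [Field F'] (f : F →+* F') {k M : ℕ} (a : Bx k M)
    (x : Fin k → F) : f (mn a x) = mn a (fun l => f (x l)) := by
  unfold mn
  rw [map_prod]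
  exact Finset.prod_congr rfl fun i _ => map_pow _ _ _

/-- the ultrametric bound of a determinant of monomials -/
private theorem det_ultra {C : Type} [NormedField C] [IsUltrametricDist C] {I : Type} [Fintype I]
    [DecidableEq I] {k M : ℕ} (v : I → Fin k → C) (Cc : I → Bx k M) :
    ‖Matrix.det (Matrix.of fun i j : I => mn (Cc j) (v i))‖ ≤
      ∏ i, ∏ l, (max 1 ‖v i l‖) ^ M := by
  rw [Matrix.det_apply']
  refine IsUltrametricDist.norm_sum_le_of_forall_le_of_nonneg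
    (Finset.prod_nonneg fun i _ => Finset.prod_nonneg fun l _ => by positivity) ?_
  intro σ _
  rw [norm_mul]
  have h2 : ‖((((Equiv.Perm.sign σ : ℤˣ) : ℤ)) : C)‖ = 1 := by
    rcases Int.units_eq_one_or (Equiv.Perm.sign σ) with h | h
    · rw [h]; simp
    · rw [h]; simp
  rw [h2, one_mul, norm_prod]
  have h3 : ∏ i, ∏ l, (max 1 ‖v i l‖) ^ M = ∏ i, ∏ l, (max 1 ‖v (σ i) l‖) ^ M :=
    (Equiv.prod_comp σ (fun i => ∏ l, (max 1 ‖v i l‖) ^ M)).symm
  rw [h3]
  refine Finset.prod_le_prod (fun i _ => norm_nonneg _) fun i _ => ?_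
  rw [Matrix.of_apply, mn, norm_prod]
  refine Finset.prod_le_prod (fun l _ => norm_nonneg _) fun l _ => ?_
  rw [norm_pow]
  refine (pow_le_pow_left₀ (norm_nonneg _) (le_max_right 1 _) _).trans ?_
  exact pow_le_pow_right₀ (le_max_left _ _) (Nat.lt_succ_iff.1 (Cc i l).2)

theorem bad_countT (ι : Ω →+* C) (Lb Lt 𝓛 : IntermediateField K Ω) (hle : Lb ≤ Lt) (hb𝓛 : Lb ≤ 𝓛)
    (hLb : ∀ σ : Ω ≃ₐ[K] Ω, ∀ x ∈ Lb, σ x ∈ Lb) (hLt : ∀ σ : Ω ≃ₐ[K] Ω, ∀ x ∈ Lt, σ x ∈ Lt)
    (θ₀ : Ω ≃ₐ[K] Ω) (hθb : ∀ x ∈ Lb, θ₀ x = x) (k' : ℕ)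
    (hθk : ∀ x ∈ Lt, (θ₀ ^ (p ^ k')) x = x)
    (τ : C ≃ₐ[ℚ_[p]] C) (hτ : ∀ x : Ω, ι (θ₀ x) = τ (ι x)) (ρ : ℝ) (hρ0 : 0 < ρ)
    (hcl : ∀ x ∈ Lt, x ≠ 0 → ‖τ (ι x) / ι x - 1‖ ≤ ρ) (s : ℕ)
    (hρs : ρ ^ (p ^ s) ≤ Real.exp (-(Real.log p / 2)))
    (γ y : Fin k → Ω) (hγ0 : ∀ i, γ i ≠ 0) (hy0 : ∀ i, y i ≠ 0)
    (hγ : ∀ i, ∀ θ : Ω ≃ₐ[K] Ω, ∃ n : ℕ, 1 ≤ n ∧ (θ (γ i)) ^ n = (γ i) ^ n) (hT : TPT p Lt y)
    (A : ℕ) (hA1 : 1 ≤ A) (hA : dgT Lb (y ^ (p ^ s)) ≤ A * dgT Lt y) (M₁ G : ℕ)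
    (hG : GPI 𝓛 y M₁) (hD : dgT Lt y ≤ G * (M₁ + 1) ^ k) (T l : ℕ) (hT1 : 1 ≤ T)
    (hTl : 2 * T ^ (k + 1) ≤ p ^ l) (h : ℝ) (hht : ∀ i, absLogHeight₁ (γ i * y i) ≤ h)
    (hh : ((k * T * (2 * (A * G * (p ^ s) ^ k) ^ 2 * (M₁ + 1)) * p ^ s : ℕ) : ℝ) * h ≤ 1)
    (E : IntermediateField K Ω) [FiniteDimensional K E]
    (hE : ∀ σ : Ω ≃ₐ[K] Ω, ∀ x ∈ E, σ x ∈ E) (hγE : ∀ i, γ i ∈ E) (hyE : ∀ i, y i ∈ E)
    (lift : (E ≃ₐ[K] E) → (Ω ≃ₐ[K] Ω)) (hlift : ∀ (g : E ≃ₐ[K] E) (x : E), lift g x = (g x : Ω))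
    (Bad : Finset (E ≃ₐ[K] E))
    (hBad : ∀ g, g ∈ Bad ↔
      act ((lift g)⁻¹ * θ₀ ^ (p ^ l) * lift g) (y ^ (p ^ s)) ∉ OrbT Lt (y ^ (p ^ s))) :
    (Bad.card : ℝ) * (T * Real.log p) ≤
      4 * (Module.finrank ℚ K : ℝ) * Fintype.card (E ≃ₐ[K] E) *
        (Real.log A + Real.log (dgT Lt y) + 1) := by
  classical
  have hpp : p.Prime := Fact.out
  have hC0 : CharZero C := charZero_C p C
  have hN : Normal K E := by
    rw [IntermediateField.normal_iff_forall_map_le']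
    intro σ x hx
    obtain ⟨z, hz, rfl⟩ := hx
    exact hE σ z hz
  have hNF : NumberField E := NumberField.of_module_finite K E
  have hGal : IsGalois K E := ⟨⟩
  have hlogp : 0 < Real.log p := Real.log_pos (by exact_mod_cast hpp.one_lt)
  obtain ⟨q, hq⟩ : ∃ q, q = p ^ s := ⟨_, rfl⟩
  have hq0 : 0 < q := hq ▸ pow_pos hpp.pos s
  obtain ⟨z, hz⟩ : ∃ z, z = y ^ q := ⟨_, rfl⟩
  have hz' : z = y ^ (p ^ s) := by rw [hz, hq]
  rw [← hz'] at hA
  simp only [← hz'] at hBad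
  have hzE : ∀ i, z i ∈ E := by
    intro i
    rw [hz]
    exact pow_mem (hyE i) q
  have hz0 : ∀ i, z i ≠ 0 := by
    intro i
    rw [hz]
    exact pow_ne_zero _ (hy0 i)
  -- restrictions
  have hres : ∀ (h : Ω ≃ₐ[K] Ω) (x : E), (((h.restrictNormal E) x : E) : Ω) = h (x : Ω) :=
    fun h x => AlgEquiv.restrictNormal_commutes h E x
  -- the conjugates of `θ₀ ^ (p ^ l)`
  obtain ⟨Φ, hΦ⟩ : ∃ Φ : Ω ≃ₐ[K] Ω, Φ = θ₀ ^ (p ^ l) := ⟨_, rfl⟩
  rw [← hΦ] at hBad
  have hinv2 : ∀ (g : Ω ≃ₐ[K] Ω) (x : Ω), g (g⁻¹ x) = x := fun g x => g.apply_symm_apply x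
  have hinv3 : ∀ (g : Ω ≃ₐ[K] Ω) (x : Ω), g⁻¹ (g x) = x := fun g x => g.symm_apply_apply x
  have hA1' : ∀ σ σ' : Ω ≃ₐ[K] Ω, (∀ u ∈ E, σ u = σ' u) → ∀ u ∈ E,
      (σ⁻¹ * Φ * σ) u = (σ'⁻¹ * Φ * σ') u := by
    intro σ σ' h u hu
    rw [AlgEquiv.mul_apply, AlgEquiv.mul_apply, AlgEquiv.mul_apply, AlgEquiv.mul_apply, ← h u hu]
    have h1 : σ⁻¹ (Φ (σ u)) ∈ E := hE _ _ (hE _ _ (hE _ _ hu))
    apply σ'.injective
    rw [← h _ h1, hinv2, hinv2]
  -- the orbit
  obtain ⟨X, hX0⟩ : ∃ X : Finset (Fin k → Ω), X = (orbT_finite Lb z).toFinset := ⟨_, rfl⟩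
  have hX : (X : Set (Fin k → Ω)) = OrbT Lb z := by rw [hX0, Set.Finite.coe_toFinset]
  have hXmem : ∀ i, i ∈ X ↔ i ∈ OrbT Lb z := by
    intro i
    rw [← Finset.mem_coe, hX]
  have hXcard : X.card = dgT Lb z := by
    unfold dgT
    rw [← hX, Set.ncard_coe_finset]
  have hXE : ∀ i ∈ X, ∀ l, i l ∈ E := by
    intro i hi l
    obtain ⟨h, -, rfl⟩ := (hXmem i).1 hi
    exact hE h (z l) (hzE l)
  have hX0' : ∀ i ∈ X, ∀ l, i l ≠ 0 := by
    intro i hi l
    obtain ⟨h, -, rfl⟩ := (hXmem i).1 hi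
    intro h0
    have h1 : h (z l) = 0 := h0
    exact hz0 l (by simpa using h1)
  have hXpos : 0 < X.card := by rw [hXcard]; exact dgT_pos Lb z
  obtain ⟨n, hn⟩ : ∃ n, n = X.card := ⟨_, rfl⟩
  -- bad pairs
  let bad : (E ≃ₐ[K] E) → (Fin k → Ω) → Prop := fun g i =>
    act ((lift g)⁻¹ * Φ * lift g) i ∉ OrbT Lt i
  have hbad : ∀ (g : E ≃ₐ[K] E) (h : Ω ≃ₐ[K] Ω), bad g (act h z) ↔ g * h.restrictNormal E ∈ Bad := by
    intro g h
    rw [hBad]
    have h1 : ∀ u ∈ E, lift (g * h.restrictNormal E) u = (lift g * h) u := by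
      intro u hu
      rw [hlift (g * h.restrictNormal E) ⟨u, hu⟩, AlgEquiv.mul_apply, AlgEquiv.mul_apply,
        ← hlift g, hres]
    have h1' : act ((lift (g * h.restrictNormal E))⁻¹ * Φ * lift (g * h.restrictNormal E)) z =
        act ((lift g * h)⁻¹ * Φ * (lift g * h)) z := by
      funext i
      exact hA1' _ _ h1 (z i) (hzE i)
    rw [h1']
    have h2 : act ((lift g * h)⁻¹ * Φ * (lift g * h)) z =
        act h⁻¹ (act ((lift g)⁻¹ * Φ * lift g) (act h z)) := by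
      rw [mul_inv_rev]
      rfl
    rw [h2]
    show ¬ _ ↔ ¬ _
    rw [not_iff_not, orbT_map hLt h z]
    constructor
    · rintro ⟨x, hx, hx2⟩
      rw [← hx2, act_inv_apply]
      exact hx
    · intro hx
      exact ⟨_, hx, act_apply_inv _ _⟩
  have hcount : ∀ i ∈ X, (Finset.univ.filter fun g : E ≃ₐ[K] E => bad g i).card = Bad.card := by
    intro i hi
    obtain ⟨h, -, rfl⟩ := (hXmem i).1 hi
    apply Finset.card_bij (fun g _ => g * h.restrictNormal E)
    · intro g hg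
      exact (hbad g h).1 (Finset.mem_filter.1 hg).2
    · intro g _ g' _ hgg
      exact mul_right_cancel hgg
    · intro g hg
      refine ⟨g * (h.restrictNormal E)⁻¹, ?_, inv_mul_cancel_right _ _⟩
      rw [Finset.mem_filter]
      refine ⟨Finset.mem_univ _, (hbad _ h).2 ?_⟩
      rw [inv_mul_cancel_right]
      exact hg
  -- the embeddings
  let mk : (E ≃ₐ[K] E) → (E →+* C) := fun g => (ι.comp (algebraMap E Ω)).comp (g : E →+* E)
  have hmk : ∀ g (x : E), mk g x = ι ((g x : E) : Ω) := fun g x => rfl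
  have hmkinj : Function.Injective mk := by
    intro g g' hgg
    apply AlgEquiv.ext
    intro x
    have h1 := congrArg (fun f : E →+* C => f x) hgg
    simp only [hmk] at h1
    exact Subtype.ext (ι.injective h1)
  have hmk2 : ∀ g (x : E), mk g x = ι (lift g (x : Ω)) := fun g x => by rw [hmk, hlift]
  -- the numbers
  obtain ⟨N, hNd⟩ : ∃ N, N = A * G * q ^ k := ⟨_, rfl⟩
  have hM₁ : (M₁ + 1) ^ k ≤ q ^ k * (M₁ / q + 1) ^ k := by
    rw [← mul_pow]
    exact Nat.pow_le_pow_left (Nat.lt_mul_div_succ M₁ hq0) k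
  have hdN : dgT Lb (y ^ q) ≤ N * (M₁ / q + 1) ^ k := by
    rw [← hz]
    calc dgT Lb z ≤ A * dgT Lt y := hA
      _ ≤ A * (G * (M₁ + 1) ^ k) := Nat.mul_le_mul_left _ hD
      _ ≤ A * (G * (q ^ k * (M₁ / q + 1) ^ k)) := Nat.mul_le_mul_left _ (Nat.mul_le_mul_left _ hM₁)
      _ = N * (M₁ / q + 1) ^ k := by rw [hNd]; ring
  obtain ⟨m, hm⟩ : ∃ m, m = 2 * N ^ 2 * (M₁ / q + 1) := ⟨_, rfl⟩
  obtain ⟨Cc, hCinj, hCdet⟩ := reg_det Lb 𝓛 hb𝓛 y q M₁ hq0 hG N hdN (T * m)
    (by rw [← hm]; exact Nat.le_mul_of_pos_left m hT1) X (by rw [hX, hz])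
  -- the points
  have hγq : ∀ (i : X) (l : Fin k), γ l ^ q * (i : Fin k → Ω) l ∈ E := fun i l =>
    mul_mem (pow_mem (hγE l) q) (hXE i i.2 l)
  let x : X → Fin k → E := fun i l => ⟨γ l ^ q * (i : Fin k → Ω) l, hγq i l⟩
  have hxval : ∀ (i : X) (l : Fin k), ((x i l : E) : Ω) = γ l ^ q * (i : Fin k → Ω) l :=
    fun i l => rfl
  have hx0 : ∀ i l, x i l ≠ 0 := by
    intro i l h0
    have h1 := congrArg (fun t : E => (t : Ω)) h0
    simp only [hxval] at h1
    exact mul_ne_zero (pow_ne_zero _ (hγ0 l)) (hX0' i i.2 l) h1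
  have hdet : Matrix.det (Matrix.of fun i j : X => mn (Cc j) (x i)) ≠ 0 := by
    intro h0
    have h1 := congrArg (algebraMap E Ω) h0
    rw [RingHom.map_det, map_zero] at h1
    have h2 : (algebraMap E Ω).mapMatrix (Matrix.of fun i j : X => mn (Cc j) (x i)) =
        Matrix.of fun i j : X => mn (Cc j) (γ ^ q) *
          (Matrix.of fun i j : X => mn (Cc j) (i : Fin k → Ω)) i j := by
      ext i j
      rw [RingHom.mapMatrix_apply, Matrix.map_apply, Matrix.of_apply, Matrix.of_apply,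
        Matrix.of_apply, mn_ringHom, ← mn_hmul]
      rfl
    rw [h2, Matrix.det_mul_row] at h1
    rcases mul_eq_zero.1 h1 with h3 | h3
    · obtain ⟨j, -, hj⟩ := Finset.prod_eq_zero_iff.1 h3
      exact mn_ne_zero (Cc j) (γ ^ q) (fun i => pow_ne_zero _ (hγ0 i)) hj
    · exact hCdet h3
  obtain ⟨c, hc⟩ : ∃ c : ℝ, c = (T : ℝ) * Real.log p / 4 := ⟨_, rfl⟩
  have hc0 : 0 ≤ c := by rw [hc]; positivity
  let Gi : (E →+* C) → X → ℝ := fun κ i =>
    if ∃ g, κ = mk g ∧ bad g i then Real.exp (-c) else 1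
  have hGi0 : ∀ κ i, 0 < Gi κ i := by
    intro κ i
    show 0 < (if _ then _ else _ : ℝ)
    split_ifs
    · exact Real.exp_pos _
    · exact one_pos
  have hκ : ∀ κ : E →+* C, ‖κ (Matrix.det (Matrix.of fun i j : X => mn (Cc j) (x i)))‖ ≤
      (∏ i, Gi κ i) * ∏ i, ∏ l, (max 1 ‖κ (x i l)‖) ^ (T * m) := by
    intro κ
    have hmap : ∀ κ : E →+* C, κ (Matrix.det (Matrix.of fun i j : X => mn (Cc j) (x i))) =
        Matrix.det (Matrix.of fun i j : X => mn (Cc j) (fun l => κ (x i l))) := by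
      intro κ
      rw [RingHom.map_det]
      congr 1
      ext i j
      rw [RingHom.mapMatrix_apply, Matrix.map_apply, Matrix.of_apply, Matrix.of_apply, mn_ringHom]
    by_cases hb : ∃ g, κ = mk g
    · obtain ⟨g, rfl⟩ := hb
      obtain ⟨Bd, hBd⟩ : ∃ Bd : Finset (Fin k → Ω), Bd = X.filter (fun i => bad g i) := ⟨_, rfl⟩
      have hGprod : ∏ i, Gi (mk g) i = Real.exp (-(c * (Bd.card : ℝ))) := by
        have h1 : ∀ i : X, Gi (mk g) i = if bad g i then Real.exp (-c) else 1 := by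
          intro i
          show (if _ then _ else _ : ℝ) = _
          congr 1
          apply propext
          constructor
          · rintro ⟨g', hg', hb'⟩
            rw [hmkinj hg']
            exact hb'
          · intro hb'
            exact ⟨g, rfl, hb'⟩
        rw [Finset.prod_congr rfl fun i _ => h1 i,
          Finset.prod_coe_sort X (fun i => if bad g i then Real.exp (-c) else 1),
          ← Finset.prod_filter, Finset.prod_const, ← hBd, ← Real.exp_nat_mul]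
        congr 1
        ring
      have hrow := row_boundT (ι.comp ((lift g : Ω →+* Ω))) Lb Lt hle hLt ((lift g)⁻¹ * θ₀ * lift g)
        (fun u hu => by
          rw [AlgEquiv.mul_apply, AlgEquiv.mul_apply, hθb _ (hLb _ _ hu), hinv3]) k'
        (fun u hu => by
          have h1 : ((lift g)⁻¹ * θ₀ * lift g) ^ (p ^ k') = (lift g)⁻¹ * θ₀ ^ (p ^ k') * lift g := by
            have h2 := conj_pow (a := (lift g)⁻¹) (b := θ₀) (i := p ^ k')
            rw [inv_inv] at h2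
            exact h2
          rw [h1, AlgEquiv.mul_apply, AlgEquiv.mul_apply, hθk _ (hLt _ _ hu), hinv3]) τ
        (fun u => by
          show ι (lift g (((lift g)⁻¹ * θ₀ * lift g) u)) = τ (ι (lift g u))
          rw [AlgEquiv.mul_apply, AlgEquiv.mul_apply, hinv2, hτ]) ρ hρ0
        (fun u hu hu0 => by
          refine hcl (lift g u) (hLt _ _ hu) ?_
          intro h0
          exact hu0 (by simpa using h0)) s hρs γ y hγ0 hy0 hT X (by rw [hX, hz']) m T l hT1 hTl Bd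
        (fun i => by
          have h1 : ((lift g)⁻¹ * θ₀ * lift g) ^ (p ^ l) = (lift g)⁻¹ * Φ * lift g := by
            have h2 := conj_pow (a := (lift g)⁻¹) (b := θ₀) (i := p ^ l)
            rw [inv_inv] at h2
            rw [hΦ]
            exact h2
          rw [h1, hBd, Finset.mem_filter]) Cc hCinj
      rw [← hq, ← hc] at hrow
      have hvec : ∀ i : X, (fun l => mk g (x i l)) =
          fun l => (ι.comp ((lift g : Ω →+* Ω))) ((γ ^ q * (i : Fin k → Ω)) l) := by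
        intro i
        funext l
        rw [hmk2]
        rfl
      have hL : mk g (Matrix.det (Matrix.of fun i j : X => mn (Cc j) (x i))) =
          Matrix.det (Matrix.of fun i j : X =>
            (ι.comp ((lift g : Ω →+* Ω))) (mn (Cc j) (γ ^ q * (i : Fin k → Ω)))) := by
        rw [hmap]
        congr 1
        ext i j
        rw [Matrix.of_apply, Matrix.of_apply, mn_ringHom, hvec i]
      have hRr : ∏ i, ∏ l, (max 1 ‖mk g (x i l)‖) ^ (T * m) =
          ∏ i : X, ∏ l', (max 1 ‖(ι.comp ((lift g : Ω →+* Ω)))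
            ((γ ^ q * (i : Fin k → Ω)) l')‖) ^ (T * m) := by
        refine Finset.prod_congr rfl fun i _ => Finset.prod_congr rfl fun l' _ => ?_
        rw [← congrFun (hvec i) l']
      rw [hL, hRr, hGprod]
      exact hrow
    · have h1 : ∏ i, Gi κ i = 1 := by
        refine Finset.prod_eq_one fun i _ => ?_
        refine if_neg ?_
        rintro ⟨g, hg, -⟩
        exact hb ⟨g, hg⟩
      rw [h1, one_mul, hmap]
      exact det_ultra (fun i l => κ (x i l)) Cc
  have hpf := det_pf (p := p) (C := C) E x hx0 Cc hdet (fun κ => ∏ i, Gi κ i)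
    (fun κ => Finset.prod_pos fun i _ => hGi0 κ i) hκ
  -- the sum of the gains
  have hsum : ∑ κ : E →+* C, Real.log (∏ i, Gi κ i) = -(c * n * Bad.card) := by
    have h0 : ∀ κ : E →+* C, Real.log (∏ i, Gi κ i) = ∑ i, Real.log (Gi κ i) := fun κ =>
      Real.log_prod fun i _ => (hGi0 κ i).ne'
    rw [Finset.sum_congr rfl fun κ _ => h0 κ, Finset.sum_comm]
    have h1 : ∀ i : X, ∑ κ : E →+* C, Real.log (Gi κ i) = -(c * Bad.card) := by
      intro i
      have h2 : ∀ κ : E →+* C, Real.log (Gi κ i) = if ∃ g, κ = mk g ∧ bad g i then -c else 0 := by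
        intro κ
        show Real.log (if _ then _ else _ : ℝ) = _
        split_ifs
        · rw [Real.log_exp]
        · rw [Real.log_one]
      rw [Finset.sum_congr rfl fun κ _ => h2 κ, Finset.sum_ite, Finset.sum_const_zero, add_zero,
        Finset.sum_const, nsmul_eq_mul]
      have h3 : (Finset.univ.filter fun κ : E →+* C => ∃ g, κ = mk g ∧ bad g i) =
          (Finset.univ.filter fun g : E ≃ₐ[K] E => bad g i).image mk := by
        ext κ
        simp only [Finset.mem_filter, Finset.mem_univ, true_and, Finset.mem_image]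
        constructor
        · rintro ⟨g, rfl, hb⟩
          exact ⟨g, hb, rfl⟩
        · rintro ⟨g, hb, rfl⟩
          exact ⟨g, rfl, hb⟩
      rw [h3, Finset.card_image_of_injective _ hmkinj, hcount i i.2]
      ring
    rw [Finset.sum_congr rfl fun i _ => h1 i, Finset.sum_const, Finset.card_univ,
      Fintype.card_coe, nsmul_eq_mul, ← hn]
    ring
  -- heights
  have hN0 : 0 < Module.finrank ℚ E := Module.finrank_pos
  have hN0' : (0 : ℝ) < Module.finrank ℚ E := by exact_mod_cast hN0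
  have hhts : ∀ (i : X) (l : Fin k), Height.logHeight₁ (x i l) ≤ (Module.finrank ℚ E : ℝ) * (q * h) := by
    intro i l
    obtain ⟨g, -, hi⟩ := (hXmem i).1 i.2
    have h1 := Pool.Agent.H4.RR.absLogHeight_eq E Ω (algebraMap E Ω) (x i l)
    have h2 : algebraMap E Ω (x i l) = (γ l * g (y l)) ^ q := by
      have h3 : algebraMap E Ω (x i l) = γ l ^ q * (i : Fin k → Ω) l := rfl
      rw [h3, ← hi, hz]
      show γ l ^ q * g ((y ^ q) l) = _
      rw [Pi.pow_apply, map_pow, mul_pow]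
    rw [h2, Pool.Agent.H4.RR.absLogHeight_pow Ω _ (int_all K _),
      height_twist (γ l) (y l) (hγ l) g] at h1
    have h4 : Height.logHeight₁ (x i l) =
        (Module.finrank ℚ E : ℝ) * (q * absLogHeight₁ (γ l * y l)) := by
      rw [h1]
      field_simp
    rw [h4]
    exact mul_le_mul_of_nonneg_left (mul_le_mul_of_nonneg_left (hht l) (by positivity)) hN0'.le
  have hsumh : ∑ i : X, ∑ l, Height.logHeight₁ (x i l) ≤
      n * (k * ((Module.finrank ℚ E : ℝ) * (q * h))) := by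
    refine (Finset.sum_le_sum fun i _ => Finset.sum_le_sum fun l _ => hhts i l).trans (le_of_eq ?_)
    rw [Finset.sum_const, Finset.sum_const, Finset.card_univ, Finset.card_univ, Fintype.card_coe,
      Fintype.card_fin, nsmul_eq_mul, nsmul_eq_mul, ← hn]
  have hTm0 : (0 : ℝ) ≤ ((T * m : ℕ) : ℝ) := Nat.cast_nonneg _
  have hhm : ((T * m : ℕ) : ℝ) * (k * (q * h)) ≤ 1 := by
    rcases Nat.eq_zero_or_pos k with hk | hk
    · have : (k : ℝ) = 0 := by exact_mod_cast hk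
      rw [this]
      simp
    · have hh0 : 0 ≤ h := (ht_nonneg (γ ⟨0, hk⟩ * y ⟨0, hk⟩)).trans (hht ⟨0, hk⟩)
      refine le_trans ?_ hh
      have h1 : T * m * k * q ≤ k * T * (2 * (A * G * (p ^ s) ^ k) ^ 2 * (M₁ + 1)) * p ^ s := by
        rw [← hq, ← hNd, hm]
        have h2 : M₁ / q + 1 ≤ M₁ + 1 := Nat.add_le_add_right (Nat.div_le_self _ _) 1
        calc T * (2 * N ^ 2 * (M₁ / q + 1)) * k * q = k * T * (2 * N ^ 2 * (M₁ / q + 1)) * q := by ring
          _ ≤ k * T * (2 * N ^ 2 * (M₁ + 1)) * q :=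
            Nat.mul_le_mul_right _ (Nat.mul_le_mul_left _ (Nat.mul_le_mul_left _ h2))
      have h2 : ((T * m : ℕ) : ℝ) * (k * (q * h)) = ((T * m * k * q : ℕ) : ℝ) * h := by
        push_cast
        ring
      rw [h2]
      exact mul_le_mul_of_nonneg_right (by exact_mod_cast h1) hh0
  simp only [hsum] at hpf
  rw [Fintype.card_coe, ← hn] at hpf
  -- conclusion
  have hDf : Module.finrank ℚ K * Module.finrank K E = Module.finrank ℚ E :=
    Module.finrank_mul_finrank ℚ K E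
  have hGc : Fintype.card (E ≃ₐ[K] E) = Module.finrank K E := by
    rw [← Nat.card_eq_fintype_card]
    exact IsGalois.card_aut_eq_finrank K E
  rw [← hGc] at hDf
  have hD' : (Module.finrank ℚ K : ℝ) * Fintype.card (E ≃ₐ[K] E) = Module.finrank ℚ E := by
    exact_mod_cast hDf
  have hn1 : (1 : ℝ) ≤ n := by
    have : 1 ≤ n := by omega
    exact_mod_cast this
  have hnA : (n : ℝ) ≤ A * dgT Lt y := by
    have h1 : n ≤ A * dgT Lt y := by rw [hn, hXcard]; exact hA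
    exact_mod_cast h1
  have hdg1 : (1 : ℝ) ≤ dgT Lt y := by exact_mod_cast dgT_pos Lt y
  have hA1r : (1 : ℝ) ≤ A := by exact_mod_cast hA1
  have hlogn : Real.log n ≤ Real.log A + Real.log (dgT Lt y) := by
    rw [← Real.log_mul (by positivity) (by positivity)]
    exact Real.log_le_log (by positivity) hnA
  have hmain : c * Bad.card ≤ (Module.finrank ℚ E : ℝ) * (Real.log n + 1) := by
    have h1 : ((T * m : ℕ) : ℝ) * ∑ i : X, ∑ l, Height.logHeight₁ (x i l) ≤
        n * (Module.finrank ℚ E : ℝ) := by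
      refine (mul_le_mul_of_nonneg_left hsumh hTm0).trans ?_
      have h2 : ((T * m : ℕ) : ℝ) * (n * (k * ((Module.finrank ℚ E : ℝ) * (q * h)))) =
          (n * (Module.finrank ℚ E : ℝ)) * (((T * m : ℕ) : ℝ) * (k * (q * h))) := by ring
      rw [h2]
      exact mul_le_of_le_one_right (by positivity) hhm
    have h2 : n * (c * Bad.card) ≤ n * ((Module.finrank ℚ E : ℝ) * (Real.log n + 1)) := by
      nlinarith
    exact le_of_mul_le_mul_left h2 (by linarith)
  have hN2 : (Module.finrank ℚ E : ℝ) * (Real.log n + 1) ≤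
      (Module.finrank ℚ E : ℝ) * (Real.log A + Real.log (dgT Lt y) + 1) := by
    apply mul_le_mul_of_nonneg_left _ hN0'.le
    linarith
  have hfin := hmain.trans hN2
  rw [← hD', hc] at hfin
  nlinarith

end Pool.Agent.H28.PT4
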