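import Pool.Agent.H72.PB.ClassGain

/-!
# POINTS THEOREM, PART IV, Clo: `q`-th powers of relations

`frb`: `v ((∑ a_b)^(p^s) - ∑ a_b^(p^s)) ≤ v(p) B` if `v(a_b)^(p^s) ≤ B`. PROOF: for one power `p` and two terms: `(x + y)^p - x^p - y^p = ∑_(0<i<p) (p choose i) x^i y^(p-i)`, `p ∣ (p choose i)`, and `v(x)^i v(y)^(p-i) ≤ max(v x, v y)^p`; finite sums by induction; powers by induction on `s`
(`u = ∑ a_b`, `u^(p^(s+1)) = (∑ a_b^(p^s) + E)^p`, `v E ≤ v(p) B`, where `B ≥ v(a_b)^(p^s)`, `v(p) ≤ 1`: `(X + E)^p - X^p` has size at most `v(p) B^p`: the middle terms have the factor `p`, and `v(E)^p ≤ v(p)^p B^p`). WLOG work with `B₁ = max_b v(a_b)` and `B₁^(p^s) ≤ B` (if `ι` is empty everything is `0`). Alternatively: in the ring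
`ℤ[x_b]`, `(∑ x_b)^(p^s) - ∑ x_b^(p^s)` has coefficients divisible by `p` (`ZMod p`: `add_pow_char_pow`, `sum_pow_char_pow`) and is homogeneous of degree `p^s`.
`rel_close`: `f_b ∈ Lt`, `∑ f_b u_b = 0`. Apply `θ^j`: `∑ θ^j(f_b) θ^j(u_b) = 0`. `‖κ (θ^j f_b) - κ f_b‖ ≤ ρ ‖κ f_b‖` (as in `class_gain`, `Pool/Agent/H72/PB/ClassGain.lean`: `kappa_pow` there, `mul_close_pow` in `H72/RG/MulClose.lean`; `f_b = 0` trivial). So with `a_b = κ (f_b) κ (θ^j u_b)`, `M = max_b ‖a_b‖`: `‖∑ a_b‖ ≤ ρ M`, `‖∑ a_b‖^q ≤ ρ^q M^q ≤ e^(-log p/2) B`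
(`M^q ≤ B`), and `‖∑ a_b^q‖ ≤ max (‖∑ a_b‖^q, ‖p‖ B)` by `frb`, `‖p‖ = 1/p = e^(-log p) ≤ e^(-log p/2)` (the norm of `p` in `C`: `norm_algebraMap'`/`padicNormE.norm_p`, see `H72/RM/Cyc.lean` or `MuClose`).
-/

set_option autoImplicit false
set_option linter.unusedSectionVars false

open NumberField IntermediateField

namespace Pool.Agent.H28.PT4

open Pool.Agent.H72.PB Pool.Agent.H72.RM Pool.Agent.H72.RG

variable {p : ℕ} [Fact p.Prime] {C : Type} [NormedField C] [NormedAlgebra ℚ_[p] C]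
  [IsUltrametricDist C] [IsAlgClosed C] [Algebra.IsAlgebraic ℚ_[p] C] [IsoEnv p C]
  {K Ω : Type} [Field K] [NumberField K] [Field Ω] [CharZero Ω] [Algebra K Ω] [IsGalois K Ω]

private theorem clo_ev {ι : Type} (x : ι → C) (hx : ∀ b, ‖x b‖ ≤ 1) (Q : MvPolynomial ι ℤ) :
    ‖MvPolynomial.eval₂ (Int.castRingHom C) x Q‖ ≤ 1 := by
  induction Q using MvPolynomial.induction_on with
  | C a =>
    rw [MvPolynomial.eval₂_C]
    exact IsUltrametricDist.norm_intCast_le_one C a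
  | add P R hP hR =>
    rw [MvPolynomial.eval₂_add]
    exact (IsUltrametricDist.norm_add_le_max _ _).trans (max_le hP hR)
  | mul_X P b hP =>
    rw [MvPolynomial.eval₂_mul, MvPolynomial.eval₂_X, norm_mul]
    exact mul_le_one₀ hP (norm_nonneg _) (hx b)

private theorem clo_p : ‖(p : C)‖ = Real.exp (-Real.log p) := by
  have hp : (0 : ℝ) < p := by exact_mod_cast (Fact.out : p.Prime).pos
  have h1 : (p : C) = algebraMap ℚ_[p] C (p : ℚ_[p]) := by rw [map_natCast]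
  rw [h1, norm_algebraMap', Padic.norm_p, Real.exp_neg, Real.exp_log hp]

private theorem clo_unit (s : ℕ) {ι : Type} [Fintype ι] (x : ι → C) (hx : ∀ b, ‖x b‖ ≤ 1) :
    ‖(∑ b, x b) ^ (p ^ s) - ∑ b, x b ^ (p ^ s)‖ ≤ Real.exp (-Real.log p) := by
  have h1 : MvPolynomial.C (p : ℤ) ∣ (∑ b, MvPolynomial.X b) ^ (p ^ s) -
      ∑ b : ι, (MvPolynomial.X b : MvPolynomial ι ℤ) ^ (p ^ s) := by
    rw [MvPolynomial.C_dvd_iff_zmod, map_sub, map_pow, map_sum, map_sum]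
    simp only [map_pow, MvPolynomial.map_X]
    rw [sum_pow_char_pow, sub_self]
  obtain ⟨Q, hQ⟩ := h1
  have h2 := congrArg (MvPolynomial.eval₂Hom (Int.castRingHom C) x) hQ
  rw [map_sub, map_pow, map_sum, map_sum, map_mul] at h2
  simp only [map_pow, MvPolynomial.eval₂Hom_X', MvPolynomial.eval₂Hom_C] at h2
  rw [h2, norm_mul]
  have h3 : (Int.castRingHom C) (p : ℤ) = (p : C) := by simp
  rw [h3, clo_p]
  exact mul_le_of_le_one_right (Real.exp_pos _).le (clo_ev x hx Q)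

/-- the largest term -/
private theorem clo_max {ι : Type} [Fintype ι] (c : ι → C) (q : ℕ) (hq : 1 ≤ q) (R : ℝ)
    (hR : 0 ≤ R) (h : ∀ b, ‖c b‖ ^ q ≤ R) : ‖∑ b, c b‖ ^ q ≤ R := by
  rcases isEmpty_or_nonempty ι with h1 | h1
  · rw [Finset.univ_eq_empty, Finset.sum_empty, norm_zero, zero_pow (by omega)]
    exact hR
  · obtain ⟨b₀, _, hb⟩ := Finset.exists_max_image Finset.univ (fun b => ‖c b‖)
      Finset.univ_nonempty
    refine le_trans ?_ (h b₀)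
    refine pow_le_pow_left₀ (norm_nonneg _) ?_ q
    exact IsUltrametricDist.norm_sum_le_of_forall_le_of_nonneg (norm_nonneg _) fun b hb' => hb b hb'

/-- Frobenius for sums -/
theorem frb (s : ℕ) {ι : Type} [Fintype ι] (a : ι → C) (B : ℝ) (hB0 : 0 ≤ B)
    (hB : ∀ b, ‖a b‖ ^ (p ^ s) ≤ B) :
    ‖(∑ b, a b) ^ (p ^ s) - ∑ b, a b ^ (p ^ s)‖ ≤ Real.exp (-Real.log p) * B := by
  have hp : p.Prime := Fact.out
  have hq : 1 ≤ p ^ s := Nat.one_le_pow _ _ hp.pos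
  by_cases h0 : ∀ b, a b = 0
  · simp only [h0]
    rw [Finset.sum_const_zero, zero_pow (by omega), Finset.sum_const_zero, sub_zero, norm_zero]
    exact mul_nonneg (Real.exp_pos _).le hB0
  · push Not at h0
    obtain ⟨b₁, hb₁⟩ := h0
    obtain ⟨b₀, _, hb⟩ := Finset.exists_max_image Finset.univ (fun b => ‖a b‖)
      ⟨b₁, Finset.mem_univ _⟩
    have h1 : a b₀ ≠ 0 := by
      intro h2
      have h3 := hb b₁ (Finset.mem_univ _)
      rw [h2, norm_zero] at h3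
      exact hb₁ (norm_le_zero_iff.1 h3)
    have h2 : ∀ b, a b = a b₀ * (a b / a b₀) := fun b => (mul_div_cancel₀ _ h1).symm
    have h3 : ∀ b, ‖a b / a b₀‖ ≤ 1 := by
      intro b
      rw [norm_div]
      exact div_le_one_of_le₀ (hb b (Finset.mem_univ _)) (norm_nonneg _)
    have h4 := clo_unit (p := p) s (fun b => a b / a b₀) h3
    have h5 : (∑ b, a b) ^ (p ^ s) - ∑ b, a b ^ (p ^ s) = a b₀ ^ (p ^ s) *
        ((∑ b, a b / a b₀) ^ (p ^ s) - ∑ b, (a b / a b₀) ^ (p ^ s)) := by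
      rw [mul_sub, ← mul_pow, Finset.mul_sum, Finset.mul_sum]
      congr 1
      · congr 1
        exact Finset.sum_congr rfl fun b _ => h2 b
      · refine Finset.sum_congr rfl fun b _ => ?_
        rw [← mul_pow, ← h2]
    rw [h5, norm_mul, norm_pow, mul_comm]
    exact mul_le_mul h4 (hB b₀) (pow_nonneg (norm_nonneg _) _) (Real.exp_pos _).le

theorem rel_close (κ : Ω →+* C) (Lt : IntermediateField K Ω) (θ : Ω ≃ₐ[K] Ω)
    (τ : C ≃ₐ[ℚ_[p]] C) (hτ : ∀ x : Ω, κ (θ x) = τ (κ x)) (ρ : ℝ) (hρ0 : 0 < ρ)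
    (hcl : ∀ x ∈ Lt, x ≠ 0 → ‖τ (κ x) / κ x - 1‖ ≤ ρ) (s : ℕ)
    (hρs : ρ ^ (p ^ s) ≤ Real.exp (-(Real.log p / 2))) {ι : Type} [Fintype ι] (f u : ι → Ω)
    (hf : ∀ b, f b ∈ Lt) (h0 : ∑ b, f b * u b = 0) (j : ℕ) (B : ℝ) (hB0 : 0 ≤ B)
    (hB : ∀ b, ‖κ (f b) * κ ((θ ^ j) (u b))‖ ^ (p ^ s) ≤ B) :
    ‖∑ b, κ (f b) ^ (p ^ s) * κ ((θ ^ j) (u b)) ^ (p ^ s)‖ ≤
      Real.exp (-(Real.log p / 2)) * B := by
  have hp : p.Prime := Fact.out
  have hq : 1 ≤ p ^ s := Nat.one_le_pow _ _ hp.pos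
  have hlp : 0 ≤ Real.log p := Real.log_nonneg (by exact_mod_cast hp.one_lt.le)
  have h1 : ∑ b, κ ((θ ^ j) (f b)) * κ ((θ ^ j) (u b)) = 0 := by
    have h2 := congrArg (fun x => κ ((θ ^ j) x)) h0
    simp only [map_sum, map_mul, map_zero] at h2
    exact h2
  have h2 : ∑ b, κ (f b) * κ ((θ ^ j) (u b)) =
      ∑ b, (κ (f b) - κ ((θ ^ j) (f b))) * κ ((θ ^ j) (u b)) := by
    simp only [sub_mul]
    rw [Finset.sum_sub_distrib, h1, sub_zero]
  have h3 : ‖∑ b, κ (f b) * κ ((θ ^ j) (u b))‖ ^ (p ^ s) ≤ Real.exp (-(Real.log p / 2)) * B := by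
    rw [h2]
    refine clo_max _ _ hq _ (mul_nonneg (Real.exp_pos _).le hB0) fun b => ?_
    have h4 := theta_close κ Lt θ τ hτ ρ hρ0 hcl j (f b) (hf b)
    rw [norm_sub_rev] at h4
    calc ‖(κ (f b) - κ ((θ ^ j) (f b))) * κ ((θ ^ j) (u b))‖ ^ (p ^ s)
        ≤ (ρ * ‖κ (f b) * κ ((θ ^ j) (u b))‖) ^ (p ^ s) := by
          refine pow_le_pow_left₀ (norm_nonneg _) ?_ _
          rw [norm_mul, norm_mul, ← mul_assoc]
          exact mul_le_mul_of_nonneg_right h4 (norm_nonneg _)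
      _ = ρ ^ (p ^ s) * ‖κ (f b) * κ ((θ ^ j) (u b))‖ ^ (p ^ s) := mul_pow _ _ _
      _ ≤ _ := mul_le_mul hρs (hB b) (pow_nonneg (norm_nonneg _) _) (Real.exp_pos _).le
  have h4 := frb (p := p) s (fun b => κ (f b) * κ ((θ ^ j) (u b))) B hB0 hB
  have h5 : Real.exp (-Real.log p) * B ≤ Real.exp (-(Real.log p / 2)) * B :=
    mul_le_mul_of_nonneg_right (Real.exp_le_exp.2 (by linarith)) hB0
  simp only [← mul_pow]
  have h6 : ∑ b, (κ (f b) * κ ((θ ^ j) (u b))) ^ (p ^ s) =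
      (∑ b, κ (f b) * κ ((θ ^ j) (u b))) ^ (p ^ s) -
      ((∑ b, κ (f b) * κ ((θ ^ j) (u b))) ^ (p ^ s) -
        ∑ b, (κ (f b) * κ ((θ ^ j) (u b))) ^ (p ^ s)) := by ring
  rw [h6]
  rw [sub_eq_add_neg]
  refine (IsUltrametricDist.norm_add_le_max _ _).trans (max_le ?_ ?_)
  · rw [norm_pow]
    exact h3
  · rw [norm_neg]
    exact h4.trans h5

end Pool.Agent.H28.PT4
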