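import Pool.Agent.H28.PT4.Bad
import Pool.Agent.H72.PB.Cluster

/-!
# POINTS THEOREM, PART IV, Clu: small height forces most conjugates of `θ₀^(p^l)` to preserve the class of `y^(p^s)`

Literally the proof of `cluster` in `Pool/Agent/H72/PB/Cluster.lean`, for tuples: `E` a finite stable field with `Lt ≤ E` and all `γ i`, `y i` in `E` (`pstep_field` in `H72/RM/PStep.lean`, iterated: induction over the `2k` coordinates; or `IntermediateField.normalClosure` of `adjoin`), `bad_countT` and `hnum`.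
-/

set_option autoImplicit false
set_option linter.unusedSectionVars false

open NumberField IntermediateField

namespace Pool.Agent.H28.PT4

open Pool.Agent.H33.TR Pool.Agent.H72.PB Pool.Agent.H72.RM Pool.Agent.H72.RG Pool.Agent.H11.TS

variable {p : ℕ} [Fact p.Prime] {C : Type} [NormedField C] [NormedAlgebra ℚ_[p] C]
  [IsUltrametricDist C] [IsAlgClosed C] [Algebra.IsAlgebraic ℚ_[p] C] [IsoEnv p C]
  {K Ω : Type} [Field K] [NumberField K] [Field Ω] [CharZero Ω] [IsAlgClosed Ω] [Algebra K Ω]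
  [IsGalois K Ω] {k : ℕ}

private theorem fieldT (M : IntermediateField K Ω) [FiniteDimensional K M] (γ : Fin k → Ω) :
    ∃ E : IntermediateField K Ω, FiniteDimensional K E ∧
      (∀ σ : Ω ≃ₐ[K] Ω, ∀ x ∈ E, σ x ∈ E) ∧ M ≤ E ∧ ∀ i, γ i ∈ E := by
  classical
  suffices h : ∀ s : Finset (Fin k), ∃ E : IntermediateField K Ω, FiniteDimensional K E ∧
      (∀ σ : Ω ≃ₐ[K] Ω, ∀ x ∈ E, σ x ∈ E) ∧ M ≤ E ∧ ∀ i ∈ s, γ i ∈ E by
    obtain ⟨E, h1, h2, h3, h4⟩ := h Finset.univ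
    exact ⟨E, h1, h2, h3, fun i => h4 i (Finset.mem_univ i)⟩
  intro s
  induction s using Finset.induction_on with
  | empty =>
    obtain ⟨E, h1, h2, h3, h4⟩ := pstep_field M (1 : Ω)
    exact ⟨E, h1, h2, h3, fun i hi => absurd hi (Finset.notMem_empty i)⟩
  | insert a s ha ih =>
    obtain ⟨E, h1, h2, h3, h4⟩ := ih
    obtain ⟨E', h1', h2', h3', h4'⟩ := pstep_field E (γ a)
    refine ⟨E', h1', h2', h3.trans h3', fun i hi => ?_⟩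
    rcases Finset.mem_insert.1 hi with rfl | hi
    · exact h4'
    · exact h3' (h4 i hi)

theorem clusterT (ι : Ω →+* C) (Lb Lt 𝓛 : IntermediateField K Ω) [FiniteDimensional K Lt]
    (hle : Lb ≤ Lt) (hb𝓛 : Lb ≤ 𝓛)
    (hLb : ∀ σ : Ω ≃ₐ[K] Ω, ∀ x ∈ Lb, σ x ∈ Lb) (hLt : ∀ σ : Ω ≃ₐ[K] Ω, ∀ x ∈ Lt, σ x ∈ Lt)
    (θ₀ : Ω ≃ₐ[K] Ω) (hθb : ∀ x ∈ Lb, θ₀ x = x) (k' : ℕ)
    (hθk : ∀ x ∈ Lt, (θ₀ ^ (p ^ k')) x = x)
    (τ : C ≃ₐ[ℚ_[p]] C) (hτ : ∀ x : Ω, ι (θ₀ x) = τ (ι x)) (ρ : ℝ) (hρ0 : 0 < ρ)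
    (hcl : ∀ x ∈ Lt, x ≠ 0 → ‖τ (ι x) / ι x - 1‖ ≤ ρ) (s : ℕ)
    (hρs : ρ ^ (p ^ s) ≤ Real.exp (-(Real.log p / 2)))
    (γ y : Fin k → Ω) (hγ0 : ∀ i, γ i ≠ 0) (hy0 : ∀ i, y i ≠ 0)
    (hγ : ∀ i, ∀ θ : Ω ≃ₐ[K] Ω, ∃ n : ℕ, 1 ≤ n ∧ (θ (γ i)) ^ n = (γ i) ^ n) (hT : TPT p Lt y)
    (A : ℕ) (hA1 : 1 ≤ A) (hA : dgT Lb (y ^ (p ^ s)) ≤ A * dgT Lt y) (M₁ G : ℕ)
    (hG : GPI 𝓛 y M₁) (hD : dgT Lt y ≤ G * (M₁ + 1) ^ k) (T l : ℕ) (hT1 : 1 ≤ T)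
    (hTl : 2 * T ^ (k + 1) ≤ p ^ l) (h : ℝ) (hht : ∀ i, absLogHeight₁ (γ i * y i) ≤ h)
    (hh : ((k * T * (2 * (A * G * (p ^ s) ^ k) ^ 2 * (M₁ + 1)) * p ^ s : ℕ) : ℝ) * h ≤ 1)
    {m : ℕ} (φ : Fin m → (Ω ≃ₐ[K] Ω))
    (hnum : 4 * (Module.finrank ℚ K : ℝ) * m * (Real.log A + Real.log (dgT Lt y) + 1) <
      T * Real.log p) :
    ∃ ψ : Ω ≃ₐ[K] Ω, ∀ j : Fin m,
      act ((φ j * ψ)⁻¹ * θ₀ ^ (p ^ l) * (φ j * ψ)) (y ^ (p ^ s)) ∈ OrbT Lt (y ^ (p ^ s)) := by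
  classical
  have hpp : p.Prime := Fact.out
  have hlogp : 0 < Real.log p := Real.log_pos (by exact_mod_cast hpp.one_lt)
  obtain ⟨E₁, h1fin, h1st, h1le, hγE₁⟩ := fieldT Lt γ
  obtain ⟨E, hEfin, hE, hE₁E, hyE⟩ := fieldT E₁ y
  have hγE : ∀ i, γ i ∈ E := fun i => hE₁E (hγE₁ i)
  have hN : Normal K E := by
    rw [IntermediateField.normal_iff_forall_map_le']
    intro σ x hx
    obtain ⟨z, hz, rfl⟩ := hx
    exact hE σ z hz
  have hGal : IsGalois K E := ⟨⟩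
  obtain ⟨lift, hlift⟩ : ∃ lift : (E ≃ₐ[K] E) → (Ω ≃ₐ[K] Ω),
      ∀ (g : E ≃ₐ[K] E) (x : E), lift g x = (g x : Ω) :=
    ⟨fun g => g.liftNormal Ω, fun g x => AlgEquiv.liftNormal_commutes g Ω x⟩
  obtain ⟨z, hz⟩ : ∃ z, z = y ^ (p ^ s) := ⟨_, rfl⟩
  have hzE : ∀ i, z i ∈ E := by
    intro i
    rw [hz]
    exact pow_mem (hyE i) _
  obtain ⟨Φ, hΦ⟩ : ∃ Φ : Ω ≃ₐ[K] Ω, Φ = θ₀ ^ (p ^ l) := ⟨_, rfl⟩
  obtain ⟨Bad, hBad⟩ : ∃ Bad : Finset (E ≃ₐ[K] E), ∀ g, g ∈ Bad ↔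
      act ((lift g)⁻¹ * Φ * lift g) z ∉ OrbT Lt z :=
    ⟨Finset.univ.filter fun g => act ((lift g)⁻¹ * Φ * lift g) z ∉ OrbT Lt z, fun g => by
      rw [Finset.mem_filter]; simp⟩
  have hbc := bad_countT ι Lb Lt 𝓛 hle hb𝓛 hLb hLt θ₀ hθb k' hθk τ hτ ρ hρ0 hcl s hρs γ y hγ0 hy0
    hγ hT A hA1 hA M₁ G hG hD T l hT1 hTl h hht hh E hE hγE hyE lift hlift Bad
    (by rw [← hz, ← hΦ]; exact hBad)
  rw [← hz, ← hΦ]
  have hGpos : 0 < Fintype.card (E ≃ₐ[K] E) := Fintype.card_pos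
  have hGpos' : (0 : ℝ) < Fintype.card (E ≃ₐ[K] E) := by exact_mod_cast hGpos
  have hlt : m * Bad.card < Fintype.card (E ≃ₐ[K] E) := by
    have h1 : (m : ℝ) * ((Bad.card : ℝ) * ((T : ℝ) * Real.log p)) <
        Fintype.card (E ≃ₐ[K] E) * ((T : ℝ) * Real.log p) := by
      calc (m : ℝ) * ((Bad.card : ℝ) * ((T : ℝ) * Real.log p)) ≤
          (m : ℝ) * (4 * (Module.finrank ℚ K : ℝ) * Fintype.card (E ≃ₐ[K] E) *
            (Real.log A + Real.log (dgT Lt y) + 1)) :=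
            mul_le_mul_of_nonneg_left hbc (Nat.cast_nonneg m)
        _ = Fintype.card (E ≃ₐ[K] E) * (4 * (Module.finrank ℚ K : ℝ) * m *
            (Real.log A + Real.log (dgT Lt y) + 1)) := by ring
        _ < _ := mul_lt_mul_of_pos_left hnum hGpos'
    have hpl : (0 : ℝ) < (T : ℝ) * Real.log p := by
      have : (0 : ℝ) < T := by exact_mod_cast hT1
      positivity
    rw [← mul_assoc] at h1
    have h2 := lt_of_mul_lt_mul_right h1 hpl.le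
    exact_mod_cast h2
  have hex : ∃ g : E ≃ₐ[K] E, ∀ j : Fin m, (φ j).restrictNormal E * g ∉ Bad := by
    by_contra hcon
    push Not at hcon
    have h1 : (Finset.univ : Finset (E ≃ₐ[K] E)) ⊆
        Finset.univ.biUnion (fun j : Fin m =>
          Bad.image (fun b => ((φ j).restrictNormal E)⁻¹ * b)) := by
      intro g _
      obtain ⟨j, hj⟩ := hcon g
      rw [Finset.mem_biUnion]
      refine ⟨j, Finset.mem_univ _, ?_⟩
      rw [Finset.mem_image]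
      exact ⟨_, hj, inv_mul_cancel_left _ _⟩
    have h2 := Finset.card_le_card h1
    have h3 : (Finset.univ.biUnion (fun j : Fin m =>
          Bad.image (fun b => ((φ j).restrictNormal E)⁻¹ * b))).card ≤ m * Bad.card := by
      refine Finset.card_biUnion_le.trans ?_
      calc ∑ j : Fin m, (Bad.image (fun b => ((φ j).restrictNormal E)⁻¹ * b)).card ≤
          ∑ _j : Fin m, Bad.card := Finset.sum_le_sum fun j _ => Finset.card_image_le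
        _ = m * Bad.card := by rw [Finset.sum_const, Finset.card_univ, Fintype.card_fin, smul_eq_mul]
    rw [Finset.card_univ] at h2
    omega
  obtain ⟨g, hg⟩ := hex
  refine ⟨lift g, fun j => ?_⟩
  have h1 := hg j
  rw [hBad, not_not] at h1
  have hinv2 : ∀ (g : Ω ≃ₐ[K] Ω) (x : Ω), g (g⁻¹ x) = x := fun g x => g.apply_symm_apply x
  obtain ⟨σ, hσ⟩ : ∃ σ, σ = lift ((φ j).restrictNormal E * g) := ⟨_, rfl⟩
  rw [← hσ] at h1
  have h2 : ∀ u ∈ E, σ u = (φ j * lift g) u := by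
    intro u hu
    rw [hσ, hlift _ ⟨u, hu⟩, AlgEquiv.mul_apply, AlgEquiv.mul_apply, hlift g ⟨u, hu⟩]
    exact AlgEquiv.restrictNormal_commutes (φ j) E (g ⟨u, hu⟩)
  have h3 : act (σ⁻¹ * Φ * σ) z = act ((φ j * lift g)⁻¹ * Φ * (φ j * lift g)) z := by
    funext i
    show (σ⁻¹ * Φ * σ) (z i) = ((φ j * lift g)⁻¹ * Φ * (φ j * lift g)) (z i)
    rw [AlgEquiv.mul_apply, AlgEquiv.mul_apply, AlgEquiv.mul_apply (_ * Φ), AlgEquiv.mul_apply _ Φ,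
      ← h2 (z i) (hzE i)]
    have h4 : σ⁻¹ (Φ (σ (z i))) ∈ E := hE _ _ (hE _ _ (hE _ _ (hzE i)))
    apply (φ j * lift g).injective
    rw [← h2 _ h4, hinv2, hinv2]
  rw [← h3]
  exact h1

end Pool.Agent.H28.PT4
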