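import Pool.Agent.H28.PT4.Cov
import Pool.Agent.H72.PB.OrbB
import Pool.Agent.H72.RM.RFa

/-!
# POINTS THEOREM, PART IV, CoU: uniform covering; field of definition; numerics

Uniform versions (in the number `N₁` prime to `S`) of `Cov`, `TowT`, `EndT` in `Cov.lean`, of `fod` (`Fod.lean`; same proof with `N * N₁` in the place of `N`; `sep` may be quoted from `Fod.lean` once it is proved) and of `num_end` (`Num.lean`):
`num_endU`: `ε = 1/(4 (e+1) (s+1))`: `(R N₁)^(s ε) ≤ (Z^(e+1))^(s ε) ≤ Z^(1/4)`, `h^(k - s ε) = (h^k)^(1 - sε/k) ≤ (Z^(-(4s+10)) D^(-1))^(1 - sε/k)`, `sε/k ≤ 1/4`, `D^(ε + sε/k) ≤ D^(ε(1+s)) ≤ Z^(e ε (1+s)) ≤ Z^(1/4)`: the left side is at most `Z^(1/4 + 1/4 - (3/4)(4s+10)) ≤ Z^(-1) < c`.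
-/

set_option autoImplicit false
set_option linter.unusedSectionVars false

open NumberField IntermediateField

namespace Pool.Agent.H28.PT4

open Pool.Agent.H33.TR Pool.Agent.H72.PB Pool.Agent.H72.RM Pool.Agent.H72.RG Pool.Agent.H11.TS

/-- `𝓛` is the union of the fields `K(μ_n, μ_(N N₁), b^(1/(N N₁)))`, `n ∈ NN`, `N` an `S`-number -/
structure CovU {K Ω : Type} [Field K] [Field Ω] [Algebra K Ω] {r : ℕ} (S : Finset ℕ)
    (b : Fin r → K) (NN : Set ℕ) (N₁ : ℕ) (𝓛 : IntermediateField K Ω) : Prop where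
  pos : ∀ n ∈ NN, 1 ≤ n
  cop : ∀ n ∈ NN, ∀ q ∈ S, ¬ q ∣ n
  one : 1 ∈ NN
  mul : ∀ n ∈ NN, ∀ m ∈ NN, n * m ∈ NN
  le : ∀ n ∈ NN, ∀ N : ℕ, Snum S N → RF Ω b n (N * N₁) ≤ 𝓛
  cov : ∀ x ∈ 𝓛, ∃ n ∈ NN, ∃ N : ℕ, Snum S N ∧ x ∈ RF Ω b n (N * N₁)

/-- the statement of the descent for tuples, uniform in `N₁` -/
def TowU {K : Type} (Ω : Type) [Field K] [NumberField K] [Field Ω] [CharZero Ω] [Algebra K Ω]
    {r : ℕ} (S : Finset ℕ) (b : Fin r → K) (k : ℕ) : Prop :=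
  ∃ A : ℕ, 1 ≤ A ∧ ∀ Dm : ℕ, 1 ≤ Dm → ∃ R : ℕ, 1 ≤ R ∧ (R : ℝ) ≤ (A * Real.log (3 * Dm)) ^ A ∧
    ∀ n' N₁ : ℕ, 1 ≤ n' → 1 ≤ N₁ → (∀ q ∈ S, ¬ q ∣ n') → (∀ q ∈ S, ¬ q ∣ N₁) →
    ∀ N : ℕ, Snum S N → ∀ 𝓛 : IntermediateField K Ω,
    (∀ M : ℕ, Snum S M → RF Ω b n' (M * N₁) ≤ 𝓛) → ∀ w : Fin k → Ω, (∀ i, w i ≠ 0) →
    (∀ p ∈ S, TPT p (RF Ω b n' (N * N₁)) w) → dgT (RF Ω b n' (N * N₁)) w ≤ Dm →
    ∀ M₁ G : ℕ, GPI 𝓛 w M₁ → dgT (RF Ω b n' (N * N₁)) w ≤ G * (M₁ + 1) ^ k →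
    ∀ h : ℝ, (∀ i, absLogHeight₁ (w i) ≤ h) →
    (A * Real.log (3 * Dm)) ^ A * ((G : ℝ) ^ 2 * (M₁ + 1) * h) ≤ 1 →
    ∃ g : Fin k → Ω, (∀ i, g i ∈ GammaS Ω b (S : Set ℕ)) ∧ (∀ i, g i ≠ 0) ∧ (∀ i, g i ∈ 𝓛) ∧
      ∀ x ∈ OrbT (RF Ω b n' (R * N₁)) (w / g), g * x ∈ OrbT (RF Ω b n' (N * N₁)) w

/-- the statement of the last step, uniform in the level -/
def EndU {K : Type} (Ω : Type) [Field K] [NumberField K] [Field Ω] [CharZero Ω] [Algebra K Ω]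
    {r : ℕ} (b : Fin r → K) (NN : Set ℕ) (k : ℕ) : Prop :=
  ∀ ε : ℝ, 0 < ε → ∃ c : ℝ, 0 < c ∧ ∀ n' ∈ NN, ∀ R : ℕ, 1 ≤ R → ∀ w y : Fin k → Ωˣ,
    (∀ i, ((w i / y i : Ωˣ) : Ω) ∈ DivG Ω b) →
    (∀ a : Fin k → ℤ, a ≠ 0 → ((∏ i, w i ^ a i : Ωˣ) : Ω) ∉ DivG Ω b) →
    ∀ θ : ℝ, 0 < θ → θ ≤ 1 → (∀ i, absLogHeight₁ (w i : Ω) ≤ θ) →
    c ≤ (R : ℝ) ^ (r * ε) * (degP (RF Ω b n' R) y : ℝ) ^ (1 + ε) * θ ^ ((k : ℝ) - r * ε)

private theorem sepU {Ω : Type} [Field Ω] [CharZero Ω] {k : ℕ} (X : Set (Fin k → Ω)) (hX : X.Finite) :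
    ∃ c : Fin k → ℕ, Set.InjOn (fun x : Fin k → Ω => ∑ i, (c i : Ω) * x i) X := by
  classical
  obtain ⟨Y, hY⟩ : ∃ Y : Finset (Fin k → Ω), (Y : Set (Fin k → Ω)) = X := ⟨hX.toFinset, hX.coe_toFinset⟩
  obtain ⟨p, hp⟩ : ∃ p : (Fin k → Ω) × (Fin k → Ω) → Polynomial Ω,
      ∀ z, p z = ∑ i : Fin k, Polynomial.C (z.1 i - z.2 i) * Polynomial.X ^ (i : ℕ) := ⟨_, fun _ => rfl⟩
  have hp0 : ∀ z ∈ Y.offDiag, p z ≠ 0 := by
    intro z hz h0
    obtain ⟨h1, h2, h3⟩ := Finset.mem_offDiag.1 hz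
    apply h3
    funext i
    have h4 := congrArg (fun q => Polynomial.coeff q (i : ℕ)) h0
    simp only [hp, Polynomial.finsetSum_coeff, Polynomial.coeff_C_mul_X_pow,
      Polynomial.coeff_zero] at h4
    rw [Finset.sum_eq_single i] at h4
    · rw [if_pos rfl] at h4
      exact sub_eq_zero.1 h4
    · intro j _ hj
      rw [if_neg]
      intro h
      exact hj (Fin.ext h.symm)
    · intro h
      exact absurd (Finset.mem_univ i) h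
  obtain ⟨Q, hQ⟩ : ∃ Q : Polynomial Ω, Q = ∏ z ∈ Y.offDiag, p z := ⟨_, rfl⟩
  have hQ0 : Q ≠ 0 := by
    rw [hQ]
    exact Finset.prod_ne_zero_iff.2 hp0
  obtain ⟨t, ht⟩ : ∃ t : ℕ, Q.eval (t : Ω) ≠ 0 := by
    by_contra hcon
    push Not at hcon
    apply hQ0
    refine Polynomial.eq_zero_of_infinite_isRoot Q ?_
    exact Set.infinite_of_injective_forall_mem (f := fun t : ℕ => (t : Ω)) Nat.cast_injective
      (fun t => hcon t)
  refine ⟨fun i => t ^ (i : ℕ), ?_⟩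
  intro x hx x' hx' h
  by_contra hne
  have hz : (x, x') ∈ Y.offDiag := by
    rw [Finset.mem_offDiag]
    refine ⟨?_, ?_, hne⟩
    · rw [← Finset.mem_coe, hY]
      exact hx
    · rw [← Finset.mem_coe, hY]
      exact hx'
  apply ht
  rw [hQ, Polynomial.eval_prod]
  refine Finset.prod_eq_zero hz ?_
  rw [hp, Polynomial.eval_finsetSum]
  have h5 : ∑ i : Fin k, ((t ^ (i : ℕ) : ℕ) : Ω) * x i = ∑ i : Fin k, ((t ^ (i : ℕ) : ℕ) : Ω) * x' i := h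
  rw [← sub_eq_zero, ← Finset.sum_sub_distrib] at h5
  rw [← h5]
  refine Finset.sum_congr rfl fun i _ => ?_
  rw [Polynomial.eval_mul, Polynomial.eval_C, Polynomial.eval_pow, Polynomial.eval_X]
  push_cast
  ring

theorem fodU {K Ω : Type} [Field K] [NumberField K] [Field Ω] [CharZero Ω] [IsAlgClosed Ω]
    [Algebra K Ω] [IsGalois K Ω] {r k : ℕ} (S : Finset ℕ) (b : Fin r → K) (NN : Set ℕ) (N₁ : ℕ)
    (hN₁ : 1 ≤ N₁) (𝓛 : IntermediateField K Ω) (hcov : CovU S b NN N₁ 𝓛) (w : Fin k → Ω) :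
    ∃ n ∈ NN, ∃ N : ℕ, Snum S N ∧ OrbT (RF Ω b n (N * N₁)) w ⊆ OrbT 𝓛 w := by
  classical
  obtain ⟨X, hXd⟩ : ∃ X : Set (Fin k → Ω), X = OrbT (⊥ : IntermediateField K Ω) w := ⟨_, rfl⟩
  have hXfin : X.Finite := by
    rw [hXd]
    exact orbT_finite _ w
  obtain ⟨c, hc⟩ := sepU X hXfin
  have hmemX : ∀ ρ : Ω ≃ₐ[K] Ω, act ρ w ∈ X := by
    intro ρ
    rw [hXd]
    refine ⟨ρ, ?_, rfl⟩
    intro z hz
    obtain ⟨x, rfl⟩ := IntermediateField.mem_bot.1 hz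
    exact ρ.commutes x
  obtain ⟨z, hz⟩ : ∃ z : Ω, z = ∑ i, (c i : Ω) * w i := ⟨_, rfl⟩
  have hρz : ∀ ρ : Ω ≃ₐ[K] Ω, ρ z = ∑ i, (c i : Ω) * act ρ w i := by
    intro ρ
    rw [hz, map_sum]
    refine Finset.sum_congr rfl fun i _ => ?_
    rw [map_mul, map_natCast]
    rfl
  have hint : IsIntegral 𝓛 z :=
    ((Algebra.IsAlgebraic.isAlgebraic (R := K) z).isIntegral).tower_top
  obtain ⟨P, hP⟩ : ∃ P : Polynomial Ω, P = (minpoly 𝓛 z).map (algebraMap 𝓛 Ω) := ⟨_, rfl⟩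
  have hP0 : P ≠ 0 := by
    rw [hP]
    exact (Polynomial.map_ne_zero_iff (algebraMap 𝓛 Ω).injective).2 (minpoly.ne_zero hint)
  have hPe : P.eval z = 0 := by
    rw [hP, Polynomial.eval_map_algebraMap, minpoly.aeval]
  have hPd : P.natDegree ≤ dg 𝓛 z := by
    rw [hP, Polynomial.natDegree_map]
    exact natDegree_le_dg 𝓛 z
  have hPc : ∀ i, P.coeff i ∈ 𝓛 := by
    intro i
    rw [hP, Polynomial.coeff_map]
    exact ((minpoly 𝓛 z).coeff i).2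
  have key : ∀ s : Finset ℕ, ∃ n ∈ NN, ∃ N : ℕ, Snum S N ∧
      ∀ i ∈ s, P.coeff i ∈ RF Ω b n (N * N₁) := by
    intro s
    induction s using Finset.induction_on with
    | empty =>
      refine ⟨1, hcov.one, 1, ⟨le_rfl, ?_⟩, by simp⟩
      intro q hq h1
      exact absurd (Nat.dvd_one.1 h1) hq.one_lt.ne'
    | insert i s _ ih =>
      obtain ⟨n, hn, N, hN, hs⟩ := ih
      obtain ⟨n', hn', N', hN', hi⟩ := hcov.cov _ (hPc i)
      have hn0 := hcov.pos n hn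
      have hn0' := hcov.pos n' hn'
      have hN0 := hN.1
      have hN0' := hN'.1
      have h1 : 1 ≤ n * n' := Nat.mul_pos hn0 hn0'
      have h2 : 1 ≤ N * N' * N₁ := Nat.mul_pos (Nat.mul_pos hN0 hN0') hN₁
      refine ⟨n * n', hcov.mul n hn n' hn', N * N', ⟨Nat.mul_pos hN0 hN0', ?_⟩, ?_⟩
      · intro q hq hqd
        rcases hq.dvd_mul.1 hqd with h3 | h3
        · exact hN.2 q hq h3
        · exact hN'.2 q hq h3
      · intro j hj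
        rcases Finset.mem_insert.1 hj with rfl | hj
        · exact rf_mono b n' (N' * N₁) (n * n') (N * N' * N₁) ⟨n, by ring⟩ ⟨N, by ring⟩ h1 h2 hi
        · exact rf_mono b n (N * N₁) (n * n') (N * N' * N₁) ⟨n', by ring⟩ ⟨N', by ring⟩ h1 h2 (hs j hj)
  obtain ⟨n, hn, N, hN, hs⟩ := key P.support
  refine ⟨n, hn, N, hN, ?_⟩
  have hF : RF Ω b n (N * N₁) ≤ 𝓛 := hcov.le n hn N hN
  have hdgF : dg (RF Ω b n (N * N₁)) z ≤ P.natDegree := by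
    refine dg_le_of_poly P hP0 ?_ hPe
    intro i
    by_cases hi : i ∈ P.support
    · exact hs i hi
    · rw [Polynomial.notMem_support_iff.1 hi]
      exact zero_mem _
  have heq : Orb 𝓛 z = Orb (RF Ω b n (N * N₁)) z :=
    Set.eq_of_subset_of_ncard_le (orb_mono hF z) (hdgF.trans hPd) (orb_finite _ z)
  rintro x ⟨ρ, hρ, rfl⟩
  have h1 : ρ z ∈ Orb 𝓛 z := by
    rw [heq]
    exact ⟨ρ, hρ, rfl⟩
  obtain ⟨σ, hσ, hσz⟩ := h1
  refine ⟨σ, hσ, ?_⟩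
  refine hc (hmemX σ) (hmemX ρ) ?_
  show ∑ i, (c i : Ω) * act σ w i = ∑ i, (c i : Ω) * act ρ w i
  rw [← hρz, ← hρz, hσz]

theorem num_endU (k s e : ℕ) (hk : 1 ≤ k) (c : ℝ) (hc : 0 < c) (ε : ℝ)
    (hε : ε = 1 / (4 * (e + 1) * (s + 1))) : ∃ K₀ : ℕ, ∀ Z : ℕ, K₀ ≤ Z → ∀ D D' R N₁ : ℕ,
    1 ≤ D → D ≤ Z ^ e → D' ≤ D → R ≤ Z → N₁ ≤ Z ^ e → ∀ h : ℝ, 0 < h →
    (Z : ℝ) ^ (4 * s + 10) * ((D : ℝ) * h ^ k) ≤ 1 →
    ((R * N₁ : ℕ) : ℝ) ^ (s * ε) * (D' : ℝ) ^ (1 + ε) * h ^ ((k : ℝ) - s * ε) < c := by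
  have he0 : (0 : ℝ) ≤ e := Nat.cast_nonneg e
  have hs0 : (0 : ℝ) ≤ s := Nat.cast_nonneg s
  have hk1 : (1 : ℝ) ≤ k := by exact_mod_cast hk
  have hk0 : (0 : ℝ) < k := by linarith
  have hε0 : 0 < ε := by
    rw [hε]
    positivity
  have hεm : ε * (4 * (e + 1) * (s + 1)) = 1 := by
    rw [hε, one_div, inv_mul_cancel₀ (by positivity)]
  have hεs : ε * ((e + 1) * (s + 1)) = 1 / 4 := by linarith
  have hε1 : ε * (s + 1) ≤ 1 / 4 := by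
    rw [← hεs]
    exact mul_le_mul_of_nonneg_left (le_mul_of_one_le_left (by positivity) (by linarith)) hε0.le
  have hεp : 0 ≤ ε * (s + 1) := by positivity
  have hsε0 : 0 ≤ s * ε := by positivity
  have hsε : s * ε ≤ 1 / 4 := by linarith
  have hεe : e * (ε * (s + 1)) ≤ 1 / 4 := by
    have : ε * ((e + 1) * (s + 1)) = e * (ε * (s + 1)) + ε * (s + 1) := by ring
    linarith
  have hse : (e + 1) * (s * ε) ≤ 1 / 4 := by
    have h1 : ε * ((e + 1) * (s + 1)) = (e + 1) * (s * ε) + (e + 1) * ε := by ring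
    have h2 : 0 ≤ (e + 1) * ε := by positivity
    linarith
  obtain ⟨θ, hθ⟩ : ∃ θ : ℝ, θ = s * ε / k := ⟨_, rfl⟩
  have hθ0 : 0 ≤ θ := by
    rw [hθ]
    positivity
  have hθk : (k : ℝ) - s * ε = k * (1 - θ) := by
    rw [hθ]
    field_simp
  have hθ1 : θ ≤ s * ε := by
    rw [hθ, div_le_iff₀ hk0]
    exact le_mul_of_one_le_right hsε0 hk1
  obtain ⟨K, hK⟩ := exists_nat_gt (1 / c)
  refine ⟨max K 1, fun Z hZ D D' R N₁ hD hDZ hD' hR hN₁ h hh h1 => ?_⟩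
  have hZ1 : (1 : ℝ) ≤ Z := by exact_mod_cast le_trans (le_max_right _ _) hZ
  have hZ0 : (0 : ℝ) < Z := by linarith
  have hZK : 1 / c < Z := lt_of_lt_of_le hK (by exact_mod_cast le_trans (le_max_left _ _) hZ)
  have hD1 : (1 : ℝ) ≤ D := by exact_mod_cast hD
  have hD0 : (0 : ℝ) < D := by linarith
  have hL0 : 0 ≤ Real.log Z := Real.log_nonneg hZ1
  have hδ0 : 0 ≤ Real.log D := Real.log_nonneg hD1
  have hδ : Real.log D ≤ e * Real.log Z := by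
    rw [← Real.log_pow]
    exact Real.log_le_log hD0 (by exact_mod_cast hDZ)
  have hlam : (4 * s + 10) * Real.log Z + (Real.log D + k * Real.log h) ≤ 0 := by
    have h2 : Real.log ((Z : ℝ) ^ (4 * s + 10) * ((D : ℝ) * h ^ k)) ≤ 0 :=
      Real.log_nonpos (by positivity) h1
    rw [Real.log_mul (by positivity) (by positivity), Real.log_mul (by positivity) (by positivity),
      Real.log_pow, Real.log_pow] at h2
    push_cast at h2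
    exact h2
  have hRN : ((R * N₁ : ℕ) : ℝ) ≤ (Z : ℝ) ^ (e + 1) := by
    have h2 : R * N₁ ≤ Z ^ (e + 1) := by
      rw [pow_succ, mul_comm (Z ^ e)]
      exact Nat.mul_le_mul hR hN₁
    exact_mod_cast h2
  have hy0 : (0 : ℝ) < (Z : ℝ) ^ (e + 1) := by positivity
  have hyl : Real.log ((Z : ℝ) ^ (e + 1)) = (e + 1) * Real.log Z := by
    rw [Real.log_pow]
    push_cast
    ring
  have hmain : Real.log ((Z : ℝ) ^ (e + 1)) * (s * ε) + Real.log D * (1 + ε) +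
      Real.log h * ((k : ℝ) - s * ε) ≤ -Real.log Z := by
    rw [hyl, hθk]
    have h2 : (1 - θ) * ((4 * s + 10) * Real.log Z + (Real.log D + k * Real.log h)) ≤ 0 :=
      mul_nonpos_of_nonneg_of_nonpos (by linarith) hlam
    have h3 : Real.log D * (ε + θ) ≤ Real.log Z * (1 / 4) := by
      calc Real.log D * (ε + θ) ≤ Real.log D * (ε * (s + 1)) :=
            mul_le_mul_of_nonneg_left (by linarith) hδ0
        _ ≤ (e * Real.log Z) * (ε * (s + 1)) := mul_le_mul_of_nonneg_right hδ (by positivity)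
        _ = Real.log Z * (e * (ε * (s + 1))) := by ring
        _ ≤ Real.log Z * (1 / 4) := mul_le_mul_of_nonneg_left hεe hL0
    have h3' : (e + 1) * Real.log Z * (s * ε) ≤ Real.log Z * (1 / 4) := by
      have h5 := mul_le_mul_of_nonneg_left hse hL0
      linarith
    have h4 : 1 / 4 + 1 / 4 - (4 * (s : ℝ) + 10) * (1 - θ) ≤ -1 := by
      have h6 : (4 * (s : ℝ) + 10) * (3 / 4) ≤ (4 * s + 10) * (1 - θ) :=
        mul_le_mul_of_nonneg_left (by linarith) (by positivity)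
      linarith
    have h7 := mul_le_mul_of_nonneg_left h4 hL0
    linarith
  have hD'0 : (0 : ℝ) ≤ D' := Nat.cast_nonneg _
  calc ((R * N₁ : ℕ) : ℝ) ^ (s * ε) * (D' : ℝ) ^ (1 + ε) * h ^ ((k : ℝ) - s * ε)
      ≤ ((Z : ℝ) ^ (e + 1)) ^ (s * ε) * (D : ℝ) ^ (1 + ε) * h ^ ((k : ℝ) - s * ε) := by
        refine mul_le_mul_of_nonneg_right ?_ (Real.rpow_nonneg hh.le _)
        refine mul_le_mul (Real.rpow_le_rpow (Nat.cast_nonneg _) hRN hsε0)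
          (Real.rpow_le_rpow hD'0 (by exact_mod_cast hD') (by linarith))
          (Real.rpow_nonneg hD'0 _) (Real.rpow_nonneg hy0.le _)
    _ = Real.exp (Real.log ((Z : ℝ) ^ (e + 1)) * (s * ε) + Real.log D * (1 + ε) +
          Real.log h * ((k : ℝ) - s * ε)) := by
        rw [Real.rpow_def_of_pos hy0, Real.rpow_def_of_pos hh, Real.rpow_def_of_pos hD0,
          Real.exp_add, Real.exp_add]
    _ ≤ Real.exp (-Real.log Z) := Real.exp_le_exp.2 hmain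
    _ = 1 / Z := by
        rw [Real.exp_neg, Real.exp_log hZ0, one_div]
    _ < c := by
        rw [div_lt_iff₀ hZ0]
        rw [div_lt_iff₀ hc] at hZK
        linarith

end Pool.Agent.H28.PT4
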