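import Pool.Agent.H28.PT4.OrbA
import Pool.Agent.H72.PB.OrbB
import Pool.Agent.H11.TS.FinB

/-!
# POINTS THEOREM, PART IV, Deg: degrees and conjugates of tuples

`deg_eq`: `[P(y_1, .., y_k) : P]` is the number of conjugates of the tuple. PROOF: `F = adjoin P (range y)` is finite over `P` (`IntermediateField.finiteDimensional_adjoin`, `Ω / P` algebraic), separable (characteristic 0),
`Ω` algebraically closed: `Fintype.card (F →ₐ[P] Ω) = finrank P F` (`AlgHom.card`). An embedding `φ` is determined by the tuple `i ↦ φ (y i)` and extends to an automorphism of `Ω` over `P` (`IsAlgClosure`/`IntermediateField.exists_algHom_of_splits`.., or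
`AlgHom.liftNormal`-like; `Ω / P` is normal and algebraic: `Algebra.IsAlgebraic`, `AlgEquiv.ofBijective`), which is an automorphism over `K` fixing `P` (`restrictScalars`). So `φ ↦ φ ∘ y` is a bijection from `F →ₐ[P] Ω` to `OrbT P y`.
`indep`: if `λ : X → Ω`, `X = OrbT P y`, and `∑_(x ∈ X) λ x * (mn a x) = 0` for all `a` in a box `B` whose monomials `mn a y` span `F` over `P`, then `λ = 0`: the maps `φ_x : F → Ω` (`φ_x (y) = x`) are different and so linearly independent over `Ω` (Dedekind:
`linearIndependent_monoidHom`); `∑ λ_x φ_x` is `P`-linear and vanishes on a spanning set.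
-/

set_option autoImplicit false
set_option linter.unusedSectionVars false

open NumberField IntermediateField

namespace Pool.Agent.H28.PT4

open Pool.Agent.H33.TR Pool.Agent.H72.PB Pool.Agent.H11.TS

variable {K Ω : Type} [Field K] [Field Ω] [CharZero Ω] [IsAlgClosed Ω] [Algebra K Ω]
  [IsGalois K Ω] {k : ℕ}

theorem deg_eq (P : IntermediateField K Ω) (y : Fin k → Ω) :
    Module.finrank P (IntermediateField.adjoin P (Set.range y)) = dgT P y := by
  classical
  have hint : ∀ x ∈ Set.range y, IsIntegral P x := by
    rintro _ ⟨i, rfl⟩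
    exact Algebra.IsIntegral.isIntegral (R := P) (y i)
  have hfd : FiniteDimensional P (IntermediateField.adjoin P (Set.range y)) :=
    IntermediateField.finiteDimensional_adjoin hint
  have hcard := AlgHom.card P (IntermediateField.adjoin P (Set.range y)) Ω
  have hmem : ∀ i, y i ∈ IntermediateField.adjoin P (Set.range y) := fun i =>
    IntermediateField.subset_adjoin P _ ⟨i, rfl⟩
  let Φ : (IntermediateField.adjoin P (Set.range y) →ₐ[P] Ω) → (Fin k → Ω) :=
    fun φ i => φ ⟨y i, hmem i⟩
  have hΦ : Function.Injective Φ := by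
    intro φ ψ h
    refine IntermediateField.adjoin_algHom_ext P ?_
    rintro x ⟨i, rfl⟩
    exact congrFun h i
  have hrange : Set.range Φ = OrbT P y := by
    ext x
    constructor
    · rintro ⟨φ, rfl⟩
      let ψ : Ω →ₐ[P] Ω := φ.liftNormal Ω
      have hψ : ∀ w : IntermediateField.adjoin P (Set.range y), ψ (w : Ω) = φ w := by
        intro w
        exact AlgHom.liftNormal_commutes φ Ω w
      have hb : Function.Bijective ψ := Algebra.IsAlgebraic.algHom_bijective ψ
      let ρ : Ω ≃ₐ[P] Ω := AlgEquiv.ofBijective ψ hb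
      refine ⟨ρ.restrictScalars K, ?_, ?_⟩
      · intro z hz
        exact ρ.commutes ⟨z, hz⟩
      · funext i
        exact hψ ⟨y i, hmem i⟩
    · rintro ⟨ρ, hρ, rfl⟩
      let ρ' : Ω →ₐ[P] Ω := { (ρ : Ω →+* Ω) with commutes' := fun z => hρ z z.2 }
      exact ⟨ρ'.comp (IntermediateField.adjoin P (Set.range y)).val, rfl⟩
  have h1 : dgT P y = Fintype.card (IntermediateField.adjoin P (Set.range y) →ₐ[P] Ω) := by
    unfold dgT
    rw [← hrange, ← Set.image_univ, Set.ncard_image_of_injective _ hΦ, Set.ncard_univ,
      Nat.card_eq_fintype_card]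
  rw [h1]
  exact hcard.symm

theorem degP_eq (P : IntermediateField K Ω) (γ : Fin k → Ωˣ) :
    degP P γ = dgT P (fun i => (γ i : Ω)) := deg_eq P _

/-- left kernel: the conjugates of `y` are independent on a box whose monomials span `P(y)` -/
theorem indep (P : IntermediateField K Ω) (y : Fin k → Ω) (M : ℕ)
    (hsp : Submodule.span P (Set.range fun a : Bx k M => mn a y) =
      Subalgebra.toSubmodule (IntermediateField.adjoin P (Set.range y)).toSubalgebra)
    (X : Finset (Fin k → Ω)) (hX : (X : Set (Fin k → Ω)) = OrbT P y) (c : (Fin k → Ω) → Ω)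
    (h : ∀ a : Bx k M, ∑ x ∈ X, c x * mn a x = 0) : ∀ x ∈ X, c x = 0 := by
  classical
  have hmem : ∀ i, y i ∈ IntermediateField.adjoin P (Set.range y) := fun i =>
    IntermediateField.subset_adjoin P _ ⟨i, rfl⟩
  have hex : ∀ x : X, ∃ ρ : Ω ≃ₐ[K] Ω, (∀ z ∈ P, ρ z = z) ∧ act ρ y = x := by
    intro x
    have : (x : Fin k → Ω) ∈ (X : Set (Fin k → Ω)) := x.2
    rw [hX] at this
    exact this
  choose ρ hρ hρy using hex
  have hz : ∀ w ∈ Subalgebra.toSubmodule (IntermediateField.adjoin P (Set.range y)).toSubalgebra,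
      ∑ x : X, c x * ρ x w = 0 := by
    rw [← hsp]
    intro w hw
    induction hw using Submodule.span_induction with
    | mem w hw =>
      obtain ⟨a, rfl⟩ := hw
      have h1 : ∑ x : X, c x * ρ x (mn a y) = ∑ x : X, c x * mn a (x : Fin k → Ω) := by
        refine Finset.sum_congr rfl fun x _ => ?_
        rw [act_mn, hρy]
      show ∑ x : X, c x * ρ x (mn a y) = 0
      rw [h1, Finset.sum_coe_sort X fun x => c x * mn a x]
      exact h a
    | zero => simp
    | add u w _ _ hu hw =>
      simp only [map_add, mul_add, Finset.sum_add_distrib]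
      rw [hu, hw, add_zero]
    | smul t w _ hw =>
      have h1 : ∑ x : X, c x * ρ x (t • w) = (t : Ω) * ∑ x : X, c x * ρ x w := by
        rw [Finset.mul_sum]
        refine Finset.sum_congr rfl fun x _ => ?_
        have h2 : t • w = (t : Ω) * w := rfl
        rw [h2, map_mul, hρ x (t : Ω) t.2]
        ring
      rw [h1, hw, mul_zero]
  let φ : X → (IntermediateField.adjoin P (Set.range y) →* Ω) := fun x =>
    ((ρ x : Ω →+* Ω) : Ω →* Ω).comp
      ((IntermediateField.adjoin P (Set.range y)).val : IntermediateField.adjoin P (Set.range y) →* Ω)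
  have hφ : Function.Injective φ := by
    intro x x' hxx
    apply Subtype.ext
    rw [← hρy x, ← hρy x']
    funext i
    exact DFunLike.congr_fun hxx ⟨y i, hmem i⟩
  have hli := (linearIndependent_monoidHom (IntermediateField.adjoin P (Set.range y)) Ω).comp φ hφ
  rw [Fintype.linearIndependent_iff] at hli
  have h3 := hli (fun x => c x) (by
    funext w
    have := hz (w : Ω) w.2
    simpa [φ] using this)
  intro x hx
  exact h3 ⟨x, hx⟩

end Pool.Agent.H28.PT4
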