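import Mathlib

/-!
# POINTS THEOREM, PART IV, Num: numerics of the last step

`num_box`: the largest `M` with `M^k Z^c ≤ D` (`Nat.findGreatest` or `Nat.find` of the first `M` with `D < (M+1)^k Z^c`; `M = 0` is allowed: `0^k = 0`).
`num_ht`: `M + 1 ≤ 2 max(1, M)`, so `((M+1) h)^k ≤ 2^k D h^k ≤ 2^k Z^(-C') ≤ (2 Z^(-(2c+3)))^k` (`max(1,M)^k ≤ D`), so `(M+1) h ≤ 2 Z^(-(2c+3))` (compare `k`-th powers, `pow_le_pow_left`), and `Z Z^(2c) 2 Z^(-(2c+3)) = 2 / Z^2 ≤ 1`.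
`num_log`: `log (3 D) ≤ log 3 + e log Z`, `(A (2 + e) log Z)^A ≤ Z` for large `Z` (`isLittleO_pow_log_id_atTop` or `Real.add_pow_le_pow_mul_pow_of_sq_le_sq`..).
`num_end`: `ε = 1/(4 (e+1) (s+1))`. Suppose `c ≤ (R^(s+1) D')^(1+ε) h^(k - s ε)`, `D' ≤ D`, `R ≤ Z`, `Z^(4s+10) D h^k ≤ 1`. `h^(k - sε) = (h^k)^(1 - sε/k) ≤ (Z^(-(4s+10)) D^(-1))^(1 - sε/k)`, `sε/k ≤ 1/4`, `ε ≤ 1/4`, so `c ≤ Z^((5/4)(s+1) - (3/4)(4s+10)) D^(ε + sε/k)` and `D^(ε (1+s)) ≤ Z^(e ε (1+s)) ≤ Z^(1/4)`: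
`c ≤ Z^(-1)` (exponent `1.25 s + 1.25 - 3 s - 7.5 + 0.25 ≤ -1`): false for `Z > 1/c`.
-/

set_option autoImplicit false
set_option linter.unusedSectionVars false

namespace Pool.Agent.H28.PT4

theorem num_box (k c D Z : ℕ) (hk : 1 ≤ k) (hZ : 1 ≤ Z) :
    ∃ M : ℕ, M ^ k * Z ^ c ≤ D ∧ D ≤ Z ^ c * (M + 1) ^ k := by
  classical
  have hex : ∃ M : ℕ, D < (M + 1) ^ k * Z ^ c := by
    refine ⟨D, ?_⟩
    calc D < D + 1 := Nat.lt_succ_self D
      _ = (D + 1) ^ 1 * 1 := by ring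
      _ ≤ (D + 1) ^ k * Z ^ c :=
        Nat.mul_le_mul (Nat.pow_le_pow_right (Nat.succ_pos D) hk) (Nat.one_le_pow _ _ hZ)
  refine ⟨Nat.find hex, ?_, ?_⟩
  · rcases Nat.eq_zero_or_pos (Nat.find hex) with h0 | h0
    · rw [h0, zero_pow (by omega), zero_mul]
      exact Nat.zero_le D
    · have h1 := Nat.find_min hex (m := Nat.find hex - 1) (by omega)
      rw [Nat.sub_add_cancel h0] at h1
      exact not_lt.1 h1
  · have h1 := Nat.find_spec hex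
    rw [mul_comm]
    exact h1.le

theorem num_ht (k c C' D Z M : ℕ) (h : ℝ) (hk : 1 ≤ k) (hh0 : 0 ≤ h) (hZ : 2 ≤ Z) (hD : 1 ≤ D)
    (hM : M ^ k ≤ D) (hC : k * (2 * c + 3) ≤ C') (h1 : (Z : ℝ) ^ C' * ((D : ℝ) * h ^ k) ≤ 1) :
    (Z : ℝ) * (((Z ^ c : ℕ) : ℝ) ^ 2 * (M + 1) * h) ≤ 1 := by
  have hZ1 : (1 : ℝ) ≤ Z := by exact_mod_cast (by omega : 1 ≤ Z)
  have hZ2 : (2 : ℝ) ≤ Z := by exact_mod_cast hZ
  have hZ0 : (0 : ℝ) < Z := by linarith
  have hM2 : ((M : ℝ) + 1) ^ k ≤ 2 ^ k * D := by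
    rcases Nat.eq_zero_or_pos M with h0 | h0
    · have h2 : (1 : ℝ) ≤ 2 ^ k := one_le_pow₀ (by norm_num)
      have h3 : (1 : ℝ) ≤ D := by exact_mod_cast hD
      rw [h0, Nat.cast_zero, zero_add, one_pow]
      exact one_le_mul_of_one_le_of_one_le h2 h3
    · have h2 : (1 : ℝ) ≤ M := by exact_mod_cast h0
      have h3 : (M : ℝ) ^ k ≤ D := by exact_mod_cast hM
      calc ((M : ℝ) + 1) ^ k ≤ (2 * M) ^ k := pow_le_pow_left₀ (by positivity) (by linarith) k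
        _ = 2 ^ k * (M : ℝ) ^ k := mul_pow _ _ _
        _ ≤ 2 ^ k * D := mul_le_mul_of_nonneg_left h3 (by positivity)
  have hx0 : 0 ≤ (Z : ℝ) * (((Z ^ c : ℕ) : ℝ) ^ 2 * (M + 1) * h) := by positivity
  refine (pow_le_one_iff_of_nonneg hx0 (by omega : k ≠ 0)).1 ?_
  have e1 : ((Z : ℝ) * (((Z ^ c : ℕ) : ℝ) ^ 2 * (M + 1) * h)) ^ k =
      (Z : ℝ) ^ (k * (2 * c + 1)) * (((M : ℝ) + 1) ^ k * h ^ k) := by
    rw [Nat.cast_pow, ← pow_mul, mul_pow, mul_pow, mul_pow, ← pow_mul, mul_comm k (2 * c + 1), pow_mul _ (2 * c + 1) k,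
      pow_succ, mul_pow, ← pow_mul, mul_comm c 2]
    ring
  rw [e1]
  calc (Z : ℝ) ^ (k * (2 * c + 1)) * (((M : ℝ) + 1) ^ k * h ^ k)
      ≤ (Z : ℝ) ^ (k * (2 * c + 1)) * ((2 ^ k * D) * h ^ k) :=
        mul_le_mul_of_nonneg_left (mul_le_mul_of_nonneg_right hM2 (by positivity)) (by positivity)
    _ ≤ (Z : ℝ) ^ (k * (2 * c + 1)) * (((Z : ℝ) ^ (2 * k) * D) * h ^ k) := by
        refine mul_le_mul_of_nonneg_left (mul_le_mul_of_nonneg_right
          (mul_le_mul_of_nonneg_right ?_ (by positivity)) (by positivity)) (by positivity)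
        calc (2 : ℝ) ^ k ≤ (Z : ℝ) ^ k := pow_le_pow_left₀ (by norm_num) hZ2 k
          _ ≤ (Z : ℝ) ^ (2 * k) := pow_le_pow_right₀ hZ1 (by omega)
    _ = (Z : ℝ) ^ (k * (2 * c + 3)) * (D * h ^ k) := by
        have h2 : k * (2 * c + 3) = k * (2 * c + 1) + 2 * k := by ring
        rw [h2, pow_add]
        ring
    _ ≤ (Z : ℝ) ^ C' * (D * h ^ k) :=
        mul_le_mul_of_nonneg_right (pow_le_pow_right₀ hZ1 hC) (by positivity)
    _ ≤ 1 := h1

theorem num_log (A e : ℕ) : ∃ K₀ : ℕ, ∀ Z : ℕ, K₀ ≤ Z → ∀ D : ℕ, 1 ≤ D → D ≤ Z ^ e →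
    (A * Real.log (3 * D)) ^ A ≤ Z := by
  obtain ⟨B, hB⟩ : ∃ B : ℝ, B = ((A : ℝ) * (2 + e)) ^ A + 1 := ⟨_, rfl⟩
  have hB0 : 0 < B := by
    rw [hB]
    positivity
  have h1 := (Real.isLittleO_pow_log_id_atTop (n := A)).bound (inv_pos.2 hB0)
  have h2 := (tendsto_natCast_atTop_atTop (R := ℝ)).eventually h1
  obtain ⟨K, hK⟩ := Filter.eventually_atTop.1 h2
  refine ⟨max K 3, fun Z hZ D hD hDZ => ?_⟩
  have hZ3 : 3 ≤ Z := le_trans (le_max_right _ _) hZ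
  have h3 := hK Z (le_trans (le_max_left _ _) hZ)
  have hZ3' : (3 : ℝ) ≤ Z := by exact_mod_cast hZ3
  have hZ0 : (0 : ℝ) < Z := by linarith
  have hL1 : 1 ≤ Real.log Z := by
    rw [Real.le_log_iff_exp_le hZ0]
    have := Real.exp_one_lt_d9
    linarith
  have hL0 : 0 ≤ Real.log Z := by linarith
  rw [Real.norm_of_nonneg (pow_nonneg hL0 A), id, Real.norm_of_nonneg hZ0.le] at h3
  have hD1 : (1 : ℝ) ≤ D := by exact_mod_cast hD
  have h4 : Real.log (3 * D) ≤ (2 + e) * Real.log Z := by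
    rw [Real.log_mul (by norm_num) (by linarith)]
    have h5 : Real.log 3 ≤ Real.log Z := Real.log_le_log (by norm_num) hZ3'
    have h6 : Real.log D ≤ e * Real.log Z := by
      rw [← Real.log_pow]
      exact Real.log_le_log (by linarith) (by exact_mod_cast hDZ)
    linarith
  have h40 : 0 ≤ Real.log (3 * D) := Real.log_nonneg (by linarith)
  calc (A * Real.log (3 * D)) ^ A ≤ (A * ((2 + e) * Real.log Z)) ^ A :=
        pow_le_pow_left₀ (by positivity) (mul_le_mul_of_nonneg_left h4 (by positivity)) A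
    _ = ((A : ℝ) * (2 + e)) ^ A * Real.log Z ^ A := by rw [← mul_assoc, mul_pow]
    _ ≤ B * (B⁻¹ * Z) := by
        refine mul_le_mul ?_ h3 (by positivity) hB0.le
        rw [hB]
        linarith
    _ = Z := by
        rw [← mul_assoc, mul_inv_cancel₀ hB0.ne', one_mul]

theorem num_end (k s e : ℕ) (hk : 1 ≤ k) (c : ℝ) (hc : 0 < c) (ε : ℝ)
    (hε : ε = 1 / (4 * (e + 1) * (s + 1))) : ∃ K₀ : ℕ, ∀ Z : ℕ, K₀ ≤ Z → ∀ D D' R : ℕ,
    1 ≤ D → D ≤ Z ^ e → D' ≤ D → R ≤ Z → ∀ h : ℝ, 0 < h →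
    (Z : ℝ) ^ (4 * s + 10) * ((D : ℝ) * h ^ k) ≤ 1 →
    ((R : ℝ) ^ (s + 1) * D') ^ (1 + ε) * h ^ ((k : ℝ) - s * ε) < c := by
  have he0 : (0 : ℝ) ≤ e := Nat.cast_nonneg e
  have hs0 : (0 : ℝ) ≤ s := Nat.cast_nonneg s
  have hk1 : (1 : ℝ) ≤ k := by exact_mod_cast hk
  have hk0 : (0 : ℝ) < k := by linarith
  have hε0 : 0 < ε := by
    rw [hε]
    positivity
  have hεm : ε * (4 * (e + 1) * (s + 1)) = 1 := by
    rw [hε, one_div, inv_mul_cancel₀ (by positivity)]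
  have hεs : ε * ((e + 1) * (s + 1)) = 1 / 4 := by linarith
  have hε1 : ε * (s + 1) ≤ 1 / 4 := by
    rw [← hεs]
    exact mul_le_mul_of_nonneg_left (le_mul_of_one_le_left (by positivity) (by linarith)) hε0.le
  have hεp : 0 ≤ ε * (s + 1) := by positivity
  have hsε0 : 0 ≤ s * ε := by positivity
  have hsε : s * ε ≤ 1 / 4 := by linarith
  have hε4 : ε ≤ 1 / 4 := by linarith
  have hεe : e * (ε * (s + 1)) ≤ 1 / 4 := by
    have : ε * ((e + 1) * (s + 1)) = e * (ε * (s + 1)) + ε * (s + 1) := by ring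
    linarith
  obtain ⟨θ, hθ⟩ : ∃ θ : ℝ, θ = s * ε / k := ⟨_, rfl⟩
  have hθ0 : 0 ≤ θ := by
    rw [hθ]
    positivity
  have hθk : (k : ℝ) - s * ε = k * (1 - θ) := by
    rw [hθ]
    field_simp
  have hθ1 : θ ≤ s * ε := by
    rw [hθ, div_le_iff₀ hk0]
    exact le_mul_of_one_le_right hsε0 hk1
  obtain ⟨K, hK⟩ := exists_nat_gt (1 / c)
  refine ⟨max K 1, fun Z hZ D D' R hD hDZ hD' hR h hh h1 => ?_⟩
  have hZ1 : (1 : ℝ) ≤ Z := by exact_mod_cast le_trans (le_max_right _ _) hZ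
  have hZ0 : (0 : ℝ) < Z := by linarith
  have hZK : 1 / c < Z := lt_of_lt_of_le hK (by exact_mod_cast le_trans (le_max_left _ _) hZ)
  have hD1 : (1 : ℝ) ≤ D := by exact_mod_cast hD
  have hD0 : (0 : ℝ) < D := by linarith
  have hL0 : 0 ≤ Real.log Z := Real.log_nonneg hZ1
  have hδ0 : 0 ≤ Real.log D := Real.log_nonneg hD1
  have hδ : Real.log D ≤ e * Real.log Z := by
    rw [← Real.log_pow]
    exact Real.log_le_log hD0 (by exact_mod_cast hDZ)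
  have hlam : (4 * s + 10) * Real.log Z + (Real.log D + k * Real.log h) ≤ 0 := by
    have h2 : Real.log ((Z : ℝ) ^ (4 * s + 10) * ((D : ℝ) * h ^ k)) ≤ 0 :=
      Real.log_nonpos (by positivity) h1
    rw [Real.log_mul (by positivity) (by positivity), Real.log_mul (by positivity) (by positivity),
      Real.log_pow, Real.log_pow] at h2
    push_cast at h2
    exact h2
  have hx0 : (0 : ℝ) ≤ (R : ℝ) ^ (s + 1) * D' := by positivity
  have hxy : (R : ℝ) ^ (s + 1) * D' ≤ (Z : ℝ) ^ (s + 1) * D :=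
    mul_le_mul (pow_le_pow_left₀ (Nat.cast_nonneg R) (by exact_mod_cast hR) _) (by exact_mod_cast hD')
      (by positivity) (by positivity)
  have hy0 : (0 : ℝ) < (Z : ℝ) ^ (s + 1) * D := by positivity
  have hyl : Real.log ((Z : ℝ) ^ (s + 1) * D) = (s + 1) * Real.log Z + Real.log D := by
    rw [Real.log_mul (by positivity) (by positivity), Real.log_pow]
    push_cast
    ring
  have hmain : Real.log ((Z : ℝ) ^ (s + 1) * D) * (1 + ε) + Real.log h * ((k : ℝ) - s * ε) ≤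
      -Real.log Z := by
    rw [hyl, hθk]
    have h2 : (1 - θ) * ((4 * s + 10) * Real.log Z + (Real.log D + k * Real.log h)) ≤ 0 :=
      mul_nonpos_of_nonneg_of_nonpos (by linarith) hlam
    have h3 : Real.log D * (ε + θ) ≤ Real.log Z * (1 / 4) := by
      calc Real.log D * (ε + θ) ≤ Real.log D * (ε * (s + 1)) :=
            mul_le_mul_of_nonneg_left (by linarith) hδ0
        _ ≤ (e * Real.log Z) * (ε * (s + 1)) := mul_le_mul_of_nonneg_right hδ (by positivity)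
        _ = Real.log Z * (e * (ε * (s + 1))) := by ring
        _ ≤ Real.log Z * (1 / 4) := mul_le_mul_of_nonneg_left hεe hL0
    have h4 : (s + 1) * (1 + ε) - (4 * s + 10) * (1 - θ) + 1 / 4 ≤ -1 := by
      have h5 : (s + 1) * (1 + ε) ≤ (s + 1) + 1 / 4 := by linarith
      have h6 : (4 * (s : ℝ) + 10) * (3 / 4) ≤ (4 * s + 10) * (1 - θ) :=
        mul_le_mul_of_nonneg_left (by linarith) (by positivity)
      linarith
    have h7 := mul_le_mul_of_nonneg_left h4 hL0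
    linarith
  calc ((R : ℝ) ^ (s + 1) * D') ^ (1 + ε) * h ^ ((k : ℝ) - s * ε)
      ≤ ((Z : ℝ) ^ (s + 1) * D) ^ (1 + ε) * h ^ ((k : ℝ) - s * ε) :=
        mul_le_mul_of_nonneg_right (Real.rpow_le_rpow hx0 hxy (by linarith)) (Real.rpow_nonneg hh.le _)
    _ = Real.exp (Real.log ((Z : ℝ) ^ (s + 1) * D) * (1 + ε) + Real.log h * ((k : ℝ) - s * ε)) := by
        rw [Real.rpow_def_of_pos hy0, Real.rpow_def_of_pos hh, Real.exp_add]
    _ ≤ Real.exp (-Real.log Z) := Real.exp_le_exp.2 hmain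
    _ = 1 / Z := by
        rw [Real.exp_neg, Real.exp_log hZ0, one_div]
    _ < c := by
        rw [div_lt_iff₀ hZ0]
        rw [div_lt_iff₀ hc] at hZK
        linarith

end Pool.Agent.H28.PT4
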