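import Mathlib

/-!
# POINTS THEOREM, PART IV, LOG VERSION, NumL: numerics

Write `l = log (3 N D)`, `l₀ = log (3 N D₀)` (all `≥ log 3 > 1`).
`num_mono`: `l ≤ log C₁' + l₀ ≤ (1 + log C₁') l₀` with `C₁' = max 1 C₁`; `K₀ := ⌈K₁ (1 + log C₁')⌉ + K₁ + 1`: `(K₁ l)^K₁ ≤ (K₀ l₀)^K₁ ≤ (K₀ l₀)^K₀ ≤ Z` (`K₀ l₀ ≥ 1`), and `K₀ ≤ K₀ l₀ ≤ (K₀ l₀)^K₀ ≤ Z`; `K₀ ≥ M` can be arranged by taking `K₀` larger.
`num_endL`: `h ≥ (Z^C' D)⁻¹`, so `1 ≤ 3 (R N) D' / h ≤ 3 Z N D Z^C' D ≤ Z^(C'+1) (3 N D)^2`, `log (..) ≤ (C'+1) log Z + 2 l`, `D' h^k ≤ D h^k ≤ Z^(-C') ≤ Z^(-1)`. `2 l ≤ 2 (K₀ l)`, `(K₀ l)^K₀ ≤ Z`: `K₀ l ≤ Z^(1/K₀)`; with `K₀ ≥ 4 C + 4`: `(2 l)^(2C) ≤ 4^C Z^(1/2)`.. ; so the product is at most `Z^(-1) ((C'+1) log Z + 2 l)^C`, which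
tends to `0` as `Z → ∞` (`(x + y)^C ≤ 2^C (x^C + y^C)`, `(log Z)^C = o(Z^(1/2))`, `(2 l)^C ≤ 2^C Z^(C/K₀) ≤ 2^C Z^(1/2)`); it is `< c` for `Z ≥ K₀` if `K₀` is large (`Z ≥ K₀` from the hypothesis as in `num_mono`).
`num_cnv`: `Z = ⌈(K₀ l)^K₀⌉ ≤ (K₀ l)^K₀ + 1 ≤ 2 (K₀ l)^K₀` for `K₀ ≥ 1`. `1 < Z^C' (D h^k) ≤ (2 K₀^K₀ l^K₀)^C' D h^k = B (l^(K₀ C')) D h^k`, `B = (2 K₀^K₀)^C' ≥ 1`; `k`-th root: `1 < B l^(K₀ C') D^(1/k) h` (`(B l^(K₀C'))^(1/k) ≤ B l^(K₀C')`, both `≥ 1`; if `B l^(..) D^(1/k) h ≤ 1` then its `k`-th power is `≤ 1`, but the `k`-th power is at least `B l^(K₀C') D h^k > 1`).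
-/

set_option autoImplicit false
set_option linter.unusedSectionVars false

namespace Pool.Agent.H28.PT4

private theorem log3 {x : ℝ} (hx : 3 ≤ x) : 1 ≤ Real.log x := by
  rw [Real.le_log_iff_exp_le (by linarith)]
  have := Real.exp_one_lt_d9
  linarith

private theorem three_le {N D : ℕ} (hN : 1 ≤ N) (hD : 1 ≤ D) : (3 : ℝ) ≤ 3 * N * D := by
  have h1 : (1 : ℝ) ≤ N := by exact_mod_cast hN
  have h2 : (1 : ℝ) ≤ D := by exact_mod_cast hD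
  have h3 : (1 : ℝ) ≤ N * D := one_le_mul_of_one_le_of_one_le h1 h2
  nlinarith

theorem num_mono (C₁ K₁ M : ℕ) : ∃ K₂ : ℕ, ∀ K₀ : ℕ, K₂ ≤ K₀ → ∀ N D₀ D Z : ℕ, 1 ≤ N → 1 ≤ D₀ →
    1 ≤ D → D ≤ C₁ * D₀ → (K₀ * Real.log (3 * N * D₀)) ^ K₀ ≤ Z →
    (K₁ * Real.log (3 * N * D)) ^ K₁ ≤ Z ∧ M ≤ Z := by
  refine ⟨⌈(K₁ : ℝ) * (1 + Real.log (max 1 C₁ : ℕ))⌉₊ + K₁ + 1 + M, fun K₀ hK₀ N D₀ D Z hN hD₀ hD hDC hZ => ?_⟩
  have h30 := three_le hN hD₀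
  have h3 := three_le hN hD
  have hl₀ := log3 h30
  have hl := log3 h3
  have hC1 : (1 : ℝ) ≤ (max 1 C₁ : ℕ) := by exact_mod_cast le_max_left 1 C₁
  have hC0 : 0 ≤ Real.log (max 1 C₁ : ℕ) := Real.log_nonneg hC1
  have hN1 : (1 : ℝ) ≤ N := by exact_mod_cast hN
  have hD1 : (1 : ℝ) ≤ D := by exact_mod_cast hD
  have hD01 : (1 : ℝ) ≤ D₀ := by exact_mod_cast hD₀
  have hle : Real.log (3 * N * D) ≤ (1 + Real.log (max 1 C₁ : ℕ)) * Real.log (3 * N * D₀) := by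
    have h1 : (3 : ℝ) * N * D ≤ (max 1 C₁ : ℕ) * (3 * N * D₀) := by
      have h2 : (D : ℝ) ≤ (max 1 C₁ : ℕ) * D₀ := by
        have h3 : (D : ℝ) ≤ C₁ * D₀ := by exact_mod_cast hDC
        have h4 : (C₁ : ℝ) ≤ (max 1 C₁ : ℕ) := by exact_mod_cast le_max_right 1 C₁
        exact h3.trans (mul_le_mul_of_nonneg_right h4 (by positivity))
      calc (3 : ℝ) * N * D ≤ 3 * N * ((max 1 C₁ : ℕ) * D₀) := mul_le_mul_of_nonneg_left h2 (by positivity)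
        _ = (max 1 C₁ : ℕ) * (3 * N * D₀) := by ring
    have h5 := Real.log_le_log (by linarith) h1
    have h6 : Real.log (((max 1 C₁ : ℕ) : ℝ) * (3 * N * D₀)) =
        Real.log ((max 1 C₁ : ℕ) : ℝ) + Real.log (3 * N * D₀) := Real.log_mul (by linarith) (by linarith)
    have h7 : Real.log ((max 1 C₁ : ℕ) : ℝ) * 1 ≤ Real.log ((max 1 C₁ : ℕ) : ℝ) * Real.log (3 * N * D₀) :=
      mul_le_mul_of_nonneg_left hl₀ hC0
    rw [h6] at h5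
    linarith
  have hK1 : (K₁ : ℝ) * (1 + Real.log (max 1 C₁ : ℕ)) ≤ K₀ := by
    have h1 := Nat.le_ceil ((K₁ : ℝ) * (1 + Real.log (max 1 C₁ : ℕ)))
    refine h1.trans ?_
    exact_mod_cast (by omega : ⌈(K₁ : ℝ) * (1 + Real.log (max 1 C₁ : ℕ))⌉₊ ≤ K₀)
  have hK01 : (1 : ℝ) ≤ K₀ := by exact_mod_cast (by omega : 1 ≤ K₀)
  have hKl1 : 1 ≤ (K₀ : ℝ) * Real.log (3 * N * D₀) := one_le_mul_of_one_le_of_one_le hK01 hl₀
  constructor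
  · refine le_trans ?_ hZ
    have h1 : (K₁ : ℝ) * Real.log (3 * N * D) ≤ K₀ * Real.log (3 * N * D₀) := by
      calc (K₁ : ℝ) * Real.log (3 * N * D) ≤ K₁ * ((1 + Real.log (max 1 C₁ : ℕ)) * Real.log (3 * N * D₀)) :=
            mul_le_mul_of_nonneg_left hle (Nat.cast_nonneg _)
        _ = (K₁ : ℝ) * (1 + Real.log (max 1 C₁ : ℕ)) * Real.log (3 * N * D₀) := by ring
        _ ≤ K₀ * Real.log (3 * N * D₀) := mul_le_mul_of_nonneg_right hK1 (by linarith)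
    calc ((K₁ : ℝ) * Real.log (3 * N * D)) ^ K₁ ≤ (K₀ * Real.log (3 * N * D₀)) ^ K₁ :=
          pow_le_pow_left₀ (by positivity) h1 _
      _ ≤ (K₀ * Real.log (3 * N * D₀)) ^ K₀ := pow_le_pow_right₀ hKl1 (by omega)
  · have h1 : (K₀ : ℝ) ≤ (K₀ * Real.log (3 * N * D₀)) ^ K₀ := by
      calc (K₀ : ℝ) ≤ K₀ * Real.log (3 * N * D₀) := le_mul_of_one_le_right (by positivity) hl₀
        _ = (K₀ * Real.log (3 * N * D₀)) ^ 1 := (pow_one _).symm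
        _ ≤ (K₀ * Real.log (3 * N * D₀)) ^ K₀ := pow_le_pow_right₀ hKl1 (by omega)
    have h2 : (K₀ : ℝ) ≤ Z := h1.trans hZ
    have h3 : K₀ ≤ Z := by exact_mod_cast h2
    omega

theorem num_endL (k C' C : ℕ) (hC' : 1 ≤ C') (c : ℝ) (hc : 0 < c) : ∃ K₀ : ℕ, ∀ N D D' R Z : ℕ,
    1 ≤ N → 1 ≤ D → 1 ≤ D' → D' ≤ D → 1 ≤ R → R ≤ Z → (K₀ * Real.log (3 * N * D)) ^ K₀ ≤ Z →
    ∀ h : ℝ, ((Z : ℝ) ^ C' * D)⁻¹ ≤ h → h ≤ 1 → (Z : ℝ) ^ C' * ((D : ℝ) * h ^ k) ≤ 1 →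
    (D' : ℝ) * h ^ k * Real.log (3 * ((R * N : ℕ) : ℝ) * D' / h) ^ C < c := by
  obtain ⟨B, hB⟩ : ∃ B : ℝ, B = (2 : ℝ) ^ C * ((C' : ℝ) + 1) ^ C * (3 / c) := ⟨_, rfl⟩
  obtain ⟨B2, hB2⟩ : ∃ B2 : ℝ, B2 = (4 : ℝ) ^ C * (3 / c) := ⟨_, rfl⟩
  have hB0 : 0 < B := by rw [hB]; positivity
  have hB20 : 0 < B2 := by rw [hB2]; positivity
  have h1 := (Real.isLittleO_pow_log_id_atTop (n := C)).bound (inv_pos.2 hB0)
  have h2 := (tendsto_natCast_atTop_atTop (R := ℝ)).eventually h1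
  obtain ⟨K, hK⟩ := Filter.eventually_atTop.1 h2
  obtain ⟨K', hK'⟩ := exists_nat_ge (B2 ^ 2)
  refine ⟨K + K' + 2 * C + 1, fun N D D' R Z hN hD hD' hDD hR hRZ hZ h hh0 hh1 hh2 => ?_⟩
  obtain ⟨K₀, hK₀⟩ : ∃ K₀ : ℕ, K₀ = K + K' + 2 * C + 1 := ⟨_, rfl⟩
  rw [← hK₀] at hZ
  have h3 := three_le hN hD
  obtain ⟨l, hl⟩ : ∃ l : ℝ, l = Real.log (3 * N * D) := ⟨_, rfl⟩
  rw [← hl] at hZ
  have hl1 : 1 ≤ l := by rw [hl]; exact log3 h3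
  have hK01 : (1 : ℝ) ≤ K₀ := by exact_mod_cast (by omega : 1 ≤ K₀)
  have hKl1 : 1 ≤ (K₀ : ℝ) * l := one_le_mul_of_one_le_of_one_le hK01 hl1
  have hKZ : (K₀ : ℝ) ≤ Z := by
    calc (K₀ : ℝ) ≤ K₀ * l := le_mul_of_one_le_right (by positivity) hl1
      _ = (K₀ * l) ^ 1 := (pow_one _).symm
      _ ≤ (K₀ * l) ^ K₀ := pow_le_pow_right₀ hKl1 (by omega)
      _ ≤ Z := hZ
  have hKZ' : K₀ ≤ Z := by exact_mod_cast hKZ
  have hZ1 : (1 : ℝ) ≤ Z := by linarith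
  have hZ0 : (0 : ℝ) < Z := by linarith
  have hN1 : (1 : ℝ) ≤ N := by exact_mod_cast hN
  have hD1 : (1 : ℝ) ≤ D := by exact_mod_cast hD
  have hD1' : (1 : ℝ) ≤ D' := by exact_mod_cast hD'
  have hDD' : (D' : ℝ) ≤ D := by exact_mod_cast hDD
  have hR1 : (1 : ℝ) ≤ R := by exact_mod_cast hR
  have hRZ' : (R : ℝ) ≤ Z := by exact_mod_cast hRZ
  have hh : 0 < h := lt_of_lt_of_le (by positivity) hh0
  have hL0 : 0 ≤ Real.log Z := Real.log_nonneg hZ1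
  -- the logarithm
  have hinv : 1 / h ≤ (Z : ℝ) ^ C' * D := by
    rw [div_le_iff₀ hh]
    have h4 := mul_le_mul_of_nonneg_left hh0 (by positivity : (0 : ℝ) ≤ (Z : ℝ) ^ C' * D)
    rwa [mul_inv_cancel₀ (by positivity)] at h4
  have hx1 : 1 ≤ 3 * ((R * N : ℕ) : ℝ) * D' / h := by
    rw [le_div_iff₀ hh, one_mul]
    have h4 : (1 : ℝ) ≤ ((R * N : ℕ) : ℝ) := by exact_mod_cast Nat.mul_pos hR hN
    have h5 : (1 : ℝ) ≤ ((R * N : ℕ) : ℝ) * D' := one_le_mul_of_one_le_of_one_le h4 hD1'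
    nlinarith
  have hlog0 : 0 ≤ Real.log (3 * ((R * N : ℕ) : ℝ) * D' / h) := Real.log_nonneg hx1
  have hlog : Real.log (3 * ((R * N : ℕ) : ℝ) * D' / h) ≤ ((C' : ℝ) + 1) * Real.log Z + 2 * l := by
    have h4 : 3 * ((R * N : ℕ) : ℝ) * D' / h ≤ (Z : ℝ) ^ (C' + 1) * ((3 * N * D) * (3 * N * D)) := by
      push_cast
      calc 3 * ((R : ℝ) * N) * D' / h = 3 * ((R : ℝ) * N) * D' * (1 / h) := by ring
        _ ≤ 3 * ((Z : ℝ) * N) * D * ((Z : ℝ) ^ C' * D) := by gcongr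
        _ = (Z : ℝ) ^ (C' + 1) * ((3 * N * D) * (1 * 1 * D)) := by ring
        _ ≤ (Z : ℝ) ^ (C' + 1) * ((3 * N * D) * (3 * N * D)) := by gcongr; norm_num
    have h5 := Real.log_le_log (by linarith) h4
    have h6 : Real.log ((Z : ℝ) ^ (C' + 1) * ((3 * N * D) * (3 * N * D))) = ((C' : ℝ) + 1) * Real.log Z + (l + l) := by
      rw [Real.log_mul (by positivity) (by positivity), Real.log_mul (by positivity) (by positivity), Real.log_pow,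
        ← hl]
      push_cast
      ring
    rw [h6] at h5
    linarith
  have hmax : Real.log (3 * ((R * N : ℕ) : ℝ) * D' / h) ^ C ≤
      2 ^ C * ((C' : ℝ) + 1) ^ C * Real.log Z ^ C + 4 ^ C * l ^ C := by
    obtain ⟨u, hu⟩ : ∃ u : ℝ, u = ((C' : ℝ) + 1) * Real.log Z := ⟨_, rfl⟩
    have hu0 : 0 ≤ u := by rw [hu]; positivity
    have h4 : Real.log (3 * ((R * N : ℕ) : ℝ) * D' / h) ^ C ≤ (u + 2 * l) ^ C := by
      refine pow_le_pow_left₀ hlog0 ?_ C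
      rw [hu]
      exact hlog
    have h5 : (u + 2 * l) ^ C ≤ (2 * u) ^ C + (2 * (2 * l)) ^ C := by
      rcases le_total u (2 * l) with h6 | h6
      · calc (u + 2 * l) ^ C ≤ (2 * (2 * l)) ^ C := pow_le_pow_left₀ (by positivity) (by linarith) C
          _ ≤ _ := le_add_of_nonneg_left (by positivity)
      · calc (u + 2 * l) ^ C ≤ (2 * u) ^ C := pow_le_pow_left₀ (by positivity) (by linarith) C
          _ ≤ _ := le_add_of_nonneg_right (by positivity)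
    have h6 : (2 * u) ^ C + (2 * (2 * l)) ^ C = 2 ^ C * ((C' : ℝ) + 1) ^ C * Real.log Z ^ C + 4 ^ C * l ^ C := by
      rw [hu, show 2 * (2 * l) = 4 * l by ring, mul_pow, mul_pow, mul_pow]
      ring
    linarith
  -- the two terms
  have hterm1 : 2 ^ C * ((C' : ℝ) + 1) ^ C * Real.log Z ^ C ≤ c / 3 * Z := by
    have h4 := hK Z (by omega)
    rw [Real.norm_of_nonneg (pow_nonneg hL0 C), id, Real.norm_of_nonneg hZ0.le] at h4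
    have h5 : B * Real.log Z ^ C ≤ Z := by
      calc B * Real.log Z ^ C ≤ B * (B⁻¹ * Z) := mul_le_mul_of_nonneg_left h4 hB0.le
        _ = Z := by rw [← mul_assoc, mul_inv_cancel₀ hB0.ne', one_mul]
    have h6 : 2 ^ C * ((C' : ℝ) + 1) ^ C * Real.log Z ^ C = c / 3 * (B * Real.log Z ^ C) := by
      rw [hB]
      field_simp
    rw [h6]
    exact mul_le_mul_of_nonneg_left h5 (by positivity)
  have hterm2 : 4 ^ C * l ^ C ≤ c / 3 * Z := by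
    have h4 : (l ^ C) ^ 2 ≤ Z := by
      calc (l ^ C) ^ 2 = l ^ (2 * C) := by rw [← pow_mul, mul_comm]
        _ ≤ (K₀ * l) ^ (2 * C) := pow_le_pow_left₀ (by linarith) (le_mul_of_one_le_left (by linarith) hK01) _
        _ ≤ (K₀ * l) ^ K₀ := pow_le_pow_right₀ hKl1 (by omega)
        _ ≤ Z := hZ
    have h5 : B2 ^ 2 ≤ Z := by
      refine hK'.trans ?_
      exact_mod_cast (by omega : K' ≤ Z)
    have h6 : B2 * l ^ C ≤ Z := by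
      refine abs_le_of_sq_le_sq' ?_ hZ0.le |>.2
      rw [mul_pow, sq (Z : ℝ)]
      exact mul_le_mul h5 h4 (by positivity) hZ0.le
    have h7 : 4 ^ C * l ^ C = c / 3 * (B2 * l ^ C) := by
      rw [hB2]
      field_simp
    rw [h7]
    exact mul_le_mul_of_nonneg_left h6 (by positivity)
  have hDh : (D' : ℝ) * h ^ k * Z ≤ 1 := by
    have h4 : (D' : ℝ) * h ^ k ≤ D * h ^ k := mul_le_mul_of_nonneg_right hDD' (by positivity)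
    have h5 : (Z : ℝ) ≤ (Z : ℝ) ^ C' := by
      calc (Z : ℝ) = (Z : ℝ) ^ 1 := (pow_one _).symm
        _ ≤ (Z : ℝ) ^ C' := pow_le_pow_right₀ hZ1 hC'
    calc (D' : ℝ) * h ^ k * Z ≤ D * h ^ k * (Z : ℝ) ^ C' :=
          mul_le_mul h4 h5 hZ0.le (by positivity)
      _ = (Z : ℝ) ^ C' * ((D : ℝ) * h ^ k) := by ring
      _ ≤ 1 := hh2
  calc (D' : ℝ) * h ^ k * Real.log (3 * ((R * N : ℕ) : ℝ) * D' / h) ^ C
      ≤ (D' : ℝ) * h ^ k * (c / 3 * Z + c / 3 * Z) :=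
        mul_le_mul_of_nonneg_left (by linarith) (by positivity)
    _ = (D' : ℝ) * h ^ k * Z * (2 * c / 3) := by ring
    _ ≤ 1 * (2 * c / 3) := mul_le_mul_of_nonneg_right hDh (by positivity)
    _ < c := by linarith

theorem num_cnv (k C' K₀ : ℕ) (hk : 1 ≤ k) : ∃ c : ℝ, 0 < c ∧ ∀ N D : ℕ, 1 ≤ N → 1 ≤ D →
    ∀ h : ℝ, 0 ≤ h → (∀ Z : ℕ, (K₀ * Real.log (3 * N * D)) ^ K₀ ≤ Z →
      1 < (Z : ℝ) ^ C' * ((D : ℝ) * h ^ k)) →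
    c ≤ (D : ℝ) ^ (1 / (k : ℝ)) * Real.log (3 * N * D) ^ (K₀ * C') * h := by
  obtain ⟨B, hB⟩ : ∃ B : ℝ, B = (2 * (K₀ : ℝ) ^ K₀) ^ C' := ⟨_, rfl⟩
  have hKK : (1 : ℝ) ≤ (K₀ : ℝ) ^ K₀ := by
    rcases Nat.eq_zero_or_pos K₀ with h0 | h0
    · rw [h0, pow_zero]
    · exact one_le_pow₀ (by exact_mod_cast h0)
  have hB1 : 1 ≤ B := by
    rw [hB]
    exact one_le_pow₀ (by linarith)
  refine ⟨1 / B, by positivity, fun N D hN hD h hh hyp => ?_⟩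
  have h3 := three_le hN hD
  obtain ⟨l, hl⟩ : ∃ l : ℝ, l = Real.log (3 * N * D) := ⟨_, rfl⟩
  rw [← hl] at hyp ⊢
  have hl1 : 1 ≤ l := by rw [hl]; exact log3 h3
  have hD1 : (1 : ℝ) ≤ D := by exact_mod_cast hD
  have hD0 : (0 : ℝ) ≤ D := by linarith
  have hX1 : 1 ≤ ((K₀ : ℝ) * l) ^ K₀ := by
    rw [mul_pow]
    exact one_le_mul_of_one_le_of_one_le hKK (one_le_pow₀ hl1)
  have h4 := hyp ⌈((K₀ : ℝ) * l) ^ K₀⌉₊ (Nat.le_ceil _)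
  have h5 : ((⌈((K₀ : ℝ) * l) ^ K₀⌉₊ : ℕ) : ℝ) ≤ 2 * ((K₀ : ℝ) * l) ^ K₀ := by
    have h6 := Nat.ceil_lt_add_one (by linarith : 0 ≤ ((K₀ : ℝ) * l) ^ K₀)
    linarith
  have hk0 : (k : ℝ) ≠ 0 := by
    have : (1 : ℝ) ≤ k := by exact_mod_cast hk
    linarith
  obtain ⟨P, hP⟩ : ∃ P : ℝ, P = l ^ (K₀ * C') := ⟨_, rfl⟩
  have hP1 : 1 ≤ P := by rw [hP]; exact one_le_pow₀ hl1
  have h6 : 1 < B * P * ((D : ℝ) * h ^ k) := by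
    refine lt_of_lt_of_le h4 (mul_le_mul_of_nonneg_right ?_ (by positivity))
    calc ((⌈((K₀ : ℝ) * l) ^ K₀⌉₊ : ℕ) : ℝ) ^ C' ≤ (2 * ((K₀ : ℝ) * l) ^ K₀) ^ C' :=
          pow_le_pow_left₀ (Nat.cast_nonneg _) h5 _
      _ = B * P := by
          rw [hB, hP, mul_pow (K₀ : ℝ) l, ← mul_assoc, mul_pow, ← pow_mul]
  obtain ⟨δ, hδ⟩ : ∃ δ : ℝ, δ = (D : ℝ) ^ (1 / (k : ℝ)) := ⟨_, rfl⟩
  have hδ0 : 0 ≤ δ := by rw [hδ]; exact Real.rpow_nonneg hD0 _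
  have hδk : δ ^ k = D := by
    rw [hδ, ← Real.rpow_natCast, ← Real.rpow_mul hD0, one_div, inv_mul_cancel₀ hk0, Real.rpow_one]
  have hBP1 : 1 ≤ B * P := one_le_mul_of_one_le_of_one_le hB1 hP1
  have h7 : 1 < (B * (δ * P * h)) ^ k := by
    have h8 : (B * (δ * P * h)) ^ k = (B * P) ^ k * (δ ^ k * h ^ k) := by
      rw [← mul_pow, ← mul_pow]
      congr 1
      ring
    rw [h8, hδk]
    refine lt_of_lt_of_le h6 (mul_le_mul_of_nonneg_right ?_ (by positivity))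
    calc B * P = (B * P) ^ 1 := (pow_one _).symm
      _ ≤ (B * P) ^ k := pow_le_pow_right₀ hBP1 hk
  rw [← hδ, ← hP, div_le_iff₀ (by linarith)]
  by_contra hcon
  push Not at hcon
  have h9 : (B * (δ * P * h)) ^ k ≤ 1 := pow_le_one₀ (by positivity) (by linarith)
  linarith

end Pool.Agent.H28.PT4
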