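import Pool.Agent.H28.PT4.Prep
import Pool.Agent.H28.PT4.LgD
import Pool.Agent.H28.PT4.NumL
import Pool.Agent.H28.PT4.Num
import Pool.Agent.H28.PT4.Deg

/-!
# POINTS THEOREM, PART IV, LOG VERSION, CorL: the inequality for one tuple

The proof of `core` (`Core.lean`, proved) with: `GpL` in the place of `gp`, `fodU`, `TowU`, `EndL`, `num_mono`, `num_endL`, the level `N * N₁` in the place of `N`. `C' = a₀ + k (2 a₁ + 3) + 1`, `C = C' + 1`, `C₁ = 2^(k^2) (P+1)^k`.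
`Z` with `(K₀ log (3 N₁ D₀))^K₀ ≤ Z`, `D₀ = degP 𝓛 γ`. `D = degP 𝓛 v ≤ C₁ D₀`: `num_mono` gives `(K₁ log (3 N₁ D))^K₁ ≤ Z` for every `K₁` used (`GpL`; the descent: `(A log (3 D))^A ≤ (A log (3 N₁ D))^A ≤ Z`; `num_endL`) and `2 + C₁ k^k ≤ Z`.
`h₁ = max (k h) ((Z^C' D)⁻¹)` as in `core`. `EndL` at the level `R * N₁`: `c ≤ D' h₁^k (log (3 R N₁ D' / h₁))^C`, `D' = degP (RF Ω b n (R * N₁)) y ≤ D`, against `num_endL`.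
-/

set_option autoImplicit false
set_option linter.unusedSectionVars false

open NumberField IntermediateField

namespace Pool.Agent.H28.PT4

open Pool.Agent.H33.TR Pool.Agent.H72.PB Pool.Agent.H72.RM Pool.Agent.H72.RG Pool.Agent.H11.TS

theorem coreL {K Ω : Type} [Field K] [NumberField K] [Field Ω] [CharZero Ω] [IsAlgClosed Ω]
    [Algebra K Ω] [IsGalois K Ω] {r : ℕ} (k : ℕ) (hk : 1 ≤ k) (S : Finset ℕ)
    (hS : ∀ p ∈ S, p.Prime) (b : Fin r → K) (NN : Set ℕ) (hTow : TowU Ω S b k)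
    (hEnd : EndL Ω b NN k) (Λ : Subgroup Ωˣ)
    (hΛ : ∀ x : Ωˣ, (x : Ω) ∈ DivG Ω b ↔ ∃ m : ℕ, 1 ≤ m ∧ x ^ m ∈ Λ) (a₀ a₁ : ℕ) :
    ∃ C : ℕ, ∀ K₁ : ℕ, ∃ K₀ : ℕ, ∀ N₁ : ℕ, 1 ≤ N₁ → (∀ q ∈ S, ¬ q ∣ N₁) →
      ∀ 𝓛 : IntermediateField K Ω, CovU S b NN N₁ 𝓛 → GpL k 𝓛 Λ N₁ a₀ a₁ K₁ →
      ∀ γ : Fin k → Ωˣ, IndM Λ γ → ∀ Z : ℕ, (K₀ * Real.log (3 * N₁ * degP 𝓛 γ)) ^ K₀ ≤ Z →
      ∀ h : ℝ, (∀ i, absLogHeight₁ (γ i : Ω) ≤ h) →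
      1 < (Z : ℝ) ^ C * ((degP 𝓛 γ : ℝ) * h ^ k) := by
  classical
  obtain ⟨A, hA1, hT⟩ := hTow
  obtain ⟨C', hC'⟩ : ∃ C' : ℕ, C' = a₀ + k * (2 * a₁ + 3) + 1 := ⟨_, rfl⟩
  have hC'a : a₀ ≤ C' := by omega
  have hC'b : k * (2 * a₁ + 3) ≤ C' := by omega
  have hC'c : 1 ≤ C' := by omega
  refine ⟨C' + 1, fun K₁ => ?_⟩
  obtain ⟨C₁, hC₁⟩ : ∃ C₁ : ℕ, C₁ = 2 ^ (k ^ 2) * ((∏ p ∈ S, p) + 1) ^ k := ⟨_, rfl⟩
  obtain ⟨CE, c, hc, hE⟩ := hEnd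
  obtain ⟨K₃, hK₃⟩ := num_endL k C' CE hC'c c hc
  obtain ⟨Ka, hKa⟩ := num_mono C₁ K₁ (2 + C₁ * k ^ k)
  obtain ⟨Kb, hKb⟩ := num_mono C₁ A 0
  obtain ⟨Kc, hKc⟩ := num_mono C₁ K₃ 0
  refine ⟨Ka + Kb + Kc, ?_⟩
  intro N₁ hN₁ hN₁S 𝓛 hcov hlow γ hγ Z hZ h hh
  by_contra hcon
  rw [not_lt] at hcon
  have hD₀1 : 1 ≤ degP 𝓛 γ := by
    rw [degP_eq]
    exact dgT_pos 𝓛 _
  obtain ⟨-, hZK⟩ := hKa (Ka + Kb + Kc) (by omega) N₁ (degP 𝓛 γ) 1 Z hN₁ hD₀1 le_rfl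
    (Nat.mul_pos (by rw [hC₁]; positivity) hD₀1) hZ
  have hZ2 : 2 ≤ Z := by omega
  have hZ1 : 1 ≤ Z := by omega
  have hZR : (1 : ℝ) ≤ Z := by exact_mod_cast hZ1
  have hZ0 : (0 : ℝ) < Z := by linarith
  have hkk : 1 ≤ k ^ k := Nat.one_le_pow _ _ hk
  have hC₁Z : C₁ * k ^ k ≤ Z := by omega
  have hmem : ∀ x : Ωˣ, (x : Ω) ∉ DivG Ω b ↔ ∀ m : ℕ, 1 ≤ m → x ^ m ∉ Λ := by
    intro x
    rw [hΛ x]
    push Not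
    exact Iff.rfl
  have hind : ∀ a : Fin k → ℤ, a ≠ 0 → ((∏ i, γ i ^ a i : Ωˣ) : Ω) ∉ DivG Ω b := fun a ha =>
    (hmem _).2 (hγ a ha)
  have hμ : ∀ N : ℕ, 1 ≤ N → (∀ q : ℕ, q.Prime → q ∣ N → q ∈ S) → ∀ ω : Ω, ω ^ N = 1 → ω ∈ 𝓛 := by
    intro N hN hq ω hω
    have hω' : ω ^ (N * N₁) = 1 := by
      rw [pow_mul, hω, one_pow]
    exact hcov.le 1 hcov.one N ⟨hN, hq⟩ (IntermediateField.subset_adjoin K _ (Or.inr (Or.inl hω')))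
  obtain ⟨v, hvind, hvh, hvS, hvd⟩ := prep S hS b 𝓛 hμ γ hind h hh
  have hvΛ : IndM Λ v := fun a ha => (hmem _).1 (hvind a ha)
  obtain ⟨w, hw⟩ : ∃ w : Fin k → Ω, w = fun i => (v i : Ω) := ⟨_, rfl⟩
  have hw0 : ∀ i, w i ≠ 0 := fun i => by
    rw [hw]
    exact (v i).ne_zero
  rw [← hw] at hvS hvd
  obtain ⟨D, hD⟩ : ∃ D : ℕ, D = dgT 𝓛 w := ⟨_, rfl⟩
  have hDP : degP 𝓛 v = D := by
    rw [degP_eq, hD, hw]
  have hD1 : 1 ≤ D := by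
    rw [hD]
    exact dgT_pos 𝓛 w
  obtain ⟨D₀, hD₀⟩ : ∃ D₀ : ℕ, D₀ = degP 𝓛 γ := ⟨_, rfl⟩
  rw [← hD₀] at hD₀1 hZ hcon
  rw [← hD, ← degP_eq, ← hD₀, ← hC₁] at hvd
  have hZa := (hKa (Ka + Kb + Kc) (by omega) N₁ D₀ D Z hN₁ hD₀1 hD1 hvd hZ).1
  have hZb := (hKb (Ka + Kb + Kc) (by omega) N₁ D₀ D Z hN₁ hD₀1 hD1 hvd hZ).1
  have hZc := (hKc (Ka + Kb + Kc) (by omega) N₁ D₀ D Z hN₁ hD₀1 hD1 hvd hZ).1
  have hDR : (1 : ℝ) ≤ D := by exact_mod_cast hD1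
  have hh0 : 0 ≤ h := (Pool.Agent.H72.PB.ht_nonneg _).trans (hh ⟨0, hk⟩)
  -- the height bound
  obtain ⟨t, ht⟩ : ∃ t : ℝ, t = ((Z : ℝ) ^ C' * D)⁻¹ := ⟨_, rfl⟩
  have hZD : (1 : ℝ) ≤ (Z : ℝ) ^ C' * D := by
    have h1 : (1 : ℝ) ≤ (Z : ℝ) ^ C' := one_le_pow₀ hZR
    nlinarith
  have ht0 : 0 < t := by
    rw [ht]
    exact inv_pos.2 (by linarith)
  have ht1 : t ≤ 1 := by
    rw [ht]
    exact inv_le_one_of_one_le₀ hZD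
  obtain ⟨h₁, hh₁⟩ : ∃ h₁ : ℝ, h₁ = max (k * h) t := ⟨_, rfl⟩
  have hh₁0 : 0 < h₁ := by
    rw [hh₁]
    exact lt_max_of_lt_right ht0
  have hkey : (Z : ℝ) ^ C' * ((D : ℝ) * h₁ ^ k) ≤ 1 := by
    rcases le_total (k * h) t with hle | hle
    · rw [hh₁, max_eq_right hle]
      have h1 : t ^ k ≤ t := by
        calc t ^ k ≤ t ^ 1 := pow_le_pow_of_le_one ht0.le ht1 hk
          _ = t := pow_one t
      calc (Z : ℝ) ^ C' * ((D : ℝ) * t ^ k) ≤ (Z : ℝ) ^ C' * ((D : ℝ) * t) := by gcongr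
        _ = ((Z : ℝ) ^ C' * D) * t := by ring
        _ = 1 := by
            rw [ht]
            exact mul_inv_cancel₀ (by linarith)
    · rw [hh₁, max_eq_left hle]
      refine le_trans ?_ hcon
      have h1 : (D : ℝ) ≤ C₁ * D₀ := by exact_mod_cast hvd
      have h2 : ((C₁ : ℝ) * (k : ℝ) ^ k) ≤ Z := by exact_mod_cast hC₁Z
      calc (Z : ℝ) ^ C' * ((D : ℝ) * (k * h) ^ k)
          ≤ (Z : ℝ) ^ C' * ((C₁ * D₀ : ℝ) * (k * h) ^ k) := by gcongr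
        _ = (Z : ℝ) ^ C' * (((C₁ : ℝ) * (k : ℝ) ^ k) * (D₀ * h ^ k)) := by
            rw [mul_pow]
            ring
        _ ≤ (Z : ℝ) ^ C' * ((Z : ℝ) * (D₀ * h ^ k)) := by gcongr
        _ = (Z : ℝ) ^ (C' + 1) * ((D₀ : ℝ) * h ^ k) := by ring
  have hh₁1 : h₁ ≤ 1 := by
    by_contra hlt
    rw [not_le] at hlt
    have h1 : (1 : ℝ) < h₁ ^ k := one_lt_pow₀ hlt (by omega)
    have h2 : (1 : ℝ) < ((Z : ℝ) ^ C' * D) * h₁ ^ k := by nlinarith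
    rw [mul_assoc] at h2
    linarith
  have hmono : ∀ j : ℕ, j ≤ C' → (Z : ℝ) ^ j * ((D : ℝ) * h₁ ^ k) ≤ 1 := by
    intro j hj
    refine le_trans ?_ hkey
    have h1 : (Z : ℝ) ^ j ≤ (Z : ℝ) ^ C' := pow_le_pow_right₀ hZR hj
    gcongr
  have hvh₁ : ∀ i, absLogHeight₁ (v i : Ω) ≤ h₁ := fun i =>
    (hvh i).trans (by rw [hh₁]; exact le_max_left _ _)
  -- the box
  obtain ⟨M₁, hM1, hM2⟩ := num_box k a₁ D Z hk hZ1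
  have hM₁D : M₁ ^ k ≤ D := le_trans (Nat.le_mul_of_pos_right _ (Nat.one_le_pow _ _ hZ1)) hM1
  have hgp : GPI 𝓛 w M₁ := by
    have h1 := hlow v hvΛ Z (by rw [hDP]; exact hZa) h₁ hvh₁
      (by rw [hDP]; exact hmono _ hC'a) M₁ (by rw [hDP]; exact hM1)
    rw [hw]
    exact h1
  -- the field of definition
  obtain ⟨n, hn, N, hN, hsub⟩ := fodU S b NN N₁ hN₁ 𝓛 hcov w
  have hdle : dgT (RF Ω b n (N * N₁)) w ≤ D := by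
    rw [hD]
    exact Set.ncard_le_ncard hsub (orbT_finite 𝓛 w)
  have hTPT : ∀ p ∈ S, TPT p (RF Ω b n (N * N₁)) w := by
    intro p hp ω m hω hmm
    exact stp_tpt hvS (hS p hp) hp ω m hω (hsub hmm)
  -- the descent
  obtain ⟨R, hR1, hRle, hT2⟩ := hT D hD1
  have hN₁R : (1 : ℝ) ≤ N₁ := by exact_mod_cast hN₁
  have hlog : (A * Real.log (3 * D)) ^ A ≤ (Z : ℝ) := by
    refine le_trans ?_ hZb
    have h1 : (3 : ℝ) * D ≤ 3 * N₁ * D := by nlinarith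
    have h2 : Real.log (3 * D) ≤ Real.log (3 * N₁ * D) := Real.log_le_log (by linarith) h1
    have h3 : 0 ≤ Real.log (3 * (D : ℝ)) := Real.log_nonneg (by linarith)
    exact pow_le_pow_left₀ (mul_nonneg (Nat.cast_nonneg _) h3)
      (mul_le_mul_of_nonneg_left h2 (Nat.cast_nonneg _)) _
  have hRZ : R ≤ Z := by
    have h1 : (R : ℝ) ≤ Z := hRle.trans hlog
    exact_mod_cast h1
  have hnum : (A * Real.log (3 * D)) ^ A *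
      (((Z ^ a₁ : ℕ) : ℝ) ^ 2 * (M₁ + 1) * h₁) ≤ 1 := by
    have h1 := num_ht k a₁ C' D Z M₁ h₁ hk hh₁0.le hZ2 hD1 hM₁D hC'b hkey
    refine le_trans (mul_le_mul_of_nonneg_right hlog ?_) h1
    positivity
  obtain ⟨g, hgΓ, hg0, -, hgorb⟩ := hT2 n N₁ (hcov.pos n hn) hN₁ (hcov.cop n hn) hN₁S N hN 𝓛
    (fun M hM => hcov.le n hn M hM) w hw0 hTPT hdle M₁ (Z ^ a₁) hgp
    (hdle.trans hM2) h₁ (fun i => by rw [hw]; exact hvh₁ i) hnum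
  -- the last step
  obtain ⟨y, hy⟩ : ∃ y : Fin k → Ωˣ, y = fun i => v i / Units.mk0 (g i) (hg0 i) := ⟨_, rfl⟩
  have hyw : (fun i => (y i : Ω)) = w / g := by
    funext i
    rw [hy, hw]
    simp
  have hDy : degP (RF Ω b n (R * N₁)) y ≤ D := by
    rw [degP_eq, hyw]
    exact (dgT_sub hg0 hgorb).trans hdle
  have hDy1 : 1 ≤ degP (RF Ω b n (R * N₁)) y := by
    rw [degP_eq]
    exact dgT_pos _ _
  have hfin := hE n hn (R * N₁) (Nat.mul_pos hR1 hN₁) v y (fun i => by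
      have h1 : ((v i / y i : Ωˣ) : Ω) = g i := by
        rw [hy]
        simp
      rw [h1]
      exact gam_div (hgΓ i)) hvind h₁ hh₁0 hh₁1 hvh₁
  have hfin2 := hK₃ N₁ D (degP (RF Ω b n (R * N₁)) y) R Z hN₁ hD1 hDy1 hDy hR1 hRZ hZc h₁
    (by rw [← ht, hh₁]; exact le_max_right _ _) hh₁1 hkey
  linarith

end Pool.Agent.H28.PT4
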