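import Pool.Agent.H28.PT4.Prep
import Pool.Agent.H28.PT4.CoU
import Pool.Agent.H28.PT4.Num
import Pool.Agent.H28.PT4.Deg
import Pool.Agent.H33.PT.Gpu

/-!
# POINTS THEOREM, PART IV, CorU: the inequality for one tuple, uniform in `N₁`

The proof of `core` (`Core.lean`, header) with: `gp_u k (e+1) c` (`Pool/Agent/H33/PT/Gpu.lean`) in the place of `gp`, `fodU`, `TowU`, `EndU`, `num_endU` (`CoU.lean`), the level `N * N₁` in the place of `N`; the roots of unity of `S`-order are in `𝓛` (`hcov.le 1`: `RF Ω b 1 (N * N₁)` contains the `N`-th roots of unity: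
`x^(N N₁) = (x^N)^(N₁) = 1`). `e' = e + 1`, `N₁ ≤ Z^e ≤ Z^(e')`. The constant `K₀` depends on `k, e, c₀, S, b, NN` and the constants of `hTow`, `hEnd` only.
-/

set_option autoImplicit false
set_option linter.unusedSectionVars false

open NumberField IntermediateField

namespace Pool.Agent.H28.PT4

open Pool.Agent.H33.TR Pool.Agent.H72.PB Pool.Agent.H72.RM Pool.Agent.H72.RG Pool.Agent.H11.TS

theorem coreU {K Ω : Type} [Field K] [NumberField K] [Field Ω] [CharZero Ω] [IsAlgClosed Ω]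
    [Algebra K Ω] [IsGalois K Ω] {r : ℕ} (k : ℕ) (hk : 1 ≤ k) (S : Finset ℕ)
    (hS : ∀ p ∈ S, p.Prime) (b : Fin r → K) (NN : Set ℕ) (hTow : TowU Ω S b k)
    (hEnd : EndU Ω b NN k) (Λ : Subgroup Ωˣ)
    (hΛ : ∀ x : Ωˣ, (x : Ω) ∈ DivG Ω b ↔ ∃ m : ℕ, 1 ≤ m ∧ x ^ m ∈ Λ) :
    ∃ C : ℕ, ∀ (e : ℕ) (c₀ : ℝ), 0 < c₀ → ∃ K₀ : ℕ, ∀ Z : ℕ, K₀ ≤ Z → ∀ N₁ : ℕ, 1 ≤ N₁ →
      (∀ q ∈ S, ¬ q ∣ N₁) → N₁ ≤ Z ^ e → ∀ 𝓛 : IntermediateField K Ω, CovU S b NN N₁ 𝓛 →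
      (∀ j : ℕ, 1 ≤ j → j < k →
        PtB 𝓛 Λ j (1 + 1 / (((e + 1 : ℕ) : ℝ) + 1)) (c₀ / (Z : ℝ) ^ 3)) →
      ∀ γ : Fin k → Ωˣ, IndM Λ γ → degP 𝓛 γ ≤ Z ^ e → ∀ h : ℝ,
      (∀ i, absLogHeight₁ (γ i : Ω) ≤ h) → 1 < (Z : ℝ) ^ C * ((degP 𝓛 γ : ℝ) * h ^ k) := by
  classical
  obtain ⟨A, hA1, hT⟩ := hTow
  obtain ⟨C', hC'⟩ : ∃ C' : ℕ, C' = k * (20 * k ^ 3 + 10 * k + 10) + 4 * r + 10 := ⟨_, rfl⟩
  have hk3 : k ≤ k ^ 3 := Nat.le_self_pow (by omega) k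
  have hC'a : 10 * k ^ 3 + 10 * k ≤ C' := by
    have h1 : 10 * k ^ 3 ≤ k * (20 * k ^ 3) := by nlinarith [Nat.zero_le (k ^ 3)]
    have h2 : 10 * k ≤ k * 10 := by omega
    rw [hC']
    nlinarith [Nat.zero_le (k * (10 * k))]
  have hC'b : k * (2 * (10 * k ^ 3 + 1) + 3) ≤ C' := by
    have h1 : k * (2 * (10 * k ^ 3 + 1) + 3) ≤ k * (20 * k ^ 3 + 10 * k + 10) :=
      Nat.mul_le_mul_left k (by omega)
    omega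
  have hC'c : 4 * r + 10 ≤ C' := by omega
  refine ⟨C' + 1, fun e c₀ hc₀ => ?_⟩
  obtain ⟨C₁, hC₁⟩ : ∃ C₁ : ℕ, C₁ = 2 ^ (k ^ 2) * ((∏ p ∈ S, p) + 1) ^ k := ⟨_, rfl⟩
  obtain ⟨ε, hε⟩ : ∃ ε : ℝ, ε = 1 / (4 * (((e + 1 : ℕ) : ℝ) + 1) * ((r : ℝ) + 1)) := ⟨_, rfl⟩
  have hε0 : 0 < ε := by
    rw [hε]
    positivity
  obtain ⟨c, hc, hE⟩ := hEnd ε hε0
  obtain ⟨K₁, -, hK₁⟩ := Pool.Agent.H33.PT.gp_u k (e + 1) hk c₀ hc₀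
  obtain ⟨K₂, hK₂⟩ := num_log A (e + 1)
  obtain ⟨K₃, hK₃⟩ := num_endU k r (e + 1) hk c hc ε hε
  refine ⟨2 + C₁ * k ^ k + K₁ + K₂ + K₃, ?_⟩
  intro Z hZ N₁ hN₁ hN₁S hN₁Z 𝓛 hcov hlow γ hγ hdeg h hh
  by_contra hcon
  rw [not_lt] at hcon
  have hZ2 : 2 ≤ Z := by omega
  have hZ1 : 1 ≤ Z := by omega
  have hZR : (1 : ℝ) ≤ Z := by exact_mod_cast hZ1
  have hZ0 : (0 : ℝ) < Z := by linarith
  have hkk : 1 ≤ k ^ k := Nat.one_le_pow _ _ hk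
  have hC₁Z : C₁ * k ^ k ≤ Z := by omega
  have hC₁Z' : C₁ ≤ Z := le_trans (Nat.le_mul_of_pos_right _ hkk) hC₁Z
  have hmem : ∀ x : Ωˣ, (x : Ω) ∉ DivG Ω b ↔ ∀ m : ℕ, 1 ≤ m → x ^ m ∉ Λ := by
    intro x
    rw [hΛ x]
    push Not
    exact Iff.rfl
  have hind : ∀ a : Fin k → ℤ, a ≠ 0 → ((∏ i, γ i ^ a i : Ωˣ) : Ω) ∉ DivG Ω b := fun a ha =>
    (hmem _).2 (hγ a ha)
  have hμ : ∀ N : ℕ, 1 ≤ N → (∀ q : ℕ, q.Prime → q ∣ N → q ∈ S) → ∀ ω : Ω, ω ^ N = 1 → ω ∈ 𝓛 := by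
    intro N hN hq ω hω
    have hω' : ω ^ (N * N₁) = 1 := by
      rw [pow_mul, hω, one_pow]
    exact hcov.le 1 hcov.one N ⟨hN, hq⟩ (IntermediateField.subset_adjoin K _ (Or.inr (Or.inl hω')))
  obtain ⟨v, hvind, hvh, hvS, hvd⟩ := prep S hS b 𝓛 hμ γ hind h hh
  have hvΛ : IndM Λ v := fun a ha => (hmem _).1 (hvind a ha)
  obtain ⟨w, hw⟩ : ∃ w : Fin k → Ω, w = fun i => (v i : Ω) := ⟨_, rfl⟩
  have hw0 : ∀ i, w i ≠ 0 := fun i => by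
    rw [hw]
    exact (v i).ne_zero
  rw [← hw] at hvS hvd
  obtain ⟨D, hD⟩ : ∃ D : ℕ, D = dgT 𝓛 w := ⟨_, rfl⟩
  have hDP : degP 𝓛 v = D := by
    rw [degP_eq, hD, hw]
  have hD1 : 1 ≤ D := by
    rw [hD]
    exact dgT_pos 𝓛 w
  obtain ⟨D₀, hD₀⟩ : ∃ D₀ : ℕ, D₀ = degP 𝓛 γ := ⟨_, rfl⟩
  rw [← hD₀] at hdeg hcon
  rw [← hD, ← degP_eq, ← hD₀, ← hC₁] at hvd
  have hDe : D ≤ Z ^ (e + 1) := by
    calc D ≤ C₁ * D₀ := hvd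
      _ ≤ Z * Z ^ e := Nat.mul_le_mul hC₁Z' hdeg
      _ = Z ^ (e + 1) := by ring
  have hDR : (1 : ℝ) ≤ D := by exact_mod_cast hD1
  have hh0 : 0 ≤ h := (Pool.Agent.H72.PB.ht_nonneg _).trans (hh ⟨0, hk⟩)
  -- the height bound
  obtain ⟨t, ht⟩ : ∃ t : ℝ, t = ((Z : ℝ) ^ C' * D)⁻¹ := ⟨_, rfl⟩
  have hZD : (1 : ℝ) ≤ (Z : ℝ) ^ C' * D := by
    have h1 : (1 : ℝ) ≤ (Z : ℝ) ^ C' := one_le_pow₀ hZR
    nlinarith
  have ht0 : 0 < t := by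
    rw [ht]
    exact inv_pos.2 (by linarith)
  have ht1 : t ≤ 1 := by
    rw [ht]
    exact inv_le_one_of_one_le₀ hZD
  obtain ⟨h₁, hh₁⟩ : ∃ h₁ : ℝ, h₁ = max (k * h) t := ⟨_, rfl⟩
  have hh₁0 : 0 < h₁ := by
    rw [hh₁]
    exact lt_max_of_lt_right ht0
  have hkey : (Z : ℝ) ^ C' * ((D : ℝ) * h₁ ^ k) ≤ 1 := by
    rcases le_total (k * h) t with hle | hle
    · rw [hh₁, max_eq_right hle]
      have h1 : t ^ k ≤ t := by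
        calc t ^ k ≤ t ^ 1 := pow_le_pow_of_le_one ht0.le ht1 hk
          _ = t := pow_one t
      calc (Z : ℝ) ^ C' * ((D : ℝ) * t ^ k) ≤ (Z : ℝ) ^ C' * ((D : ℝ) * t) := by gcongr
        _ = ((Z : ℝ) ^ C' * D) * t := by ring
        _ = 1 := by
            rw [ht]
            exact mul_inv_cancel₀ (by linarith)
    · rw [hh₁, max_eq_left hle]
      refine le_trans ?_ hcon
      have h1 : (D : ℝ) ≤ C₁ * D₀ := by exact_mod_cast hvd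
      have h2 : ((C₁ : ℝ) * (k : ℝ) ^ k) ≤ Z := by exact_mod_cast hC₁Z
      calc (Z : ℝ) ^ C' * ((D : ℝ) * (k * h) ^ k)
          ≤ (Z : ℝ) ^ C' * ((C₁ * D₀ : ℝ) * (k * h) ^ k) := by gcongr
        _ = (Z : ℝ) ^ C' * (((C₁ : ℝ) * (k : ℝ) ^ k) * (D₀ * h ^ k)) := by
            rw [mul_pow]
            ring
        _ ≤ (Z : ℝ) ^ C' * ((Z : ℝ) * (D₀ * h ^ k)) := by gcongr
        _ = (Z : ℝ) ^ (C' + 1) * ((D₀ : ℝ) * h ^ k) := by ring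
  have hh₁1 : h₁ ≤ 1 := by
    by_contra hlt
    rw [not_le] at hlt
    have h1 : (1 : ℝ) < h₁ ^ k := one_lt_pow₀ hlt (by omega)
    have h2 : (1 : ℝ) < ((Z : ℝ) ^ C' * D) * h₁ ^ k := by nlinarith
    rw [mul_assoc] at h2
    linarith
  have hmono : ∀ j : ℕ, j ≤ C' → (Z : ℝ) ^ j * ((D : ℝ) * h₁ ^ k) ≤ 1 := by
    intro j hj
    refine le_trans ?_ hkey
    have h1 : (Z : ℝ) ^ j ≤ (Z : ℝ) ^ C' := pow_le_pow_right₀ hZR hj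
    gcongr
  have hvh₁ : ∀ i, absLogHeight₁ (v i : Ω) ≤ h₁ := fun i =>
    (hvh i).trans (by rw [hh₁]; exact le_max_left _ _)
  -- the box
  obtain ⟨M₁, hM1, hM2⟩ := num_box k (10 * k ^ 3 + 1) D Z hk hZ1
  have hM₁D : M₁ ^ k ≤ D := le_trans (Nat.le_mul_of_pos_right _ (Nat.one_le_pow _ _ hZ1)) hM1
  have hgp : GPI 𝓛 w M₁ := by
    have h1 := hK₁ K Ω 𝓛 Λ Z (by omega) hlow v hvΛ (by rw [hDP]; exact hDe) h₁ hvh₁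
      (by rw [hDP]; exact hmono _ hC'a) M₁ (by rw [hDP]; exact hM1)
    rw [hw]
    exact h1
  -- the field of definition
  obtain ⟨n, hn, N, hN, hsub⟩ := fodU S b NN N₁ hN₁ 𝓛 hcov w
  have hdle : dgT (RF Ω b n (N * N₁)) w ≤ D := by
    rw [hD]
    exact Set.ncard_le_ncard hsub (orbT_finite 𝓛 w)
  have hTPT : ∀ p ∈ S, TPT p (RF Ω b n (N * N₁)) w := by
    intro p hp ω m hω hmm
    exact stp_tpt hvS (hS p hp) hp ω m hω (hsub hmm)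
  -- the descent
  obtain ⟨R, hR1, hRle, hT2⟩ := hT D hD1
  have hlog := hK₂ Z (by omega) D hD1 hDe
  have hRZ : R ≤ Z := by
    have h1 : (R : ℝ) ≤ Z := hRle.trans hlog
    exact_mod_cast h1
  have hnum : (A * Real.log (3 * D)) ^ A *
      (((Z ^ (10 * k ^ 3 + 1) : ℕ) : ℝ) ^ 2 * (M₁ + 1) * h₁) ≤ 1 := by
    have h1 := num_ht k (10 * k ^ 3 + 1) C' D Z M₁ h₁ hk hh₁0.le hZ2 hD1 hM₁D hC'b hkey
    refine le_trans (mul_le_mul_of_nonneg_right hlog ?_) h1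
    positivity
  obtain ⟨g, hgΓ, hg0, -, hgorb⟩ := hT2 n N₁ (hcov.pos n hn) hN₁ (hcov.cop n hn) hN₁S N hN 𝓛
    (fun M hM => hcov.le n hn M hM) w hw0 hTPT hdle M₁ (Z ^ (10 * k ^ 3 + 1)) hgp
    (hdle.trans hM2) h₁ (fun i => by rw [hw]; exact hvh₁ i) hnum
  -- the last step
  obtain ⟨y, hy⟩ : ∃ y : Fin k → Ωˣ, y = fun i => v i / Units.mk0 (g i) (hg0 i) := ⟨_, rfl⟩
  have hyw : (fun i => (y i : Ω)) = w / g := by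
    funext i
    rw [hy, hw]
    simp
  have hDy : degP (RF Ω b n (R * N₁)) y ≤ D := by
    rw [degP_eq, hyw]
    exact (dgT_sub hg0 hgorb).trans hdle
  have hfin := hE n hn (R * N₁) (Nat.mul_pos hR1 hN₁) v y (fun i => by
      have h1 : ((v i / y i : Ωˣ) : Ω) = g i := by
        rw [hy]
        simp
      rw [h1]
      exact gam_div (hgΓ i)) hvind h₁ hh₁0 hh₁1 hvh₁
  have hfin2 := hK₃ Z (by omega) D (degP (RF Ω b n (R * N₁)) y) R N₁ hD1 hDe hDy hRZ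
    (hN₁Z.trans (Nat.pow_le_pow_right hZ1 (Nat.le_succ e))) h₁ hh₁0
    (hmono _ hC'c)
  linarith

end Pool.Agent.H28.PT4
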