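import Pool.Agent.H28.PT4.Cov
import Pool.Agent.H72.PB.OrbB

/-!
# POINTS THEOREM, PART IV, Fod: the field of definition of the orbit of a tuple

`sep`: a finite set `X ⊂ Ω^k` (characteristic 0): there are natural numbers `c_i` with `x ↦ ∑ c_i x_i` injective on `X`. PROOF: `c_i = t^i`; for `x ≠ x' ∈ X` the polynomial `∑ (x_i - x'_i) T^i` is nonzero, finitely many roots; choose `t ∈ ℕ` which is no root of the product of all these polynomials.
`fod`. PROOF: `X = OrbT ⊥ w` (finite, `orbT_finite`), `c` from `sep`, `z = ∑ c_i w_i`. For `ρ` over `K`: `ρ z = ∑ c_i (ρ w)_i`. `P = minpoly 𝓛 z` mapped to `Ω[X]`; each coefficient is in `𝓛`, so in some `RF Ω b n N`; finitely many coefficients: a common `n ∈ NN`, `N` (products: `Cov.mul`, `rf_mono` in `H72/RM/RFa.lean`, `Snum` is multiplicative; induction over the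
finite support, model `cover_deg` in `Pool/Agent/H72/PB/CoverB.lean`). `F = RF Ω b n N ≤ 𝓛` (`Cov.le`). `dg_le_of_poly`: `dg F z ≤ natDegree P = natDegree (minpoly 𝓛 z) ≤ dg 𝓛 z` (`natDegree_le_dg`), and `Orb 𝓛 z ⊆ Orb F z` (`orb_mono`), both finite (`orb_finite`): equal (`Set.eq_of_subset_of_ncard_le`).
Let `x = ρ w`, `ρ` over `F`: `ρ z ∈ Orb F z = Orb 𝓛 z`, `ρ z = σ z` with `σ` over `𝓛`: `∑ c_i (ρ w)_i = ∑ c_i (σ w)_i`, both tuples are in `X`, so `act ρ w = act σ w ∈ OrbT 𝓛 w`.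
-/

set_option autoImplicit false
set_option linter.unusedSectionVars false

open NumberField IntermediateField

namespace Pool.Agent.H28.PT4

open Pool.Agent.H33.TR Pool.Agent.H72.PB Pool.Agent.H72.RM Pool.Agent.H72.RG Pool.Agent.H11.TS

theorem sep {Ω : Type} [Field Ω] [CharZero Ω] {k : ℕ} (X : Set (Fin k → Ω)) (hX : X.Finite) :
    ∃ c : Fin k → ℕ, Set.InjOn (fun x : Fin k → Ω => ∑ i, (c i : Ω) * x i) X := by
  classical
  let P : (Fin k → Ω) × (Fin k → Ω) → Polynomial Ω := fun p =>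
    ∑ i : Fin k, Polynomial.C (p.1 i - p.2 i) * Polynomial.X ^ (i : ℕ)
  have hP : ∀ p : (Fin k → Ω) × (Fin k → Ω), p.1 ≠ p.2 → P p ≠ 0 := by
    intro p hp h0
    obtain ⟨j, hj⟩ := Function.ne_iff.1 hp
    have h1 : (P p).coeff (j : ℕ) = p.1 j - p.2 j := by
      change (∑ i : Fin k, Polynomial.C (p.1 i - p.2 i) * Polynomial.X ^ (i : ℕ)).coeff (j : ℕ) = _
      rw [Polynomial.finsetSum_coeff, Finset.sum_eq_single j]
      · rw [Polynomial.coeff_C_mul, Polynomial.coeff_X_pow, if_pos rfl, mul_one]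
      · intro i _ hij
        rw [Polynomial.coeff_C_mul, Polynomial.coeff_X_pow,
          if_neg (fun h => hij (Fin.ext h.symm)), mul_zero]
      · intro h
        exact absurd (Finset.mem_univ j) h
    rw [h0, Polynomial.coeff_zero] at h1
    exact hj (sub_eq_zero.1 h1.symm)
  have hQ : (∏ p ∈ hX.toFinset.offDiag, P p) ≠ 0 :=
    Finset.prod_ne_zero_iff.2 fun p hp => hP p (Finset.mem_offDiag.1 hp).2.2
  obtain ⟨y, ⟨t, rfl⟩, hy⟩ := (Set.infinite_range_of_injective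
    (Nat.cast_injective (R := Ω))).exists_notMem_finset
      (∏ p ∈ hX.toFinset.offDiag, P p).roots.toFinset
  rw [Multiset.mem_toFinset, Polynomial.mem_roots hQ, Polynomial.IsRoot.def,
    Polynomial.eval_prod] at hy
  refine ⟨fun i => t ^ (i : ℕ), fun x hx x' hx' hxx => ?_⟩
  by_contra hne
  refine hy (Finset.prod_eq_zero (i := (x, x')) (Finset.mem_offDiag.2
    ⟨hX.mem_toFinset.2 hx, hX.mem_toFinset.2 hx', hne⟩) ?_)
  change (∑ i : Fin k, Polynomial.C (x i - x' i) * Polynomial.X ^ (i : ℕ)).eval ((t : ℕ) : Ω) = 0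
  rw [Polynomial.eval_finsetSum]
  have h2 : (∑ i : Fin k, (((t ^ (i : ℕ) : ℕ) : Ω)) * x i)
      = ∑ i : Fin k, (((t ^ (i : ℕ) : ℕ) : Ω)) * x' i := hxx
  rw [← sub_eq_zero, ← Finset.sum_sub_distrib] at h2
  rw [← h2]
  refine Finset.sum_congr rfl fun i _ => ?_
  rw [Polynomial.eval_mul, Polynomial.eval_C, Polynomial.eval_pow, Polynomial.eval_X]
  push_cast
  ring

private lemma snum_mul {S : Finset ℕ} {N M : ℕ} (hN : Snum S N) (hM : Snum S M) :
    Snum S (N * M) := by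
  refine ⟨Nat.mul_pos hN.1 hM.1, fun q hq hd => ?_⟩
  rcases (Nat.Prime.dvd_mul hq).1 hd with h | h
  · exact hN.2 q hq h
  · exact hM.2 q hq h

private lemma snum_one {S : Finset ℕ} : Snum S 1 :=
  ⟨le_refl 1, fun _ hq hd => absurd (Nat.dvd_one.1 hd) hq.ne_one⟩

private lemma cover_fin {K Ω : Type} [Field K] [NumberField K] [Field Ω] [CharZero Ω]
    [IsAlgClosed Ω] [Algebra K Ω] [IsGalois K Ω] {r : ℕ} {S : Finset ℕ} {b : Fin r → K}
    {NN : Set ℕ} {𝓛 : IntermediateField K Ω} (hcov : Cov S b NN 𝓛) (s : Finset Ω) :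
    (∀ x ∈ s, x ∈ 𝓛) → ∃ n ∈ NN, ∃ N : ℕ, Snum S N ∧ ∀ x ∈ s, x ∈ RF Ω b n N := by
  classical
  induction s using Finset.induction_on with
  | empty =>
    intro _
    exact ⟨1, hcov.one, 1, snum_one, fun x hx => absurd hx (Finset.notMem_empty x)⟩
  | insert a s ha ih =>
    intro h
    obtain ⟨n, hn, N, hN, hs⟩ := ih fun x hx => h x (Finset.mem_insert_of_mem hx)
    obtain ⟨n', hn', N', hN', ha'⟩ := hcov.cov a (h a (Finset.mem_insert_self a s))
    have h1 : 1 ≤ n * n' := Nat.mul_pos (hcov.pos n hn) (hcov.pos n' hn')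
    have h2 : 1 ≤ N * N' := Nat.mul_pos hN.1 hN'.1
    refine ⟨n * n', hcov.mul n hn n' hn', N * N', snum_mul hN hN', fun x hx => ?_⟩
    rcases Finset.mem_insert.1 hx with rfl | hx
    · exact rf_mono b n' N' (n * n') (N * N') (Dvd.intro_left n rfl) (Dvd.intro_left N rfl)
        h1 h2 ha'
    · exact rf_mono b n N (n * n') (N * N') (Dvd.intro n' rfl) (Dvd.intro N' rfl) h1 h2 (hs x hx)

private lemma rho_sum {K Ω : Type} [Field K] [Field Ω] [Algebra K Ω] {k : ℕ} (c : Fin k → ℕ)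
    (ρ : Ω ≃ₐ[K] Ω) (w : Fin k → Ω) :
    ρ (∑ i, (c i : Ω) * w i) = ∑ i, (c i : Ω) * act ρ w i := by
  rw [map_sum]
  refine Finset.sum_congr rfl fun i _ => ?_
  rw [map_mul, map_natCast]
  rfl

theorem fod {K Ω : Type} [Field K] [NumberField K] [Field Ω] [CharZero Ω] [IsAlgClosed Ω]
    [Algebra K Ω] [IsGalois K Ω] {r k : ℕ} (S : Finset ℕ) (b : Fin r → K) (NN : Set ℕ)
    (𝓛 : IntermediateField K Ω) (hcov : Cov S b NN 𝓛) (w : Fin k → Ω) :
    ∃ n ∈ NN, ∃ N : ℕ, Snum S N ∧ OrbT (RF Ω b n N) w ⊆ OrbT 𝓛 w := by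
  classical
  obtain ⟨c, hc⟩ := sep (OrbT (⊥ : IntermediateField K Ω) w) (orbT_finite _ w)
  obtain ⟨z, hz⟩ : ∃ z : Ω, z = ∑ i, (c i : Ω) * w i := ⟨_, rfl⟩
  have hint : IsIntegral 𝓛 z := Algebra.IsIntegral.isIntegral z
  obtain ⟨P, hPdef⟩ : ∃ P : Polynomial Ω, P = (minpoly 𝓛 z).map (algebraMap 𝓛 Ω) := ⟨_, rfl⟩
  have hP0 : P ≠ 0 := by
    rw [hPdef]
    exact Polynomial.map_ne_zero (minpoly.ne_zero hint)
  have hPdeg : P.natDegree = (minpoly 𝓛 z).natDegree := by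
    rw [hPdef]
    exact Polynomial.natDegree_map _
  have hPev : P.eval z = 0 := by
    rw [hPdef, Polynomial.eval_map_algebraMap]
    exact minpoly.aeval 𝓛 z
  have hPc : ∀ i, P.coeff i ∈ 𝓛 := by
    intro i
    rw [hPdef, Polynomial.coeff_map]
    exact ((minpoly 𝓛 z).coeff i).2
  obtain ⟨n, hn, N, hN, hF⟩ := cover_fin hcov (P.support.image P.coeff) (by
    intro x hx
    obtain ⟨i, _, rfl⟩ := Finset.mem_image.1 hx
    exact hPc i)
  refine ⟨n, hn, N, hN, ?_⟩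
  have hPF : ∀ i, P.coeff i ∈ RF Ω b n N := by
    intro i
    by_cases h : i ∈ P.support
    · exact hF _ (Finset.mem_image_of_mem _ h)
    · rw [Polynomial.notMem_support_iff.1 h]
      exact zero_mem _
  have hle : RF Ω b n N ≤ 𝓛 := hcov.le n hn N hN
  have hdeg : dg (RF Ω b n N) z ≤ dg 𝓛 z := by
    refine (dg_le_of_poly P hP0 hPF hPev).trans ?_
    rw [hPdeg]
    exact natDegree_le_dg 𝓛 z
  have heq : Orb 𝓛 z = Orb (RF Ω b n N) z :=
    Set.eq_of_subset_of_ncard_le (orb_mono hle z) hdeg (orb_finite _ z)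
  rintro x ⟨ρ, hρ, rfl⟩
  have h1 : ρ z ∈ Orb 𝓛 z := by
    rw [heq]
    exact ⟨ρ, hρ, rfl⟩
  obtain ⟨σ, hσ, hσz⟩ := h1
  have h2 : act σ w = act ρ w := by
    refine hc (orbT_mono bot_le w ⟨σ, hσ, rfl⟩) (orbT_mono bot_le w ⟨ρ, hρ, rfl⟩) ?_
    change ∑ i, (c i : Ω) * act σ w i = ∑ i, (c i : Ω) * act ρ w i
    rw [← rho_sum, ← rho_sum, ← hz, hσz]
  exact ⟨σ, hσ, h2⟩

end Pool.Agent.H28.PT4
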