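import Pool.Agent.H28.PT4.OrbA
import Pool.Agent.H72.RG.LfFacts
import Pool.Agent.H11.TS.FinB

/-!
# POINTS THEOREM, PART IV, Cov: covering of the big field; the interfaces of the descent and of the last step

* `Cov S b NN 𝓛`: `𝓛` is the union of the fields `RF Ω b n N = K(μ_n, μ_N, b^(1/N))`, `n ∈ NN` (a multiplicative set of numbers prime to `S`), `N` an `S`-number.
* `TowT`: the statement of the descent theorem `s_towerT` (for `N₁ = 1`).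
* `EndT`: the statement of the last step (`end_d` of `Pool/Agent/H33/PT/Edd.lean` with all `μ_i = 1`).
-/

set_option autoImplicit false
set_option linter.unusedSectionVars false

open NumberField IntermediateField

namespace Pool.Agent.H28.PT4

open Pool.Agent.H33.TR Pool.Agent.H72.PB Pool.Agent.H72.RM Pool.Agent.H72.RG Pool.Agent.H11.TS

/-- `N` is composed of primes of `S` -/
def Snum (S : Finset ℕ) (N : ℕ) : Prop := 1 ≤ N ∧ ∀ q : ℕ, q.Prime → q ∣ N → q ∈ S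

/-- `𝓛` is the union of the fields `K(μ_n, μ_N, b^(1/N))`, `n ∈ NN`, `N` an `S`-number -/
structure Cov {K Ω : Type} [Field K] [Field Ω] [Algebra K Ω] {r : ℕ} (S : Finset ℕ)
    (b : Fin r → K) (NN : Set ℕ) (𝓛 : IntermediateField K Ω) : Prop where
  pos : ∀ n ∈ NN, 1 ≤ n
  cop : ∀ n ∈ NN, ∀ q ∈ S, ¬ q ∣ n
  one : 1 ∈ NN
  mul : ∀ n ∈ NN, ∀ m ∈ NN, n * m ∈ NN
  le : ∀ n ∈ NN, ∀ N : ℕ, Snum S N → RF Ω b n N ≤ 𝓛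
  cov : ∀ x ∈ 𝓛, ∃ n ∈ NN, ∃ N : ℕ, Snum S N ∧ x ∈ RF Ω b n N

/-- the statement of the descent for tuples -/
def TowT {K : Type} (Ω : Type) [Field K] [NumberField K] [Field Ω] [CharZero Ω] [Algebra K Ω]
    {r : ℕ} (S : Finset ℕ) (b : Fin r → K) (k : ℕ) : Prop :=
  ∃ A : ℕ, 1 ≤ A ∧ ∀ Dm : ℕ, 1 ≤ Dm → ∃ R : ℕ, 1 ≤ R ∧ (R : ℝ) ≤ (A * Real.log (3 * Dm)) ^ A ∧
    ∀ n' : ℕ, 1 ≤ n' → (∀ q ∈ S, ¬ q ∣ n') → ∀ N : ℕ, Snum S N → ∀ 𝓛 : IntermediateField K Ω,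
    (∀ M : ℕ, Snum S M → RF Ω b n' M ≤ 𝓛) → ∀ w : Fin k → Ω, (∀ i, w i ≠ 0) →
    (∀ p ∈ S, TPT p (RF Ω b n' N) w) → dgT (RF Ω b n' N) w ≤ Dm → ∀ M₁ G : ℕ, GPI 𝓛 w M₁ →
    dgT (RF Ω b n' N) w ≤ G * (M₁ + 1) ^ k → ∀ h : ℝ, (∀ i, absLogHeight₁ (w i) ≤ h) →
    (A * Real.log (3 * Dm)) ^ A * ((G : ℝ) ^ 2 * (M₁ + 1) * h) ≤ 1 →
    ∃ g : Fin k → Ω, (∀ i, g i ∈ GammaS Ω b (S : Set ℕ)) ∧ (∀ i, g i ≠ 0) ∧ (∀ i, g i ∈ 𝓛) ∧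
      ∀ x ∈ OrbT (RF Ω b n' R) (w / g), g * x ∈ OrbT (RF Ω b n' N) w

/-- the statement of the last step -/
def EndT {K : Type} (Ω : Type) [Field K] [NumberField K] [Field Ω] [CharZero Ω] [Algebra K Ω]
    {r : ℕ} (b : Fin r → K) (NN : Set ℕ) (k : ℕ) : Prop :=
  ∀ ε : ℝ, 0 < ε → ∃ c : ℝ, 0 < c ∧ ∀ n' ∈ NN, ∀ R : ℕ, 1 ≤ R → ∀ w y : Fin k → Ωˣ,
    (∀ i, ((w i / y i : Ωˣ) : Ω) ∈ DivG Ω b) →
    (∀ a : Fin k → ℤ, a ≠ 0 → ((∏ i, w i ^ a i : Ωˣ) : Ω) ∉ DivG Ω b) →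
    ∀ θ : ℝ, 0 < θ → θ ≤ 1 → (∀ i, absLogHeight₁ (w i : Ω) ≤ θ) →
    c ≤ ((R : ℝ) ^ (r + 1) * degP (RF Ω b n' R) y) ^ (1 + ε) * θ ^ ((k : ℝ) - r * ε)

end Pool.Agent.H28.PT4
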