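import Pool.Agent.H28.PT4.OrbA
import Pool.Agent.H72.PB.DescB2

/-!
# POINTS THEOREM, PART IV, DesB: descent in the direction of the radicals, for tuples

Literally the proof of `desc_b2` in `Pool/Agent/H72/PB/DescB2.lean`, coordinate by coordinate.
1. `key`: for all `j`, `t` there is `e` with `σ_j (y t) = ξ_j^e (y t)`: the tuple `ε = act (σ j) y / y` satisfies `ε^(p^s) = 1` (coordinatewise), `s ≤ M`, so all `ε t` are `p^M`-th roots of unity, fixed by `σ_j`;
   `act (σ_j^p) y = ε^p * y`, `σ_j^p` fixes `L = Lf b F (p^(n+1)) (p^M)` (`hagree`); so `ε^p * y ∈ OrbT L y` and `hT` (with exponent `s`) gives `ε^p = 1`.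
2. `m t i = - e(i, t)`, `y' = y * fun t => ∏ i, (β i)^(m t i)`: `act (σ j) y' = y'`.
3. The induction over the finite set of indices as in the model, with `act ρ y' ∈ OrbT L y'`; `orbT_mono` instead of `orb_mono`.
-/

set_option autoImplicit false
set_option linter.unusedSectionVars false

open NumberField IntermediateField

namespace Pool.Agent.H28.PT4

open Pool.Agent.H33.TR Pool.Agent.H72.PB Pool.Agent.H72.RM Pool.Agent.H72.RG

variable {K Ω : Type} [Field K] [Field Ω] [CharZero Ω] [IsAlgClosed Ω] [Algebra K Ω]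
  [IsGalois K Ω] {r k : ℕ}

theorem desc_bT (p : ℕ) [Fact p.Prime] (b : Fin r → K) (hb : ∀ i, b i ≠ 0)
    (F : IntermediateField K Ω) (n M s : ℕ) (hnM : n + 1 ≤ M) (hsM : s ≤ M) (β : Fin r → Ω)
    (hβ : ∀ i, β i ^ (p ^ (n + 1)) = algebraMap K Ω (b i)) (ξ : Fin r → Ω)
    (hξ : ∀ j, IsPrimitiveRoot (ξ j) p) (σ : Fin r → (Ω ≃ₐ[K] Ω))
    (hσF : ∀ j, ∀ x ∈ F, σ j x = x) (hσM : ∀ j, ∀ x : Ω, x ^ (p ^ M) = 1 → σ j x = x)
    (hσβ : ∀ j i, σ j (β i) = (if i = j then ξ j else 1) * β i) (y : Fin k → Ω)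
    (hy0 : ∀ t, y t ≠ 0) (hys : ∀ j, act (σ j) (y ^ (p ^ s)) = y ^ (p ^ s))
    (hT : TPT p (Lf b F (p ^ (n + 1)) (p ^ M)) y) :
    ∃ m : Fin k → Fin r → ℤ,
      OrbT (Lf b F (p ^ n) (p ^ M)) (y * fun t => ∏ i, (β i) ^ (m t i)) =
        OrbT (Lf b F (p ^ (n + 1)) (p ^ M)) (y * fun t => ∏ i, (β i) ^ (m t i)) := by
  classical
  have hpp : p.Prime := Fact.out
  have hβ0 : ∀ i, β i ≠ 0 := by
    intro i h0
    have h1 := hβ i
    rw [h0, zero_pow (pow_pos hpp.pos _).ne'] at h1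
    exact hb i ((map_eq_zero (algebraMap K Ω)).1 h1.symm)
  have hpow : ∀ (e : ℕ), e ≤ M → ∀ x : Ω, x ^ (p ^ e) = 1 → x ^ (p ^ M) = 1 := by
    intro e he x hx
    have h1 : p ^ M = p ^ e * p ^ (M - e) := by
      rw [← pow_add]
      congr 1
      omega
    rw [h1, pow_mul, hx, one_pow]
  have hpM : ∀ x : Ω, x ^ p = 1 → x ^ (p ^ M) = 1 := by
    intro x hx
    exact hpow 1 (by omega) x (by rw [pow_one]; exact hx)
  -- an automorphism fixing the generators fixes the field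
  have hagree : ∀ g : Ω ≃ₐ[K] Ω, (∀ x ∈ F, g x = x) → (∀ x : Ω, x ^ (p ^ M) = 1 → g x = x) →
      (∀ i, g (β i) = β i) → ∀ x ∈ Lf b F (p ^ (n + 1)) (p ^ M), g x = x := by
    intro g h1 h2 h3 x hx
    refine fixed_of_mem_adjoin _ (g : Ω →ₐ[K] Ω) ?_ x hx
    rintro z (hz | hz | ⟨i, hi⟩)
    · exact h1 z hz
    · exact h2 z hz
    · have h4 : (z / β i) ^ (p ^ (n + 1)) = 1 := by
        rw [div_pow, hi, hβ i, div_self]
        intro h0
        exact hb i ((map_eq_zero (algebraMap K Ω)).1 h0)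
      have h5 := h2 _ (hpow (n + 1) hnM _ h4)
      have h6 : z = z / β i * β i := by rw [div_mul_cancel₀ _ (hβ0 i)]
      have h7 : g z = z := by
        conv_lhs => rw [h6]
        rw [map_mul, h5, h3 i]
        exact h6.symm
      exact h7
  have hσξ : ∀ j, σ j (ξ j) = ξ j := fun j => hσM j _ (hpM _ (hξ j).pow_eq_one)
  have hσβt : ∀ j i (t : ℕ), ((σ j) ^ t) (β i) = (if i = j then ξ j else 1) ^ t * β i := by
    intro j i t
    induction t with
    | zero => rw [pow_zero, pow_zero, one_mul, AlgEquiv.one_apply]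
    | succ t ih =>
      rw [pow_succ', AlgEquiv.mul_apply, ih, map_mul, map_pow, hσβ]
      have h1 : σ j (if i = j then ξ j else 1) = (if i = j then ξ j else 1) := by
        split_ifs
        · exact hσξ j
        · exact map_one _
      rw [h1]
      ring
  have hσFt : ∀ j (t : ℕ), ∀ x ∈ F, ((σ j) ^ t) x = x := by
    intro j t x hx
    induction t with
    | zero => rw [pow_zero, AlgEquiv.one_apply]
    | succ t ih => rw [pow_succ', AlgEquiv.mul_apply, ih, hσF j x hx]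
  have hσrt : ∀ j (t : ℕ), ∀ x : Ω, x ^ (p ^ M) = 1 → ((σ j) ^ t) x = x := by
    intro j t x hx
    induction t with
    | zero => rw [pow_zero, AlgEquiv.one_apply]
    | succ t ih => rw [pow_succ', AlgEquiv.mul_apply, ih, hσM j x hx]
  -- the quotients `σ j y / y`
  have key : ∀ j, ∃ e : Fin k → ℕ, ∀ t, σ j (y t) = ξ j ^ e t * y t := by
    intro j
    obtain ⟨ε, hε⟩ : ∃ ε : Fin k → Ω, ε = fun t => σ j (y t) / y t := ⟨_, rfl⟩
    have hεy : ∀ t, σ j (y t) = ε t * y t := fun t => by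
      rw [hε]
      change _ = σ j (y t) / y t * y t
      rw [div_mul_cancel₀ _ (hy0 t)]
    have hεs : ∀ t, ε t ^ (p ^ s) = 1 := by
      intro t
      have h0 : σ j (y t ^ (p ^ s)) = y t ^ (p ^ s) := congrFun (hys j) t
      rw [hε]
      change (σ j (y t) / y t) ^ (p ^ s) = 1
      rw [div_pow, ← map_pow, h0, div_self (pow_ne_zero _ (hy0 t))]
    have hεM : ∀ t, ε t ^ (p ^ M) = 1 := fun t => hpow s hsM (ε t) (hεs t)
    have hεt : ∀ (u : ℕ) (t : Fin k), ((σ j) ^ u) (y t) = ε t ^ u * y t := by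
      intro u t
      induction u with
      | zero => rw [pow_zero, pow_zero, one_mul, AlgEquiv.one_apply]
      | succ u ih =>
        rw [pow_succ', AlgEquiv.mul_apply, ih, map_mul, map_pow, hσM j (ε t) (hεM t), hεy]
        ring
    have h1 : ε ^ p * y ∈ OrbT (Lf b F (p ^ (n + 1)) (p ^ M)) y := by
      refine ⟨(σ j) ^ p, hagree ((σ j) ^ p) (hσFt j p) (hσrt j p) (fun i => ?_),
        funext fun t => hεt p t⟩
      rw [hσβt]
      split_ifs
      · rw [(hξ j).pow_eq_one, one_mul]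
      · rw [one_pow, one_mul]
    have h2 : ε ^ p = 1 := by
      refine hT (ε ^ p) s (fun t => ?_) h1
      change (ε t ^ p) ^ (p ^ s) = 1
      rw [← pow_mul, mul_comm, pow_mul, hεs, one_pow]
    have hNZp : NeZero p := ⟨hpp.pos.ne'⟩
    have h3 : ∀ t, ∃ e : ℕ, ξ j ^ e = ε t := by
      intro t
      obtain ⟨e, -, he⟩ := (hξ j).eq_pow_of_pow_eq_one (show ε t ^ p = 1 from congrFun h2 t)
      exact ⟨e, he⟩
    choose e he using h3
    exact ⟨e, fun t => by rw [he, hεy]⟩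
  choose e he using key
  have hξ0 : ∀ j, ξ j ≠ 0 := fun j => (hξ j).ne_zero hpp.pos.ne'
  refine ⟨fun t i => - (e i t : ℤ), ?_⟩
  obtain ⟨y', hy'⟩ : ∃ y' : Fin k → Ω, y' = y * fun t => ∏ i, (β i) ^ (- (e i t : ℤ)) := ⟨_, rfl⟩
  rw [← hy']
  have hσy' : ∀ j t, σ j (y' t) = y' t := by
    intro j t
    rw [hy']
    change σ j (y t * ∏ i, (β i) ^ (- (e i t : ℤ))) = y t * ∏ i, (β i) ^ (- (e i t : ℤ))
    rw [map_mul, he j, map_prod]
    have h1 : ∀ i, σ j ((β i) ^ (- (e i t : ℤ))) =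
        (if i = j then (ξ j) ^ (- (e j t : ℤ)) else 1) * (β i) ^ (- (e i t : ℤ)) := by
      intro i
      rw [map_zpow₀, hσβ, mul_zpow]
      congr 1
      split_ifs with h
      · rw [h]
      · exact one_zpow _
    rw [Finset.prod_congr rfl fun i _ => h1 i, Finset.prod_mul_distrib, Finset.prod_ite_eq',
      if_pos (Finset.mem_univ j), zpow_neg, zpow_natCast]
    field_simp [hξ0 j]
  have hσy't : ∀ j (u : ℕ) t, ((σ j) ^ u) (y' t) = y' t := by
    intro j u t
    induction u with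
    | zero => rw [pow_zero, AlgEquiv.one_apply]
    | succ u ih => rw [pow_succ', AlgEquiv.mul_apply, ih, hσy' j]
  -- the induction
  have hind : ∀ T : Finset (Fin r), ∀ ρ : Ω ≃ₐ[K] Ω, (∀ x ∈ F, ρ x = x) →
      (∀ x : Ω, x ^ (p ^ M) = 1 → ρ x = x) → (∀ i, ρ (β i ^ p) = β i ^ p) →
      (∀ i, i ∉ T → ρ (β i) = β i) → act ρ y' ∈ OrbT (Lf b F (p ^ (n + 1)) (p ^ M)) y' := by
    intro T
    induction T using Finset.induction_on with
    | empty =>
      intro ρ h1 h2 h3 h4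
      exact ⟨ρ, hagree ρ h1 h2 (fun i => h4 i (Finset.notMem_empty i)), rfl⟩
    | insert j T hj ih =>
      intro ρ h1 h2 h3 h4
      have h5 : (ρ (β j) / β j) ^ p = 1 := by
        rw [div_pow, ← map_pow, h3, div_self (pow_ne_zero _ (hβ0 j))]
      have h6 : ((ρ (β j) / β j)⁻¹) ^ p = 1 := by rw [inv_pow, h5, inv_one]
      have hNZp : NeZero p := ⟨hpp.pos.ne'⟩
      obtain ⟨c, -, hc⟩ := (hξ j).eq_pow_of_pow_eq_one h6
      have h7 : ρ (β j) = (ρ (β j) / β j) * β j := by rw [div_mul_cancel₀ _ (hβ0 j)]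
      have hρξ : ρ (ξ j ^ c) = ξ j ^ c := by
        apply h2
        rw [hc]
        exact hpM _ h6
      have h8 : act (ρ * (σ j) ^ c) y' ∈ OrbT (Lf b F (p ^ (n + 1)) (p ^ M)) y' := by
        refine ih (ρ * (σ j) ^ c) ?_ ?_ ?_ ?_
        · intro x hx
          rw [AlgEquiv.mul_apply, hσFt j c x hx, h1 x hx]
        · intro x hx
          rw [AlgEquiv.mul_apply, hσrt j c x hx, h2 x hx]
        · intro i
          have h9 : ((σ j) ^ c) (β i ^ p) = β i ^ p := by
            rw [map_pow, hσβt, mul_pow, ← pow_mul, mul_comm c p, pow_mul]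
            split_ifs
            · rw [(hξ j).pow_eq_one, one_pow, one_mul]
            · rw [one_pow, one_pow, one_mul]
          rw [AlgEquiv.mul_apply, h9, h3 i]
        · intro i hi
          by_cases hij : i = j
          · subst hij
            rw [AlgEquiv.mul_apply, hσβt, if_pos rfl, map_mul, hρξ, h7, hc, ← mul_assoc,
              inv_mul_cancel₀, one_mul]
            intro h0
            rw [h0, zero_pow hpp.pos.ne'] at h5
            exact zero_ne_one h5
          · rw [AlgEquiv.mul_apply, hσβt, if_neg hij, one_pow, one_mul,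
              h4 i (by simp [hij, hi])]
      have h10 : act (ρ * (σ j) ^ c) y' = act ρ y' := by
        funext t
        change (ρ * (σ j) ^ c) (y' t) = ρ (y' t)
        rw [AlgEquiv.mul_apply, hσy't]
      rw [h10] at h8
      exact h8
  apply Set.Subset.antisymm
  · rintro x ⟨ρ, hρ, rfl⟩
    have hsub : ∀ z ∈ ((F : Set Ω) ∪ ({x | x ^ (p ^ M) = 1} ∪
        {x | ∃ i, x ^ (p ^ n) = algebraMap K Ω (b i)})), ρ z = z := fun z hz =>
      hρ z (IntermediateField.subset_adjoin K _ hz)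
    refine hind Finset.univ ρ (fun x hx => hsub x (Or.inl hx))
      (fun x hx => hsub x (Or.inr (Or.inl hx))) (fun i => ?_) (fun i hi => ?_)
    · refine hsub _ (Or.inr (Or.inr ⟨i, ?_⟩))
      rw [← pow_mul, ← pow_succ', hβ]
    · exact absurd (Finset.mem_univ i) hi
  · exact orbT_mono (lf2_mono b F (p ^ n) (p ^ M) (p ^ (n + 1)) (p ^ M)
      (pow_dvd_pow p (Nat.le_succ n)) dvd_rfl (Nat.one_le_pow _ _ hpp.pos)) y'

end Pool.Agent.H28.PT4
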