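import Pool.Agent.H72.PB.OrbA
import Pool.Agent.H33.TR.Loc

/-!
# POINTS THEOREM, PART IV (MP_187c26_nt; think 1778): definitions for tuples

The one-dimensional model is the folder `Pool/Agent/H72/PB`. `Ω / K` Galois.
* `act ρ y`: the automorphism `ρ` applied to the coordinates of `y : Fin k → Ω`.
* `OrbT L y`: the conjugates of the tuple `y` over `L`, `dgT L y` their number.
* `TPT p L y`: no conjugate of `y` over `L` is `ω y` with `ω ≠ 1` a tuple of roots of unity of `p`-power order.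
* `STP S L y`: the same for all orders composed of primes of `S`.
* `GPI L y M`: the monomials `y^a`, `a ∈ [0, M]^k`, are linearly independent over `L`.
* `Cyc Lt θ w`: the union of the classes `OrbT Lt (θ^j w)`.
-/

set_option autoImplicit false
set_option linter.unusedSectionVars false

open NumberField IntermediateField

namespace Pool.Agent.H28.PT4

open Pool.Agent.H33.TR

variable {K Ω : Type} [Field K] [Field Ω] [Algebra K Ω] {k : ℕ}

/-- `ρ` applied to the coordinates -/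
def act (ρ : Ω ≃ₐ[K] Ω) (y : Fin k → Ω) : Fin k → Ω := fun i => ρ (y i)

/-- the conjugates of the tuple `y` over `L` -/
def OrbT (L : IntermediateField K Ω) (y : Fin k → Ω) : Set (Fin k → Ω) :=
  {x | ∃ ρ : Ω ≃ₐ[K] Ω, (∀ z ∈ L, ρ z = z) ∧ act ρ y = x}

/-- the number of the conjugates of the tuple `y` over `L` -/
noncomputable def dgT (L : IntermediateField K Ω) (y : Fin k → Ω) : ℕ := (OrbT L y).ncard

/-- no conjugate of `y` over `L` is `ω y`, `ω ≠ 1` a tuple of roots of unity of `p`-power order -/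
def TPT (p : ℕ) (L : IntermediateField K Ω) (y : Fin k → Ω) : Prop :=
  ∀ (ω : Fin k → Ω) (n : ℕ), (∀ i, ω i ^ (p ^ n) = 1) → ω * y ∈ OrbT L y → ω = 1

/-- no conjugate of `y` over `L` is `ω y`, `ω ≠ 1` a tuple of roots of unity of order composed of primes of `S` -/
def STP (S : Finset ℕ) (L : IntermediateField K Ω) (y : Fin k → Ω) : Prop :=
  ∀ (ω : Fin k → Ω) (N : ℕ), 1 ≤ N → (∀ q : ℕ, q.Prime → q ∣ N → q ∈ S) →
    (∀ i, ω i ^ N = 1) → ω * y ∈ OrbT L y → ω = 1

/-- the monomials `y^a`, `a ∈ [0, M]^k`, are independent over `L` -/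
def GPI (L : IntermediateField K Ω) (y : Fin k → Ω) (M : ℕ) : Prop :=
  LinearIndependent L (fun a : Bx k M => mn a y)

/-- the union of the classes over `Lt` of the `θ^j w` -/
def Cyc (Lt : IntermediateField K Ω) (θ : Ω ≃ₐ[K] Ω) (w : Fin k → Ω) : Set (Fin k → Ω) :=
  {x | ∃ j : ℕ, x ∈ OrbT Lt (act (θ ^ j) w)}

theorem act_one (y : Fin k → Ω) : act (1 : Ω ≃ₐ[K] Ω) y = y := rfl

theorem act_mul (ρ σ : Ω ≃ₐ[K] Ω) (y : Fin k → Ω) : act (ρ * σ) y = act ρ (act σ y) := rfl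

theorem act_hmul (ρ : Ω ≃ₐ[K] Ω) (y z : Fin k → Ω) : act ρ (y * z) = act ρ y * act ρ z := by
  funext i
  exact map_mul ρ _ _

theorem act_hpow (ρ : Ω ≃ₐ[K] Ω) (y : Fin k → Ω) (n : ℕ) : act ρ (y ^ n) = act ρ y ^ n := by
  funext i
  exact map_pow ρ _ _

theorem act_hinv (ρ : Ω ≃ₐ[K] Ω) (y : Fin k → Ω) : act ρ y⁻¹ = (act ρ y)⁻¹ := by
  funext i
  exact map_inv₀ ρ _

theorem act_hdiv (ρ : Ω ≃ₐ[K] Ω) (y z : Fin k → Ω) : act ρ (y / z) = act ρ y / act ρ z := by
  funext i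
  exact map_div₀ ρ _ _

theorem act_fix {ρ : Ω ≃ₐ[K] Ω} {L : IntermediateField K Ω} (h : ∀ z ∈ L, ρ z = z)
    {c : Fin k → Ω} (hc : ∀ i, c i ∈ L) : act ρ c = c := by
  funext i
  exact h _ (hc i)

theorem act_inj (ρ : Ω ≃ₐ[K] Ω) : Function.Injective (act (k := k) ρ) := by
  intro y z h
  funext i
  exact ρ.injective (congrFun h i)

theorem act_inv_apply (ρ : Ω ≃ₐ[K] Ω) (y : Fin k → Ω) : act ρ⁻¹ (act ρ y) = y := by
  funext i
  exact ρ.symm_apply_apply _

theorem act_apply_inv (ρ : Ω ≃ₐ[K] Ω) (y : Fin k → Ω) : act ρ (act ρ⁻¹ y) = y := by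
  funext i
  exact ρ.apply_symm_apply _

theorem act_mn (ρ : Ω ≃ₐ[K] Ω) {M : ℕ} (a : Bx k M) (y : Fin k → Ω) :
    ρ (mn a y) = mn a (act ρ y) := by
  unfold mn act
  rw [map_prod]
  exact Finset.prod_congr rfl fun i _ => map_pow _ _ _

theorem mn_hmul {F : Type} [Field F] {M : ℕ} (a : Bx k M) (y z : Fin k → F) :
    mn a (y * z) = mn a y * mn a z := by
  unfold mn
  rw [← Finset.prod_mul_distrib]
  exact Finset.prod_congr rfl fun i _ => mul_pow _ _ _

theorem mn_ne_zero {F : Type} [Field F] {M : ℕ} (a : Bx k M) (y : Fin k → F) (hy : ∀ i, y i ≠ 0) :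
    mn a y ≠ 0 :=
  Finset.prod_ne_zero_iff.2 fun i _ => pow_ne_zero _ (hy i)

/-- multiplication by a tuple of elements of `𝓛` does not change `GPI` -/
theorem gpi_mul {L : IntermediateField K Ω} {y c : Fin k → Ω} {M : ℕ} (h : GPI L y M)
    (hc : ∀ i, c i ∈ L) (hc0 : ∀ i, c i ≠ 0) : GPI L (c * y) M := by
  have hmem : ∀ a : Bx k M, mn a c ∈ L := fun a => prod_mem fun i _ => pow_mem (hc i) _
  have hne : ∀ a : Bx k M, mn a c ≠ 0 := fun a => mn_ne_zero a c hc0
  have h1 := h.units_smul (fun a : Bx k M => Units.mk0 (⟨mn a c, hmem a⟩ : L)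
    (fun h0 => hne a (congrArg Subtype.val h0)))
  refine (linearIndependent_equiv' (Equiv.refl _) ?_).1 h1
  funext a
  change mn a (c * y) = _
  rw [mn_hmul]
  rfl

end Pool.Agent.H28.PT4
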