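import Pool.Agent.H28.PT4.LgD
import Pool.Agent.H33.PT.Ede

/-!
# POINTS THEOREM, PART IV, LOG VERSION, EdL: the last step with logarithms

Copy of the proof of `end_e` (`Pool/Agent/H33/PT/Ede.lean`, proved; `deg_big'` in `Dbh.lean`) with all `μ_i = 1` and `LogB B ⊥ (r + k) 1 C₀ c₀` in the place of `PtB`: `m := R ⌈C/(Rθ)⌉ ≤ 2 C R / θ`, `F = [K:ℚ]`, `D = degP (RF Ω b n' R) y ≥ 1`, `A' = degP B γ ≤ F m^r D`:
`c₀ ≤ A' (log (3 A'))^C₀ ∏ h(γ_i) ≤ F m^r D (log (3 F m^r D))^C₀ (C/m)^r (2θ)^k = F C^r 2^k D θ^k (log (3 F m^r D))^C₀` (`x ↦ x (log (3x))^C₀` is increasing for `x ≥ 1`), and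
`log (3 F m^r D) ≤ log (3F) + r log (2C) + r log (R/θ) + log D ≤ B₁ log (3 R D / θ)`, `B₁ = log (3F) + r log (2C) + r + 1` (`log (3RD/θ) ≥ log 3 ≥ 1`, `R/θ ≤ 3RD/θ`, `D ≤ 3RD/θ`). So `EndL` with `C := C₀`, `c := c₀ / (F C^r 2^k B₁^C₀)`.
(`Real.log (3 * 1 * A')`: the level is `1`.)
-/

set_option autoImplicit false
set_option linter.unusedSectionVars false

open NumberField IntermediateField

namespace Pool.Agent.H28.PT4

open Pool.Agent.H33.TR Pool.Agent.H72.PB Pool.Agent.H72.RM Pool.Agent.H72.RG Pool.Agent.H11.TS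

section

variable {K Ω : Type} [Field K] [NumberField K] [Field Ω] [CharZero Ω] [IsAlgClosed Ω]
  [Algebra K Ω] [IsGalois K Ω]

private theorem lx_one {s : ℕ} (b : Fin s → K) : (1 : Ω) ∈ DivG Ω b :=
  ⟨1, le_rfl, 0, by simp⟩

/-- the division group -/
private def lxD (Ω : Type) [Field Ω] [CharZero Ω] [IsAlgClosed Ω]
    [Algebra K Ω] [IsGalois K Ω] {s : ℕ} (b : Fin s → K) : Subgroup Ωˣ where
  carrier := {u | (u : Ω) ∈ DivG Ω b}
  one_mem' := lx_one b
  mul_mem' := by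
    intro u v hu hv
    change ((u * v : Ωˣ) : Ω) ∈ DivG Ω b
    rw [Units.val_mul]
    exact div_mul hu hv
  inv_mem' := by
    rintro u ⟨N, hN, m, hm⟩
    refine ⟨N, hN, -m, ?_⟩
    rw [Units.val_inv_eq_inv_val, inv_pow, hm, ← Finset.prod_inv_distrib]
    refine Finset.prod_congr rfl fun i _ => ?_
    rw [Pi.neg_apply, zpow_neg]

private theorem lxD_mem {s : ℕ} (b : Fin s → K) (u : Ωˣ) : u ∈ lxD Ω b ↔ (u : Ω) ∈ DivG Ω b :=
  Iff.rfl

private theorem lxD_tors {s : ℕ} (b : Fin s → K) (u : Ωˣ) (M : ℕ) (hM : 1 ≤ M) (h : u ^ M = 1) :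
    u ∈ lxD Ω b := by
  refine ⟨M, hM, 0, ?_⟩
  have h1 := congrArg (fun z : Ωˣ => (z : Ω)) h
  simp only [Units.val_pow_eq_pow_val, Units.val_one] at h1
  rw [h1]
  simp

private theorem lxD_root {s : ℕ} (b : Fin s → K) (u : Ωˣ) (m : ℕ) (hm : 1 ≤ m) (i : Fin s)
    (h : (u : Ω) ^ m = algebraMap K Ω (b i)) : u ∈ lxD Ω b := by
  classical
  refine ⟨m, hm, fun l => if l = i then 1 else 0, ?_⟩
  rw [h, Finset.prod_eq_single i]
  · simp
  · intro l _ hl
    simp [hl]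
  · intro h
    exact absurd (Finset.mem_univ i) h

include K in
private theorem lx_int (x : Ω) : IsIntegral ℚ x := by
  have h1 : IsIntegral K x := IsGalois.integral K x
  exact isIntegral_trans x h1

include K in
private theorem lx_mul (x y : Ω) :
    absLogHeight₁ (x * y) ≤ absLogHeight₁ x + absLogHeight₁ y :=
  Pool.Agent.H4.RR.absLogHeight_mul_le Ω _ _ (lx_int (K := K) _) (lx_int (K := K) _)

include K in
private theorem lx_prod {ι : Type} (s : Finset ι) (f : ι → Ω) :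
    absLogHeight₁ (∏ i ∈ s, f i) ≤ ∑ i ∈ s, absLogHeight₁ (f i) := by
  classical
  induction s using Finset.induction_on with
  | empty =>
    have h := absLogHeight_zpow (1 : Ω) 0
    rw [zpow_zero] at h
    simp only [Int.cast_zero, abs_zero, zero_mul] at h
    simp [h]
  | insert a s ha ih =>
    rw [Finset.prod_insert ha, Finset.sum_insert ha]
    refine (lx_mul (K := K) _ _).trans ?_
    linarith

private theorem lx_pow (x : Ω) (m : ℕ) : absLogHeight₁ (x ^ m) = m * absLogHeight₁ x := by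
  have h := absLogHeight_zpow x (m : ℤ)
  rw [zpow_natCast] at h
  rw [h]
  congr 1
  push_cast
  exact abs_of_nonneg (Nat.cast_nonneg _)

private theorem lx_inv (x : Ω) : absLogHeight₁ x⁻¹ = absLogHeight₁ x := by
  have h := absLogHeight_zpow x (-1)
  rw [zpow_neg_one] at h
  rw [h]
  simp

end

private theorem ed_coreL {K Ω : Type} [Field K] [NumberField K] [Field Ω] [CharZero Ω] [IsAlgClosed Ω]
    [Algebra K Ω] [IsGalois K Ω] {s : ℕ} (b : Fin s → K)
    (hb : ∀ i, b i ≠ 0)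
    (hind : ∀ N : ℕ, 1 ≤ N → ∀ (m : Fin s → ℤ) (y : K), y ^ N = ∏ i, (b i) ^ (m i) →
      ∀ i, (N : ℤ) ∣ m i) (k : ℕ) (C : ℝ)
    (hC : C = 1 + ∑ j, absLogHeight₁ (algebraMap K Ω (b j))) (m : ℕ) (hm : 1 ≤ m)
    (F : IntermediateField K Ω) (w y : Fin k → Ωˣ)
    (hwy : ∀ i, ((w i / y i : Ωˣ) : Ω) ∈ DivG Ω b)
    (hw : ∀ a : Fin k → ℤ, a ≠ 0 → ((∏ i, w i ^ a i : Ωˣ) : Ω) ∉ DivG Ω b)
    (θ : ℝ) (hmθ : C ≤ m * θ)
    (hwθ : ∀ i, absLogHeight₁ (w i : Ω) ≤ θ) :
    ∃ x : Fin s → Ωˣ, (∀ i, (x i : Ω) ^ m = algebraMap K Ω (b i)) ∧ ∃ γ : Fin (s + k) → Ωˣ,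
      (∀ i, (γ i : Ω) ∈ IntermediateField.adjoin F
        ((Set.range fun i => (y i : Ω)) ∪ Set.range fun i => (x i : Ω))) ∧
      IndM (⊥ : Subgroup Ωˣ) γ ∧
      ∏ i, absLogHeight₁ ((γ i : Ωˣ) : Ω) ≤ (C / m) ^ s * (2 ^ k * θ ^ k) := by
  classical
  have hh0 : ∀ z : Ω, 0 ≤ absLogHeight₁ z := fun z => Pool.Agent.H72.PB.ht_nonneg z
  have hm0 : (0 : ℝ) < m := by exact_mod_cast hm
  have hhC : ∀ j, absLogHeight₁ (algebraMap K Ω (b j)) ≤ C := by
    intro j
    have h1 := Finset.single_le_sum (f := fun j => absLogHeight₁ (algebraMap K Ω (b j)))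
      (fun j _ => hh0 _) (Finset.mem_univ j)
    rw [hC]
    linarith
  have hβ0 : ∀ i, algebraMap K Ω (b i) ≠ 0 := fun i => (map_ne_zero _).2 (hb i)
  -- the roots
  have hx0 : ∀ i, ∃ x : Ωˣ, (x : Ω) ^ m = algebraMap K Ω (b i) := by
    intro i
    obtain ⟨z, hz⟩ := IsAlgClosed.exists_pow_nat_eq (algebraMap K Ω (b i)) (n := m) hm
    have hz0 : z ≠ 0 := by
      rintro rfl
      rw [zero_pow (by omega)] at hz
      exact hβ0 i hz.symm
    exact ⟨Units.mk0 z hz0, hz⟩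
  choose x hx using hx0
  -- the exponents
  choose N hN e he using hwy
  obtain ⟨a, ha⟩ : ∃ a : Fin k → Fin s → ℤ, a = fun i j => ((m : ℤ) * e i j) / (N i : ℤ) := ⟨_, rfl⟩
  obtain ⟨y', hy'⟩ : ∃ y' : Fin k → Ωˣ, y' = fun i => y i * ∏ j, x j ^ a i j := ⟨_, rfl⟩
  refine ⟨x, hx, Fin.append x y', ?_, ?_⟩
  · have hsub1 : ∀ j, (x j : Ω) ∈ IntermediateField.adjoin F
        ((Set.range fun i => (y i : Ω)) ∪ Set.range fun i => (x i : Ω)) := fun j =>
      IntermediateField.subset_adjoin F _ (Or.inr ⟨j, rfl⟩)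
    have hsub2 : ∀ j, (y j : Ω) ∈ IntermediateField.adjoin F
        ((Set.range fun i => (y i : Ω)) ∪ Set.range fun i => (x i : Ω)) := fun j =>
      IntermediateField.subset_adjoin F _ (Or.inl ⟨j, rfl⟩)
    intro i
    refine Fin.addCases (fun j => ?_) (fun j => ?_) i
    · rw [Fin.append_left]
      exact hsub1 j
    · rw [Fin.append_right, hy']
      simp only
      rw [Units.val_mul, Units.coe_prod]
      refine mul_mem (hsub2 j) (prod_mem fun l _ => ?_)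
      rw [Units.val_zpow_eq_zpow_val]
      exact zpow_mem (hsub1 l) _
  -- the quotients
  have hq : ∀ i, w i / y' i = (w i / y i) * ∏ j, x j ^ (-(a i j)) := by
    intro i
    rw [hy']
    simp only
    rw [← div_div, div_eq_mul_inv (w i / y i), ← Finset.prod_inv_distrib]
    congr 1
    refine Finset.prod_congr rfl fun j _ => ?_
    rw [zpow_neg]
  have hqpow : ∀ i, ((w i / y' i : Ωˣ) : Ω) ^ (N i * m) =
      ∏ j, (algebraMap K Ω (b j)) ^ (((m : ℤ) * e i j) % (N i : ℤ)) := by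
    intro i
    rw [hq, Units.val_mul, mul_pow, pow_mul, he, Units.coe_prod, ← Finset.prod_pow,
      ← Finset.prod_pow, ← Finset.prod_mul_distrib]
    refine Finset.prod_congr rfl fun j _ => ?_
    have h1 : ((x j ^ (-(a i j)) : Ωˣ) : Ω) ^ (N i * m) =
        (algebraMap K Ω (b j)) ^ (-(a i j) * (N i : ℤ)) := by
      rw [Units.val_zpow_eq_zpow_val, ← zpow_natCast, ← zpow_mul, ← hx j, ← zpow_natCast,
        ← zpow_mul]
      congr 1
      push_cast
      ring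
    rw [h1, ← zpow_natCast, ← zpow_mul, ← zpow_add₀ (hβ0 j)]
    congr 1
    rw [Int.emod_def, ha]
    ring
  have hqh : ∀ i, absLogHeight₁ ((w i / y' i : Ωˣ) : Ω) ≤ θ := by
    intro i
    have hN0 : (0 : ℝ) < N i := by exact_mod_cast hN i
    have h1 : ((N i * m : ℕ) : ℝ) * absLogHeight₁ ((w i / y' i : Ωˣ) : Ω) ≤ N i * C := by
      rw [← lx_pow, hqpow]
      refine (lx_prod (K := K) _ _).trans ?_
      have h2 : ∀ j ∈ (Finset.univ : Finset (Fin s)),
          absLogHeight₁ ((algebraMap K Ω (b j)) ^ (((m : ℤ) * e i j) % (N i : ℤ))) ≤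
            N i * absLogHeight₁ (algebraMap K Ω (b j)) := by
        intro j _
        rw [absLogHeight_zpow]
        refine mul_le_mul_of_nonneg_right ?_ (hh0 _)
        have h3 : 0 ≤ ((m : ℤ) * e i j) % (N i : ℤ) :=
          Int.emod_nonneg _ (by have := hN i; omega)
        have h4 : ((m : ℤ) * e i j) % (N i : ℤ) < (N i : ℤ) :=
          Int.emod_lt_of_pos _ (by have := hN i; omega)
        rw [abs_of_nonneg (by exact_mod_cast h3)]
        exact_mod_cast h4.le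
      refine (Finset.sum_le_sum h2).trans ?_
      rw [← Finset.mul_sum]
      refine mul_le_mul_of_nonneg_left ?_ hN0.le
      rw [hC]
      linarith
    have h5 : (m : ℝ) * absLogHeight₁ ((w i / y' i : Ωˣ) : Ω) ≤ m * θ := by
      refine le_trans ?_ hmθ
      rw [Nat.cast_mul, mul_assoc] at h1
      exact le_of_mul_le_mul_left h1 hN0
    exact le_of_mul_le_mul_left h5 hm0
  have hy'h : ∀ i, absLogHeight₁ ((y' i : Ωˣ) : Ω) ≤ 2 * θ := by
    intro i
    have h1 : ((y' i : Ωˣ) : Ω) = (w i : Ω) * (((w i / y' i : Ωˣ) : Ω))⁻¹ := by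
      rw [← Units.val_inv_eq_inv_val, ← Units.val_mul]
      congr 1
      rw [inv_div, mul_div_cancel]
    rw [h1]
    refine (lx_mul (K := K) _ _).trans ?_
    rw [lx_inv]
    have h2 := hqh i
    have h3 := hwθ i
    linarith
  have hxh : ∀ j, absLogHeight₁ ((x j : Ωˣ) : Ω) ≤ C / m := by
    intro j
    rw [le_div_iff₀ hm0, mul_comm, ← lx_pow, hx]
    exact hhC j
  -- independence
  have hI : IndM (⊥ : Subgroup Ωˣ) (Fin.append x y') := by
    intro t ht M hM hcon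
    rw [Subgroup.mem_bot] at hcon
    apply ht
    obtain ⟨c, hc⟩ : ∃ c : Fin s → ℤ, c = fun j => t (Fin.castAdd k j) := ⟨_, rfl⟩
    obtain ⟨d, hd⟩ : ∃ d : Fin k → ℤ, d = fun i => t (Fin.natAdd s i) := ⟨_, rfl⟩
    have hsplit : ∏ i, Fin.append x y' i ^ t i = (∏ j, x j ^ c j) * ∏ i, y' i ^ d i := by
      rw [Fin.prod_univ_add]
      simp only [Fin.append_left, Fin.append_right, hc, hd]
    have hxD : ∀ j, x j ∈ lxD Ω b := fun j => lxD_root b _ m hm j (hx j)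
    have hγD : ∀ i, w i / y i ∈ lxD Ω b := fun i => ⟨N i, hN i, e i, he i⟩
    have hprodD : (∏ j, x j ^ c j) * ∏ i, y' i ^ d i ∈ lxD Ω b := by
      refine lxD_tors b _ M hM ?_
      rw [← hsplit]
      exact hcon
    have hy'D : ∏ i, y' i ^ d i ∈ lxD Ω b := by
      have h1 : ∏ j, x j ^ c j ∈ lxD Ω b := prod_mem fun j _ => zpow_mem (hxD j) _
      exact (Subgroup.mul_mem_cancel_left _ h1).1 hprodD
    have hwD : ∏ i, w i ^ d i ∈ lxD Ω b := by
      have h1 : ∏ i, w i ^ d i = (∏ i, (w i / y' i) ^ d i) * ∏ i, y' i ^ d i := by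
        rw [← Finset.prod_mul_distrib]
        refine Finset.prod_congr rfl fun i _ => ?_
        rw [← mul_zpow, div_mul_cancel]
      rw [h1]
      refine mul_mem (prod_mem fun i _ => zpow_mem ?_ _) hy'D
      rw [hq]
      exact mul_mem (hγD i) (prod_mem fun j _ => zpow_mem (hxD j) _)
    have hd0 : d = 0 := by
      by_contra hne
      exact hw d hne hwD
    have hc0 : ∀ j, c j = 0 := by
      have h1 : (∏ j, x j ^ c j) ^ M = 1 := by
        rw [hsplit, hd0] at hcon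
        simpa using hcon
      have h2 : ∏ j, (b j) ^ (c j * M) = 1 := by
        apply (algebraMap K Ω).injective
        rw [map_prod, map_one]
        have h3 : ((((∏ j, x j ^ c j) ^ M) ^ m : Ωˣ) : Ω) = 1 := by
          rw [h1, one_pow, Units.val_one]
        rw [← h3, Units.val_pow_eq_pow_val, Units.val_pow_eq_pow_val, Units.coe_prod,
          ← Finset.prod_pow, ← Finset.prod_pow]
        refine Finset.prod_congr rfl fun j _ => ?_
        rw [map_zpow₀, ← hx j, Units.val_zpow_eq_zpow_val, ← zpow_natCast, ← zpow_natCast,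
          ← zpow_natCast, ← zpow_mul, ← zpow_mul, ← zpow_mul]
        congr 1
        ring
      intro j
      have h4 := hind ((c j * M).natAbs + 1) (by omega) (fun j => c j * M) 1
        (by rw [one_pow]; exact h2.symm) j
      have h5 : c j * M = 0 := by
        refine Int.eq_zero_of_abs_lt_dvd h4 ?_
        push_cast
        rw [Int.abs_eq_natAbs]
        omega
      rcases mul_eq_zero.1 h5 with h | h
      · exact h
      · exfalso
        have : (M : ℤ) ≠ 0 := by omega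
        exact this h
    funext i
    refine Fin.addCases (fun j => ?_) (fun j => ?_) i
    · have := hc0 j
      rw [hc] at this
      exact this
    · have := congrFun hd0 j
      rw [hd] at this
      exact this
  -- the bound
  refine ⟨hI, ?_⟩
  rw [Fin.prod_univ_add]
  simp only [Fin.append_left, Fin.append_right]
  have h1 : ∏ j, absLogHeight₁ ((x j : Ωˣ) : Ω) ≤ (C / m) ^ s := by
    calc ∏ j, absLogHeight₁ ((x j : Ωˣ) : Ω) ≤ ∏ _j : Fin s, C / m :=
          Finset.prod_le_prod (fun j _ => hh0 _) fun j _ => hxh j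
      _ = (C / m) ^ s := by rw [Finset.prod_const, Finset.card_univ, Fintype.card_fin]
  have h2 : ∏ i, absLogHeight₁ ((y' i : Ωˣ) : Ω) ≤ 2 ^ k * θ ^ k := by
    calc ∏ i, absLogHeight₁ ((y' i : Ωˣ) : Ω) ≤ ∏ _i : Fin k, (2 * θ) :=
          Finset.prod_le_prod (fun j _ => hh0 _) fun j _ => hy'h j
      _ = 2 ^ k * θ ^ k := by
        rw [Finset.prod_const, Finset.card_univ, Fintype.card_fin, mul_pow]
  have hC0 : 0 ≤ C := by
    rw [hC]
    have := Finset.sum_nonneg fun j (_ : j ∈ (Finset.univ : Finset (Fin s))) =>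
      hh0 (algebraMap K Ω (b j))
    linarith
  exact mul_le_mul h1 h2 (Finset.prod_nonneg fun i _ => hh0 _)
    (pow_nonneg (div_nonneg hC0 hm0.le) _)

private theorem ed_real {r k : ℕ} {C₀ : ℕ} {C θ c₀ F D m R A P : ℝ} (hC : 1 ≤ C)
    (hθ0 : 0 < θ) (hθ1 : θ ≤ 1) (hF : 1 ≤ F) (hD : 1 ≤ D) (hm : 0 < m) (hR : 1 ≤ R)
    (hm2 : m ≤ 2 * C * R / θ) (hA1 : 1 ≤ A) (hA : A ≤ F * m ^ r * D)
    (hP0 : 0 ≤ P) (hP : P ≤ (C / m) ^ r * (2 ^ k * θ ^ k))
    (h : c₀ ≤ A * Real.log (3 * A) ^ C₀ * P) :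
    c₀ / (F * C ^ r * 2 ^ k * (Real.log (3 * F) + r * Real.log (2 * C) + r + 1) ^ C₀) ≤
      D * θ ^ k * Real.log (3 * R * D / θ) ^ C₀ := by
  have hC0 : 0 < C := by linarith
  have hF0 : 0 < F := by linarith
  have hD0 : 0 < D := by linarith
  have hR0 : 0 < R := by linarith
  have hA0 : 0 < A := by linarith
  have hlF : 0 ≤ Real.log (3 * F) := Real.log_nonneg (by linarith)
  have hlC : 0 ≤ Real.log (2 * C) := Real.log_nonneg (by linarith)
  have hr : (0 : ℝ) ≤ r := Nat.cast_nonneg r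
  obtain ⟨B₁, hB₁⟩ : ∃ B₁ : ℝ, B₁ = Real.log (3 * F) + r * Real.log (2 * C) + r + 1 := ⟨_, rfl⟩
  have hB₁0 : 0 < B₁ := by
    rw [hB₁]
    have := mul_nonneg hr hlC
    linarith
  rw [← hB₁]
  obtain ⟨X, hX⟩ : ∃ X : ℝ, X = F * m ^ r * D := ⟨_, rfl⟩
  rw [← hX] at hA
  have hX0 : 0 < X := by linarith
  obtain ⟨T, hT⟩ : ∃ T : ℝ, T = 3 * R * D / θ := ⟨_, rfl⟩
  rw [← hT]
  have hRD : 1 ≤ R * D := by nlinarith
  have hT3 : 3 ≤ T := by
    rw [hT, le_div_iff₀ hθ0]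
    nlinarith
  have hT0 : 0 < T := by linarith
  have hlT : 1 ≤ Real.log T := by
    rw [← Real.log_exp 1]
    refine Real.log_le_log (Real.exp_pos 1) ?_
    have := Real.exp_one_lt_d9
    linarith
  -- the logarithm
  have hlog : Real.log (3 * X) ≤ B₁ * Real.log T := by
    have hm3 : Real.log m ≤ Real.log (2 * C) + Real.log T := by
      rw [← Real.log_mul (by positivity) hT0.ne']
      refine Real.log_le_log hm (hm2.trans ?_)
      rw [hT]
      have h1 : 2 * C * R / θ = 2 * C * (R / θ) := by ring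
      rw [h1]
      refine mul_le_mul_of_nonneg_left ?_ (by positivity)
      refine div_le_div_of_nonneg_right ?_ hθ0.le
      nlinarith
    have hD3 : Real.log D ≤ Real.log T := by
      refine Real.log_le_log hD0 ?_
      rw [hT, le_div_iff₀ hθ0]
      have h1 : D * θ ≤ D * 1 := mul_le_mul_of_nonneg_left hθ1 hD0.le
      have h2 : 1 * D ≤ R * D := mul_le_mul_of_nonneg_right hR hD0.le
      nlinarith
    have h1 : 3 * X = (3 * F) * m ^ r * D := by
      rw [hX]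
      ring
    rw [h1, Real.log_mul (by positivity) hD0.ne', Real.log_mul (by positivity) (by positivity),
      Real.log_pow]
    have h2 : (r : ℝ) * Real.log m ≤ r * (Real.log (2 * C) + Real.log T) :=
      mul_le_mul_of_nonneg_left hm3 hr
    have h3 : 0 ≤ (Real.log (3 * F) + r * Real.log (2 * C)) * (Real.log T - 1) :=
      mul_nonneg (add_nonneg hlF (mul_nonneg hr hlC)) (by linarith)
    rw [hB₁]
    nlinarith
  have hlX0 : 0 ≤ Real.log (3 * X) := Real.log_nonneg (by linarith)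
  have h4 : A * Real.log (3 * A) ^ C₀ ≤ X * (B₁ * Real.log T) ^ C₀ := by
    have h5 : 0 ≤ Real.log (3 * A) := Real.log_nonneg (by linarith)
    refine mul_le_mul hA ?_ (pow_nonneg h5 _) hX0.le
    refine pow_le_pow_left₀ h5 (le_trans ?_ hlog) _
    exact Real.log_le_log (by positivity) (by linarith)
  rw [div_le_iff₀ (by positivity)]
  refine h.trans ?_
  have h6 : 0 ≤ X * (B₁ * Real.log T) ^ C₀ := by positivity
  have h7 : m ^ r * (C / m) ^ r = C ^ r := by
    rw [← mul_pow, mul_div_cancel₀ _ hm.ne']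
  calc A * Real.log (3 * A) ^ C₀ * P ≤ X * (B₁ * Real.log T) ^ C₀ * P :=
        mul_le_mul_of_nonneg_right h4 hP0
    _ ≤ X * (B₁ * Real.log T) ^ C₀ * ((C / m) ^ r * (2 ^ k * θ ^ k)) :=
        mul_le_mul_of_nonneg_left hP h6
    _ = F * D * (m ^ r * (C / m) ^ r) * (B₁ * Real.log T) ^ C₀ * (2 ^ k * θ ^ k) := by
        rw [hX]
        ring
    _ = _ := by
        rw [h7, mul_pow]
        ring

theorem end_L {K Ω : Type} [Field K] [NumberField K] [Field Ω] [CharZero Ω] [IsAlgClosed Ω]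
    [Algebra K Ω] [IsGalois K Ω] (B : IntermediateField ℚ Ω)
    (hB : ∀ (x : Ω) (k : ℕ), 1 ≤ k → x ^ k = 1 → x ∈ B)
    (hQ : ∀ j : ℕ, 1 ≤ j → ∃ (C : ℕ) (c : ℝ), 0 < c ∧ LogB B (⊥ : Subgroup Ωˣ) j 1 C c)
    {r : ℕ} (b : Fin r → K) (hb : ∀ i, b i ≠ 0)
    (hind : ∀ N : ℕ, 1 ≤ N → ∀ (m : Fin r → ℤ) (y : K), y ^ N = ∏ i, (b i) ^ (m i) →
      ∀ i, (N : ℤ) ∣ m i) (NN : Set ℕ) (hNN : ∀ n ∈ NN, 1 ≤ n) (k : ℕ) (hk : 1 ≤ k) :
    EndL Ω b NN k := by
  obtain ⟨C, hC⟩ : ∃ C : ℝ, C = 1 + ∑ j, absLogHeight₁ (algebraMap K Ω (b j)) := ⟨_, rfl⟩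
  have hC1 : 1 ≤ C := by
    rw [hC]
    have := Finset.sum_nonneg fun j (_ : j ∈ (Finset.univ : Finset (Fin r))) =>
      Pool.Agent.H72.PB.ht_nonneg (algebraMap K Ω (b j))
    linarith
  obtain ⟨C₀, c₀, hc₀, hPB⟩ := hQ (r + k) (by omega)
  have hF1 : (1 : ℝ) ≤ Module.finrank ℚ K := by
    exact_mod_cast Module.finrank_pos (R := ℚ) (M := K)
  have hlF : 0 ≤ Real.log (3 * (Module.finrank ℚ K : ℝ)) := Real.log_nonneg (by linarith)
  have hlC : 0 ≤ Real.log (2 * C) := Real.log_nonneg (by linarith)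
  refine ⟨C₀, c₀ / ((Module.finrank ℚ K : ℝ) * C ^ r * 2 ^ k *
    (Real.log (3 * (Module.finrank ℚ K : ℝ)) + r * Real.log (2 * C) + r + 1) ^ C₀),
    by positivity, ?_⟩
  intro n' hn'' R hR w y hwy hw θ hθ0 hθ1 hwθ
  have hn' := hNN n' hn''
  have hR0 : (0 : ℝ) < R := by exact_mod_cast hR
  have hR1 : (1 : ℝ) ≤ R := by exact_mod_cast hR
  obtain ⟨z, hz⟩ : ∃ z : ℝ, z = C / (R * θ) := ⟨_, rfl⟩
  have hz0 : 0 < z := by
    rw [hz]
    positivity
  have hzR : z * (R * θ) = C := by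
    rw [hz]
    field_simp
  obtain ⟨m, hm⟩ : ∃ m : ℕ, m = R * ⌈z⌉₊ := ⟨_, rfl⟩
  have hcz : 0 < ⌈z⌉₊ := Nat.ceil_pos.2 hz0
  have hm1 : 1 ≤ m := by
    rw [hm]
    exact Nat.mul_pos hR hcz
  have hmR : (m : ℝ) = R * (⌈z⌉₊ : ℝ) := by
    rw [hm]
    push_cast
    rfl
  have hmθ : C ≤ m * θ := by
    rw [hmR, ← hzR]
    have h1 := Nat.le_ceil z
    have h2 : 0 ≤ (R : ℝ) * θ := by positivity
    nlinarith [mul_le_mul_of_nonneg_right h1 h2]
  have hm2 : (m : ℝ) ≤ 2 * C * R / θ := by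
    have h1 := (Nat.ceil_lt_add_one hz0.le).le
    have h2 : (m : ℝ) ≤ R * (z + 1) := by
      rw [hmR]
      exact mul_le_mul_of_nonneg_left h1 hR0.le
    refine h2.trans ?_
    rw [le_div_iff₀ hθ0]
    have h3 : (R : ℝ) * (z + 1) * θ = C + R * θ := by
      calc (R : ℝ) * (z + 1) * θ = z * (R * θ) + R * θ := by ring
        _ = C + R * θ := by rw [hzR]
    rw [h3]
    have h4 : (R : ℝ) * θ ≤ R * C := mul_le_mul_of_nonneg_left (hθ1.trans hC1) hR0.le
    have h5 : C * 1 ≤ C * R := mul_le_mul_of_nonneg_left hR1 (by linarith)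
    linarith
  obtain ⟨x, hx, γ, hγ, hI, hprod⟩ := ed_coreL b hb hind k C hC m hm1 (RF Ω b n' R) w y hwy hw
    θ hmθ hwθ
  have hdeg := Pool.Agent.H33.PT.deg_big' B hB b hb n' R m hn' hR hm1 (by rw [hm]; exact Dvd.intro _ rfl) x hx y γ hγ
  have hin := hPB γ hI
  have hP0 : 0 ≤ ∏ i, absLogHeight₁ ((γ i : Ωˣ) : Ω) :=
    Finset.prod_nonneg fun i _ => Pool.Agent.H72.PB.ht_nonneg _
  have hA1 : 1 ≤ degP B γ := by
    by_contra hcon
    have h0 : degP B γ = 0 := by omega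
    rw [h0] at hin
    simp only [Nat.cast_zero, zero_mul] at hin
    linarith
  have hD1 : 1 ≤ degP (RF Ω b n' R) y := by
    by_contra hcon
    have h0 : degP (RF Ω b n' R) y = 0 := by omega
    rw [h0, mul_zero] at hdeg
    omega
  have hA1' : (1 : ℝ) ≤ degP B γ := by exact_mod_cast hA1
  have hD1' : (1 : ℝ) ≤ degP (RF Ω b n' R) y := by exact_mod_cast hD1
  have hdeg' : (degP B γ : ℝ) ≤ Module.finrank ℚ K * (m : ℝ) ^ r * degP (RF Ω b n' R) y := by
    exact_mod_cast hdeg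
  rw [Nat.cast_one, mul_one] at hin
  exact ed_real hC1 hθ0 hθ1 hF1 hD1' (by exact_mod_cast hm1) hR1 hm2 hA1' hdeg' hP0 hprod hin

end Pool.Agent.H28.PT4
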