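import Pool.Agent.H28.PT4.Core
import Pool.Agent.H33.PT.Cnv
import Pool.Agent.H11.TS.Rtt
import Pool.Agent.H72.PB.GlobX

/-!
# POINTS THEOREM, PART IV, Fin: the points theorem over fields of radicals

`fin_T`: strong induction on `k` from `core` and `cnv`: the hypothesis `hlow` of `core` for `j < k`: `root_trick` (H11/TS/Rtt) with the induction hypothesis for `1` (`δ = 1`, `1/1 + 1 = 2`) and for `j`.
-/

set_option autoImplicit false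
set_option linter.unusedSectionVars false

open NumberField IntermediateField

namespace Pool.Agent.H28.PT4

open Pool.Agent.H33.TR Pool.Agent.H72.PB Pool.Agent.H72.RM Pool.Agent.H72.RG Pool.Agent.H11.TS

/-- the equal height form of the points theorem over `𝓛` in dimension `k` -/
def PtH {K Ω : Type} [Field K] [Field Ω] [CharZero Ω] [Algebra K Ω] (𝓛 : IntermediateField K Ω)
    (Λ : Subgroup Ωˣ) (k : ℕ) : Prop :=
  ∀ δ : ℝ, 0 < δ → ∃ c : ℝ, 0 < c ∧ ∀ γ : Fin k → Ωˣ, IndM Λ γ → ∀ h : ℝ,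
    (∀ i, absLogHeight₁ (γ i : Ω) ≤ h) → c ≤ (degP 𝓛 γ : ℝ) ^ (1 / (k : ℝ) + δ) * h

/-- product form from the equal height form in the dimensions `1` and `j` -/
theorem ptB_of_ptH {K Ω : Type} [Field K] [NumberField K] [Field Ω] [CharZero Ω] [IsAlgClosed Ω]
    [Algebra K Ω] [IsGalois K Ω] (𝓛 : IntermediateField K Ω) (Λ : Subgroup Ωˣ)
    (h1 : PtH 𝓛 Λ 1) (j : ℕ) (hj : 1 ≤ j) (hh : PtH 𝓛 Λ j) (ε : ℝ) (hε : 0 < ε) :
    ∃ c : ℝ, 0 < c ∧ PtB 𝓛 Λ j (1 + ε) c := by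
  refine root_trick 𝓛 Λ j hj ?_ hh ε hε
  obtain ⟨c, hc, h⟩ := h1 1 one_pos
  refine ⟨c, hc, fun γ hγ => ?_⟩
  have h2 := h γ hγ (absLogHeight₁ (γ 0 : Ω)) (fun i => by rw [Subsingleton.elim i 0])
  have h3 : (1 : ℝ) / ((1 : ℕ) : ℝ) + 1 = 2 := by norm_num
  rwa [h3] at h2

theorem fin_T {K Ω : Type} [Field K] [NumberField K] [Field Ω] [CharZero Ω] [IsAlgClosed Ω]
    [Algebra K Ω] [IsGalois K Ω] {r : ℕ} (S : Finset ℕ)
    (hS : ∀ p ∈ S, p.Prime) (b : Fin r → K) (NN : Set ℕ) (𝓛 : IntermediateField K Ω)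
    (hcov : Cov S b NN 𝓛) (hTow : ∀ k : ℕ, 1 ≤ k → TowT Ω S b k)
    (hEnd : ∀ k : ℕ, 1 ≤ k → EndT Ω b NN k) (Λ : Subgroup Ωˣ)
    (hΛ : ∀ x : Ωˣ, (x : Ω) ∈ DivG Ω b ↔ ∃ m : ℕ, 1 ≤ m ∧ x ^ m ∈ Λ) :
    ∀ k : ℕ, 1 ≤ k → PtH 𝓛 Λ k := by
  intro k
  induction k using Nat.strong_induction_on with
  | _ k ih =>
    intro hk δ hδ
    refine Pool.Agent.H33.PT.cnv k hk 𝓛 Λ ?_ δ hδ
    refine core k hk S hS b NN 𝓛 hcov (hTow k hk) (hEnd k hk) Λ hΛ ?_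
    intro j hj hjk ε hε
    exact ptB_of_ptH 𝓛 Λ (ih 1 (by omega) le_rfl) j hj (ih j hjk hj) ε hε

end Pool.Agent.H28.PT4
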