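import Pool.Agent.H28.PT4.CorL
import Pool.Agent.H28.PT4.RtL

/-!
# POINTS THEOREM, PART IV, LOG VERSION, FinL: the points theorem with logarithms

`fin_L`: strong induction on `k` from `coreL`, `num_cnv`, `root_trickL` and the hypothesis `hGp` (the log version of `gp`).
-/

set_option autoImplicit false
set_option linter.unusedSectionVars false

open NumberField IntermediateField

namespace Pool.Agent.H28.PT4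

open Pool.Agent.H33.TR Pool.Agent.H72.PB Pool.Agent.H72.RM Pool.Agent.H72.RG Pool.Agent.H11.TS

/-- the log version of `gp`, for all fields `𝓛` and levels `N` in a class `P` -/
def HGp {K Ω : Type} [Field K] [Field Ω] [CharZero Ω] [Algebra K Ω] (Λ : Subgroup Ωˣ)
    (P : ℕ → IntermediateField K Ω → Prop) : Prop :=
  ∀ k : ℕ, 1 ≤ k → ∃ a₀ a₁ : ℕ, ∀ (C : ℕ) (c : ℝ), 0 < c → ∃ K₁ : ℕ, ∀ (N : ℕ)
    (𝓛 : IntermediateField K Ω), P N 𝓛 → (∀ j : ℕ, 1 ≤ j → j < k → LogB 𝓛 Λ j N C c) →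
    GpL k 𝓛 Λ N a₀ a₁ K₁

theorem fin_L {K Ω : Type} [Field K] [NumberField K] [Field Ω] [CharZero Ω] [IsAlgClosed Ω]
    [Algebra K Ω] [IsGalois K Ω] {r : ℕ} (S : Finset ℕ) (hS : ∀ p ∈ S, p.Prime) (b : Fin r → K)
    (NN : Set ℕ) (hTow : ∀ k : ℕ, 1 ≤ k → TowU Ω S b k) (hEnd : ∀ k : ℕ, 1 ≤ k → EndL Ω b NN k)
    (Λ : Subgroup Ωˣ) (hΛ : ∀ x : Ωˣ, (x : Ω) ∈ DivG Ω b ↔ ∃ m : ℕ, 1 ≤ m ∧ x ^ m ∈ Λ)
    (hGp : HGp Λ (fun (N : ℕ) (𝓛 : IntermediateField K Ω) =>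
      1 ≤ N ∧ (∀ q ∈ S, ¬ q ∣ N) ∧ CovU S b NN N 𝓛)) :
    ∀ k : ℕ, 1 ≤ k → ∃ (C : ℕ) (c : ℝ), 0 < c ∧ ∀ N₁ : ℕ, 1 ≤ N₁ → (∀ q ∈ S, ¬ q ∣ N₁) →
      ∀ 𝓛 : IntermediateField K Ω, CovU S b NN N₁ 𝓛 → LogH 𝓛 Λ k N₁ C c := by
  classical
  intro k
  induction k using Nat.strong_induction_on with
  | _ k ih =>
    intro hk
    -- product forms in the lower dimensions
    have hlow : ∀ j : ℕ, ∃ (C : ℕ) (c : ℝ), 0 < c ∧ (1 ≤ j → j < k → ∀ N₁ : ℕ, 1 ≤ N₁ →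
        (∀ q ∈ S, ¬ q ∣ N₁) → ∀ 𝓛 : IntermediateField K Ω, CovU S b NN N₁ 𝓛 →
        LogB 𝓛 Λ j N₁ C c) := by
      intro j
      by_cases hj : 1 ≤ j ∧ j < k
      · obtain ⟨C₁, c₁, hc₁, h₁⟩ := ih 1 (by omega) le_rfl
        obtain ⟨C₂, c₂, hc₂, h₂⟩ := ih j hj.2 hj.1
        obtain ⟨C₃, c₃, hc₃, h₃⟩ := root_trickL j hj.1 (max C₁ C₂) (min c₁ c₂) (lt_min hc₁ hc₂)
        refine ⟨C₃, c₃, hc₃, fun _ _ N₁ hN₁ hNS 𝓛 hcov => ?_⟩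
        exact h₃ K Ω 𝓛 Λ N₁ hN₁
          (logH_mono le_rfl hN₁ (le_max_left _ _) (min_le_left _ _) (h₁ N₁ hN₁ hNS 𝓛 hcov))
          (logH_mono hj.1 hN₁ (le_max_right _ _) (min_le_right _ _) (h₂ N₁ hN₁ hNS 𝓛 hcov))
      · exact ⟨0, 1, one_pos, fun h1 h2 => absurd ⟨h1, h2⟩ hj⟩
    choose Cf cf hcf hf using hlow
    obtain ⟨C, hC⟩ : ∃ C : ℕ, ∀ j < k, Cf j ≤ C :=
      ⟨(Finset.range k).sup Cf, fun j hj => Finset.le_sup (Finset.mem_range.2 hj)⟩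
    obtain ⟨c, hc, hcle⟩ : ∃ c : ℝ, 0 < c ∧ ∀ j < k, c ≤ cf j := by
      obtain ⟨k₀, -, hmin⟩ := Finset.exists_min_image (Finset.range (k + 1)) cf
        ⟨0, Finset.mem_range.2 (Nat.succ_pos k)⟩
      exact ⟨cf k₀, hcf k₀, fun j hj => hmin j (Finset.mem_range.2 (by omega))⟩
    obtain ⟨a₀, a₁, hG⟩ := hGp k hk
    obtain ⟨K₁, hK₁⟩ := hG C c hc
    obtain ⟨C', hC'⟩ := coreL k hk S hS b NN (hTow k hk) (hEnd k hk) Λ hΛ a₀ a₁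
    obtain ⟨K₀, hK₀⟩ := hC' K₁
    obtain ⟨c₂, hc₂, hnum⟩ := num_cnv k C' K₀ hk
    refine ⟨K₀ * C', c₂, hc₂, ?_⟩
    intro N₁ hN₁ hNS 𝓛 hcov γ hγ h hh
    have hgp : GpL k 𝓛 Λ N₁ a₀ a₁ K₁ := hK₁ N₁ 𝓛 ⟨hN₁, hNS, hcov⟩ fun j hj hjk =>
      logB_mono hN₁ (hC j hjk) (hcle j hjk) (hf j hj hjk N₁ hN₁ hNS 𝓛 hcov)
    have hD1 : 1 ≤ degP 𝓛 γ := by
      rw [degP_eq]
      exact dgT_pos 𝓛 _
    have hh0 : 0 ≤ h := (Pool.Agent.H72.PB.ht_nonneg _).trans (hh ⟨0, hk⟩)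
    exact hnum N₁ (degP 𝓛 γ) hN₁ hD1 h hh0 fun Z hZ =>
      hK₀ N₁ hN₁ hNS 𝓛 hcov hgp γ hγ Z hZ h hh

end Pool.Agent.H28.PT4
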