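import Mathlib

/-!
# POINTS THEOREM, PART IV, Sho: a short basis of a lattice of finite index in `ℤ^n`

`short_basis`: by induction on `n` with `∏ μ_i ≤ 2^(n²) |det e|`: `b` a shortest nonzero vector (sup norm, `b i₀ = μ`), `Φ x = μ x' - x(i₀) b'`
(coordinate `i₀` removed), a short basis `c_i = Φ v_i` of `Φ N`, `|v_i(i₀)| ≤ μ / 2`: then `μ |v_i| ≤ 2 |c_i|`. `|det e| = index`.
-/

set_option autoImplicit false

namespace Pool.Agent.H28.PT4

private def nrm {n : ℕ} (x : Fin n → ℤ) : ℕ := Finset.univ.sup fun j => (x j).natAbs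

private lemma le_nrm {n : ℕ} (x : Fin n → ℤ) (j : Fin n) : |x j| ≤ (nrm x : ℤ) := by
  rw [Int.abs_eq_natAbs]
  exact_mod_cast Finset.le_sup (f := fun j => (x j).natAbs) (Finset.mem_univ j)

private lemma nrm_att {n : ℕ} (x : Fin (n + 1) → ℤ) : ∃ j, |x j| = (nrm x : ℤ) := by
  obtain ⟨j, -, hj⟩ := Finset.exists_mem_eq_sup Finset.univ Finset.univ_nonempty
    (fun j => (x j).natAbs)
  refine ⟨j, ?_⟩
  rw [Int.abs_eq_natAbs]
  exact_mod_cast hj.symm

private lemma near (y : ℤ) {μ : ℤ} (hμ : 1 ≤ μ) : ∃ t : ℤ, 2 * |y - t * μ| ≤ μ := by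
  refine ⟨(2 * y + μ) / (2 * μ), ?_⟩
  have h1 := Int.emod_add_mul_ediv (2 * y + μ) (2 * μ)
  have h2 := Int.emod_nonneg (2 * y + μ) (show 2 * μ ≠ 0 by omega)
  have h3 := Int.emod_lt_of_pos (2 * y + μ) (show 0 < 2 * μ by omega)
  generalize (2 * y + μ) / (2 * μ) = t at *
  generalize (2 * y + μ) % (2 * μ) = r at *
  have h4 : 2 * |y - t * μ| = |2 * (y - t * μ)| := by
    rw [abs_mul]
    norm_num
  rw [h4, abs_le]
  constructor <;> nlinarith

private theorem det_rel {n : ℕ} (i₀ : Fin (n + 1)) (b : Fin (n + 1) → ℤ) (μ : ℤ) (hb : b i₀ = μ)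
    (v : Fin n → Fin (n + 1) → ℤ) (c : Fin n → Fin n → ℤ)
    (hc : ∀ i j, c i j = μ * v i (i₀.succAbove j) - v i i₀ * b (i₀.succAbove j)) :
    |μ| ^ n * |Matrix.det (Matrix.of (Fin.cons b v : Fin (n + 1) → Fin (n + 1) → ℤ))| =
      |μ| * |Matrix.det (Matrix.of c)| := by
  have h1 := Matrix.det_mul_column (Fin.cons 1 (fun _ : Fin n => μ) : Fin (n + 1) → ℤ)
    (Matrix.of (Fin.cons b v : Fin (n + 1) → Fin (n + 1) → ℤ))
  have h2 := Matrix.det_eq_of_forall_row_eq_smul_add_const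
    (A := Matrix.of (Fin.cons b (fun i j => μ * v i j - v i i₀ * b j) :
      Fin (n + 1) → Fin (n + 1) → ℤ))
    (B := Matrix.of fun i j => (Fin.cons 1 (fun _ : Fin n => μ) : Fin (n + 1) → ℤ) i *
      Matrix.of (Fin.cons b v : Fin (n + 1) → Fin (n + 1) → ℤ) i j)
    (Fin.cons 0 (fun i => - v i i₀) : Fin (n + 1) → ℤ) 0 rfl (by
      intro i j
      refine Fin.cases ?_ (fun i => ?_) i
      · simp
      · simp
        ring)
  rw [h1] at h2
  have h3 := Matrix.det_succ_column (Matrix.of (Fin.cons b (fun i j => μ * v i j - v i i₀ * b j) :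
      Fin (n + 1) → Fin (n + 1) → ℤ)) i₀
  rw [Fin.sum_univ_succ] at h3
  have h4 : ∀ i : Fin n, (Matrix.of (Fin.cons b (fun i j => μ * v i j - v i i₀ * b j) :
      Fin (n + 1) → Fin (n + 1) → ℤ)) i.succ i₀ = 0 := by
    intro i
    simp [hb]
    ring
  have h5 : (Matrix.of (Fin.cons b (fun i j => μ * v i j - v i i₀ * b j) :
      Fin (n + 1) → Fin (n + 1) → ℤ)).submatrix (Fin.succAbove 0) i₀.succAbove = Matrix.of c := by
    ext i j
    simp [hc]
  have h6 : (Matrix.of (Fin.cons b (fun i j => μ * v i j - v i i₀ * b j) :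
      Fin (n + 1) → Fin (n + 1) → ℤ)) 0 i₀ = μ := by
    simp [hb]
  rw [h5, h6] at h3
  have h7 : ∑ i : Fin n, (-1) ^ ((i.succ : Fin (n + 1)) + i₀ : ℕ) *
      (Matrix.of (Fin.cons b (fun i j => μ * v i j - v i i₀ * b j) :
      Fin (n + 1) → Fin (n + 1) → ℤ)) i.succ i₀ *
      ((Matrix.of (Fin.cons b (fun i j => μ * v i j - v i i₀ * b j) :
      Fin (n + 1) → Fin (n + 1) → ℤ)).submatrix (Fin.succAbove i.succ) i₀.succAbove).det = 0 := by
    refine Finset.sum_eq_zero fun i _ => ?_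
    rw [h4]
    ring
  rw [h7, add_zero] at h3
  rw [h3] at h2
  have h8 : ∏ i, (Fin.cons 1 (fun _ : Fin n => μ) : Fin (n + 1) → ℤ) i = μ ^ n := by
    rw [Fin.prod_univ_succ]
    simp
  rw [h8] at h2
  have h9 := congrArg abs h2
  rw [abs_mul, abs_mul, abs_mul, abs_pow, abs_pow, abs_neg, abs_one, one_pow, one_mul] at h9
  exact h9.symm

private theorem sb_aux (n : ℕ) : ∀ (N : AddSubgroup (Fin n → ℤ)) (M : ℤ), M ≠ 0 →
    (∀ x : Fin n → ℤ, M • x ∈ N) →
    ∃ (e : Fin n → Fin n → ℤ) (μ : Fin n → ℕ), (∀ i, e i ∈ N) ∧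
      (∀ x ∈ N, ∃ a : Fin n → ℤ, x = ∑ i, a i • e i) ∧ Matrix.det (Matrix.of e) ≠ 0 ∧
      (∀ i, 1 ≤ μ i) ∧ (∀ i j, |e i j| ≤ μ i) ∧
      ((∏ i, μ i : ℕ) : ℤ) ≤ 2 ^ (n ^ 2) * |Matrix.det (Matrix.of e)| := by
  induction n with
  | zero =>
    intro N M hM hN
    refine ⟨fun i => i.elim0, fun i => i.elim0, fun i => i.elim0, fun x _ => ⟨fun i => i.elim0, ?_⟩,
      ?_, fun i => i.elim0, fun i => i.elim0, ?_⟩
    · funext i
      exact i.elim0
    · rw [Matrix.det_fin_zero]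
      exact one_ne_zero
    · rw [Matrix.det_fin_zero]
      simp
  | succ n ih =>
    intro N M hM hN
    classical
    have hex : ∃ k : ℕ, ∃ x ∈ N, x ≠ 0 ∧ nrm x = k := by
      refine ⟨_, M • Pi.single 0 1, hN _, ?_, rfl⟩
      intro h
      have h1 := congrFun h 0
      simp at h1
      exact hM h1
    obtain ⟨b₀, hb₀N, hb₀, hb₀n⟩ := Nat.find_spec hex
    have hmin : ∀ x ∈ N, x ≠ 0 → nrm b₀ ≤ nrm x := by
      intro x hx hx0
      rw [hb₀n]
      exact Nat.find_min' hex ⟨x, hx, hx0, rfl⟩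
    obtain ⟨μ, hμ⟩ : ∃ μ : ℕ, μ = nrm b₀ := ⟨_, rfl⟩
    have hμ1 : 1 ≤ μ := by
      rw [Nat.one_le_iff_ne_zero]
      intro h0
      apply hb₀
      funext j
      have h1 := le_nrm b₀ j
      rw [← hμ, h0, Nat.cast_zero] at h1
      exact abs_eq_zero.1 (le_antisymm h1 (abs_nonneg _))
    have hμz : (1 : ℤ) ≤ μ := by exact_mod_cast hμ1
    obtain ⟨i₀, hi₀⟩ := nrm_att b₀
    rw [← hμ] at hi₀
    obtain ⟨b, hbN, hbi, hbj⟩ : ∃ b ∈ N, b i₀ = (μ : ℤ) ∧ ∀ j, |b j| ≤ (μ : ℤ) := by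
      rcases abs_eq (Int.natCast_nonneg μ) |>.1 hi₀ with h | h
      · exact ⟨b₀, hb₀N, h, fun j => hμ ▸ le_nrm b₀ j⟩
      · refine ⟨-b₀, N.neg_mem hb₀N, ?_, fun j => ?_⟩
        · rw [Pi.neg_apply, h, neg_neg]
        · rw [Pi.neg_apply, abs_neg]
          exact hμ ▸ le_nrm b₀ j
    let Φ : (Fin (n + 1) → ℤ) →+ (Fin n → ℤ) :=
      { toFun := fun x j => μ * x (i₀.succAbove j) - x i₀ * b (i₀.succAbove j)
        map_zero' := by
          funext j
          simp
        map_add' := fun x y => by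
          funext j
          simp only [Pi.add_apply]
          ring }
    have hΦ : ∀ x j, Φ x j = μ * x (i₀.succAbove j) - x i₀ * b (i₀.succAbove j) := fun _ _ => rfl
    have hΦb : Φ b = 0 := by
      funext j
      rw [hΦ, hbi]
      simp
    obtain ⟨c, ν, hcN, hcs, hcd, hν1, hcν, hprod⟩ := ih (N.map Φ) (μ * M)
      (mul_ne_zero (by omega) hM) (by
        intro x
        refine ⟨M • i₀.insertNth (0 : ℤ) x, hN _, ?_⟩
        funext j
        rw [hΦ]
        simp only [Pi.smul_apply, smul_eq_mul, Fin.insertNth_apply_same,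
          Fin.insertNth_apply_succAbove]
        ring)
    have hv : ∀ i, ∃ v ∈ N, Φ v = c i ∧ 2 * |v i₀| ≤ (μ : ℤ) := by
      intro i
      obtain ⟨v₀, hv₀N, hv₀⟩ := hcN i
      obtain ⟨t, ht⟩ := near (v₀ i₀) hμz
      refine ⟨v₀ - t • b, N.sub_mem hv₀N (N.zsmul_mem hbN t), ?_, ?_⟩
      · rw [map_sub, map_zsmul, hΦb, smul_zero, sub_zero]
        exact hv₀
      · rw [Pi.sub_apply, Pi.smul_apply, smul_eq_mul, hbi]
        exact ht
    choose v hvN hvc hvi using hv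
    have hcz : ∀ i, c i ≠ 0 := by
      intro i h0
      exact hcd (Matrix.det_eq_zero_of_row_eq_zero i fun j => congrFun h0 j)
    have hvz : ∀ i, v i ≠ 0 := by
      intro i h0
      apply hcz i
      rw [← hvc i, h0, map_zero]
    have hw : ∀ i, (μ : ℤ) * nrm (v i) ≤ 2 * ν i := by
      intro i
      have h1 : (μ : ℤ) ≤ nrm (v i) := by
        rw [hμ]
        exact_mod_cast hmin (v i) (hvN i) (hvz i)
      obtain ⟨j, hj⟩ := nrm_att (v i)
      rcases Fin.eq_self_or_eq_succAbove i₀ j with hj0 | ⟨j', hj'⟩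
      · exfalso
        rw [hj0] at hj
        have := hvi i
        rw [hj] at this
        omega
      · have h2 := congrFun (hvc i) j'
        rw [hΦ, ← hj'] at h2
        have h3 : (μ : ℤ) * v i j = c i j' + v i i₀ * b j := by linarith
        have h4 : (μ : ℤ) * nrm (v i) = |c i j' + v i i₀ * b j| := by
          rw [← h3, abs_mul, hj, Nat.abs_cast]
        have h5 := abs_add_le (c i j') (v i i₀ * b j)
        have h6 := hcν i j'
        have h7 : |v i i₀ * b j| ≤ |v i i₀| * μ := by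
          rw [abs_mul]
          exact mul_le_mul_of_nonneg_left (hbj j) (abs_nonneg _)
        have h8 : 2 * |v i i₀| * μ ≤ μ * μ := mul_le_mul_of_nonneg_right (hvi i) (by omega)
        have h9 : (μ : ℤ) * μ ≤ μ * nrm (v i) := mul_le_mul_of_nonneg_left h1 (by omega)
        linarith
    refine ⟨Fin.cons b v, Fin.cons μ fun i => nrm (v i), ?_, ?_, ?_, ?_, ?_, ?_⟩
    · intro i
      refine Fin.cases ?_ (fun i => ?_) i
      · simpa using hbN
      · simpa using hvN i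
    · intro x hx
      obtain ⟨a, ha⟩ := hcs (Φ x) ⟨x, hx, rfl⟩
      obtain ⟨y, hy⟩ : ∃ y, y = x - ∑ i, a i • v i := ⟨_, rfl⟩
      have hyN : y ∈ N := by
        rw [hy]
        exact N.sub_mem hx (N.sum_mem fun i _ => N.zsmul_mem (hvN i) _)
      have hyΦ : Φ y = 0 := by
        rw [hy, map_sub, map_sum, ha, sub_eq_zero]
        exact Finset.sum_congr rfl fun i _ => by rw [map_zsmul, hvc]
      obtain ⟨t, ht⟩ := near (y i₀) hμz
      obtain ⟨z, hz⟩ : ∃ z, z = y - t • b := ⟨_, rfl⟩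
      have hzN : z ∈ N := by
        rw [hz]
        exact N.sub_mem hyN (N.zsmul_mem hbN t)
      have hzΦ : Φ z = 0 := by
        rw [hz, map_sub, map_zsmul, hΦb, smul_zero, sub_zero, hyΦ]
      have hzi : 2 * |z i₀| ≤ (μ : ℤ) := by
        rw [hz, Pi.sub_apply, Pi.smul_apply, smul_eq_mul, hbi]
        exact ht
      have hz0 : z = 0 := by
        by_contra hne
        have h1 : (μ : ℤ) ≤ nrm z := by
          rw [hμ]
          exact_mod_cast hmin z hzN hne
        obtain ⟨j, hj⟩ := nrm_att z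
        have h2 : |z j| ≤ |z i₀| := by
          rcases Fin.eq_self_or_eq_succAbove i₀ j with hj0 | ⟨j', hj'⟩
          · rw [hj0]
          · have h3 := congrFun hzΦ j'
            rw [hΦ, ← hj', Pi.zero_apply] at h3
            have h4 : (μ : ℤ) * z j = z i₀ * b j := by linarith
            have h5 : (μ : ℤ) * |z j| = |z i₀| * |b j| := by
              rw [← abs_mul, ← h4, abs_mul, Nat.abs_cast]
            have h6 : |z i₀| * |b j| ≤ |z i₀| * μ :=
              mul_le_mul_of_nonneg_left (hbj j) (abs_nonneg _)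
            have h7 : (μ : ℤ) * |z j| ≤ μ * |z i₀| := by linarith
            exact le_of_mul_le_mul_left h7 (by omega)
        rw [hj] at h2
        omega
      refine ⟨Fin.cons t a, ?_⟩
      rw [Fin.sum_univ_succ]
      simp only [Fin.cons_zero, Fin.cons_succ]
      have h1 : y = t • b := by
        rw [← sub_eq_zero, ← hz, hz0]
      rw [← h1, hy]
      abel
    · have h1 := det_rel i₀ b μ hbi v c (fun i j => by rw [← hvc i, hΦ])
      intro h0
      rw [h0, abs_zero, mul_zero] at h1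
      have h2 : |(μ : ℤ)| * |Matrix.det (Matrix.of c)| ≠ 0 :=
        mul_ne_zero (abs_ne_zero.2 (by omega)) (abs_ne_zero.2 hcd)
      exact h2 h1.symm
    · intro i
      refine Fin.cases ?_ (fun i => ?_) i
      · simpa using hμ1
      · have h1 := hmin (v i) (hvN i) (hvz i)
        rw [← hμ] at h1
        simpa using hμ1.trans h1
    · intro i
      refine Fin.cases ?_ (fun i => ?_) i
      · simpa using hbj
      · intro j
        simpa using le_nrm (v i) j
    · have h1 := det_rel i₀ b μ hbi v c (fun i j => by rw [← hvc i, hΦ])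
      rw [Nat.abs_cast] at h1
      rw [Fin.prod_univ_succ]
      simp only [Fin.cons_zero, Fin.cons_succ]
      have h2 : (μ : ℤ) ^ n * ∏ i, (nrm (v i) : ℤ) ≤ 2 ^ n * ∏ i, (ν i : ℤ) := by
        have h3 : ∏ i : Fin n, ((μ : ℤ) * nrm (v i)) ≤ ∏ i : Fin n, (2 * (ν i : ℤ)) :=
          Finset.prod_le_prod (fun i _ => by positivity) fun i _ => hw i
        rw [Finset.prod_mul_distrib, Finset.prod_mul_distrib, Finset.prod_const,
          Finset.prod_const, Finset.card_univ, Fintype.card_fin] at h3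
        exact h3
      have hprod' : ∏ i, (ν i : ℤ) ≤ 2 ^ (n ^ 2) * |Matrix.det (Matrix.of c)| := by
        exact_mod_cast hprod
      have hpos : (0 : ℤ) < (μ : ℤ) ^ n := by positivity
      refine le_of_mul_le_mul_left ?_ hpos
      push_cast
      have h4 : (μ : ℤ) ^ n * (μ * ∏ i, (nrm (v i) : ℤ)) ≤
          μ * (2 ^ n * (2 ^ (n ^ 2) * |Matrix.det (Matrix.of c)|)) := by
        have h5 : (μ : ℤ) ^ n * (μ * ∏ i, (nrm (v i) : ℤ)) =
            μ * (μ ^ n * ∏ i, (nrm (v i) : ℤ)) := by ring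
        rw [h5]
        refine mul_le_mul_of_nonneg_left (h2.trans ?_) (by omega)
        exact mul_le_mul_of_nonneg_left hprod' (by positivity)
      refine h4.trans ?_
      have h6 : (μ : ℤ) * (2 ^ n * (2 ^ (n ^ 2) * |Matrix.det (Matrix.of c)|)) =
          2 ^ (n + n ^ 2) * (μ * |Matrix.det (Matrix.of c)|) := by
        rw [pow_add]
        ring
      rw [h6, ← h1]
      have h7 : (2 : ℤ) ^ (n + n ^ 2) ≤ 2 ^ ((n + 1) ^ 2) :=
        pow_le_pow_right₀ (by norm_num) (by nlinarith)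
      have h8 : 0 ≤ (μ : ℤ) ^ n * |Matrix.det (Matrix.of (Fin.cons b v :
          Fin (n + 1) → Fin (n + 1) → ℤ))| := by positivity
      calc (2 : ℤ) ^ (n + n ^ 2) * ((μ : ℤ) ^ n * |Matrix.det (Matrix.of (Fin.cons b v :
          Fin (n + 1) → Fin (n + 1) → ℤ))|) ≤ 2 ^ ((n + 1) ^ 2) * ((μ : ℤ) ^ n *
            |Matrix.det (Matrix.of (Fin.cons b v : Fin (n + 1) → Fin (n + 1) → ℤ))|) :=
            mul_le_mul_of_nonneg_right h7 h8
        _ = _ := by ring

theorem short_basis (n : ℕ) (N : AddSubgroup (Fin n → ℤ)) (hN : N.index ≠ 0) :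
    ∃ (e : Fin n → Fin n → ℤ) (μ : Fin n → ℕ), (∀ i, e i ∈ N) ∧
      (∀ x ∈ N, ∃ a : Fin n → ℤ, x = ∑ i, a i • e i) ∧ Matrix.det (Matrix.of e) ≠ 0 ∧
      (∀ i, 1 ≤ μ i) ∧ (∀ i j, |e i j| ≤ μ i) ∧ ∏ i, μ i ≤ 2 ^ (n ^ 2) * N.index := by
  obtain ⟨e, μ, h1, h2, h3, h4, h5, h6⟩ := sb_aux n N (N.index : ℤ) (by exact_mod_cast hN)
    (fun x => by
      rw [natCast_zsmul]
      exact N.nsmul_index_mem x)
  refine ⟨e, μ, h1, h2, h3, h4, h5, ?_⟩
  have hli : LinearIndependent ℤ (fun i => (⟨e i, h1 i⟩ : N)) := by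
    refine LinearIndependent.of_comp (N.subtype.toIntLinearMap) ?_
    exact Matrix.linearIndependent_rows_of_det_ne_zero h3
  have hsp : ⊤ ≤ Submodule.span ℤ (Set.range fun i => (⟨e i, h1 i⟩ : N)) := by
    rintro ⟨x, hx⟩ -
    obtain ⟨a, ha⟩ := h2 x hx
    have h7 : (⟨x, hx⟩ : N) = ∑ i, a i • (⟨e i, h1 i⟩ : N) := by
      apply Subtype.ext
      rw [AddSubgroup.val_finsetSum]
      simpa using ha
    rw [h7]
    exact Submodule.sum_mem _ fun i _ => Submodule.smul_mem _ _ (Submodule.subset_span ⟨i, rfl⟩)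
  have hidx := AddSubgroup.index_eq_natAbs_det (Pi.basisFun ℤ (Fin n)) N (Module.Basis.mk hli hsp)
  have h8 : (fun i => ((Module.Basis.mk hli hsp i : N) : Fin n → ℤ)) = e := by
    funext i
    rw [Module.Basis.mk_apply]
  rw [h8, Pi.basisFun_det_apply] at hidx
  rw [hidx]
  have h9 : ((∏ i, μ i : ℕ) : ℤ) ≤ ((2 ^ (n ^ 2) * (Matrix.det (Matrix.of e)).natAbs : ℕ) : ℤ) := by
    rw [Nat.cast_mul, Int.natCast_natAbs]
    push_cast
    push_cast at h6
    exact h6
  exact_mod_cast h9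

end Pool.Agent.H28.PT4
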