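import Pool.Agent.H28.PT4.OrbA
import Pool.Agent.H28.PT4.Sho

/-!
# POINTS THEOREM, PART IV, Her: removing the `S`-torsion from the orbit of a tuple

PROOF. `H = {ω : tuples of roots of unity of S-number order, ω w ∈ OrbT 𝓛 w}` is a finite group (`ω ∈ 𝓛^k`), exponent `m`, an `S`-number.
`N = {a : ∏ ω_j^(a_j) = 1 for all ω ∈ H} ⊇ m ℤ^k`, index `≤ |H|`. `short_basis`. Degree: `H` acts freely on the orbit and `x ↦ x^e` is constant
on the classes. `STP`: `ω w^e = ρ(w^e)`; `ω~` with `ω~^(e_i) = ω_i`; `η = ρ w / (ω~ w)`, `η^m = 1`; so `η ω~ ∈ H` and `ω_i = ω~^(e_i) = 1`.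
-/

set_option autoImplicit false
set_option linter.unusedSectionVars false

open NumberField IntermediateField

namespace Pool.Agent.H28.PT4

open Pool.Agent.H33.TR Pool.Agent.H72.PB

variable {K Ω : Type} [Field K] [Field Ω] [Algebra K Ω] {k : ℕ}

/-- monomials with integral exponents of tuples of units -/
private def mo (u : Fin k → Ωˣ) (a : Fin k → ℤ) : Ωˣ := ∏ j, u j ^ a j

private lemma mo_add (u : Fin k → Ωˣ) (a b : Fin k → ℤ) : mo u (a + b) = mo u a * mo u b := by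
  unfold mo
  rw [← Finset.prod_mul_distrib]
  exact Finset.prod_congr rfl fun j _ => by rw [Pi.add_apply, zpow_add]

private lemma mo_zero (u : Fin k → Ωˣ) : mo u 0 = 1 := by
  unfold mo
  exact Finset.prod_eq_one fun j _ => by rw [Pi.zero_apply, zpow_zero]

private lemma mo_smul (u : Fin k → Ωˣ) (c : ℤ) (a : Fin k → ℤ) : mo u (c • a) = mo u a ^ c := by
  unfold mo
  rw [← Finset.prod_zpow]
  exact Finset.prod_congr rfl fun j _ => by
    rw [Pi.smul_apply, smul_eq_mul, mul_comm, zpow_mul]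

private lemma mo_mul (u v : Fin k → Ωˣ) (a : Fin k → ℤ) : mo (u * v) a = mo u a * mo v a := by
  unfold mo
  rw [← Finset.prod_mul_distrib]
  exact Finset.prod_congr rfl fun j _ => by rw [Pi.mul_apply, mul_zpow]

private lemma mo_one (a : Fin k → ℤ) : mo (1 : Fin k → Ωˣ) a = 1 := by
  unfold mo
  exact Finset.prod_eq_one fun j _ => by rw [Pi.one_apply, one_zpow]

/-- additive form -/
private def moh (u : Fin k → Ωˣ) : (Fin k → ℤ) →+ Additive Ωˣ where
  toFun a := Additive.ofMul (mo u a)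
  map_zero' := by rw [mo_zero]; rfl
  map_add' a b := by rw [mo_add]; rfl

private def snum (S : Finset ℕ) (N : ℕ) : Prop := 1 ≤ N ∧ ∀ q : ℕ, q.Prime → q ∣ N → q ∈ S

private lemma snum_mul {S : Finset ℕ} {M N : ℕ} (hM : snum S M) (hN : snum S N) :
    snum S (M * N) := by
  refine ⟨Nat.mul_pos hM.1 hN.1, fun q hq hd => ?_⟩
  rcases (Nat.Prime.dvd_mul hq).1 hd with h | h
  · exact hM.2 q hq h
  · exact hN.2 q hq h

/-- the group of the `S`-torsion translates in the orbit -/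
private def HS (S : Finset ℕ) (LL : IntermediateField K Ω)
    (hmu : ∀ N : ℕ, 1 ≤ N → (∀ q : ℕ, q.Prime → q ∣ N → q ∈ S) → ∀ ω : Ω, ω ^ N = 1 → ω ∈ LL)
    (w : Fin k → Ω) : Subgroup (Fin k → Ωˣ) where
  carrier := {ω | (∃ N : ℕ, snum S N ∧ ∀ i, ω i ^ N = 1) ∧ (fun i => (ω i : Ω) * w i) ∈ OrbT LL w}
  one_mem' := by
    refine ⟨⟨1, ⟨le_rfl, fun q hq hd => absurd (Nat.dvd_one.1 hd) hq.one_lt.ne'⟩, fun i => ?_⟩, ?_⟩
    · rw [Pi.one_apply, one_pow]
    · have : (fun i => ((1 : Fin k → Ωˣ) i : Ω) * w i) = w := by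
        funext i
        rw [Pi.one_apply, Units.val_one, one_mul]
      rw [this]
      exact orbT_self LL w
  mul_mem' := by
    rintro ω ω' ⟨⟨N, hN, hωN⟩, ρ, hρ, h1⟩ ⟨⟨N', hN', hωN'⟩, ρ', hρ', h2⟩
    refine ⟨⟨N * N', snum_mul hN hN', fun i => ?_⟩, ρ'.trans ρ, fun z hz => ?_, ?_⟩
    · rw [Pi.mul_apply, mul_pow, pow_mul, hωN, one_pow, one_mul, mul_comm N, pow_mul, hωN', one_pow]
    · rw [AlgEquiv.trans_apply, hρ' z hz, hρ z hz]
    · funext i
      have h3 : ρ (w i) = (ω i : Ω) * w i := congrFun h1 i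
      have h4 : ρ' (w i) = (ω' i : Ω) * w i := congrFun h2 i
      have h5 : (ω' i : Ω) ∈ LL := by
        refine hmu N' hN'.1 hN'.2 _ ?_
        rw [← Units.val_pow_eq_pow_val, hωN', Units.val_one]
      change (ρ'.trans ρ) (w i) = ((ω * ω') i : Ω) * w i
      rw [AlgEquiv.trans_apply, h4, map_mul, h3, hρ _ h5, Pi.mul_apply, Units.val_mul]
      ring
  inv_mem' := by
    rintro ω ⟨⟨N, hN, hωN⟩, ρ, hρ, h1⟩
    refine ⟨⟨N, hN, fun i => ?_⟩, ρ.symm, fun z hz => ?_, ?_⟩
    · rw [Pi.inv_apply, inv_pow, hωN, inv_one]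
    · exact orb_symm_fix hρ z hz
    · funext i
      have h3 : ρ (w i) = (ω i : Ω) * w i := congrFun h1 i
      have h5 : ((ω i)⁻¹ : Ω) ∈ LL := by
        refine LL.inv_mem (hmu N hN.1 hN.2 _ ?_)
        rw [← Units.val_pow_eq_pow_val, hωN, Units.val_one]
      change ρ.symm (w i) = ((ω⁻¹) i : Ω) * w i
      rw [Pi.inv_apply, Units.val_inv_eq_inv_val]
      apply ρ.injective
      rw [ρ.apply_symm_apply, map_mul, h3, hρ _ h5, ← mul_assoc, inv_mul_cancel₀ (ω i).ne_zero,
        one_mul]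

private def chi (H : Subgroup (Fin k → Ωˣ)) (a : Fin k → ℤ) : H →* Ωˣ where
  toFun ω := mo (ω : Fin k → Ωˣ) a
  map_one' := mo_one a
  map_mul' _ _ := mo_mul _ _ a

private theorem index_le {A B : Type*} [AddCommGroup A] [Finite B] (N : AddSubgroup A) (f : A → B)
    (h : ∀ a b, f a = f b → -a + b ∈ N) : N.index ≤ Nat.card B ∧ N.index ≠ 0 := by
  have hinj : Function.Injective (fun q : A ⧸ N => f q.out) := by
    intro q q' hq
    have h1 := h _ _ hq
    rw [← QuotientAddGroup.eq, QuotientAddGroup.out_eq', QuotientAddGroup.out_eq'] at h1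
    exact h1
  have hf : Finite (A ⧸ N) := Finite.of_injective _ hinj
  have h2 : N.index = Nat.card (A ⧸ N) := rfl
  rw [h2]
  exact ⟨Nat.card_le_card_of_injective _ hinj, Nat.card_pos.ne'⟩

theorem her [IsAlgClosed Ω] [CharZero Ω] [IsGalois K Ω] (S : Finset ℕ) (hS : ∀ p ∈ S, p.Prime)
    (LL : IntermediateField K Ω)
    (hmu : ∀ N : ℕ, 1 ≤ N → (∀ q : ℕ, q.Prime → q ∣ N → q ∈ S) → ∀ ω : Ω, ω ^ N = 1 → ω ∈ LL)
    (w : Fin k → Ω) (hw : ∀ i, w i ≠ 0) :
    ∃ (e : Fin k → Fin k → ℤ) (μ : Fin k → ℕ), Matrix.det (Matrix.of e) ≠ 0 ∧ (∀ i, 1 ≤ μ i) ∧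
      (∀ i j, |e i j| ≤ μ i) ∧
      (∏ i, μ i) * dgT LL (fun i => ∏ j, w j ^ e i j) ≤ 2 ^ (k ^ 2) * dgT LL w ∧
      STP S LL (fun i => ∏ j, w j ^ e i j) := by
  classical
  obtain ⟨H, hH⟩ : ∃ H, H = HS S LL hmu w := ⟨_, rfl⟩
  have hmem : ∀ ω : Fin k → Ωˣ, ω ∈ H ↔ ((∃ N : ℕ, snum S N ∧ ∀ i, ω i ^ N = 1) ∧
      (fun i => (ω i : Ω) * w i) ∈ OrbT LL w) := fun ω => by
    rw [hH]
    exact Iff.rfl
  -- `H` acts on the orbit
  have hHx : ∀ ω ∈ H, ∀ x ∈ OrbT LL w, (fun i => (ω i : Ω) * x i) ∈ OrbT LL w := by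
    intro ω hω x hx
    obtain ⟨⟨N, hN, hωN⟩, ρ, hρ, h1⟩ := (hmem ω).1 hω
    obtain ⟨σ, hσ, rfl⟩ := hx
    refine ⟨ρ.trans σ, fun z hz => by rw [AlgEquiv.trans_apply, hρ z hz, hσ z hz], ?_⟩
    funext i
    have h3 : ρ (w i) = (ω i : Ω) * w i := congrFun h1 i
    have h5 : (ω i : Ω) ∈ LL := by
      refine hmu N hN.1 hN.2 _ ?_
      rw [← Units.val_pow_eq_pow_val, hωN, Units.val_one]
    change (ρ.trans σ) (w i) = (ω i : Ω) * σ (w i)
    rw [AlgEquiv.trans_apply, h3, map_mul, hσ _ h5]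
  have hne : ∀ x ∈ OrbT LL w, ∀ i, x i ≠ 0 := by
    rintro _ ⟨σ, hσ, rfl⟩ i
    exact (map_ne_zero σ).2 (hw i)
  have hinj : ∀ x : Fin k → Ω, (∀ i, x i ≠ 0) →
      Function.Injective (fun ω : Fin k → Ωˣ => fun i => (ω i : Ω) * x i) := by
    intro x hx ω ω' h
    funext i
    exact Units.ext (mul_right_cancel₀ (hx i) (congrFun h i))
  have hfin : Finite H := by
    refine Finite.of_injective (β := (orbT_finite LL w).toFinset)
      (fun ω => ⟨fun i => ((ω : Fin k → Ωˣ) i : Ω) * w i, ?_⟩) ?_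
    · rw [Set.Finite.mem_toFinset]
      exact ((hmem _).1 ω.2).2
    · intro ω ω' h
      exact Subtype.ext (hinj w hw (Subtype.ext_iff.1 h))
  obtain ⟨m, hm⟩ : ∃ m, m = Nat.card H := ⟨_, rfl⟩
  have hm1 : 1 ≤ m := by
    rw [hm]
    exact Nat.card_pos
  have hmS : snum S m := by
    refine ⟨hm1, fun q hq hd => ?_⟩
    have := Fact.mk hq
    rw [hm] at hd
    obtain ⟨ω, hω⟩ := exists_prime_orderOf_dvd_card' (G := H) q hd
    obtain ⟨⟨N, hN, hωN⟩, -⟩ := (hmem _).1 ω.2
    apply hN.2 q hq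
    rw [← hω]
    apply orderOf_dvd_of_pow_eq_one
    apply Subtype.ext
    funext i
    exact hωN i
  have hpm : ∀ ω ∈ H, ω ^ m = 1 := by
    intro ω hω
    have h1 : (⟨ω, hω⟩ : H) ^ m = 1 := by
      rw [hm]
      exact pow_card_eq_one'
    exact Subtype.ext_iff.1 h1
  -- the lattice
  obtain ⟨Ψ, hΨ⟩ : ∃ Ψ : AddSubgroup (Fin k → ℤ), ∀ a, a ∈ Ψ ↔ ∀ ω ∈ H, mo ω a = 1 := by
    refine ⟨{ carrier := {a | ∀ ω ∈ H, mo ω a = 1}
              zero_mem' := fun ω _ => mo_zero ω
              add_mem' := fun {a b} ha hb ω hω => by rw [mo_add, ha ω hω, hb ω hω, one_mul]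
              neg_mem' := fun {a} ha ω hω => by
                have h1 := mo_smul ω (-1) a
                rw [neg_smul, one_smul, ha ω hω, one_zpow] at h1
                exact h1 }, fun a => Iff.rfl⟩
  have hidx : Ψ.index ≤ m ∧ Ψ.index ≠ 0 := by
    have hfB : Finite (H →* Ωˣ) := by
      apply Nat.finite_of_card_ne_zero
      rw [CommGroup.card_monoidHom_of_hasEnoughRootsOfUnity]
      exact Nat.card_pos.ne'
    have h1 := index_le Ψ (chi H) (fun a b hab => by
      rw [hΨ]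
      intro ω hω
      have h2 : mo ω a = mo ω b := DFunLike.congr_fun hab (⟨ω, hω⟩ : H)
      have h3 := mo_smul ω (-1) a
      rw [neg_smul, one_smul, zpow_neg_one] at h3
      rw [mo_add, h3, h2, inv_mul_cancel])
    rw [CommGroup.card_monoidHom_of_hasEnoughRootsOfUnity] at h1
    rw [hm]
    exact h1
  obtain ⟨e, μ, he, hspan, hdet, hμ1, hμe, hprod⟩ := short_basis k Ψ hidx.2
  have heH : ∀ ω ∈ H, ∀ i, mo ω (e i) = 1 := fun ω hω i => (hΨ _).1 (he i) ω hω
  have hwe : ∀ (u x : Fin k → Ω) (i : Fin k), ∏ j, (u j * x j) ^ e i j =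
      (∏ j, u j ^ e i j) * ∏ j, x j ^ e i j := by
    intro u x i
    rw [← Finset.prod_mul_distrib]
    exact Finset.prod_congr rfl fun j _ => mul_zpow _ _ _
  have hmoe : ∀ (u : Fin k → Ωˣ) (i : Fin k), ((mo u (e i) : Ωˣ) : Ω) = ∏ j, (u j : Ω) ^ e i j := by
    intro u i
    unfold mo
    rw [Units.coe_prod]
    exact Finset.prod_congr rfl fun j _ => Units.val_zpow_eq_zpow_val _ _
  have hacte : ∀ ρ : Ω ≃ₐ[K] Ω, act ρ (fun i => ∏ j, w j ^ e i j) =
      fun i => ∏ j, (act ρ w j) ^ e i j := by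
    intro ρ
    funext i
    change ρ (∏ j, w j ^ e i j) = _
    rw [map_prod]
    exact Finset.prod_congr rfl fun j _ => map_zpow₀ ρ _ _
  refine ⟨e, μ, hdet, hμ1, hμe, ?_, ?_⟩
  · -- the degree
    have h1 : m * dgT LL (fun i => ∏ j, w j ^ e i j) ≤ dgT LL w := by
      have hfw := orbT_finite LL w
      have hfe := orbT_finite LL (fun i => ∏ j, w j ^ e i j)
      unfold dgT
      rw [Set.ncard_eq_toFinset_card _ hfw, Set.ncard_eq_toFinset_card _ hfe]
      refine le_trans (Nat.mul_le_mul_left _ (Finset.card_le_card ?_))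
        (Finset.mul_card_image_le_card (f := fun x : Fin k → Ω => fun i => ∏ j, x j ^ e i j)
          hfw.toFinset m ?_)
      · intro y hy
        rw [Set.Finite.mem_toFinset] at hy
        obtain ⟨ρ, hρ, rfl⟩ := hy
        rw [Finset.mem_image]
        refine ⟨act ρ w, ?_, (hacte ρ).symm⟩
        rw [Set.Finite.mem_toFinset]
        exact ⟨ρ, hρ, rfl⟩
      · intro y hy
        rw [Finset.mem_image] at hy
        obtain ⟨x, hx, rfl⟩ := hy
        rw [Set.Finite.mem_toFinset] at hx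
        have := Fintype.ofFinite H
        have h2 : m = (Finset.univ.image fun ω : H =>
            (fun i => ((ω : Fin k → Ωˣ) i : Ω) * x i)).card := by
          rw [Finset.card_image_of_injective, Finset.card_univ, hm, Nat.card_eq_fintype_card]
          intro ω ω' h
          exact Subtype.ext (hinj x (hne x hx) h)
        rw [h2]
        refine Finset.card_le_card ?_
        intro z hz
        rw [Finset.mem_image] at hz
        obtain ⟨ω, -, rfl⟩ := hz
        rw [Finset.mem_filter, Set.Finite.mem_toFinset]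
        refine ⟨hHx _ ω.2 x hx, ?_⟩
        funext i
        rw [hwe, ← hmoe, heH _ ω.2, Units.val_one, one_mul]
    calc (∏ i, μ i) * dgT LL (fun i => ∏ j, w j ^ e i j)
        ≤ (2 ^ (k ^ 2) * m) * dgT LL (fun i => ∏ j, w j ^ e i j) :=
          Nat.mul_le_mul_right _ (hprod.trans (Nat.mul_le_mul_left _ hidx.1))
      _ = 2 ^ (k ^ 2) * (m * dgT LL (fun i => ∏ j, w j ^ e i j)) := by ring
      _ ≤ 2 ^ (k ^ 2) * dgT LL w := Nat.mul_le_mul_left _ h1
  · -- no torsion is left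
    intro ω N hN1 hNS hω hor
    obtain ⟨ρ, hρ, h1⟩ := hor
    rw [hacte] at h1
    let u : Fin k → Ωˣ := fun j => Units.mk0 (ρ (w j) / w j)
      (div_ne_zero ((map_ne_zero ρ).2 (hw j)) (hw j))
    have hu : ∀ j, (u j : Ω) = ρ (w j) / w j := fun j => rfl
    have huw : ∀ j, (u j : Ω) * w j = ρ (w j) := fun j => by rw [hu, div_mul_cancel₀ _ (hw j)]
    have hωe : ∀ i, ((mo u (e i) : Ωˣ) : Ω) = ω i := by
      intro i
      have h2 := congrFun h1 i
      have h3 : ∏ j, (act ρ w j) ^ e i j = ω i * ∏ j, w j ^ e i j := h2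
      have h4 : ∏ j, (act ρ w j) ^ e i j = ∏ j, ((u j : Ω) * w j) ^ e i j :=
        Finset.prod_congr rfl fun j _ => by rw [huw]; rfl
      rw [h4, hwe, ← hmoe] at h3
      exact mul_right_cancel₀ (Finset.prod_ne_zero_iff.2 fun j _ => zpow_ne_zero _ (hw j)) h3
    have hNe : ∀ i, mo u (e i) ^ N = 1 := by
      intro i
      apply Units.ext
      rw [Units.val_pow_eq_pow_val, hωe, hω, Units.val_one]
    have hNa : ∀ a ∈ Ψ, mo u a ^ N = 1 := by
      intro a ha
      obtain ⟨c, hc⟩ := hspan a ha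
      have h2 : mo u a = ∏ i, mo u (e i) ^ c i := by
        have h3 : moh u a = ∑ i, c i • moh u (e i) := by
          rw [hc, map_sum]
          exact Finset.sum_congr rfl fun i _ => map_zsmul _ _ _
        have h4 := congrArg Additive.toMul h3
        rw [toMul_sum] at h4
        exact h4
      rw [h2, ← Finset.prod_pow]
      exact Finset.prod_eq_one fun i _ => by
        rw [← zpow_natCast, ← zpow_mul, mul_comm, zpow_mul, zpow_natCast, hNe, one_zpow]
    have hum : ∀ j, u j ^ (m * N) = 1 := by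
      intro j
      have h2 : ((m : ℤ) • (Pi.single j 1 : Fin k → ℤ)) ∈ Ψ := by
        rw [hΨ]
        intro ω' hω'
        rw [mo_smul, zpow_natCast]
        have h3 := hpm ω' hω'
        have h4 : mo ω' (Pi.single j 1) = ω' j := by
          unfold mo
          rw [Finset.prod_eq_single j]
          · rw [Pi.single_eq_same, zpow_one]
          · intro b _ hb
            rw [Pi.single_eq_of_ne hb, zpow_zero]
          · intro h
            exact absurd (Finset.mem_univ j) h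
        rw [h4]
        exact congrFun h3 j
      have h5 := hNa _ h2
      rw [mo_smul, zpow_natCast] at h5
      have h4 : mo u (Pi.single j 1) = u j := by
        unfold mo
        rw [Finset.prod_eq_single j]
        · rw [Pi.single_eq_same, zpow_one]
        · intro b _ hb
          rw [Pi.single_eq_of_ne hb, zpow_zero]
        · intro h
          exact absurd (Finset.mem_univ j) h
      rw [h4, ← pow_mul] at h5
      exact h5
    have huH : u ∈ H := by
      rw [hmem]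
      refine ⟨⟨m * N, snum_mul hmS ⟨hN1, hNS⟩, hum⟩, ρ, hρ, ?_⟩
      funext j
      exact (huw j).symm
    funext i
    rw [← hωe, heH u huH i, Units.val_one]
    rfl

end Pool.Agent.H28.PT4
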