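import Pool.Agent.H28.PT4.STw
import Pool.Agent.H28.PT4.CoU
import Pool.Agent.H72.PB.GlobX

/-!
# POINTS THEOREM, PART IV, Tie: the descent in the form `TowT`, `TowU`
-/

set_option autoImplicit false
set_option linter.unusedSectionVars false

open NumberField IntermediateField

namespace Pool.Agent.H28.PT4

open Pool.Agent.H33.TR Pool.Agent.H72.PB Pool.Agent.H72.RM Pool.Agent.H72.RG Pool.Agent.H11.TS

theorem towU {K Ω : Type} [Field K] [NumberField K] [Field Ω] [CharZero Ω] [IsAlgClosed Ω]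
    [Algebra K Ω] [IsGalois K Ω] {r : ℕ} (S : Finset ℕ) (hS : ∀ p ∈ S, p.Prime) (b : Fin r → K)
    (hb : ∀ i, b i ≠ 0)
    (hind : ∀ N : ℕ, 1 ≤ N → ∀ (m : Fin r → ℤ) (y : K), y ^ N = ∏ i, (b i) ^ (m i) →
      ∀ i, (N : ℤ) ∣ m i) (k : ℕ) : TowU Ω S b k := by
  obtain ⟨A, hA, h⟩ := s_towerT (K := K) (Ω := Ω) (b := b) S k (fun p hp => by
    haveI : Fact p.Prime := ⟨hS p hp⟩
    obtain ⟨ι, h₀, J, D⟩ := sx_of (Ω := Ω) p b hb hind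
    exact ⟨⟨hS p hp⟩, ι, h₀, J, D⟩)
  refine ⟨A, hA, fun Dm hDm => ?_⟩
  obtain ⟨R, hR1, -, hR, h1⟩ := h Dm hDm
  refine ⟨R, hR1, hR, ?_⟩
  intro n' N₁ hn' hN₁ hn'S hN₁S N hN 𝓛 h𝓛 w hw hT hD M₁ G hG hGD ht hht hh
  exact h1 n' N₁ hn' hN₁ hn'S hN₁S N hN.1 hN.2 𝓛 (fun M hM hMS => h𝓛 M ⟨hM, hMS⟩) w hw hT hD M₁ G
    hG hGD ht hht hh

theorem towT {K Ω : Type} [Field K] [NumberField K] [Field Ω] [CharZero Ω] [IsAlgClosed Ω]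
    [Algebra K Ω] [IsGalois K Ω] {r : ℕ} (S : Finset ℕ) (hS : ∀ p ∈ S, p.Prime) (b : Fin r → K)
    (hb : ∀ i, b i ≠ 0)
    (hind : ∀ N : ℕ, 1 ≤ N → ∀ (m : Fin r → ℤ) (y : K), y ^ N = ∏ i, (b i) ^ (m i) →
      ∀ i, (N : ℤ) ∣ m i) (k : ℕ) : TowT Ω S b k := by
  obtain ⟨A, hA, h⟩ := towU (Ω := Ω) S hS b hb hind k
  refine ⟨A, hA, fun Dm hDm => ?_⟩
  obtain ⟨R, hR1, hR, h1⟩ := h Dm hDm
  refine ⟨R, hR1, hR, ?_⟩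
  intro n' hn' hn'S N hN 𝓛 h𝓛 w hw hT hD M₁ G hG hGD ht hht hh
  have h2 := h1 n' 1 hn' le_rfl hn'S (fun q hq h => (hS q hq).one_lt.ne' (Nat.dvd_one.1 h)) N hN 𝓛
    (fun M hM => by rw [mul_one]; exact h𝓛 M hM) w hw
  rw [mul_one, mul_one] at h2
  exact h2 hT hD M₁ G hG hGD ht hht hh

end Pool.Agent.H28.PT4
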