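import Pool.Agent.H28.PT4.RdL
import Pool.Agent.H28.PT4.FinL
import Pool.Agent.H28.PT4.EdL
import Pool.Agent.H28.PT4.Tie
import Pool.Agent.H72.ADL.LogAb
import Pool.Agent.H11.TSL.Gpl
import Pool.Agent.H33.PT.Hpt

/-!
# POINTS THEOREM, LOG VERSION, HpL: the theorem over the fields `Nm K Λ S m`, uniformly in `m`

`hpt_L`: for every finitely generated `Λ`, finite set of primes `S` and `k ≥ 1` there are `C` and `c > 0` with
`c ≤ [L(γ):L]^(1/k) (log (3 m [L(γ):L]))^C h` for all `m ≥ 1`, `L = Nm K Λ S m`, and `γ ∈ G_m^k` independent modulo `Λ` of heights at most `h`. Assembly of `fin_L`, `towU`, `end_L`, `log_ab`, `covU_NSm`, `red_L`, `gp_log` (helper11).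
-/

set_option autoImplicit false
set_option linter.unusedSectionVars false

open NumberField IntermediateField

namespace Pool.Agent.H28.PT4

open Pool.Agent.H72.RM Pool.Agent.H92.SR Pool.Agent.H11.TH Pool.Agent.H11.TS Pool.Agent.H33.PT

theorem endL_ab {K Ω : Type} [Field K] [NumberField K] [Field Ω] [CharZero Ω]
    [IsAlgClosed Ω] [Algebra K Ω] [IsGalois K Ω] {s : ℕ} (b : Fin s → K) (hb : ∀ i, b i ≠ 0)
    (hind : ∀ N : ℕ, 1 ≤ N → ∀ (m : Fin s → ℤ) (y : K), y ^ N = ∏ i, (b i) ^ (m i) →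
      ∀ i, (N : ℤ) ∣ m i) (NN : Set ℕ) (hNN : ∀ n ∈ NN, 1 ≤ n) (k : ℕ) (hk : 1 ≤ k) :
    EndL Ω b NN k := by
  have hgal := gal_Q K Ω
  exact end_L (K := K) (Pool.Agent.H72.AD.Ab Ω) mem_Ab
    (fun j hj => Pool.Agent.H72.ADL.log_ab j hj) b hb hind NN hNN k hk

theorem hGp_all {K Ω : Type} [Field K] [NumberField K] [Field Ω] [CharZero Ω] [IsAlgClosed Ω]
    [Algebra K Ω] [IsGalois K Ω] (Λ : Subgroup Ωˣ) (P : ℕ → IntermediateField K Ω → Prop)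
    (hP : ∀ N 𝓛, P N 𝓛 → 1 ≤ N) : HGp Λ P := by
  intro k hk
  obtain ⟨a₀, a₁, h⟩ := Pool.Agent.H11.TSL.gp_log k hk
  refine ⟨a₀, a₁, fun C c hc => ?_⟩
  obtain ⟨K₁, hK₁⟩ := h C c hc
  exact ⟨K₁, fun N 𝓛 hN hlow => hK₁ K Ω Λ N (hP N 𝓛 hN) 𝓛 hlow⟩

theorem hpt_L {K Ω : Type} [Field K] [NumberField K] [Field Ω] [CharZero Ω]
    [IsAlgClosed Ω] [Algebra K Ω] [IsGalois K Ω] (Λ : Subgroup Ωˣ) (hΛ : Λ.FG) (S : Finset ℕ)
    (hS : ∀ p ∈ S, p.Prime) (k : ℕ) (hk : 1 ≤ k) :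
    ∃ (C : ℕ) (c : ℝ), 0 < c ∧ ∀ m : ℕ, 1 ≤ m → LogH (Nm K Λ S m) Λ k m C c := by
  refine red_L Λ hΛ S k hk ?_
  intro K₁ _ _ _ _ r b hb hind
  obtain ⟨C, c, hc, h⟩ := fin_L (K := K₁) (Ω := Ω) S hS b (PrS S)
    (fun k _ => towU S hS b hb hind k)
    (fun k hk => endL_ab b hb hind (PrS S) (fun n hn => hn.1) k hk) (grpB Ω b hb)
    (mem_grpB b hb) (hGp_all (grpB Ω b hb) _ (fun N 𝓛 h => h.1)) k hk
  refine ⟨C, c, hc, fun m hm γ hγ t ht => ?_⟩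
  obtain ⟨M₀, N₁, hM₀, hN₁, hmN⟩ := split_S S hS m hm
  have h1 := h N₁ hN₁.1 hN₁.2 (NSm Ω b S m) (covU_NSm S hS b hb m M₀ N₁ hM₀ hN₁.1 hmN) γ
    (ind_grpB b hb γ hγ) t ht
  have ht0 : 0 ≤ t := (Pool.Agent.H72.PB.ht_nonneg _).trans (ht ⟨0, hk⟩)
  have hD1 : 1 ≤ degP (NSm Ω b S m) γ := by
    rw [degP_eq]
    exact dgT_pos _ _
  have h2 : N₁ ≤ m := by
    rw [hmN]
    exact Nat.le_mul_of_pos_left N₁ hM₀.1
  refine h1.trans (mul_le_mul_of_nonneg_right ?_ ht0)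
  refine mul_le_mul_of_nonneg_left ?_ (Real.rpow_nonneg (Nat.cast_nonneg _) _)
  have e1 : (1 : ℝ) ≤ N₁ := by exact_mod_cast hN₁.1
  have e2 : (N₁ : ℝ) ≤ m := by exact_mod_cast h2
  have e3 : (1 : ℝ) ≤ degP (NSm Ω b S m) γ := by exact_mod_cast hD1
  have e4 : (1 : ℝ) ≤ N₁ * degP (NSm Ω b S m) γ := one_le_mul_of_one_le_of_one_le e1 e3
  refine pow_le_pow_left₀ (Real.log_nonneg (by nlinarith)) ?_ C
  refine Real.log_le_log (by nlinarith) ?_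
  exact mul_le_mul_of_nonneg_right (mul_le_mul_of_nonneg_left e2 (by norm_num)) (by linarith)

end Pool.Agent.H28.PT4
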