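import Pool.Agent.H72.PB.LChoice

/-!
# POINTS THEOREM, PART IV, LCh: the choice of `l` and `T`

PROOF: `T := p^l₁`, `l := (k+1) l₁ + 1` (`2 T^(k+1) = 2 p^((k+1) l₁) ≤ p^l` as `p ≥ 2`), `l₁` from `l_choice` (`Pool/Agent/H72/PB/LChoice.lean`) with `r₁ := 100 (r+2) (k+2)^2` in the place of `r`; `e₁ := l₁ + J + c₁ + 1`, so
`e = (k+1) l₁ + 1 + J + c₁ + 1 ≤ (k+2) e₁`.
First: `log (p^((r+1) e)) = (r+1) e log p ≤ (r₁+1) e₁ log p = log (p^((r₁+1) e₁))`, `r + 1 ≤ r₁ + 1`. Second: with `s = J + 1 + e + r e`: `k ≤ 2^k ≤ p^k`, `2 ≤ p`, so the number is at most `p^E`,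
`E = k + l₁ + 1 + 2 ((r+1) e + s k) + s ≤ (r₁+2) e₁ + 3 + J` (`e₁ ≥ 1`, `s ≤ (r+2) (k+2) e₁ + J + 1`, `J + 1 ≤ e₁`), third bound of `l_choice`. Third: `(r+2) e + 3 + J ≤ (r₁+2) e₁ + 3 + J`.
-/

set_option autoImplicit false

namespace Pool.Agent.H28.PT4

private theorem lch1 (r k : ℕ) : r + 1 ≤ 100 * (r + 2) * (k + 2) ^ 2 + 1 := by
  ring_nf
  omega

private theorem lch2 (r k : ℕ) : (r + 1) * (k + 2) ≤ 100 * (r + 2) * (k + 2) ^ 2 := by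
  ring_nf
  omega

private theorem lch3 (r k : ℕ) : k + 1 + ((r + 1) * (k + 2) + (r + 2) * (k + 2) * k) * 2 + (r + 2) * (k + 2) ≤
    100 * (r + 2) * (k + 2) ^ 2 := by
  ring_nf
  omega

private theorem lch4 (r k : ℕ) : (r + 2) * (k + 2) ≤ 100 * (r + 2) * (k + 2) ^ 2 := by
  ring_nf
  omega

theorem l_choiceT (p r g J c₁ k : ℕ) (hp : 2 ≤ p) :
    ∃ A : ℕ, 1 ≤ A ∧ ∀ Dm : ℕ, 1 ≤ Dm → ∃ l T : ℕ, 1 ≤ T ∧ 2 * T ^ (k + 1) ≤ p ^ l ∧
      ∀ e : ℕ, e = l + J + c₁ + 1 →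
      4 * (g : ℝ) * ((r + 1 : ℕ) : ℝ) *
        (Real.log ((p : ℝ) ^ ((r + 1) * e)) + Real.log Dm + 1) < (T : ℝ) * Real.log p ∧
      ((k * T * (2 * (p ^ ((r + 1) * e) * (p ^ (J + 1 + e + r * e)) ^ k) ^ 2) *
        p ^ (J + 1 + e + r * e) : ℕ) : ℝ) ≤ (A * Real.log (3 * Dm)) ^ A ∧
      (p : ℝ) ^ ((r + 2) * e + 3 + J) ≤ (A * Real.log (3 * Dm)) ^ A := by
  obtain ⟨A, hA1, hA⟩ := Pool.Agent.H72.PB.l_choice p (100 * (r + 2) * (k + 2) ^ 2) g J c₁ hp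
  refine ⟨A, hA1, fun Dm hDm => ?_⟩
  obtain ⟨l₁, hl₁⟩ := hA Dm hDm
  obtain ⟨e₁, he₁⟩ : ∃ e₁, e₁ = l₁ + J + c₁ + 1 := ⟨_, rfl⟩
  obtain ⟨h1, -, h3⟩ := hl₁ e₁ he₁
  obtain ⟨r₁, hr₁⟩ : ∃ r₁, r₁ = 100 * (r + 2) * (k + 2) ^ 2 := ⟨_, rfl⟩
  rw [← hr₁] at h1 h3
  have hp1 : 1 ≤ p := by omega
  have hpr : (1 : ℝ) ≤ p := by exact_mod_cast hp1
  have hlogp : 0 ≤ Real.log p := Real.log_nonneg hpr
  have hDr : (1 : ℝ) ≤ Dm := by exact_mod_cast hDm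
  have hrr : r + 1 ≤ r₁ + 1 := by
    rw [hr₁]
    exact lch1 r k
  refine ⟨(k + 1) * l₁ + 1, p ^ l₁, Nat.one_le_pow _ _ (by omega), ?_, fun e he => ?_⟩
  · rw [← pow_mul, pow_succ, mul_comm 2, mul_comm l₁]
    exact Nat.mul_le_mul_left _ hp
  have hee : e ≤ (k + 2) * e₁ := by
    rw [he, he₁]
    have e2 : (k + 2) * (l₁ + J + c₁ + 1) = (k + 1) * l₁ + l₁ + k * (J + c₁ + 1) + 2 * (J + c₁ + 1) := by ring
    omega
  have hJe : J + 1 ≤ e₁ := by omega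
  have hle : l₁ ≤ e₁ := by omega
  have h1e : 1 ≤ e₁ := by omega
  have hre : (r + 1) * e ≤ (r + 1) * ((k + 2) * e₁) := Nat.mul_le_mul_left _ hee
  have hbig : (r + 1) * ((k + 2) * e₁) ≤ r₁ * e₁ := by
    rw [← mul_assoc]
    refine Nat.mul_le_mul_right _ ?_
    rw [hr₁]
    exact lch2 r k
  refine ⟨?_, ?_, ?_⟩
  · refine lt_of_le_of_lt ?_ (lt_of_lt_of_eq h1 (by push_cast; rfl))
    have h4 : Real.log ((p : ℝ) ^ ((r + 1) * e)) ≤ Real.log ((p : ℝ) ^ ((r₁ + 1) * e₁)) := by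
      refine Real.log_le_log (by positivity) (pow_le_pow_right₀ hpr ?_)
      have : (r₁ + 1) * e₁ = r₁ * e₁ + e₁ := by ring
      omega
    have h5 : 0 ≤ Real.log ((p : ℝ) ^ ((r + 1) * e)) := Real.log_nonneg (one_le_pow₀ hpr)
    have h6 : 0 ≤ Real.log (Dm : ℝ) := Real.log_nonneg hDr
    have h7 : ((r + 1 : ℕ) : ℝ) ≤ ((r₁ + 1 : ℕ) : ℝ) := by exact_mod_cast hrr
    have h8 : 4 * (g : ℝ) * ((r + 1 : ℕ) : ℝ) ≤ 4 * (g : ℝ) * ((r₁ + 1 : ℕ) : ℝ) :=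
      mul_le_mul_of_nonneg_left h7 (by positivity)
    exact mul_le_mul h8 (by linarith) (by linarith) (by positivity)
  · refine le_trans ?_ h3
    obtain ⟨s, hs⟩ : ∃ s, s = J + 1 + e + r * e := ⟨_, rfl⟩
    rw [← hs]
    have hse : s ≤ (r + 2) * ((k + 2) * e₁) := by
      have h9 : s = J + 1 + (r + 1) * e := by rw [hs]; ring
      have h10 : (r + 2) * ((k + 2) * e₁) = (r + 1) * ((k + 2) * e₁) + (k + 2) * e₁ := by ring
      have h11 : e₁ ≤ (k + 2) * e₁ := Nat.le_mul_of_pos_left _ (by omega)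
      omega
    have hk : k ≤ p ^ k := (Nat.lt_pow_self (by omega)).le
    have hnat : k * p ^ l₁ * (2 * (p ^ ((r + 1) * e) * (p ^ s) ^ k) ^ 2) * p ^ s ≤
        p ^ ((r₁ + 2) * e₁ + 3 + J) := by
      calc k * p ^ l₁ * (2 * (p ^ ((r + 1) * e) * (p ^ s) ^ k) ^ 2) * p ^ s
          ≤ p ^ k * p ^ l₁ * (p ^ 1 * (p ^ ((r + 1) * e) * (p ^ s) ^ k) ^ 2) * p ^ s := by
            rw [pow_one]
            gcongr
        _ = p ^ (k + l₁ + (1 + ((r + 1) * e + s * k) * 2) + s) := by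
            have e1 : (p ^ ((r + 1) * e) * (p ^ s) ^ k) ^ 2 = p ^ (((r + 1) * e + s * k) * 2) := by
              rw [← pow_mul p s k, ← pow_add, ← pow_mul]
            rw [e1, ← pow_add, ← pow_add, ← pow_add, ← pow_add]
        _ ≤ p ^ ((r₁ + 2) * e₁ + 3 + J) := by
            refine Nat.pow_le_pow_right (by omega) ?_
            have h12 : s * k ≤ (r + 2) * ((k + 2) * e₁) * k := Nat.mul_le_mul_right _ hse
            have h13 : k ≤ k * e₁ := Nat.le_mul_of_pos_right _ (by omega)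
            have h14 : k * e₁ + e₁ + (1 + ((r + 1) * ((k + 2) * e₁) + (r + 2) * ((k + 2) * e₁) * k) * 2) +
                (r + 2) * ((k + 2) * e₁) ≤ r₁ * e₁ + 1 := by
              have h15 : k * e₁ + e₁ + (1 + ((r + 1) * ((k + 2) * e₁) + (r + 2) * ((k + 2) * e₁) * k) * 2) +
                (r + 2) * ((k + 2) * e₁) =
                (k + 1 + ((r + 1) * (k + 2) + (r + 2) * (k + 2) * k) * 2 + (r + 2) * (k + 2)) * e₁ + 1 := by
                ring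
              rw [h15]
              refine Nat.add_le_add_right (Nat.mul_le_mul_right _ ?_) 1
              rw [hr₁]
              exact lch3 r k
            have h16 : (r₁ + 2) * e₁ = r₁ * e₁ + 2 * e₁ := by ring
            omega
    exact_mod_cast hnat
  · refine le_trans (pow_le_pow_right₀ hpr ?_) h3
    have h9 : (r + 2) * e = (r + 1) * e + e := by ring
    have h10 : (r₁ + 2) * e₁ = r₁ * e₁ + 2 * e₁ := by ring
    have h11 : (r + 1) * ((k + 2) * e₁) + (k + 2) * e₁ ≤ r₁ * e₁ := by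
      have h12 : (r + 1) * ((k + 2) * e₁) + (k + 2) * e₁ = ((r + 2) * (k + 2)) * e₁ := by ring
      rw [h12]
      refine Nat.mul_le_mul_right _ ?_
      rw [hr₁]
      exact lch4 r k
    omega

end Pool.Agent.H28.PT4
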