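import Mathlib

/-!
# POINTS THEOREM, PART IV, Lap: the ultrametric Laplace inequality

`lap`: a square matrix whose rows are partitioned into blocks (`π`); if all maximal minors of the rows of the block `o` have size at most `B o` then the determinant has size at most `∏ B o`.
PROOF. For `φ : X → O` (a choice of a block for every column) let `A^φ i x = A i x` if `π i = φ x`, else `0`. `det A = ∑_φ det A^φ`: the determinant is multilinear in the columns and column `x` of `A` is the sum over `o` of its restrictions to the rows of the block `o`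
(`Matrix.detRowAlternating` on the transpose with `MultilinearMap.map_sum`, `AlternatingMap.coe_multilinearMap`; or: expand both sides by `Matrix.det_apply`: for a permutation `σ` exactly one `φ`, namely `φ x = π (σ x)`, gives a nonzero product `∏ A^φ (σ x) x = ∏ A (σ x) x`).
Ultrametric: it suffices `v (det A^φ) ≤ ∏ B o` for each `φ` (`IsNonarchimedean.finset_image_add_of_nonempty` or an induction; the set of the `φ` may be empty only if `O` is empty and `X` not: impossible by `π`). If `#{x | φ x = o} ≠ #{i | π i = o}` for some `o`: for every permutation `σ` some `φ x ≠ π (σ x)` (else `σ` maps the first set onto the second),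
`det A^φ = 0`. Otherwise choose `e : X ≃ X` with `π (e x) = φ x` (bijections of the fibres: `Equiv.sigmaFiberEquiv` for `φ` and `π`, `Equiv.sigmaCongrRight`, `Fintype.equivOfCardEq`). `det A^φ = ± det (A^φ (e x') x)` (`Matrix.det_permute'`, `det_submatrix_equiv..`), and `M x' x = A^φ (e x') x` is nonzero only if
`φ x' = π (e x') = φ x`: `Matrix.BlockTriangular M φ` for any linear order of `O` (transport to `Fin (card O)` by `Fintype.equivFin`, or use `LinearOrder` from `Fintype.equivFin`): `Matrix.BlockTriangular.det_fintype`: `det M = ∏_o det (M.toSquareBlock φ o)`. The block of `o` is `(A (e x') x)` for `φ x' = φ x = o`: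
reindexed by the bijection `{x' | φ x' = o} ≃ {i | π i = o}` it is `± ` the minor with `c : {i | π i = o} → X` the inverse bijection followed by the inclusion (injective), so it has size at most `B o`.
-/

set_option autoImplicit false
set_option linter.unusedSectionVars false

namespace Pool.Agent.H28.PT4

private theorem sum_le' {C : Type} [Field C] (v : AbsoluteValue C ℝ) (hv : IsNonarchimedean v)
    {ι : Type} (s : Finset ι) (f : ι → C) (M : ℝ) (hM : 0 ≤ M) (h : ∀ i ∈ s, v (f i) ≤ M) :
    v (∑ i ∈ s, f i) ≤ M := by
  classical
  induction s using Finset.induction_on with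
  | empty => rw [Finset.sum_empty, map_zero]; exact hM
  | insert a s ha ih =>
    rw [Finset.sum_insert ha]
    exact (hv _ _).trans (max_le (h a (Finset.mem_insert_self _ _))
      (ih fun i hi => h i (Finset.mem_insert_of_mem hi)))

private theorem det_split {C : Type} [Field C] {X O : Type}
    [Fintype X] [DecidableEq X] [Fintype O] [DecidableEq O] (π : X → O) (A : Matrix X X C) :
    A.det = ∑ φ : X → O,
      Matrix.det (Matrix.of fun i x : X => if π i = φ x then A i x else 0) := by
  rw [Matrix.det_apply]
  rw [Finset.sum_congr rfl fun φ _ => Matrix.det_apply _]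
  rw [Finset.sum_comm]
  refine Finset.sum_congr rfl fun σ _ => ?_
  rw [← Finset.smul_sum]
  congr 1
  have h1 := Finset.prod_univ_sum (fun _ : X => (Finset.univ : Finset O))
    (fun x o => if π (σ x) = o then A (σ x) x else 0)
  rw [Fintype.piFinset_univ] at h1
  refine Eq.trans ?_ h1
  refine Finset.prod_congr rfl fun x _ => ?_
  rw [Finset.sum_ite_eq, if_pos (Finset.mem_univ _)]

private theorem det_bd {C : Type} [Field C] (v : AbsoluteValue C ℝ) {X O : Type}
    [Fintype X] [DecidableEq X] [Fintype O] [DecidableEq O] (π : X → O) (A : Matrix X X C)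
    (B : O → ℝ) (hB : ∀ o, 0 ≤ B o)
    (h : ∀ o, ∀ c : {x // π x = o} → X, Function.Injective c →
      v (Matrix.det (Matrix.of fun i j : {x // π x = o} => A i (c j))) ≤ B o) (φ : X → O) :
    v (Matrix.det (Matrix.of fun i x : X => if π i = φ x then A i x else 0)) ≤ ∏ o, B o := by
  by_cases hex : ∃ e : Equiv.Perm X, ∀ x, π (e x) = φ x
  · obtain ⟨e, he⟩ := hex
    obtain ⟨M, hM⟩ : ∃ M : Matrix X X C, M = (Matrix.of fun i x : X =>
      if π i = φ x then A i x else 0).submatrix e id := ⟨_, rfl⟩
    have h1 : v (Matrix.det (Matrix.of fun i x : X => if π i = φ x then A i x else 0)) =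
        v M.det := by
      rw [hM, Matrix.det_permute, map_mul]
      rcases Int.units_eq_one_or (Equiv.Perm.sign e) with hs | hs
      · rw [hs]
        simp
      · rw [hs]
        simp
    rw [h1]
    let κ : O ≃ Fin (Fintype.card O) := Fintype.equivFin O
    have hbt : Matrix.BlockTriangular M (fun x => κ (φ x)) := by
      intro i j hij
      have h2 : φ i ≠ φ j := fun h => by
        have h3 : κ (φ j) < κ (φ i) := hij
        rw [h] at h3
        exact lt_irrefl _ h3
      rw [hM]
      show (if π (e i) = φ j then A (e i) j else 0) = 0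
      rw [he]
      exact if_neg h2
    rw [hbt.det_fintype, map_prod, ← Equiv.prod_comp κ]
    refine Finset.prod_le_prod (fun _ _ => v.nonneg _) fun o _ => ?_
    let E : {x // κ (φ x) = κ o} ≃ {x // π x = o} := e.subtypeEquiv fun a => by
      rw [he, κ.injective.eq_iff]
    have h2 := h o (fun i => (E.symm i : X)) (fun i j hij => E.symm.injective (Subtype.ext hij))
    refine le_trans (le_of_eq ?_) h2
    congr 1
    rw [← Matrix.det_submatrix_equiv_self E]
    congr 1
    ext i j
    rw [hM]
    show (if π (e i) = φ j then A (e i) j else 0) = A (E i) (E.symm (E j))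
    rw [E.symm_apply_apply]
    have h3 : π (e i) = φ j := by
      rw [he, κ.injective i.2, κ.injective j.2]
    rw [if_pos h3]
    rfl
  · have h1 : Matrix.det (Matrix.of fun i x : X => if π i = φ x then A i x else 0) = 0 := by
      rw [Matrix.det_apply]
      refine Finset.sum_eq_zero fun σ _ => ?_
      obtain ⟨x, hx⟩ : ∃ x, π (σ x) ≠ φ x := by
        by_contra hc
        push Not at hc
        exact hex ⟨σ, hc⟩
      have h2 : ∏ x, (Matrix.of fun i x : X => if π i = φ x then A i x else 0) (σ x) x = 0 :=
        Finset.prod_eq_zero (Finset.mem_univ x) (if_neg hx)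
      rw [h2, smul_zero]
    rw [h1, map_zero]
    exact Finset.prod_nonneg fun o _ => hB o

theorem lap {C : Type} [Field C] (v : AbsoluteValue C ℝ) (hv : IsNonarchimedean v) {X O : Type}
    [Fintype X] [DecidableEq X] [Fintype O] [DecidableEq O] (π : X → O) (A : Matrix X X C)
    (B : O → ℝ) (hB : ∀ o, 0 ≤ B o)
    (h : ∀ o, ∀ c : {x // π x = o} → X, Function.Injective c →
      v (Matrix.det (Matrix.of fun i j : {x // π x = o} => A i (c j))) ≤ B o) :
    v A.det ≤ ∏ o, B o := by
  rw [det_split π A]
  exact sum_le' v hv _ _ _ (Finset.prod_nonneg fun o _ => hB o) fun φ _ => det_bd v π A B hB h φ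

end Pool.Agent.H28.PT4
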