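import Pool.Agent.H28.PT4.OrbA
import Pool.Agent.H28.PT4.Deg
import Pool.Agent.H28.PT4.Aub
import Pool.Agent.H28.PT4.Clo
import Pool.Agent.H11.TS.LocG

/-!
# POINTS THEOREM, PART IV, LocO: the minors of the rows of one orbit

`y₁ : Fin k → Ω`, `h = dgT Lt y₁`, `q = p^s`; rows `z_i = γ^q * x_i`, where `x_i = θ^j(v^q)` for some `j` and some conjugate `v` of `y₁` over `Lt`. All minors of size `r` of the monomials of the box `T m` at `κ z_i` have size at most `e^(-(log p/2) T (r - T^(k+1) h)) ∏ H^(T m)`.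

PROOF. `loc_minor_gen` (`Pool/Agent/H11/TS/LocG.lean`) with `E := C`, `v` the norm (`NormedField.toAbsoluteValue C`, nonarchimedean: `IsUltrametricDist.isNonarchimedean_norm`), `e := q = p^s`, `n := k`, `ε := e^(-(log p/2))`, `z i l := κ ((γ^q * x_i) l)`.
(1) Relations. `R₀ : Submodule Lt (Bx k m → Lt)` the kernel of `g ↦ ∑_b g_b mn b y₁` (a linear map to `Ω`). Its image is contained in `adjoin Lt (range y₁)`, of dimension `dgT Lt y₁ = h` (`deg_eq`), so `(m+1)^k ≤ finrank R₀ + h` (`LinearMap.finrank_range_add_finrank_ker`, `Submodule.finrank_mono`; `card (Bx k m) = (m+1)^k`).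
(2) `auerbach` for `F := Lt`, `v a = ‖κ a‖`, weights `w b = ‖mn b (κ ∘ γ)‖⁻¹` (`γ_i ≠ 0`): `S`, `f`. `Lt`-rational relations `f u` of `y₁` with `f u u = 1`, `f u u' = 0`, `‖κ (f u b)‖ w_b ≤ w_u`.
(3) `R := span_C {g_u | u ∈ S}`, `g_u b := κ (f u b) * (mn b (κ ∘ γ))⁻¹`. The `g_u` are independent (`g_u u' = 0`, `g_u u ≠ 0`), so `finrank_C R = S.card = finrank R₀`: `(m+1)^k ≤ finrank R + h`.
(4) `hz`: let `g = ∑_(u ∈ S) c_u g_u ∈ R`, `‖g b‖ ≤ 1` for all `b`. `g u = c_u w'_u` with `w'_u = (mn u (κ∘γ))⁻¹`, `‖w'_u‖ = w_u`: `‖c_u‖ w_u ≤ 1`. For a row `z = κ (γ^q x)`, `x = θ^j (v^q)`, `v ∈ OrbT Lt y₁`: `mn b z = mn b (κ∘γ)^q * κ (mn b (θ^j v))^q`, so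
`g_b^q mn b z = (∑_u c_u κ (f u b))^q κ (mn b (θ^j v))^q = (∑_u t_ub)^q`, `t_ub = c_u κ (f u b) κ(mn b (θ^j v))`. `‖t_ub‖^q ≤ (‖c_u‖ w_u / w_b)^q ‖κ(mn b (θ^j v))‖^q ≤ ‖mn b z‖ ≤ Hm := ∏_l max(1,‖z_l‖)^m`. `frb`: `‖g_b^q mn b z - ∑_u t_ub^q‖ ≤ e^(-log p) Hm`. So
`∑_b g_b^q mn b z` is, up to `e^(-log p) Hm`, the sum `∑_u c_u^q ∑_b κ(f u b)^q κ (mn b (θ^j v))^q`, and `rel_close` (`u b := mn b v`, `∑_b f u b * mn b v = 0` because `v = ρ y₁` with `ρ` over `Lt`; `B = ‖c_u‖^(-q) Hm`, or multiply `B` by `‖c_u‖^q`; if `c_u = 0` trivial) bounds each inner sum times `c_u^q` by `e^(-(log p/2)) Hm`: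
use `B_u := w_u^q Hm`: `‖κ(f u b) κ(mn b (θ^j v))‖^q ≤ (w_u/w_b)^q ‖κ(mn b(θ^j v))‖^q = w_u^q ‖mn b z‖ ≤ w_u^q Hm`, and `‖c_u‖^q w_u^q ≤ 1`. Ultrametric sums (`IsUltrametricDist.norm_sum_le_of_forall_le_of_nonneg`).
-/

set_option autoImplicit false
set_option linter.unusedSectionVars false

open NumberField IntermediateField

namespace Pool.Agent.H28.PT4

open Pool.Agent.H33.TR Pool.Agent.H72.PB Pool.Agent.H72.RM Pool.Agent.H72.RG Pool.Agent.H11.TS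

variable {p : ℕ} [Fact p.Prime] {C : Type} [NormedField C] [NormedAlgebra ℚ_[p] C]
  [IsUltrametricDist C] [IsAlgClosed C] [Algebra.IsAlgebraic ℚ_[p] C] [IsoEnv p C]
  {K Ω : Type} [Field K] [NumberField K] [Field Ω] [CharZero Ω] [IsAlgClosed Ω] [Algebra K Ω]
  [IsGalois K Ω] {k : ℕ}

private lemma kmn {E : Type} [Field E] (κ : Ω →+* E) {M : ℕ} (b : Bx k M) (y : Fin k → Ω) :
    κ (mn b y) = mn b (fun l => κ (y l)) := by
  unfold mn
  rw [map_prod]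
  exact Finset.prod_congr rfl fun l _ => map_pow _ _ _

private lemma mnpow {F : Type} [Field F] {M : ℕ} (b : Bx k M) (y : Fin k → F) (n : ℕ) :
    mn b (y ^ n) = mn b y ^ n := by
  unfold mn
  rw [← Finset.prod_pow]
  refine Finset.prod_congr rfl fun l _ => ?_
  rw [Pi.pow_apply, ← pow_mul, ← pow_mul, mul_comm]

private lemma mnle {M : ℕ} (b : Bx k M) (y : Fin k → C) :
    ‖mn b y‖ ≤ ∏ l, (max 1 ‖y l‖) ^ M := by
  unfold mn
  rw [norm_prod]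
  refine Finset.prod_le_prod (fun l _ => norm_nonneg _) fun l _ => ?_
  rw [norm_pow]
  calc ‖y l‖ ^ (b l : ℕ) ≤ (max 1 ‖y l‖) ^ (b l : ℕ) :=
        pow_le_pow_left₀ (norm_nonneg _) (le_max_right _ _) _
    _ ≤ (max 1 ‖y l‖) ^ M :=
        pow_le_pow_right₀ (le_max_left _ _) (by have := (b l).2; omega)

/-- the relations of `y₁` over `Lt` -/
private lemma rels (Lt : IntermediateField K Ω) (y₁ : Fin k → Ω) (m : ℕ) :
    ∃ R₀ : Submodule Lt (Bx k m → Lt), (m + 1) ^ k ≤ Module.finrank Lt R₀ + dgT Lt y₁ ∧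
      ∀ g ∈ R₀, ∑ b, (g b : Ω) * mn b y₁ = 0 := by
  classical
  refine ⟨LinearMap.ker (Fintype.linearCombination Lt (fun b : Bx k m => mn b y₁)), ?_, ?_⟩
  · have h1 := LinearMap.finrank_range_add_finrank_ker
      (Fintype.linearCombination Lt (fun b : Bx k m => mn b y₁))
    have h2 : Module.finrank Lt (Bx k m → Lt) = (m + 1) ^ k := by
      rw [Module.finrank_fintype_fun_eq_card, Fintype.card_fun, Fintype.card_fin, Fintype.card_fin]
    have h3 : Module.finrank Lt (LinearMap.range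
        (Fintype.linearCombination Lt (fun b : Bx k m => mn b y₁))) ≤ dgT Lt y₁ := by
      rw [← deg_eq Lt y₁]
      have hpos : 0 < Module.finrank Lt (IntermediateField.adjoin Lt (Set.range y₁)) := by
        rw [deg_eq Lt y₁]
        exact dgT_pos Lt y₁
      have : Module.Finite Lt (IntermediateField.adjoin Lt (Set.range y₁)) :=
        Module.finite_of_finrank_pos hpos
      have : Module.Finite Lt (Subalgebra.toSubmodule
          (IntermediateField.adjoin Lt (Set.range y₁)).toSubalgebra) := this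
      have h4 : LinearMap.range (Fintype.linearCombination Lt (fun b : Bx k m => mn b y₁)) ≤
          Subalgebra.toSubmodule (IntermediateField.adjoin Lt (Set.range y₁)).toSubalgebra := by
        rw [Fintype.range_linearCombination, Submodule.span_le]
        rintro _ ⟨b, rfl⟩
        change mn b y₁ ∈ IntermediateField.adjoin Lt (Set.range y₁)
        exact prod_mem fun l _ => pow_mem (IntermediateField.subset_adjoin Lt _ (Set.mem_range_self l)) _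
      exact Submodule.finrank_mono h4
    omega
  · intro g hg
    have h1 := LinearMap.mem_ker.1 hg
    rw [Fintype.linearCombination_apply] at h1
    rw [← h1]
    exact Finset.sum_congr rfl fun b _ => rfl

/-- step (4) -/
private lemma key (κ : Ω →+* C) (Lt : IntermediateField K Ω) (θ : Ω ≃ₐ[K] Ω)
    (τ : C ≃ₐ[ℚ_[p]] C) (hτ : ∀ x : Ω, κ (θ x) = τ (κ x)) (ρ : ℝ) (hρ0 : 0 < ρ)
    (hcl : ∀ x ∈ Lt, x ≠ 0 → ‖τ (κ x) / κ x - 1‖ ≤ ρ) (s : ℕ)
    (hρs : ρ ^ (p ^ s) ≤ Real.exp (-(Real.log p / 2))) (γ y₁ : Fin k → Ω) (hγ0 : ∀ i, γ i ≠ 0)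
    (m : ℕ) (S : Finset (Bx k m)) (f : Bx k m → Bx k m → Lt)
    (hf0 : ∀ u ∈ S, ∑ b, (f u b : Ω) * mn b y₁ = 0) (hf1 : ∀ u ∈ S, f u u = 1)
    (hf2 : ∀ u ∈ S, ∀ u' ∈ S, u' ≠ u → f u u' = 0)
    (hf3 : ∀ u ∈ S, ∀ b, ‖κ (f u b)‖ * ‖κ (mn b γ)‖⁻¹ ≤ ‖κ (mn u γ)‖⁻¹)
    (c : S → C)
    (hg : ∀ b, ‖∑ u : S, c u * (κ (f u b) * (κ (mn b γ))⁻¹)‖ ≤ 1)
    (j : ℕ) (v : Fin k → Ω) (hv : v ∈ OrbT Lt y₁) :
    ‖∑ b : Bx k m, (∑ u : S, c u * (κ (f u b) * (κ (mn b γ))⁻¹)) ^ (p ^ s) *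
        mn b (fun l => κ ((γ ^ (p ^ s) * act (θ ^ j) (v ^ (p ^ s))) l))‖ ≤
      Real.exp (-(Real.log p / 2)) *
        ∏ l, (max 1 ‖κ ((γ ^ (p ^ s) * act (θ ^ j) (v ^ (p ^ s))) l)‖) ^ m := by
  classical
  have hp1 : (1 : ℝ) ≤ p := by exact_mod_cast (Fact.out : p.Prime).one_lt.le
  have hlog : 0 ≤ Real.log p := Real.log_nonneg hp1
  set q : ℕ := p ^ s with hq
  have hq0 : q ≠ 0 := pow_ne_zero _ (Fact.out : p.Prime).ne_zero
  obtain ⟨z, hz⟩ : ∃ z : Fin k → C, z = fun l => κ ((γ ^ q * act (θ ^ j) (v ^ q)) l) := ⟨_, rfl⟩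
  have hzl : ∀ l, κ ((γ ^ q * act (θ ^ j) (v ^ q)) l) = z l := fun l => by rw [hz]
  rw [← hz]
  simp only [hzl]
  obtain ⟨Hm, hHm⟩ : ∃ Hm : ℝ, Hm = ∏ l, (max 1 ‖z l‖) ^ m := ⟨_, rfl⟩
  rw [← hHm]
  have hHm0 : 0 ≤ Hm := by
    rw [hHm]
    exact Finset.prod_nonneg fun _ _ => pow_nonneg (zero_le_one.trans (le_max_left _ _)) _
  -- the monomials
  obtain ⟨A, hA⟩ : ∃ A : Bx k m → C, ∀ b, A b = κ (mn b γ) := ⟨_, fun _ => rfl⟩
  obtain ⟨U, hU⟩ : ∃ U : Bx k m → C, ∀ b, U b = κ ((θ ^ j) (mn b v)) := ⟨_, fun _ => rfl⟩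
  have hA0 : ∀ b, A b ≠ 0 := by
    intro b
    rw [hA]
    exact (map_ne_zero κ).2 (mn_ne_zero b γ hγ0)
  have hmz : ∀ b, mn b z = (A b * U b) ^ q := by
    intro b
    rw [hz, ← kmn, mn_hmul, act_hpow, mnpow, mnpow, ← act_mn, map_mul, map_pow, map_pow, hA, hU,
      mul_pow]
  have hmzle : ∀ b, (‖A b‖ * ‖U b‖) ^ q ≤ Hm := by
    intro b
    rw [← norm_mul, ← norm_pow, ← hmz, hHm]
    exact mnle b z
  -- the coefficients
  have hcu : ∀ u : S, ‖c u‖ * ‖A u‖⁻¹ ≤ 1 := by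
    intro u
    have h1 := hg u
    have h2 : ∑ u' : S, c u' * (κ (f u' u) * (κ (mn (u : Bx k m) γ))⁻¹) = c u * (A u)⁻¹ := by
      rw [Finset.sum_eq_single u]
      · rw [hf1 u u.2, hA]
        simp
      · intro u' _ hne
        rw [hf2 u' u'.2 u u.2 (fun h => hne (Subtype.ext h.symm))]
        simp
      · intro h
        exact absurd (Finset.mem_univ _) h
    rw [h2, norm_mul, norm_inv] at h1
    exact h1
  have hfle : ∀ u : S, ∀ b, ‖κ (f u b)‖ ≤ ‖A u‖⁻¹ * ‖A b‖ := by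
    intro u b
    have h1 := hf3 u u.2 b
    rw [← hA, ← hA] at h1
    have h2 : 0 < ‖A b‖ := norm_pos_iff.2 (hA0 b)
    calc ‖κ (f u b)‖ = ‖κ (f u b)‖ * ‖A b‖⁻¹ * ‖A b‖ := by
          rw [mul_assoc, inv_mul_cancel₀ h2.ne', mul_one]
      _ ≤ ‖A u‖⁻¹ * ‖A b‖ := mul_le_mul_of_nonneg_right h1 h2.le
  obtain ⟨t, ht⟩ : ∃ t : Bx k m → S → C, ∀ b u, t b u = c u * (κ (f u b) * U b) :=
    ⟨_, fun _ _ => rfl⟩
  have htle : ∀ b u, ‖t b u‖ ^ q ≤ Hm := by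
    intro b u
    refine (pow_le_pow_left₀ (norm_nonneg _) ?_ _).trans (hmzle b)
    rw [ht, norm_mul, norm_mul]
    calc ‖c u‖ * (‖κ (f u b)‖ * ‖U b‖) ≤ ‖c u‖ * ((‖A u‖⁻¹ * ‖A b‖) * ‖U b‖) := by
          gcongr
          exact hfle u b
      _ = (‖c u‖ * ‖A u‖⁻¹) * (‖A b‖ * ‖U b‖) := by ring
      _ ≤ 1 * (‖A b‖ * ‖U b‖) := by
          gcongr
          exact hcu u
      _ = _ := one_mul _
  have hgt : ∀ b, (∑ u : S, c u * (κ (f u b) * (κ (mn b γ))⁻¹)) ^ q * mn b z =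
      (∑ u : S, t b u) ^ q := by
    intro b
    rw [hmz, ← mul_pow, Finset.sum_mul]
    congr 1
    refine Finset.sum_congr rfl fun u _ => ?_
    rw [ht, ← hA]
    have := hA0 b
    field_simp
  have hsum : ∑ b : Bx k m, (∑ u : S, c u * (κ (f u b) * (κ (mn b γ))⁻¹)) ^ q * mn b z =
      ∑ b, ((∑ u : S, t b u) ^ q - ∑ u : S, t b u ^ q) +
        ∑ u : S, c u ^ q * ∑ b, κ (f u b) ^ q * U b ^ q := by
    have h1 : ∑ u : S, c u ^ q * ∑ b, κ (f u b) ^ q * U b ^ q = ∑ b, ∑ u : S, t b u ^ q := by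
      rw [Finset.sum_comm]
      refine Finset.sum_congr rfl fun u _ => ?_
      rw [Finset.mul_sum]
      refine Finset.sum_congr rfl fun b _ => ?_
      rw [ht, mul_pow, mul_pow]
    rw [h1, ← Finset.sum_add_distrib]
    refine Finset.sum_congr rfl fun b _ => ?_
    rw [hgt]
    ring
  have hE0 : 0 ≤ Real.exp (-(Real.log p / 2)) * Hm := mul_nonneg (Real.exp_nonneg _) hHm0
  have hfirst : ‖∑ b, ((∑ u : S, t b u) ^ q - ∑ u : S, t b u ^ q)‖ ≤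
      Real.exp (-(Real.log p / 2)) * Hm := by
    refine IsUltrametricDist.norm_sum_le_of_forall_le_of_nonneg hE0 fun b _ => ?_
    refine (frb (p := p) s (t b) Hm hHm0 (htle b)).trans ?_
    refine mul_le_mul_of_nonneg_right (Real.exp_le_exp.2 ?_) hHm0
    linarith
  have hsecond : ‖∑ u : S, c u ^ q * ∑ b, κ (f u b) ^ q * U b ^ q‖ ≤
      Real.exp (-(Real.log p / 2)) * Hm := by
    refine IsUltrametricDist.norm_sum_le_of_forall_le_of_nonneg hE0 fun u _ => ?_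
    have h0 : ∑ b, (f u b : Ω) * mn b v = 0 := by
      obtain ⟨ρ', hρ', rfl⟩ := hv
      have h1 := congrArg ρ' (hf0 u u.2)
      rw [map_sum, map_zero] at h1
      rw [← h1]
      refine Finset.sum_congr rfl fun b _ => ?_
      rw [map_mul, hρ' _ (f u b).2, act_mn]
    have h1 := rel_close (p := p) κ Lt θ τ hτ ρ hρ0 hcl s hρs (fun b => (f u b : Ω)) (fun b => mn b v)
      (fun b => (f u b).2) h0 j (‖A u‖⁻¹ ^ q * Hm) (mul_nonneg (by positivity) hHm0) (by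
        intro b
        rw [← hU, norm_mul]
        calc (‖κ (f u b)‖ * ‖U b‖) ^ q ≤ ((‖A u‖⁻¹ * ‖A b‖) * ‖U b‖) ^ q := by
              gcongr
              exact hfle u b
          _ = ‖A u‖⁻¹ ^ q * (‖A b‖ * ‖U b‖) ^ q := by ring
          _ ≤ ‖A u‖⁻¹ ^ q * Hm := by
              gcongr
              exact hmzle b)
    simp only [← hU] at h1
    rw [norm_mul, norm_pow]
    calc ‖c u‖ ^ q * ‖∑ b, κ (f u b) ^ q * U b ^ q‖
        ≤ ‖c u‖ ^ q * (Real.exp (-(Real.log p / 2)) * (‖A u‖⁻¹ ^ q * Hm)) := by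
          gcongr
      _ = (‖c u‖ * ‖A u‖⁻¹) ^ q * (Real.exp (-(Real.log p / 2)) * Hm) := by ring
      _ ≤ 1 * (Real.exp (-(Real.log p / 2)) * Hm) := by
          refine mul_le_mul_of_nonneg_right ?_ hE0
          exact pow_le_one₀ (by positivity) (hcu u)
      _ = _ := one_mul _
  rw [hsum]
  exact (IsUltrametricDist.norm_add_le_max _ _).trans (max_le hfirst hsecond)

theorem loc_orb (κ : Ω →+* C) (Lt : IntermediateField K Ω) (θ : Ω ≃ₐ[K] Ω)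
    (τ : C ≃ₐ[ℚ_[p]] C) (hτ : ∀ x : Ω, κ (θ x) = τ (κ x)) (ρ : ℝ) (hρ0 : 0 < ρ)
    (hcl : ∀ x ∈ Lt, x ≠ 0 → ‖τ (κ x) / κ x - 1‖ ≤ ρ) (s : ℕ)
    (hρs : ρ ^ (p ^ s) ≤ Real.exp (-(Real.log p / 2))) (γ y₁ : Fin k → Ω) (hγ0 : ∀ i, γ i ≠ 0)
    (m T r : ℕ) (hT : 1 ≤ T) (x : Fin r → Fin k → Ω)
    (hx : ∀ i, ∃ (j : ℕ) (v : Fin k → Ω), v ∈ OrbT Lt y₁ ∧ x i = act (θ ^ j) (v ^ (p ^ s)))
    (Cc : Fin r → Bx k (T * m)) (hC : Function.Injective Cc) :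
    ‖Matrix.det (Matrix.of fun i j : Fin r => κ (mn (Cc j) (γ ^ (p ^ s) * x i)))‖ ≤
      Real.exp (-(Real.log p / 2)) ^ (T * (r - T ^ (k + 1) * dgT Lt y₁)) *
        ∏ i, ∏ l, (max 1 ‖κ ((γ ^ (p ^ s) * x i) l)‖) ^ (T * m) := by
  classical
  have hp1 : (1 : ℝ) ≤ p := by exact_mod_cast (Fact.out : p.Prime).one_lt.le
  have hlog : 0 ≤ Real.log p := Real.log_nonneg hp1
  have hq0 : p ^ s ≠ 0 := pow_ne_zero _ (Fact.out : p.Prime).ne_zero
  obtain ⟨R₀, hR₀, hrel⟩ := rels Lt y₁ m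
  obtain ⟨vL, hvL⟩ : ∃ vL : AbsoluteValue Lt ℝ, ∀ a : Lt, vL a = ‖κ (a : Ω)‖ :=
    ⟨(IsAbsoluteValue.toAbsoluteValue (norm : C → ℝ)).comp
      (f := κ.comp (algebraMap Lt Ω)) (κ.comp (algebraMap Lt Ω)).injective, fun _ => rfl⟩
  have hA0 : ∀ b : Bx k m, κ (mn b γ) ≠ 0 := fun b =>
    (map_ne_zero κ).2 (mn_ne_zero b γ hγ0)
  obtain ⟨S, f, hS, hf⟩ := auerbach vL (fun b : Bx k m => ‖κ (mn b γ)‖⁻¹)
    (fun b => inv_pos.2 (norm_pos_iff.2 (hA0 b))) R₀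
  obtain ⟨G, hG⟩ : ∃ G : S → (Bx k m → C), ∀ u b, G u b = κ (f u b) * (κ (mn b γ))⁻¹ :=
    ⟨_, fun _ _ => rfl⟩
  have hGuu : ∀ u : S, G u u ≠ 0 := by
    intro u
    rw [hG, (hf u u.2).2.1]
    have := hA0 u
    simp [this]
  have hGu0 : ∀ u u' : S, u' ≠ u → G u u' = 0 := by
    intro u u' hne
    rw [hG, (hf u u.2).2.2.1 u' u'.2 (fun h => hne (Subtype.ext h))]
    simp
  have hli : LinearIndependent C G := by
    rw [Fintype.linearIndependent_iff]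
    intro c hc u
    have h1 := congrFun hc (u : Bx k m)
    rw [Finset.sum_apply, Finset.sum_eq_single u] at h1
    · rw [Pi.smul_apply, smul_eq_mul, Pi.zero_apply] at h1
      exact (mul_eq_zero.1 h1).resolve_right (hGuu u)
    · intro u' _ hne
      rw [Pi.smul_apply, hGu0 u' u (Ne.symm hne), smul_zero]
    · intro h
      exact absurd (Finset.mem_univ _) h
  have hfr : Module.finrank C (Submodule.span C (Set.range G)) = S.card := by
    rw [finrank_span_eq_card hli, Fintype.card_coe]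
  have hmain := loc_minor_gen (IsAbsoluteValue.toAbsoluteValue (norm : C → ℝ))
    (IsUltrametricDist.isNonarchimedean_norm (R := C)) (n := k) (m := m) (T := T) (r := r)
    (h := dgT Lt y₁) (e := p ^ s) hT hq0 (Real.exp (-(Real.log p / 2))) (Real.exp_nonneg _)
    (Real.exp_le_one_iff.2 (by linarith)) (Submodule.span C (Set.range G))
    (by rw [hfr, hS]; exact hR₀) (fun i l => κ ((γ ^ (p ^ s) * x i) l)) ?_ Cc hC
  · simp only [kmn κ]
    exact hmain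
  · intro g hgR hg1 i
    obtain ⟨c, hc⟩ := (Submodule.mem_span_range_iff_exists_fun C).1 hgR
    obtain ⟨j, v, hv, hxi⟩ := hx i
    have hgb : ∀ b, g b = ∑ u : S, c u * (κ (f u b) * (κ (mn b γ))⁻¹) := by
      intro b
      rw [← hc, Finset.sum_apply]
      refine Finset.sum_congr rfl fun u _ => ?_
      rw [Pi.smul_apply, smul_eq_mul, hG]
    have h1 := key κ Lt θ τ hτ ρ hρ0 hcl s hρs γ y₁ hγ0 m S f (fun u hu => hrel _ (hf u hu).1)
      (fun u hu => (hf u hu).2.1) (fun u hu => (hf u hu).2.2.1)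
      (fun u hu b => by
        have h2 := (hf u hu).2.2.2 b
        rw [hvL] at h2
        exact h2) c (fun b => by rw [← hgb]; exact hg1 b) j v hv
    rw [hxi]
    simp only [hgb]
    exact h1

end Pool.Agent.H28.PT4
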