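import Pool.Agent.H28.PT4.Df

/-!
# POINTS THEOREM, PART IV, OrbA: elementary facts on the conjugates of tuples

Literally the proofs in `Pool/Agent/H72/PB/OrbA.lean`, coordinate by coordinate (the lemmas `act_..` of `Df.lean` replace `map_mul`, `map_pow`, ..).
* `orbT_finite`: `act ρ y i` is a root of `minpoly K (y i)`: the orbit is contained in the product of finite sets (`Set.Finite.pi`).
* `tpt_inj`: `x = ρ y`, `x' = ρ' y`, `x^(p^s) = x'^(p^s)`: `ω = ρ⁻¹ x' / y` has `ω^(p^s) = 1` and `ω y ∈ OrbT L y`.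
* `stp_tpt`: an `S`-torsion-free orbit is `p`-torsion-free for `p ∈ S`.
* `stp_sub`: if `g x ∈ OrbT L₀ w` for all `x ∈ OrbT L y`, where `w = g y`, then `TPT`, `STP` and the bound for the degree pass from `(L₀, w)` to `(L, y)`.
-/

set_option autoImplicit false
set_option linter.unusedSectionVars false

open NumberField IntermediateField

namespace Pool.Agent.H28.PT4

open Pool.Agent.H33.TR Pool.Agent.H72.PB

variable {K Ω : Type} [Field K] [Field Ω] [Algebra K Ω] {k : ℕ}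

private lemma smul_injT {c : Fin k → Ω} (hc0 : ∀ i, c i ≠ 0) :
    Function.Injective (fun x : Fin k → Ω => c * x) := by
  intro x x' h
  funext i
  exact mul_left_cancel₀ (hc0 i) (congrFun h i)

theorem orbT_finite [Algebra.IsAlgebraic K Ω] (L : IntermediateField K Ω) (y : Fin k → Ω) :
    (OrbT L y).Finite := by
  refine Set.Finite.subset (Set.Finite.pi (fun i => orb_finite L (y i))) ?_
  rintro x ⟨ρ, hρ, rfl⟩ i -
  exact ⟨ρ, hρ, rfl⟩

theorem orbT_self (L : IntermediateField K Ω) (y : Fin k → Ω) : y ∈ OrbT L y :=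
  ⟨AlgEquiv.refl, fun _ _ => rfl, rfl⟩

theorem orbT_eq {L : IntermediateField K Ω} {x y : Fin k → Ω} (h : x ∈ OrbT L y) :
    OrbT L x = OrbT L y := by
  obtain ⟨ρ, hρ, rfl⟩ := h
  ext z
  constructor
  · rintro ⟨σ, hσ, rfl⟩
    exact ⟨ρ.trans σ, fun w hw => by rw [AlgEquiv.trans_apply, hρ w hw, hσ w hw], rfl⟩
  · rintro ⟨σ, hσ, rfl⟩
    refine ⟨ρ.symm.trans σ, fun w hw => ?_, ?_⟩
    · rw [AlgEquiv.trans_apply, orb_symm_fix hρ w hw, hσ w hw]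
    · funext i
      change (ρ.symm.trans σ) (ρ (y i)) = σ (y i)
      rw [AlgEquiv.trans_apply, ρ.symm_apply_apply]

theorem dgT_pos [Algebra.IsAlgebraic K Ω] (L : IntermediateField K Ω) (y : Fin k → Ω) :
    0 < dgT L y := by
  exact (Set.ncard_pos (orbT_finite L y)).2 ⟨y, orbT_self L y⟩

theorem orbT_mono {L₁ L₂ : IntermediateField K Ω} (h : L₁ ≤ L₂) (y : Fin k → Ω) :
    OrbT L₂ y ⊆ OrbT L₁ y := by
  rintro x ⟨ρ, hρ, rfl⟩
  exact ⟨ρ, fun z hz => hρ z (h hz), rfl⟩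

theorem dgT_mono [Algebra.IsAlgebraic K Ω] {L₁ L₂ : IntermediateField K Ω} (h : L₁ ≤ L₂)
    (y : Fin k → Ω) : dgT L₂ y ≤ dgT L₁ y := by
  exact Set.ncard_le_ncard (orbT_mono h y) (orbT_finite L₁ y)

theorem orbT_smul {L : IntermediateField K Ω} {c : Fin k → Ω} (hc : ∀ i, c i ∈ L) (y : Fin k → Ω) :
    OrbT L (c * y) = (fun x => c * x) '' OrbT L y := by
  ext x
  constructor
  · rintro ⟨ρ, hρ, rfl⟩
    exact ⟨act ρ y, ⟨ρ, hρ, rfl⟩, by simp only [act_hmul, act_fix hρ hc]⟩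
  · rintro ⟨_, ⟨ρ, hρ, rfl⟩, rfl⟩
    exact ⟨ρ, hρ, by rw [act_hmul, act_fix hρ hc]⟩

theorem dgT_smul {L : IntermediateField K Ω} {c : Fin k → Ω} (hc : ∀ i, c i ∈ L)
    (hc0 : ∀ i, c i ≠ 0) (y : Fin k → Ω) : dgT L (c * y) = dgT L y := by
  unfold dgT
  rw [orbT_smul hc]
  exact Set.ncard_image_of_injective _ (smul_injT hc0)

theorem orbT_pow (L : IntermediateField K Ω) (y : Fin k → Ω) (q : ℕ) :
    OrbT L (y ^ q) = (fun x => x ^ q) '' OrbT L y := by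
  ext x
  constructor
  · rintro ⟨ρ, hρ, rfl⟩
    exact ⟨act ρ y, ⟨ρ, hρ, rfl⟩, by simp only [act_hpow]⟩
  · rintro ⟨_, ⟨ρ, hρ, rfl⟩, rfl⟩
    exact ⟨ρ, hρ, by rw [act_hpow]⟩

theorem dgT_pow_le [Algebra.IsAlgebraic K Ω] (L : IntermediateField K Ω) (y : Fin k → Ω) (q : ℕ) :
    dgT L (y ^ q) ≤ dgT L y := by
  unfold dgT
  rw [orbT_pow]
  exact Set.ncard_image_le (orbT_finite L y)

theorem orbT_map {L : IntermediateField K Ω} (hL : ∀ σ : Ω ≃ₐ[K] Ω, ∀ x ∈ L, σ x ∈ L)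
    (g : Ω ≃ₐ[K] Ω) (y : Fin k → Ω) : OrbT L (act g y) = act g '' OrbT L y := by
  ext x
  constructor
  · rintro ⟨ρ, hρ, rfl⟩
    refine ⟨act ((g.trans ρ).trans g.symm) y, ⟨(g.trans ρ).trans g.symm, fun z hz => ?_, rfl⟩, ?_⟩
    · rw [AlgEquiv.trans_apply, AlgEquiv.trans_apply, hρ _ (hL g z hz), g.symm_apply_apply]
    · funext i
      exact g.apply_symm_apply _
  · rintro ⟨_, ⟨ρ, hρ, rfl⟩, rfl⟩
    refine ⟨(g.symm.trans ρ).trans g, fun z hz => ?_, ?_⟩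
    · rw [AlgEquiv.trans_apply, AlgEquiv.trans_apply, hρ _ (hL g.symm z hz), g.apply_symm_apply]
    · funext i
      change ((g.symm.trans ρ).trans g) (g (y i)) = g (ρ (y i))
      rw [AlgEquiv.trans_apply, AlgEquiv.trans_apply, g.symm_apply_apply]

theorem dgT_map {L : IntermediateField K Ω} (hL : ∀ σ : Ω ≃ₐ[K] Ω, ∀ x ∈ L, σ x ∈ L)
    (g : Ω ≃ₐ[K] Ω) (y : Fin k → Ω) : dgT L (act g y) = dgT L y := by
  unfold dgT
  rw [orbT_map hL]
  exact Set.ncard_image_of_injective _ (act_inj g)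

theorem orbT_fix {L : IntermediateField K Ω} (g : Ω ≃ₐ[K] Ω) (hg : ∀ z ∈ L, g z = z)
    {x y : Fin k → Ω} (hx : x ∈ OrbT L y) : act g x ∈ OrbT L y := by
  obtain ⟨ρ, hρ, rfl⟩ := hx
  exact ⟨ρ.trans g, fun z hz => by rw [AlgEquiv.trans_apply, hρ z hz, hg z hz], rfl⟩

theorem tpt_smul {p : ℕ} {L : IntermediateField K Ω} {c y : Fin k → Ω} (hc : ∀ i, c i ∈ L)
    (hc0 : ∀ i, c i ≠ 0) (h : TPT p L y) : TPT p L (c * y) := by
  intro ω n hω hmem
  rw [orbT_smul hc] at hmem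
  obtain ⟨x, hx, hx2⟩ := hmem
  refine h ω n hω ?_
  have h1 : c * x = c * (ω * y) := by
    rw [show c * x = ω * (c * y) from hx2]; ring
  rw [← smul_injT hc0 h1]
  exact hx

theorem tpt_map {p : ℕ} {L : IntermediateField K Ω} (hL : ∀ σ : Ω ≃ₐ[K] Ω, ∀ x ∈ L, σ x ∈ L)
    (g : Ω ≃ₐ[K] Ω) {y : Fin k → Ω} (h : TPT p L y) : TPT p L (act g y) := by
  intro ω n hω hmem
  rw [orbT_map hL] at hmem
  obtain ⟨x, hx, hx2⟩ := hmem
  have h1 : x = act g⁻¹ ω * y := by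
    rw [← act_inv_apply g x, hx2, act_hmul, act_inv_apply]
  rw [h1] at hx
  have h2 := h (act g⁻¹ ω) n (fun i => ?_) hx
  · rw [← act_apply_inv g ω, h2]
    funext i
    exact map_one g
  · change (g⁻¹ (ω i)) ^ (p ^ n) = 1
    rw [← map_pow, hω, map_one]

/-- under `TPT` the map `x ↦ x^(p^s)` is injective on the conjugates -/
theorem tpt_inj {p : ℕ} {L : IntermediateField K Ω} {y : Fin k → Ω} (hy : ∀ i, y i ≠ 0)
    (h : TPT p L y) (s : ℕ) : Set.InjOn (fun x : Fin k → Ω => x ^ (p ^ s)) (OrbT L y) := by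
  rintro _ ⟨ρ, hρ, rfl⟩ _ ⟨ρ', hρ', rfl⟩ hxx
  have hxx' : ∀ i, (ρ (y i)) ^ (p ^ s) = (ρ' (y i)) ^ (p ^ s) := fun i => congrFun hxx i
  have h1 : ∀ i, (ρ.symm (ρ' (y i)) / y i) ^ (p ^ s) = 1 := by
    intro i
    rw [div_pow, ← map_pow, ← hxx' i, ← map_pow, ρ.symm_apply_apply,
      div_self (pow_ne_zero _ (hy i))]
  have h2 : (fun i => ρ.symm (ρ' (y i)) / y i) * y ∈ OrbT L y := by
    refine ⟨ρ'.trans ρ.symm, fun z hz => by
      rw [AlgEquiv.trans_apply, hρ' z hz, orb_symm_fix hρ z hz], ?_⟩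
    funext i
    change ρ.symm (ρ' (y i)) = ρ.symm (ρ' (y i)) / y i * y i
    rw [div_mul_cancel₀ _ (hy i)]
  have h3 := h _ s h1 h2
  funext i
  have h4 : ρ.symm (ρ' (y i)) = y i := by
    have h5 : ρ.symm (ρ' (y i)) / y i = 1 := congrFun h3 i
    rwa [div_eq_one_iff_eq (hy i)] at h5
  change ρ (y i) = ρ' (y i)
  rw [← ρ.apply_symm_apply (ρ' (y i)), h4]

theorem dgT_pow {p : ℕ} {L : IntermediateField K Ω} {y : Fin k → Ω} (hy : ∀ i, y i ≠ 0)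
    (h : TPT p L y) (s : ℕ) : dgT L (y ^ (p ^ s)) = dgT L y := by
  unfold dgT
  rw [orbT_pow]
  exact (tpt_inj hy h s).ncard_image

theorem stp_tpt {S : Finset ℕ} {L : IntermediateField K Ω} {y : Fin k → Ω} (h : STP S L y) {p : ℕ}
    (hp : p.Prime) (hpS : p ∈ S) : TPT p L y := by
  intro ω n hω hmem
  refine h ω (p ^ n) (Nat.pos_of_ne_zero (pow_ne_zero _ hp.ne_zero)) (fun q hq hqd => ?_) hω hmem
  rw [(Nat.prime_dvd_prime_iff_eq hq hp).1 (hq.dvd_of_dvd_pow hqd)]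
  exact hpS

theorem tpt_sub {p : ℕ} {L L₀ : IntermediateField K Ω} {y g w : Fin k → Ω} (hw : w = g * y)
    (h : ∀ x ∈ OrbT L y, g * x ∈ OrbT L₀ w) (hT : TPT p L₀ w) : TPT p L y := by
  intro ω n hω hmem
  refine hT ω n hω ?_
  have h1 : ω * w = g * (ω * y) := by rw [hw]; ring
  rw [h1]
  exact h _ hmem

theorem dgT_sub [Algebra.IsAlgebraic K Ω] {L L₀ : IntermediateField K Ω} {y g w : Fin k → Ω}
    (hg : ∀ i, g i ≠ 0) (h : ∀ x ∈ OrbT L y, g * x ∈ OrbT L₀ w) : dgT L y ≤ dgT L₀ w := by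
  exact Set.ncard_le_ncard_of_injOn (fun x => g * x) h (smul_injT hg).injOn (orbT_finite L₀ w)

end Pool.Agent.H28.PT4
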