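import Pool.Agent.H28.PT4.OrbA
import Pool.Agent.H72.PB.OrbIdx

/-!
# POINTS THEOREM, PART IV, OrbI: the number of classes, for tuples

Literally the proof of `orb_idx` in `Pool/Agent/H72/PB/OrbIdx.lean`, with tuples `z` and `act g z` in the place of `z` and `g z` (`Finset (Fin k → Ω)`). (The field theory in it does not involve `z`.)
-/

set_option autoImplicit false
set_option linter.unusedSectionVars false

open NumberField IntermediateField

namespace Pool.Agent.H28.PT4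

open Pool.Agent.H33.TR Pool.Agent.H72.PB Pool.Agent.H72.RM Pool.Agent.H72.RG

variable {K Ω : Type} [Field K] [Field Ω] [CharZero Ω] [IsAlgClosed Ω] [Algebra K Ω]
  [IsGalois K Ω] {r k : ℕ}

theorem orb_idxT (p : ℕ) [Fact p.Prime] (b : Fin r → K) (hb : ∀ i, b i ≠ 0)
    (F : IntermediateField K Ω) (hF : ∀ σ : Ω ≃ₐ[K] Ω, ∀ x ∈ F, σ x ∈ F) (n M a a' : ℕ)
    (hnM : n + a ≤ M + a') (z : Fin k → Ω) :
    dgT (Lf b F (p ^ n) (p ^ M)) z ≤
      p ^ a' * (p ^ a) ^ r * dgT (Lf b F (p ^ (n + a)) (p ^ (M + a'))) z := by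
  classical
  have hp : p.Prime := Fact.out
  have hpa : 0 < p ^ a := pow_pos hp.pos a
  have hpa' : 0 < p ^ a' := pow_pos hp.pos a'
  have : NeZero (p ^ a) := ⟨hpa.ne'⟩
  have : NeZero (p ^ a') := ⟨hpa'.ne'⟩
  have : NeZero (p ^ (M + a')) := ⟨(pow_pos hp.pos _).ne'⟩
  obtain ⟨ζ, hζ⟩ := HasEnoughRootsOfUnity.exists_primitiveRoot Ω (p ^ (M + a'))
  obtain ⟨ω, hω⟩ := HasEnoughRootsOfUnity.exists_primitiveRoot Ω (p ^ a)
  obtain ⟨ω', hω'⟩ := HasEnoughRootsOfUnity.exists_primitiveRoot Ω (p ^ a')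
  have hβex : ∀ i, ∃ y : Ω, y ^ (p ^ (n + a)) = algebraMap K Ω (b i) := fun i =>
    IsAlgClosed.exists_pow_nat_eq _ (pow_pos hp.pos _)
  choose β hβ using hβex
  have hβ0 : ∀ i, β i ≠ 0 := by
    intro i h
    have h1 := hβ i
    rw [h, zero_pow (pow_pos hp.pos _).ne'] at h1
    exact hb i ((map_eq_zero (algebraMap K Ω)).1 h1.symm)
  have hζ0 : ζ ≠ 0 := hζ.ne_zero (pow_pos hp.pos _).ne'
  have hL : Lf b F (p ^ (n + a)) (p ^ (M + a')) =
      IntermediateField.adjoin K ((F : Set Ω) ∪ ({ζ} ∪ Set.range β)) :=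
    lf2_gen b hb F _ _ (Nat.one_le_pow _ _ hp.pos) (Nat.one_le_pow _ _ hp.pos)
      (pow_dvd_pow p hnM) ζ hζ β hβ
  have hζmem : ζ ^ (p ^ a') ∈ Lf b F (p ^ n) (p ^ M) := by
    refine IntermediateField.subset_adjoin K _ (Or.inr (Or.inl ?_))
    rw [Set.mem_setOf_eq, ← pow_mul, ← pow_add, add_comm, hζ.pow_eq_one]
  have hβmem : ∀ i, β i ^ (p ^ a) ∈ Lf b F (p ^ n) (p ^ M) := by
    intro i
    refine IntermediateField.subset_adjoin K _ (Or.inr (Or.inr ⟨i, ?_⟩))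
    rw [← pow_mul, ← pow_add, add_comm, hβ]
  have hFmem : ∀ x ∈ F, x ∈ Lf b F (p ^ n) (p ^ M) := fun x hx => lf2_base b F _ _ hx
  have hroot : ∀ (q : ℕ) (hq : 0 < q) (o : Ω) (ho : IsPrimitiveRoot o q) (g : Ω ≃ₐ[K] Ω)
      (_ : ∀ x ∈ Lf b F (p ^ n) (p ^ M), g x = x) (y : Ω), y ≠ 0 →
      y ^ q ∈ Lf b F (p ^ n) (p ^ M) → ∃ c : Fin q, g y = o ^ (c : ℕ) * y := by
    intro q hq o ho g hg y hy0 hy
    have : NeZero q := ⟨hq.ne'⟩
    have h1 : (g y / y) ^ q = 1 := by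
      rw [div_pow, ← map_pow, hg _ hy, div_self (pow_ne_zero _ hy0)]
    obtain ⟨i, hi, hi2⟩ := ho.eq_pow_of_pow_eq_one h1
    exact ⟨⟨i, hi⟩, by rw [hi2, div_mul_cancel₀ _ hy0]⟩
  -- the group fixing the small field
  let G := {g : Ω ≃ₐ[K] Ω // ∀ x ∈ Lf b F (p ^ n) (p ^ M), g x = x}
  have htype : ∀ g : G, ∃ c : Fin (p ^ a') × (Fin r → Fin (p ^ a)),
      g.1 ζ = ω' ^ (c.1 : ℕ) * ζ ∧ ∀ i, g.1 (β i) = ω ^ (c.2 i : ℕ) * β i := by
    intro g
    obtain ⟨c1, h1⟩ := hroot _ hpa' ω' hω' g.1 g.2 ζ hζ0 hζmem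
    have h2 := fun i => hroot _ hpa ω hω g.1 g.2 (β i) (hβ0 i) (hβmem i)
    choose c2 h2 using h2
    exact ⟨(c1, c2), h1, h2⟩
  choose ty hty1 hty2 using htype
  have hagree : ∀ g g' : G, ty g = ty g' →
      ∀ y ∈ Lf b F (p ^ (n + a)) (p ^ (M + a')), g.1 y = g'.1 y := by
    intro g g' hgg y hy
    rw [hL] at hy
    refine desc_agree _ _ _ ?_ y hy
    intro x hx
    rcases hx with hx | hx | ⟨i, rfl⟩
    · rw [g.2 x (hFmem x hx), g'.2 x (hFmem x hx)]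
    · rw [Set.mem_singleton_iff] at hx
      rw [hx, hty1, hty1, hgg]
    · rw [hty2, hty2, hgg]
  have hfin := orbT_finite (Lf b F (p ^ (n + a)) (p ^ (M + a'))) z
  let rep : (Fin (p ^ a') × (Fin r → Fin (p ^ a))) → (Ω ≃ₐ[K] Ω) := fun c =>
    if h : ∃ g, ty g = c then (h.choose).1 else 1
  have hsub : OrbT (Lf b F (p ^ n) (p ^ M)) z ⊆
      ((Finset.univ : Finset (Fin (p ^ a') × (Fin r → Fin (p ^ a)))).biUnion
        fun c => hfin.toFinset.image (act (rep c)) : Finset (Fin k → Ω)) := by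
    rintro x ⟨g, hg, rfl⟩
    have hex : ∃ g', ty g' = ty ⟨g, hg⟩ := ⟨⟨g, hg⟩, rfl⟩
    rw [Finset.mem_coe, Finset.mem_biUnion]
    refine ⟨ty ⟨g, hg⟩, Finset.mem_univ _, ?_⟩
    rw [Finset.mem_image]
    refine ⟨act (rep (ty ⟨g, hg⟩))⁻¹ (act g z), ?_, act_apply_inv _ _⟩
    rw [Set.Finite.mem_toFinset]
    refine ⟨g.trans (rep (ty ⟨g, hg⟩)).symm, fun w hw => ?_, rfl⟩
    have h1 : rep (ty ⟨g, hg⟩) = (hex.choose).1 := dif_pos hex
    rw [AlgEquiv.trans_apply, h1, ← hagree _ _ hex.choose_spec w hw, AlgEquiv.symm_apply_apply]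
  unfold dgT
  calc (OrbT (Lf b F (p ^ n) (p ^ M)) z).ncard
      ≤ (((Finset.univ : Finset (Fin (p ^ a') × (Fin r → Fin (p ^ a)))).biUnion
        fun c => hfin.toFinset.image (act (rep c)) : Finset (Fin k → Ω)) : Set (Fin k → Ω)).ncard :=
        Set.ncard_le_ncard hsub (Finset.finite_toSet _)
    _ = ((Finset.univ : Finset (Fin (p ^ a') × (Fin r → Fin (p ^ a)))).biUnion
        fun c => hfin.toFinset.image (act (rep c)) : Finset (Fin k → Ω)).card := Set.ncard_coe_finset _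
    _ ≤ (Finset.univ : Finset (Fin (p ^ a') × (Fin r → Fin (p ^ a)))).card *
        (OrbT (Lf b F (p ^ (n + a)) (p ^ (M + a'))) z).ncard := by
        refine Finset.card_biUnion_le_card_mul _ _ _ fun c _ => ?_
        refine Finset.card_image_le.trans ?_
        rw [Set.ncard_eq_toFinset_card _ hfin]
    _ = _ := by
        rw [Finset.card_univ, Fintype.card_prod, Fintype.card_fun, Fintype.card_fin,
          Fintype.card_fin, Fintype.card_fin]

end Pool.Agent.H28.PT4
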