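import Pool.Agent.H28.PT4.OrbA

/-!
# POINTS THEOREM, PART IV, OrbQ: quotients and periods

* `orb_quotT`: literally `orb_quot` in `Pool/Agent/H72/PB/CommSig.lean` (last theorem), for tuples.
* `row_periodT`: literally `row_period` (with `rp_add`, `rp_sub`, `rp_mul`, `rp_gcd`) in `Pool/Agent/H72/PB/RowGain.lean`.
* `Cyc Lt θ w = {x | ∃ j, x ∈ OrbT Lt (act (θ^j) w)}`. `Lt` is stable, `θ^(p^k')` fixes `Lt`, so all powers `θ^(p^k' m)` do, and for `x ∈ OrbT Lt (θ^j w)`: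
  `w ∈ OrbT Lt (θ^i x)` with `i = p^k' (j + 1) - j ≥ 0` (`orbT_map`, `orbT_eq`).
  `cyc_eq`: `Cyc Lt θ x = Cyc Lt θ w` (symmetry and transitivity).
  `cyc_sub`: `Lb ≤ Lt`, `θ` fixes `Lb`: `Cyc Lt θ w ⊆ OrbT Lb w`.
  `cyc_bad`: for `x ∈ OrbT Lt (θ^j w)`: `θ^l' x ∈ OrbT Lt (θ^l' θ^j w) = θ^j '' OrbT Lt (θ^l' w)`, and it lies in `OrbT Lt x = OrbT Lt (θ^j w) = θ^j '' OrbT Lt w` iff `θ^l' w ∈ OrbT Lt w`.
  `cyc_card`: the classes `c_j = OrbT Lt (θ^j w)`, `0 ≤ j < p^l`, are pairwise disjoint (if `c_i` meets `c_j`, `i < j`, then they are equal and `θ^(j-i) w ∈ OrbT Lt w`, against `row_periodT`),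
  each has `dgT Lt w` elements (`dgT_map`), and they are contained in `Cyc Lt θ w` (finite: contained in `OrbT ⊥ w`, or in the finite union over `j < p^k'`).
-/

set_option autoImplicit false
set_option linter.unusedSectionVars false

open NumberField IntermediateField

namespace Pool.Agent.H28.PT4

open Pool.Agent.H33.TR Pool.Agent.H72.PB

variable {K Ω : Type} [Field K] [Field Ω] [Algebra K Ω] {k : ℕ}

theorem orb_quotT {L : IntermediateField K Ω} (hL : ∀ σ : Ω ≃ₐ[K] Ω, ∀ x ∈ L, σ x ∈ L)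
    (a₀ a₁ : Ω ≃ₐ[K] Ω) (z : Fin k → Ω) (h0 : act a₀ z ∈ OrbT L z) (h1 : act a₁ z ∈ OrbT L z) :
    ∃ ν : Ω ≃ₐ[K] Ω, (∀ x ∈ L, ν x = x) ∧ act (ν * (a₁ * a₀⁻¹)) z = z := by
  have hinv : ∀ (g : Ω ≃ₐ[K] Ω) (x y : Ω), g x = y → g⁻¹ y = x := by
    intro g x y h
    rw [← h]
    exact g.symm_apply_apply x
  have hinv2 : ∀ (g : Ω ≃ₐ[K] Ω) (x : Ω), g (g⁻¹ x) = x := fun g x => g.apply_symm_apply x
  have hinv3 : ∀ (g : Ω ≃ₐ[K] Ω) (x : Ω), g⁻¹ (g x) = x := fun g x => g.symm_apply_apply x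
  obtain ⟨l0, hl0, h0'⟩ := h0
  obtain ⟨l1, hl1, h1'⟩ := h1
  -- `l0 z = a₀ z`, `l1 z = a₁ z`
  refine ⟨(a₁ * (a₀⁻¹ * l0 * a₀)⁻¹ * a₁⁻¹ * l1)⁻¹, ?_, ?_⟩
  · intro x hx
    apply hinv
    have e1 : (a₁ * (a₀⁻¹ * l0 * a₀)⁻¹ * a₁⁻¹ * l1) x =
        a₁ ((a₀⁻¹ * l0 * a₀)⁻¹ (a₁⁻¹ (l1 x))) := rfl
    have e2 : ∀ y ∈ L, (a₀⁻¹ * l0 * a₀) y = y := by
      intro y hy
      have e3 : (a₀⁻¹ * l0 * a₀) y = a₀⁻¹ (l0 (a₀ y)) := rfl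
      rw [e3, hl0 _ (hL a₀ y hy), hinv3]
    rw [e1, hl1 x hx, hinv _ _ _ (e2 _ (hL a₁⁻¹ x hx)), hinv2]
  · funext i
    have h0'' : l0 (z i) = a₀ (z i) := congrFun h0' i
    have h1'' : l1 (z i) = a₁ (z i) := congrFun h1' i
    change ((a₁ * (a₀⁻¹ * l0 * a₀)⁻¹ * a₁⁻¹ * l1)⁻¹ * (a₁ * a₀⁻¹)) (z i) = z i
    have e4 : ∀ g h : Ω ≃ₐ[K] Ω, h (z i) = g (z i) → (g⁻¹ * h) (z i) = z i := by
      intro g h e
      have : (g⁻¹ * h) (z i) = g⁻¹ (h (z i)) := rfl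
      rw [this, e, hinv3]
    apply e4
    have e5 : (a₁ * (a₀⁻¹ * l0 * a₀)⁻¹ * a₁⁻¹ * l1) (z i) =
        a₁ ((a₀⁻¹ * l0 * a₀)⁻¹ (a₁⁻¹ (l1 (z i)))) := rfl
    have e6 : (a₁ * a₀⁻¹) (z i) = a₁ (a₀⁻¹ (z i)) := rfl
    rw [e5, h1'', hinv3, e6]
    congr 1
    symm
    apply hinv
    have e7 : (a₀⁻¹ * l0 * a₀) (a₀⁻¹ (z i)) = a₀⁻¹ (l0 (a₀ (a₀⁻¹ (z i)))) := rfl
    rw [e7, hinv2, h0'', hinv3]

theorem rp_addT (Lt : IntermediateField K Ω) (hLt : ∀ σ : Ω ≃ₐ[K] Ω, ∀ x ∈ Lt, σ x ∈ Lt)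
    (θ : Ω ≃ₐ[K] Ω) (w : Fin k → Ω) (t t' : ℕ) (h : act (θ ^ t) w ∈ OrbT Lt w)
    (h' : act (θ ^ t') w ∈ OrbT Lt w) : act (θ ^ (t + t')) w ∈ OrbT Lt w := by
  rw [pow_add, act_mul, ← orbT_eq h, orbT_map hLt]
  exact ⟨_, h', rfl⟩

theorem rp_subT (Lt : IntermediateField K Ω) (hLt : ∀ σ : Ω ≃ₐ[K] Ω, ∀ x ∈ Lt, σ x ∈ Lt)
    (θ : Ω ≃ₐ[K] Ω) (w : Fin k → Ω) (t t' : ℕ) (h : act (θ ^ t) w ∈ OrbT Lt w)
    (h' : act (θ ^ (t + t')) w ∈ OrbT Lt w) : act (θ ^ t') w ∈ OrbT Lt w := by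
  rw [pow_add, act_mul, ← orbT_eq h, orbT_map hLt] at h'
  obtain ⟨z, hz, hz2⟩ := h'
  have h3 : z = act (θ ^ t') w := act_inj (θ ^ t) hz2
  rw [← h3]
  exact hz

theorem rp_mulT (Lt : IntermediateField K Ω) (hLt : ∀ σ : Ω ≃ₐ[K] Ω, ∀ x ∈ Lt, σ x ∈ Lt)
    (θ : Ω ≃ₐ[K] Ω) (w : Fin k → Ω) (t : ℕ) (h : act (θ ^ t) w ∈ OrbT Lt w) (m : ℕ) :
    act (θ ^ (t * m)) w ∈ OrbT Lt w := by
  induction m with
  | zero =>
    rw [Nat.mul_zero, pow_zero, act_one]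
    exact orbT_self Lt w
  | succ m ih =>
    rw [Nat.mul_succ]
    exact rp_addT Lt hLt θ w _ _ ih h

theorem rp_gcdT (Lt : IntermediateField K Ω) (hLt : ∀ σ : Ω ≃ₐ[K] Ω, ∀ x ∈ Lt, σ x ∈ Lt)
    (θ : Ω ≃ₐ[K] Ω) (w : Fin k → Ω) (m n : ℕ) :
    act (θ ^ m) w ∈ OrbT Lt w → act (θ ^ n) w ∈ OrbT Lt w →
      act (θ ^ (Nat.gcd m n)) w ∈ OrbT Lt w := by
  induction m, n using Nat.gcd.induction with
  | H0 n => intro _ h; rwa [Nat.gcd_zero_left]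
  | H1 m n hm ih =>
    intro h1 h2
    rw [Nat.gcd_rec]
    refine ih ?_ h1
    refine rp_subT Lt hLt θ w (m * (n / m)) (n % m) (rp_mulT Lt hLt θ w m h1 _) ?_
    rw [Nat.div_add_mod]
    exact h2

theorem row_periodT (Lt : IntermediateField K Ω) (hLt : ∀ σ : Ω ≃ₐ[K] Ω, ∀ x ∈ Lt, σ x ∈ Lt)
    (θ : Ω ≃ₐ[K] Ω) (p : ℕ) (hp : p.Prime) (k' l : ℕ) (hθk : ∀ x ∈ Lt, (θ ^ (p ^ k')) x = x)
    (w : Fin k → Ω) (hbad : act (θ ^ (p ^ l)) w ∉ OrbT Lt w) (t : ℕ) (ht0 : 1 ≤ t)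
    (ht : t ≤ p ^ l) : act (θ ^ t) w ∉ OrbT Lt w := by
  intro h
  have hk : act (θ ^ (p ^ k')) w ∈ OrbT Lt w := orbT_fix (θ ^ (p ^ k')) hθk (orbT_self Lt w)
  have hg := rp_gcdT Lt hLt θ w t (p ^ k') h hk
  obtain ⟨a, _, ha⟩ := (Nat.dvd_prime_pow hp).mp (Nat.gcd_dvd_right t (p ^ k'))
  have h1 : p ^ a ∣ t := ha ▸ Nat.gcd_dvd_left t (p ^ k')
  have h2 : p ^ a ≤ p ^ l := (Nat.le_of_dvd ht0 h1).trans ht
  have h3 : a ≤ l := (Nat.pow_le_pow_iff_right hp.one_lt).mp h2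
  obtain ⟨c, hc⟩ := pow_dvd_pow p h3
  rw [ha] at hg
  apply hbad
  rw [hc]
  exact rp_mulT Lt hLt θ w _ hg c

theorem fix_powT {L : IntermediateField K Ω} {θ : Ω ≃ₐ[K] Ω} (h : ∀ x ∈ L, θ x = x) (j : ℕ) :
    ∀ x ∈ L, (θ ^ j) x = x := by
  intro x hx
  induction j with
  | zero => simp
  | succ j ih => rw [pow_succ, AlgEquiv.mul_apply, h x hx, ih]

/-- the class of `θ^i x` for `x` in the class of `θ^j w` -/
theorem cyc_cls (Lt : IntermediateField K Ω) (hLt : ∀ σ : Ω ≃ₐ[K] Ω, ∀ x ∈ Lt, σ x ∈ Lt)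
    (θ : Ω ≃ₐ[K] Ω) {x w : Fin k → Ω} {j : ℕ} (h : x ∈ OrbT Lt (act (θ ^ j) w)) (i : ℕ) :
    OrbT Lt (act (θ ^ i) x) = OrbT Lt (act (θ ^ (i + j)) w) := by
  apply orbT_eq
  rw [pow_add, act_mul, orbT_map hLt]
  exact ⟨x, h, rfl⟩

theorem cyc_le (Lt : IntermediateField K Ω) (hLt : ∀ σ : Ω ≃ₐ[K] Ω, ∀ x ∈ Lt, σ x ∈ Lt)
    (θ : Ω ≃ₐ[K] Ω) {x w : Fin k → Ω} (h : x ∈ Cyc Lt θ w) : Cyc Lt θ x ⊆ Cyc Lt θ w := by
  obtain ⟨j, hj⟩ := h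
  rintro y ⟨i, hi⟩
  refine ⟨i + j, ?_⟩
  rw [← cyc_cls Lt hLt θ hj i]
  exact hi

theorem cyc_self (Lt : IntermediateField K Ω) (θ : Ω ≃ₐ[K] Ω) (w : Fin k → Ω) :
    w ∈ Cyc Lt θ w := ⟨0, orbT_self Lt _⟩

theorem cyc_eq (Lt : IntermediateField K Ω) (hLt : ∀ σ : Ω ≃ₐ[K] Ω, ∀ x ∈ Lt, σ x ∈ Lt)
    (θ : Ω ≃ₐ[K] Ω) (m : ℕ) (hm : 1 ≤ m) (hθm : ∀ x ∈ Lt, (θ ^ m) x = x) {x w : Fin k → Ω}
    (h : x ∈ Cyc Lt θ w) : Cyc Lt θ x = Cyc Lt θ w := by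
  refine Set.Subset.antisymm (cyc_le Lt hLt θ h) (cyc_le Lt hLt θ ?_)
  obtain ⟨j, hj⟩ := h
  have h1 : j ≤ m * (j + 1) := by nlinarith
  refine ⟨m * (j + 1) - j, ?_⟩
  rw [cyc_cls Lt hLt θ hj, Nat.sub_add_cancel h1]
  have h2 : act (θ ^ (m * (j + 1))) w ∈ OrbT Lt w := by
    refine orbT_fix _ ?_ (orbT_self Lt w)
    rw [pow_mul]
    exact fix_powT hθm (j + 1)
  rw [orbT_eq h2]
  exact orbT_self Lt w

theorem cyc_sub (Lb Lt : IntermediateField K Ω) (hle : Lb ≤ Lt) (θ : Ω ≃ₐ[K] Ω)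
    (hθb : ∀ x ∈ Lb, θ x = x) (w : Fin k → Ω) : Cyc Lt θ w ⊆ OrbT Lb w := by
  rintro x ⟨j, hj⟩
  have h1 : act (θ ^ j) w ∈ OrbT Lb w := orbT_fix _ (fix_powT hθb j) (orbT_self Lb w)
  rw [← orbT_eq h1]
  exact orbT_mono hle _ hj

theorem cyc_bad (Lt : IntermediateField K Ω) (hLt : ∀ σ : Ω ≃ₐ[K] Ω, ∀ x ∈ Lt, σ x ∈ Lt)
    (θ : Ω ≃ₐ[K] Ω) (l' : ℕ) {x w : Fin k → Ω} (h : x ∈ Cyc Lt θ w) :
    act (θ ^ l') x ∈ OrbT Lt x ↔ act (θ ^ l') w ∈ OrbT Lt w := by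
  have h0 : ∀ a b : Fin k → Ω, a ∈ OrbT Lt b ↔ OrbT Lt a = OrbT Lt b := fun a b =>
    ⟨fun h => orbT_eq h, fun h => h ▸ orbT_self Lt a⟩
  obtain ⟨j, hj⟩ := h
  have h1 : OrbT Lt (act (θ ^ l') x) = act (θ ^ j) '' OrbT Lt (act (θ ^ l') w) := by
    rw [cyc_cls Lt hLt θ hj, add_comm, pow_add, act_mul, orbT_map hLt]
  have h2 : OrbT Lt x = act (θ ^ j) '' OrbT Lt w := by
    rw [orbT_eq hj, orbT_map hLt]
  rw [h0, h0, h1, h2]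
  exact (Set.image_injective.2 (act_inj _)).eq_iff

theorem cyc_card [Algebra.IsAlgebraic K Ω] (Lt : IntermediateField K Ω)
    (hLt : ∀ σ : Ω ≃ₐ[K] Ω, ∀ x ∈ Lt, σ x ∈ Lt) (θ : Ω ≃ₐ[K] Ω) (p : ℕ) (hp : p.Prime) (k' l : ℕ)
    (hθk : ∀ x ∈ Lt, (θ ^ (p ^ k')) x = x) (w : Fin k → Ω)
    (hbad : act (θ ^ (p ^ l)) w ∉ OrbT Lt w) : p ^ l * dgT Lt w ≤ (Cyc Lt θ w).ncard := by
  classical
  have hfin : (Cyc Lt θ w).Finite := by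
    refine (orbT_finite (⊥ : IntermediateField K Ω) w).subset (cyc_sub ⊥ Lt bot_le θ ?_ w)
    intro x hx
    obtain ⟨y, rfl⟩ := IntermediateField.mem_bot.1 hx
    exact θ.commutes y
  have hper := row_periodT Lt hLt θ p hp k' l hθk w hbad
  obtain ⟨c, hc⟩ : ∃ c : ℕ → Finset (Fin k → Ω), ∀ j, (c j : Set (Fin k → Ω)) =
      OrbT Lt (act (θ ^ j) w) :=
    ⟨fun j => (orbT_finite Lt (act (θ ^ j) w)).toFinset, fun j => Set.Finite.coe_toFinset _⟩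
  have hcard : ∀ j, (c j).card = dgT Lt w := by
    intro j
    rw [← dgT_map hLt (θ ^ j) w]
    unfold dgT
    rw [← hc, Set.ncard_coe_finset]
  have hdis0 : ∀ i j, i < j → j < p ^ l → Disjoint (c i) (c j) := by
    intro i j hij hj
    rw [Finset.disjoint_left]
    intro x hx hx'
    have h1 : x ∈ OrbT Lt (act (θ ^ i) w) := by rw [← hc]; exact hx
    have h2 : x ∈ OrbT Lt (act (θ ^ j) w) := by rw [← hc]; exact hx'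
    apply hper (j - i) (by omega) (by omega)
    have h3 : act (θ ^ i) (act (θ ^ (j - i)) w) ∈ OrbT Lt (act (θ ^ i) w) := by
      rw [← act_mul, ← pow_add, Nat.add_sub_cancel' hij.le, ← orbT_eq h1, orbT_eq h2]
      exact orbT_self Lt _
    rw [orbT_map hLt] at h3
    obtain ⟨z, hz, hz2⟩ := h3
    rw [← act_inj _ hz2]
    exact hz
  have hdis : ((Finset.range (p ^ l) : Finset ℕ) : Set ℕ).PairwiseDisjoint c := by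
    intro i hi j hj hij
    rw [Finset.coe_range, Set.mem_Iio] at hi hj
    rcases lt_or_gt_of_ne hij with h1 | h1
    · exact hdis0 i j h1 hj
    · exact (hdis0 j i h1 hi).symm
  have hsub : (Finset.range (p ^ l)).biUnion c ⊆ hfin.toFinset := by
    intro x hx
    obtain ⟨j, _, hxj⟩ := Finset.mem_biUnion.mp hx
    rw [Set.Finite.mem_toFinset]
    exact ⟨j, by rw [← hc]; exact hxj⟩
  calc p ^ l * dgT Lt w = ((Finset.range (p ^ l)).biUnion c).card := by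
        rw [Finset.card_biUnion hdis, Finset.sum_congr rfl fun j _ => hcard j, Finset.sum_const,
          Finset.card_range, smul_eq_mul]
    _ ≤ hfin.toFinset.card := Finset.card_le_card hsub
    _ = _ := (Set.ncard_eq_toFinset_card _ hfin).symm

end Pool.Agent.H28.PT4
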