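import Pool.Agent.H28.PT4.Clu
import Pool.Agent.H28.PT4.OrbQ
import Pool.Agent.H28.PT4.OrbI
import Pool.Agent.H28.PT4.DesZ
import Pool.Agent.H72.PB.StepZ2

/-!
# POINTS THEOREM, PART IV, StZ: lowering the level of the roots of unity by one, for tuples

Literally the proof of `step_z2` in `Pool/Agent/H72/PB/StepZ2.lean` with `clusterT` (`Lb = Lf b F (p^n₂) (p^(n₂+J))`, `Lt = L`, `A = p^((r+1) e)`, `s = J + 1 + e + r e`, `m = 1`, `φ = fun _ => 1`; `Lb ≤ L ≤ 𝓛`), `orb_idxT`, `orb_quotT`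
(`a₀ = 1`; `act 1 z = z`, `act_one`), `desc_zT`. Imports may be sorried.
-/

set_option autoImplicit false
set_option linter.unusedSectionVars false

open NumberField IntermediateField

namespace Pool.Agent.H28.PT4

open Pool.Agent.H33.TR Pool.Agent.H72.PB Pool.Agent.H72.RM Pool.Agent.H72.RG

variable {p : ℕ} [Fact p.Prime] {C : Type} [NormedField C] [NormedAlgebra ℚ_[p] C]
  [IsUltrametricDist C] [IsAlgClosed C] [Algebra.IsAlgebraic ℚ_[p] C] [IsoEnv p C]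
  {K Ω : Type} [Field K] [NumberField K] [Field Ω] [CharZero Ω] [IsAlgClosed Ω] [Algebra K Ω]
  [IsGalois K Ω] {r k : ℕ} {b : Fin r → K} {ι : Ω →+* C} {h₀ J : ℕ}

theorem step_zT (D : SX K Ω p C b ι h₀ J) (l e : ℕ) (he : l + 1 ≤ e) (Dm T : ℕ) (hT1 : 1 ≤ T)
    (hTl : 2 * T ^ (k + 1) ≤ p ^ l)
    (hnum : 4 * (Module.finrank ℚ K : ℝ) * ((r + 1 : ℕ) : ℝ) *
      (Real.log ((p : ℝ) ^ ((r + 1) * e)) + Real.log Dm + 1) < (T : ℝ) * Real.log p)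
    (n : ℕ) (hn : (r + 2) * e + 3 ≤ n) (n' N₀ : ℕ) (hn' : 1 ≤ n') (hN₀ : 1 ≤ N₀)
    (hpn' : ¬ p ∣ n') (hpN₀ : ¬ p ∣ N₀) (𝓛 : IntermediateField K Ω)
    (h𝓛 : Lf b (RF Ω b n' N₀) (p ^ n) (p ^ (n + 1 + J)) ≤ 𝓛)
    (γ y : Fin k → Ω) (hγ0 : ∀ i, γ i ≠ 0) (hy0 : ∀ i, y i ≠ 0)
    (hγ : ∀ i, ∀ θ : Ω ≃ₐ[K] Ω, ∃ a : ℕ, 1 ≤ a ∧ (θ (γ i)) ^ a = (γ i) ^ a)
    (hT : TPT p (Lf b (RF Ω b n' N₀) (p ^ n) (p ^ (n + 1 + J))) y)
    (hdg : dgT (Lf b (RF Ω b n' N₀) (p ^ n) (p ^ (n + 1 + J))) y ≤ Dm) (M₁ G : ℕ)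
    (hG : GPI 𝓛 y M₁)
    (hD : dgT (Lf b (RF Ω b n' N₀) (p ^ n) (p ^ (n + 1 + J))) y ≤ G * (M₁ + 1) ^ k)
    (h : ℝ) (hht : ∀ i, absLogHeight₁ (γ i * y i) ≤ h)
    (hh : ((k * T * (2 * (p ^ ((r + 1) * e) * G * (p ^ (J + 1 + e + r * e)) ^ k) ^ 2 * (M₁ + 1)) *
      p ^ (J + 1 + e + r * e) : ℕ) : ℝ) * h ≤ 1) :
    ∃ ε : Fin k → Ω, (∀ i, ε i ^ (p ^ (n + 1 + J)) = 1) ∧
      OrbT (Lf b (RF Ω b n' N₀) (p ^ n) (p ^ (n + J))) (y * ε) =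
        OrbT (Lf b (RF Ω b n' N₀) (p ^ n) (p ^ (n + 1 + J))) (y * ε) := by
  have hpp : p.Prime := Fact.out
  have hre : (r + 2) * e = r * e + e + e := by ring
  have hre1 : (r + 1) * e = r * e + e := by ring
  obtain ⟨n₂, hn₂⟩ : ∃ n₂, n = n₂ + l := ⟨n - l, by omega⟩
  obtain ⟨s, hs⟩ : ∃ s, s = J + 1 + e + r * e := ⟨_, rfl⟩
  obtain ⟨M, hM⟩ : ∃ M, M = n + J := ⟨_, rfl⟩
  have hM1 : n + 1 + J = M + 1 := by omega
  rw [← hs] at hh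
  rw [hM1] at hT hdg hD h𝓛 ⊢
  rw [← hM]
  set F := RF Ω b n' N₀ with hFdef
  have hF : ∀ σ : Ω ≃ₐ[K] Ω, ∀ x ∈ F, σ x ∈ F := fun σ x hx => rf_stable b n' N₀ σ x hx
  have hFfin : FiniteDimensional K F := rf_finite b n' N₀ hn' hN₀
  have hLfin : FiniteDimensional K (Lf b F (p ^ n) (p ^ (M + 1))) :=
    lf2_finite b _ _ _ (pow_pos hpp.pos _) (pow_pos hpp.pos _)
  obtain ⟨L, hL⟩ : ∃ L, L = Lf b F (p ^ n) (p ^ (M + 1)) := ⟨_, rfl⟩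
  rw [← hL] at hT hdg hD h𝓛 hLfin ⊢
  have hLst : ∀ σ : Ω ≃ₐ[K] Ω, ∀ x ∈ L, σ x ∈ L := by
    rw [hL]
    exact lf2_stable b F hF _ _
  -- the local data
  obtain ⟨τ, θ₀, hτ, hθb, hθm, hcl⟩ := D.loc e n₂ (by omega) n' N₀ hn' hN₀ hpn' hpN₀
  rw [← hs] at hcl
  have hθ₁fix : ∀ x ∈ Lf b F (p ^ n) (p ^ M), (θ₀ ^ (p ^ l)) x = x := by
    have h1 := theta_pow p b D.ne F n₂ (n₂ + J) l (by omega) θ₀ hθb
    have e1 : n₂ + J + l = M := by omega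
    rw [e1, ← hn₂] at h1
    exact h1
  have hθ₁mov : ∀ ζ : Ω, IsPrimitiveRoot ζ (p ^ (M + 1)) → (θ₀ ^ (p ^ l)) ζ ≠ ζ := by
    have h1 := theta_move p b F n₂ (n₂ + J) l (by omega) θ₀ hθb hθm
    have e1 : n₂ + J + l + 1 = M + 1 := by omega
    rw [e1] at h1
    exact h1
  have hθk : ∀ x ∈ L, (θ₀ ^ (p ^ e)) x = x := by
    have h1 := theta_pow p b D.ne F n₂ (n₂ + J) e (by omega) θ₀ hθb
    intro x hx
    refine h1 x ?_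
    rw [hL] at hx
    exact lf2_mono b F _ _ _ _ (pow_dvd_pow p (by omega)) (pow_dvd_pow p (by omega))
      (Nat.one_le_pow _ _ hpp.pos) hx
  have hLbst : ∀ σ : Ω ≃ₐ[K] Ω, ∀ x ∈ Lf b F (p ^ n₂) (p ^ (n₂ + J)),
      σ x ∈ Lf b F (p ^ n₂) (p ^ (n₂ + J)) := lf2_stable b F hF _ _
  have hLbL : Lf b F (p ^ n₂) (p ^ (n₂ + J)) ≤ L := by
    rw [hL]
    exact lf2_mono b F _ _ _ _ (pow_dvd_pow p (by omega)) (pow_dvd_pow p (by omega))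
      (Nat.one_le_pow _ _ hpp.pos)
  have hcl' : ∀ x ∈ L, x ≠ 0 → ‖τ (ι x) / ι x - 1‖ ≤
      Real.exp (-(Real.log p / (2 * (p : ℝ) ^ s))) := by
    intro x hx hx0
    refine hcl x ?_ hx0
    rw [hL] at hx
    exact lf2_mono b F _ _ _ _ (pow_dvd_pow p (by omega)) (pow_dvd_pow p (by omega))
      (Nat.one_le_pow _ _ hpp.pos) hx
  have hrootL : ∀ x : Ω, x ^ (p ^ (M + 1)) = 1 → x ∈ L := by
    intro x hx
    rw [hL]
    exact IntermediateField.subset_adjoin K _ (Or.inr (Or.inl hx))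
  have hL₁L : Lf b F (p ^ n) (p ^ M) ≤ L := by
    rw [hL]
    exact lf2_mono b F _ _ _ _ dvd_rfl (pow_dvd_pow p (by omega)) (Nat.one_le_pow _ _ hpp.pos)
  -- the index
  obtain ⟨z, hz⟩ : ∃ z, z = y ^ (p ^ s) := ⟨_, rfl⟩
  have hidx : dgT (Lf b F (p ^ n₂) (p ^ (n₂ + J))) (y ^ (p ^ s)) ≤
      p ^ ((r + 1) * e) * dgT L y := by
    have h1 := orb_idxT p b D.ne F hF n₂ (n₂ + J) l (l + 1) (by omega) (y ^ (p ^ s))
    have e1 : n₂ + J + (l + 1) = M + 1 := by omega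
    rw [e1, ← hn₂, ← hL] at h1
    have h2 : p ^ (l + 1) * (p ^ l) ^ r ≤ p ^ ((r + 1) * e) := by
      rw [← pow_mul, ← pow_add]
      apply Nat.pow_le_pow_right hpp.pos
      have h3 : l * r ≤ r * e := by
        rw [mul_comm]
        exact Nat.mul_le_mul_left r (by omega)
      omega
    exact h1.trans (Nat.mul_le_mul h2 (dgT_pow_le L y _))
  have hdgpos : 0 < dgT L y := dgT_pos L y
  have hcl2 := clusterT ι (Lf b F (p ^ n₂) (p ^ (n₂ + J))) L 𝓛 hLbL (hLbL.trans h𝓛) hLbst hLst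
    θ₀ hθb e hθk τ hτ
    (Real.exp (-(Real.log p / (2 * (p : ℝ) ^ s)))) (Real.exp_pos _) hcl' s
    (le_of_eq (rho_pow p s hpp.one_lt.le)) γ y hγ0 hy0 hγ hT
    (p ^ ((r + 1) * e)) (Nat.one_le_pow _ _ hpp.pos) hidx M₁ G hG hD T l hT1 hTl h hht hh
    (m := 1) (fun _ => 1) (by
      refine lt_of_le_of_lt ?_ hnum
      have h1 : Real.log (dgT L y) ≤ Real.log Dm := by
        apply Real.log_le_log (by exact_mod_cast hdgpos)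
        exact_mod_cast hdg
      have h2 : (0 : ℝ) ≤ Real.log (dgT L y) :=
        Real.log_nonneg (by exact_mod_cast hdgpos)
      have h4 : (0 : ℝ) ≤ Real.log ((p : ℝ) ^ ((r + 1) * e)) := by
        apply Real.log_nonneg
        exact one_le_pow₀ (by exact_mod_cast hpp.one_lt.le)
      have h3 : 4 * (Module.finrank ℚ K : ℝ) * ((1 : ℕ) : ℝ) ≤
          4 * (Module.finrank ℚ K : ℝ) * ((r + 1 : ℕ) : ℝ) := by
        apply mul_le_mul_of_nonneg_left _ (by positivity)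
        push_cast
        linarith [(Nat.cast_nonneg r : (0 : ℝ) ≤ r)]
      apply mul_le_mul h3 _ _ (by positivity)
      · push_cast
        linarith
      · push_cast
        linarith)
  obtain ⟨ψ, hψ⟩ := hcl2
  rw [← hz] at hψ
  obtain ⟨θ₁, hθ₁⟩ : ∃ θ₁, θ₁ = θ₀ ^ (p ^ l) := ⟨_, rfl⟩
  rw [← hθ₁] at hψ hθ₁fix hθ₁mov
  have hψ0 : act (ψ⁻¹ * θ₁ * ψ) z ∈ OrbT L z := by
    have h1 := hψ 0
    rw [one_mul] at h1
    exact h1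
  have hz1 : act (1 : Ω ≃ₐ[K] Ω) z ∈ OrbT L z := orbT_self L z
  obtain ⟨ν, hνL, hνz⟩ := orb_quotT hLst 1 _ z hz1 hψ0
  rw [inv_one, mul_one] at hνz
  have hinv3 : ∀ (g : Ω ≃ₐ[K] Ω) (x : Ω), g⁻¹ (g x) = x := fun g x => g.symm_apply_apply x
  have hinv2 : ∀ (g : Ω ≃ₐ[K] Ω) (x : Ω), g (g⁻¹ x) = x := fun g x => g.apply_symm_apply x
  rw [hL]
  refine desc_zT p b D.ne F n M s (by omega) (by omega) (by omega) (ν * (ψ⁻¹ * θ₁ * ψ))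
    (fun x hx => ?_) (fun ζ hζ h => ?_) y hy0 ?_ (by rw [← hL]; exact hT)
  · have h1 : ψ x ∈ Lf b F (p ^ n) (p ^ M) := lf2_stable b F hF _ _ ψ x hx
    rw [AlgEquiv.mul_apply, AlgEquiv.mul_apply, AlgEquiv.mul_apply, hθ₁fix _ h1, hinv3]
    exact hνL x (hL₁L hx)
  · have hψζ : IsPrimitiveRoot (ψ ζ) (p ^ (M + 1)) := hζ.map_of_injective (f := ψ) ψ.injective
    apply hθ₁mov _ hψζ
    have h1 : (ψ⁻¹ * θ₁ * ψ) ζ ∈ L := by
      apply hrootL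
      rw [← map_pow, hζ.pow_eq_one, map_one]
    rw [AlgEquiv.mul_apply, hνL _ h1, AlgEquiv.mul_apply, AlgEquiv.mul_apply] at h
    have h2 := congrArg ψ h
    rw [hinv2] at h2
    exact h2
  · rw [← hz]
    exact hνz

end Pool.Agent.H28.PT4
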