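import Pool.Agent.H28.PT4.StB
import Pool.Agent.H28.PT4.StZ
import Pool.Agent.H28.PT4.LCh
import Pool.Agent.H72.PB.PTower2

/-!
# POINTS THEOREM, PART IV, PTw: descent to a bounded `p`-level, for tuples (only the case `TPT`)

Model: `p_tower2` in `Pool/Agent/H72/PB/PTower2.lean`. `c₁`, `u` as there; `A` from `l_choiceT` (`g = finrank ℚ K`); for `Dm` take `l`, `T`, `e = l + J + c₁ + 1`, `n₁ = (r+2) e + 3`, `R = n₁ + J`. `F = RF Ω b n' N₀`,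
`Lv t = Lf b F (p^(n₁+t)) (p^(n₁+t+J))`; `Lv t ≤ RF Ω b n' (p^(n₁+t+J) N₀) ≤ 𝓛` (`lf2_le_rf`). Put `s = J + 1 + e + r e`, `c = k T (2 (p^((r+1)e) (p^s)^k)^2) p^s ≤ (A log (3 Dm))^A` (natural numbers):
the number in `hh` of `step_bT` is `c G^2 (M₁+1)`, so `hh` follows from the height hypothesis (if `h ≥ 0`; if `h < 0` it is clear).
Claim, by induction on `t`: for all `γ, y` with `γ i ∈ GammaS`, `y i ≠ 0`, `TPT p (Lv t) y`, `dgT (Lv t) y ≤ Dm`, `GPI 𝓛 y M₁`, `dgT (Lv t) y ≤ G (M₁+1)^k`, heights of `γ i * y i` at most `h` there is `g` with `g i ∈ GammaS`, `g i ≠ 0`, `g i ∈ 𝓛` and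
`g * x ∈ OrbT (Lv t) y` for all `x ∈ OrbT (Lv 0) (y / g)`.
`t = 0`: `g = 1` (`1 ∈ GammaS`: `gam_of_pow` as in `gam_pow` with exponent `0`). `t + 1`: `step_bT` (`n = n₁ + t`): `γ₁`; `y₁ = y / γ₁`, `OrbT (Lf b F (p^n) (p^(n+1+J))) y₁ = OrbT (Lv (t+1)) y₁`; over the field `L' := Lf b F (p^n) (p^(n+1+J)) ≤ 𝓛`
the tuple `y₁` has `TPT` (`tpt_smul` over `Lv (t+1)` with `c = γ₁⁻¹`, and the equality of the orbits), the same `dgT`, `GPI 𝓛 y₁ M₁` (`gpi_mul`), `(γ * γ₁) * y₁ = γ * y`. `step_zT`: `ε`, `y₂ = y₁ * ε`, `OrbT (Lv t) y₂ = OrbT L' y₂`, `ε i ∈ L'`;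
`(γ γ₁ ε⁻¹) y₂ = γ y`; `TPT`, `dgT`, `GPI` for `y₂` as before; induction hypothesis: `g'`. Put `g = γ₁ * ε⁻¹ * g'`, `y / g = y₂ / g'`. For `x ∈ OrbT (Lv 0) (y / g)`: `g' x ∈ OrbT (Lv t) y₂ = OrbT L' y₂`, so `ε⁻¹ g' x ∈ OrbT L' (ε⁻¹ y₂) = OrbT L' y₁ =
OrbT (Lv (t+1)) y₁` (`orbT_smul`), and `γ₁ ε⁻¹ g' x ∈ OrbT (Lv (t+1)) (γ₁ y₁) = OrbT (Lv (t+1)) y`.
End: `t = kk`: `RF Ω b n' (p^kk N₀) ≤ Lv kk` (`rf_le_lf2`, `lf2_mono`), so `TPT`, `dgT ≤` for `Lv kk` (`orbT_mono`, `dgT_mono`), and `Lv 0 ≤ RF Ω b n' (p^R N₀)` (`lf2_le_rf`): `OrbT (RF .. R) (y/g) ⊆ OrbT (Lv 0) (y/g)`, `OrbT (Lv kk) y ⊆ OrbT (RF .. kk) y`. Imports may be sorried.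
-/

set_option autoImplicit false
set_option linter.unusedSectionVars false

open NumberField IntermediateField

namespace Pool.Agent.H28.PT4

open Pool.Agent.H33.TR Pool.Agent.H72.PB Pool.Agent.H72.RM Pool.Agent.H72.RG

variable {p : ℕ} [Fact p.Prime] {C : Type} [NormedField C] [NormedAlgebra ℚ_[p] C]
  [IsUltrametricDist C] [IsAlgClosed C] [Algebra.IsAlgebraic ℚ_[p] C] [IsoEnv p C]
  {K Ω : Type} [Field K] [NumberField K] [Field Ω] [CharZero Ω] [IsAlgClosed Ω] [Algebra K Ω]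
  [IsGalois K Ω] {r : ℕ} {b : Fin r → K} {ι : Ω →+* C} {h₀ J : ℕ}

theorem p_towerT (D : SX K Ω p C b ι h₀ J) (S : Set ℕ) (hpS : p ∈ S) (k : ℕ) :
    ∃ A : ℕ, 1 ≤ A ∧ ∀ Dm : ℕ, 1 ≤ Dm → ∃ R : ℕ,
      (p : ℝ) ^ R ≤ (A * Real.log (3 * Dm)) ^ A ∧
      ∀ n' N₀ : ℕ, 1 ≤ n' → 1 ≤ N₀ → ¬ p ∣ n' → ¬ p ∣ N₀ →
      ∀ (kk : ℕ) (𝓛 : IntermediateField K Ω), (∀ M : ℕ, RF Ω b n' (p ^ M * N₀) ≤ 𝓛) →
      ∀ (γ y : Fin k → Ω), (∀ i, γ i ∈ GammaS Ω b S) → (∀ i, y i ≠ 0) →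
      TPT p (RF Ω b n' (p ^ kk * N₀)) y → dgT (RF Ω b n' (p ^ kk * N₀)) y ≤ Dm →
      ∀ (M₁ G : ℕ), GPI 𝓛 y M₁ → dgT (RF Ω b n' (p ^ kk * N₀)) y ≤ G * (M₁ + 1) ^ k →
      ∀ h : ℝ, (∀ i, absLogHeight₁ (γ i * y i) ≤ h) →
      (A * Real.log (3 * Dm)) ^ A * ((G : ℝ) ^ 2 * ((M₁ : ℝ) + 1) * h) ≤ 1 →
      ∃ g : Fin k → Ω, (∀ i, g i ∈ GammaS Ω b S) ∧ (∀ i, g i ≠ 0) ∧ (∀ i, g i ∈ 𝓛) ∧
        ∀ x ∈ OrbT (RF Ω b n' (p ^ R * N₀)) (y / g), g * x ∈ OrbT (RF Ω b n' (p ^ kk * N₀)) y := by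
  classical
  have hpp : p.Prime := Fact.out
  have hh2 := D.h_ge
  obtain ⟨c₁, u, hu, hdh⟩ := Nat.exists_eq_pow_mul_and_not_dvd (n := h₀ - 1) (by omega) p hpp.ne_one
  obtain ⟨A, hA1, hA⟩ := l_choiceT p r (Module.finrank ℚ K) J c₁ k hpp.two_le
  refine ⟨A, hA1, fun Dm hDm => ?_⟩
  obtain ⟨l, T, hT1, hTl, hl⟩ := hA Dm hDm
  obtain ⟨e, he⟩ : ∃ e, e = l + J + c₁ + 1 := ⟨_, rfl⟩
  obtain ⟨hnum, hQ, hR⟩ := hl e he
  obtain ⟨n₁, hn₁⟩ : ∃ n₁, n₁ = (r + 2) * e + 3 := ⟨_, rfl⟩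
  refine ⟨n₁ + J, by rw [hn₁]; exact hR, ?_⟩
  intro n' N₀ hn' hN₀ hpn' hpN₀ kk 𝓛 h𝓛 γ y hγ hy0 hT hdg M₁ G hG hD h hht hh
  have hh' : ((k * T * (2 * (p ^ ((r + 1) * e) * G * (p ^ (J + 1 + e + r * e)) ^ k) ^ 2 *
      (M₁ + 1)) * p ^ (J + 1 + e + r * e) : ℕ) : ℝ) * h ≤ 1 := by
    rcases le_or_gt 0 h with h0 | h0
    · have e1 : ((k * T * (2 * (p ^ ((r + 1) * e) * G * (p ^ (J + 1 + e + r * e)) ^ k) ^ 2 *
          (M₁ + 1)) * p ^ (J + 1 + e + r * e) : ℕ) : ℝ) * h =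
          ((k * T * (2 * (p ^ ((r + 1) * e) * (p ^ (J + 1 + e + r * e)) ^ k) ^ 2) *
            p ^ (J + 1 + e + r * e) : ℕ) : ℝ) * ((G : ℝ) ^ 2 * ((M₁ : ℝ) + 1) * h) := by
        push_cast
        ring
      rw [e1]
      exact (mul_le_mul_of_nonneg_right hQ (by positivity)).trans hh
    · exact (mul_nonpos_of_nonneg_of_nonpos (Nat.cast_nonneg _) h0.le).trans zero_le_one
  obtain ⟨Lv, hLv⟩ : ∃ Lv : ℕ → IntermediateField K Ω,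
      ∀ t, Lv t = Lf b (RF Ω b n' N₀) (p ^ (n₁ + t)) (p ^ (n₁ + t + J)) := ⟨_, fun _ => rfl⟩
  have claim : ∀ (t : ℕ) (γ y : Fin k → Ω), (∀ i, γ i ∈ GammaS Ω b S) → (∀ i, y i ≠ 0) →
      TPT p (Lv t) y → dgT (Lv t) y ≤ Dm → GPI 𝓛 y M₁ → dgT (Lv t) y ≤ G * (M₁ + 1) ^ k →
      (∀ i, absLogHeight₁ (γ i * y i) ≤ h) →
      ∃ g : Fin k → Ω, (∀ i, g i ∈ GammaS Ω b S) ∧ (∀ i, g i ≠ 0) ∧ (∀ i, g i ∈ 𝓛) ∧
        ∀ x ∈ OrbT (Lv 0) (y / g), g * x ∈ OrbT (Lv t) y := by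
    clear hγ hy0 hT hdg hG hD hht γ y
    intro t
    induction t with
    | zero =>
      intro γ y hγ hy0 _ _ _ _ _
      refine ⟨1, fun i => ?_, fun i => one_ne_zero, fun i => one_mem _, fun x hx => ?_⟩
      · exact gam_of_pow 1 le_rfl (fun q hq hq1 => absurd (Nat.dvd_one.1 hq1) hq.one_lt.ne') 0
          (by simp)
      · rw [one_mul]
        rwa [div_one] at hx
    | succ t ih =>
      intro γ y hγ hy0 hT hdg hG hD hht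
      have hγ0 : ∀ i, γ i ≠ 0 := fun i => gam_ne_zero D.ne (hγ i)
      have hn : n₁ + (t + 1) = n₁ + t + 1 := by omega
      have hLs : Lv (t + 1) = Lf b (RF Ω b n' N₀) (p ^ (n₁ + t + 1)) (p ^ (n₁ + t + 1 + J)) := by
        rw [hLv, hn]
      have hLs𝓛 : Lf b (RF Ω b n' N₀) (p ^ (n₁ + t + 1)) (p ^ (n₁ + t + 1 + J)) ≤ 𝓛 :=
        (lf2_le_rf b p (n₁ + t + 1) (n₁ + t + 1 + J) n' N₀ hpp hn' hN₀ (by omega)).trans (h𝓛 _)
      have hL'𝓛 : Lf b (RF Ω b n' N₀) (p ^ (n₁ + t)) (p ^ (n₁ + t + 1 + J)) ≤ 𝓛 :=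
        (lf2_le_rf b p (n₁ + t) (n₁ + t + 1 + J) n' N₀ hpp hn' hN₀ (by omega)).trans (h𝓛 _)
      rw [hLs] at hT hdg hD
      obtain ⟨γ₁, hγ₁0, hγ₁L, hγ₁m, horb⟩ := step_bT D c₁ u hu hdh l e he Dm T hT1 hTl hnum
        (n₁ + t) (by omega) n' N₀ hn' hN₀ hpn' hpN₀ 𝓛 hLs𝓛 γ y hγ0 hy0 (fun i => gam_eta (hγ i))
        hT hdg M₁ G hG hD h hht hh'
      have hγ₁ : ∀ i, γ₁ i ∈ GammaS Ω b S := by
        intro i
        obtain ⟨m, hm⟩ := hγ₁m i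
        refine gam_of_pow (p ^ (n₁ + t + 1)) (pow_pos hpp.pos _) (fun q hq hqd => ?_) m hm
        have h1 : q = p := (Nat.prime_dvd_prime_iff_eq hq hpp).1 (hq.dvd_of_dvd_pow hqd)
        rw [h1]
        exact hpS
      have hy₁0 : ∀ i, (y / γ₁) i ≠ 0 := fun i => div_ne_zero (hy0 i) (hγ₁0 i)
      have hiL : ∀ i, (γ₁⁻¹) i ∈ Lf b (RF Ω b n' N₀) (p ^ (n₁ + t + 1)) (p ^ (n₁ + t + 1 + J)) :=
        fun i => inv_mem (hγ₁L i)
      have hi0 : ∀ i, (γ₁⁻¹) i ≠ 0 := fun i => inv_ne_zero (hγ₁0 i)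
      have hey : γ₁⁻¹ * y = y / γ₁ := by
        rw [div_eq_mul_inv, mul_comm]
      have hdg1 : dgT (Lf b (RF Ω b n' N₀) (p ^ (n₁ + t)) (p ^ (n₁ + t + 1 + J))) (y / γ₁) =
          dgT (Lf b (RF Ω b n' N₀) (p ^ (n₁ + t + 1)) (p ^ (n₁ + t + 1 + J))) y := by
        have h1 := dgT_smul hiL hi0 y
        rw [hey] at h1
        rw [← h1]
        unfold dgT
        rw [horb]
      have hT1' : TPT p (Lf b (RF Ω b n' N₀) (p ^ (n₁ + t)) (p ^ (n₁ + t + 1 + J))) (y / γ₁) := by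
        have h1 := tpt_smul hiL hi0 hT
        rw [hey] at h1
        intro ω m hω hωO
        rw [horb] at hωO
        exact h1 ω m hω hωO
      have hG1 : GPI 𝓛 (y / γ₁) M₁ := by
        rw [← hey]
        exact gpi_mul hG (fun i => hLs𝓛 (hiL i)) hi0
      have e1 : ∀ i, (γ * γ₁) i * (y / γ₁) i = γ i * y i := by
        intro i
        have h1 := hγ₁0 i
        change γ i * γ₁ i * (y i / γ₁ i) = γ i * y i
        field_simp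
      obtain ⟨ε, hε, horb2⟩ := step_zT D l e (by omega) Dm T hT1 hTl hnum (n₁ + t) (by omega) n' N₀
        hn' hN₀ hpn' hpN₀ 𝓛 hL'𝓛 (γ * γ₁) (y / γ₁) (fun i => mul_ne_zero (hγ0 i) (hγ₁0 i)) hy₁0
        (fun i => gam_eta (gam_mul (hγ i) (hγ₁ i))) hT1' (by rw [hdg1]; exact hdg) M₁ G hG1
        (by rw [hdg1]; exact hD) h (fun i => by rw [e1 i]; exact hht i) hh'
      have hε0 : ∀ i, ε i ≠ 0 := by
        intro i h0
        have h1 := hε i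
        rw [h0, zero_pow (pow_pos hpp.pos _).ne'] at h1
        exact zero_ne_one h1
      have hεγ : ∀ i, (ε i)⁻¹ ∈ GammaS Ω b S := by
        intro i
        refine gam_of_pow (p ^ (n₁ + t + 1 + J)) (pow_pos hpp.pos _) (fun q hq hqd => ?_)
          (fun _ => 0) ?_
        · have h1 : q = p := (Nat.prime_dvd_prime_iff_eq hq hpp).1 (hq.dvd_of_dvd_pow hqd)
          rw [h1]
          exact hpS
        · rw [inv_pow, hε i]
          simp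
      have hεL : ∀ i, ε i ∈ Lf b (RF Ω b n' N₀) (p ^ (n₁ + t)) (p ^ (n₁ + t + 1 + J)) := fun i =>
        IntermediateField.subset_adjoin K _ (Or.inr (Or.inl (hε i)))
      have hdg2 : dgT (Lv t) (y / γ₁ * ε) =
          dgT (Lf b (RF Ω b n' N₀) (p ^ (n₁ + t + 1)) (p ^ (n₁ + t + 1 + J))) y := by
        have h1 := dgT_smul hεL hε0 (y / γ₁)
        rw [mul_comm] at h1
        rw [← hdg1, ← h1, hLv]
        unfold dgT
        rw [horb2]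
      have hT2 : TPT p (Lv t) (y / γ₁ * ε) := by
        have h1 := tpt_smul hεL hε0 hT1'
        rw [mul_comm] at h1
        intro ω m hω hωO
        rw [hLv, horb2] at hωO
        exact h1 ω m hω hωO
      have hG2 : GPI 𝓛 (y / γ₁ * ε) M₁ := by
        rw [mul_comm]
        exact gpi_mul hG1 (fun i => hL'𝓛 (hεL i)) hε0
      have e2 : ∀ i, (fun i => γ i * γ₁ i * (ε i)⁻¹) i * (y / γ₁ * ε) i = γ i * y i := by
        intro i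
        have h1 := hγ₁0 i
        have h2 := hε0 i
        change γ i * γ₁ i * (ε i)⁻¹ * (y i / γ₁ i * ε i) = γ i * y i
        field_simp
      obtain ⟨g', hg'S, hg'0, hg'L, hg'⟩ := ih (fun i => γ i * γ₁ i * (ε i)⁻¹) (y / γ₁ * ε)
        (fun i => gam_mul (gam_mul (hγ i) (hγ₁ i)) (hεγ i))
        (fun i => mul_ne_zero (hy₁0 i) (hε0 i)) hT2 (by rw [hdg2]; exact hdg) hG2
        (by rw [hdg2]; exact hD) (fun i => by rw [e2 i]; exact hht i)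
      refine ⟨fun i => γ₁ i * (ε i)⁻¹ * g' i,
        fun i => gam_mul (gam_mul (hγ₁ i) (hεγ i)) (hg'S i),
        fun i => mul_ne_zero (mul_ne_zero (hγ₁0 i) (inv_ne_zero (hε0 i))) (hg'0 i),
        fun i => mul_mem (mul_mem (hLs𝓛 (hγ₁L i)) (inv_mem (hL'𝓛 (hεL i)))) (hg'L i),
        fun x hx => ?_⟩
      have e3 : (y / fun i => γ₁ i * (ε i)⁻¹ * g' i) = y / γ₁ * ε / g' := by
        funext i
        have h1 := hγ₁0 i
        have h2 := hε0 i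
        have h3 := hg'0 i
        change y i / (γ₁ i * (ε i)⁻¹ * g' i) = y i / γ₁ i * ε i / g' i
        field_simp
      rw [e3] at hx
      have h4 := hg' x hx
      rw [hLv, horb2] at h4
      -- multiply by the inverse of `ε`
      have h5 : ε⁻¹ * (g' * x) ∈
          OrbT (Lf b (RF Ω b n' N₀) (p ^ (n₁ + t)) (p ^ (n₁ + t + 1 + J))) (y / γ₁) := by
        have h6 : ε⁻¹ * (y / γ₁ * ε) = y / γ₁ := by
          funext i
          have h2 := hε0 i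
          change (ε i)⁻¹ * (y i / γ₁ i * ε i) = y i / γ₁ i
          field_simp
        have hεiL : ∀ i, (ε⁻¹) i ∈
            Lf b (RF Ω b n' N₀) (p ^ (n₁ + t)) (p ^ (n₁ + t + 1 + J)) := fun i => inv_mem (hεL i)
        have h7 := orbT_smul hεiL (y / γ₁ * ε)
        rw [h6] at h7
        rw [h7]
        exact ⟨_, h4, rfl⟩
      rw [horb] at h5
      have h8 : γ₁ * (y / γ₁) = y := by
        funext i
        have h1 := hγ₁0 i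
        change γ₁ i * (y i / γ₁ i) = y i
        field_simp
      have h9 := orbT_smul hγ₁L (y / γ₁)
      rw [h8] at h9
      rw [hLs, h9]
      refine ⟨_, h5, ?_⟩
      funext i
      change γ₁ i * ((ε i)⁻¹ * (g' i * x i)) = γ₁ i * (ε i)⁻¹ * g' i * x i
      ring
  have hle : RF Ω b n' (p ^ kk * N₀) ≤ Lv kk := by
    rw [hLv]
    exact le_trans (rf_le_lf2 (Ω := Ω) b p kk n' N₀ hpp hpN₀)
      (lf2_mono b (RF Ω b n' N₀) (p ^ kk) (p ^ kk) (p ^ (n₁ + kk)) (p ^ (n₁ + kk + J))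
        (pow_dvd_pow _ (by omega)) (pow_dvd_pow _ (by omega)) (Nat.one_le_pow _ _ hpp.pos))
  have hdle : dgT (Lv kk) y ≤ dgT (RF Ω b n' (p ^ kk * N₀)) y := dgT_mono hle y
  obtain ⟨g, hgS, hg0, hgL, hg⟩ := claim kk γ y hγ hy0
    (fun ω m hω hωO => hT ω m hω (orbT_mono hle y hωO)) (hdle.trans hdg) hG (hdle.trans hD) hht
  refine ⟨g, hgS, hg0, hgL, fun x hx => orbT_mono hle y (hg x ?_)⟩
  have hle0 : Lv 0 ≤ RF Ω b n' (p ^ (n₁ + J) * N₀) := by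
    rw [hLv]
    exact lf2_le_rf b p n₁ (n₁ + J) n' N₀ hpp hn' hN₀ (by omega)
  exact orbT_mono hle0 _ hx

end Pool.Agent.H28.PT4
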