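import Pool.Agent.H28.PT4.OrbA

/-!
# POINTS THEOREM, PART IV, Roo: roots of the coordinates, of order prime to `S`

`P = ∏_(p ∈ S) p`, `t_i = P μ_i + 1`. `STP`: `ω v` in the orbit: `(ω_i^(t_i)) w` in the orbit of `w`, so `ω_i^(t_i) = 1`, `ω = 1`.
Degree: the conjugates of `v` go to those of `w` (`x ↦ (x_i^(t_i))`) with fibres of at most `∏ t_i` elements.
-/

set_option autoImplicit false
set_option linter.unusedSectionVars false

open NumberField IntermediateField

namespace Pool.Agent.H28.PT4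

open Pool.Agent.H33.TR Pool.Agent.H72.PB

variable {K Ω : Type} [Field K] [Field Ω] [Algebra K Ω] {k : ℕ}

theorem root_T [IsAlgClosed Ω] [CharZero Ω] [IsGalois K Ω] (S : Finset ℕ) (hS : ∀ p ∈ S, p.Prime)
    (LL : IntermediateField K Ω) (w : Fin k → Ω) (hw : ∀ i, w i ≠ 0) (μ : Fin k → ℕ)
    (hμ : ∀ i, 1 ≤ μ i) (h : STP S LL w) :
    ∃ (v : Fin k → Ω) (t : Fin k → ℕ),
      (∀ i, v i ≠ 0 ∧ v i ^ t i = w i ∧ μ i ≤ t i ∧ t i ≤ ((∏ p ∈ S, p) + 1) * μ i) ∧
      STP S LL v ∧ dgT LL v ≤ (∏ i, t i) * dgT LL w := by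
  classical
  obtain ⟨P, hP⟩ : ∃ P, P = ∏ p ∈ S, p := ⟨_, rfl⟩
  have hP1 : 1 ≤ P := by
    rw [hP]
    exact Nat.one_le_iff_ne_zero.2 (Finset.prod_ne_zero_iff.2 fun p hp => (hS p hp).ne_zero)
  have hPd : ∀ p ∈ S, p ∣ P := fun p hp => hP ▸ Finset.dvd_prod_of_mem (fun p => p) hp
  rw [← hP]
  have hroot : ∀ i, ∃ z : Ω, z ^ (P * μ i + 1) = w i := fun i =>
    IsAlgClosed.exists_pow_nat_eq (w i) (Nat.succ_pos _)
  choose v hv using hroot
  have hv0 : ∀ i, v i ≠ 0 := by
    intro i h0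
    apply hw i
    rw [← hv i, h0, zero_pow (Nat.succ_ne_zero _)]
  have hact : ∀ ρ : Ω ≃ₐ[K] Ω, ∀ i, act ρ w i = (act ρ v i) ^ (P * μ i + 1) := by
    intro ρ i
    change ρ (w i) = (ρ (v i)) ^ (P * μ i + 1)
    rw [← hv i, map_pow]
  refine ⟨v, fun i => P * μ i + 1, fun i => ⟨hv0 i, hv i, ?_, ?_⟩, ?_, ?_⟩
  · have := Nat.mul_le_mul_right (μ i) hP1
    show μ i ≤ P * μ i + 1
    omega
  · have := hμ i
    show P * μ i + 1 ≤ (P + 1) * μ i
    rw [add_mul, one_mul]
    omega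
  · intro ω N hN1 hNS hω hmem
    obtain ⟨ρ, hρ, hρv⟩ := hmem
    have h1 : (fun i => ω i ^ (P * μ i + 1)) * w ∈ OrbT LL w := by
      refine ⟨ρ, hρ, ?_⟩
      funext i
      rw [hact, hρv]
      change (ω i * v i) ^ (P * μ i + 1) = ω i ^ (P * μ i + 1) * w i
      rw [mul_pow, hv]
    have h2 := h _ N hN1 hNS (fun i => by rw [← pow_mul, mul_comm, pow_mul, hω, one_pow]) h1
    funext i
    have h3 : ω i ^ (P * μ i + 1) = 1 := congrFun h2 i
    have h4 : orderOf (ω i) ∣ N := orderOf_dvd_of_pow_eq_one (hω i)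
    have h5 : orderOf (ω i) ∣ P * μ i + 1 := orderOf_dvd_of_pow_eq_one h3
    have h6 : orderOf (ω i) = 1 := by
      by_contra hne
      obtain ⟨q, hq, hqd⟩ := Nat.exists_prime_and_dvd hne
      have h7 : q ∣ P * μ i := (hPd q (hNS q hq (hqd.trans h4))).mul_right _
      exact hq.one_lt.ne' (Nat.dvd_one.1 ((Nat.dvd_add_right h7).1 (hqd.trans h5)))
    exact orderOf_eq_one_iff.1 h6
  · have hfv := orbT_finite LL v
    have hfw := orbT_finite LL w
    unfold dgT
    rw [Set.ncard_eq_toFinset_card _ hfv, Set.ncard_eq_toFinset_card _ hfw]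
    refine (Finset.card_le_mul_card_image (f := fun x : Fin k → Ω => fun i => x i ^ (P * μ i + 1))
      hfv.toFinset (∏ i, (P * μ i + 1)) ?_).trans (Nat.mul_le_mul_left _ (Finset.card_le_card ?_))
    · intro a _
      have hsub : hfv.toFinset.filter (fun x : Fin k → Ω => (fun i => x i ^ (P * μ i + 1)) = a) ⊆
          Fintype.piFinset fun i => (Polynomial.nthRoots (P * μ i + 1) (a i)).toFinset := by
        intro x hx
        rw [Finset.mem_filter] at hx
        rw [Fintype.mem_piFinset]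
        intro i
        rw [Multiset.mem_toFinset, Polynomial.mem_nthRoots (Nat.succ_pos _)]
        exact congrFun hx.2 i
      refine (Finset.card_le_card hsub).trans ?_
      rw [Fintype.card_piFinset]
      exact Finset.prod_le_prod' fun i _ =>
        (Multiset.toFinset_card_le _).trans (Polynomial.card_nthRoots _ _)
    · intro y hy
      rw [Finset.mem_image] at hy
      obtain ⟨x, hx, rfl⟩ := hy
      rw [Set.Finite.mem_toFinset] at hx ⊢
      obtain ⟨ρ, hρ, rfl⟩ := hx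
      refine ⟨ρ, hρ, ?_⟩
      funext i
      exact hact ρ i

end Pool.Agent.H28.PT4
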