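import Pool.Agent.H28.PT4.Her
import Pool.Agent.H28.PT4.Roo
import Pool.Agent.H28.PT4.Cov
import Pool.Agent.H72.PB.HNonneg
import Pool.Agent.H72.RM.BaseB

/-!
# POINTS THEOREM, PART IV, Prep: removing the `S`-torsion of the orbit (Hermite reduction and roots)

`prep`. PROOF: `her` for `w = (γ i : Ω)`: `e`, `μ`; `w* i = ∏_j w_j^(e i j)` (a unit: `u i = ∏_j γ_j^(e i j)`). `root_T` for `w*`, `μ`: `v i`, `t i`, `v i ^ t i = w* i`, `μ i ≤ t i ≤ (P+1) μ i`. Degree: `dgT 𝓛 v ≤ ∏ t_i dgT 𝓛 w* ≤ (P+1)^k ∏ μ_i dgT 𝓛 w* ≤ (P+1)^k 2^(k^2) dgT 𝓛 w`.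
Heights: `t_i h(v_i) = h(w*_i) ≤ ∑_j |e i j| h(γ_j) ≤ k μ_i h` (`absLogHeight_pow`, `absLogHeight_zpow`, products `absLogHeight_mul_le`; models `ht_ch` in H33/TR, `dirP_prod` in `H33/PS/DirP.lean`), so `h(v_i) ≤ k h` (`t_i ≥ μ_i ≥ 1`, `h ≥ 0`).
Independence: let `a ≠ 0`, `x = ∏ v_i^(a_i) ∈ DivG`. With `t = ∏ t_i`: `x^t = ∏_i (w*_i)^(a_i t / t_i) = ∏_j γ_j^(c_j)`, `c_j = ∑_i (a_i t / t_i) e i j`; `c ≠ 0` because `det e ≠ 0` and `a_i t/t_i` is not identically `0` (`Matrix.vecMul_injective`/`Matrix.eq_zero_of_vecMul_eq_zero`). `x^t ∈ DivG` (`x^N = ∏ b^m` gives `(x^t)^N = ∏ b^(t m)`): contradiction to `hind`.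
-/

set_option autoImplicit false
set_option linter.unusedSectionVars false

open NumberField IntermediateField

namespace Pool.Agent.H28.PT4

open Pool.Agent.H33.TR Pool.Agent.H72.PB Pool.Agent.H72.RM Pool.Agent.H72.RG Pool.Agent.H11.TS

private theorem prep_int {K Ω : Type} [Field K] [NumberField K] [Field Ω] [CharZero Ω]
    [Algebra K Ω] [IsGalois K Ω] (x : Ω) : IsIntegral ℚ x := by
  have h1 : IsIntegral K x := IsGalois.integral K x
  exact isIntegral_trans x h1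

private theorem prep_prod {K Ω : Type} [Field K] [NumberField K] [Field Ω] [CharZero Ω]
    [IsAlgClosed Ω] [Algebra K Ω] [IsGalois K Ω] {ι : Type} (s : Finset ι) (f : ι → Ω) :
    absLogHeight₁ (∏ i ∈ s, f i) ≤ ∑ i ∈ s, absLogHeight₁ (f i) := by
  classical
  induction s using Finset.induction_on with
  | empty =>
    have h := absLogHeight_zpow (1 : Ω) 0
    rw [zpow_zero] at h
    simp only [Int.cast_zero, abs_zero, zero_mul] at h
    simp [h]
  | insert a s ha ih =>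
    rw [Finset.prod_insert ha, Finset.sum_insert ha]
    refine (Pool.Agent.H4.RR.absLogHeight_mul_le Ω _ _ (prep_int (K := K) _)
      (prep_int (K := K) _)).trans ?_
    linarith

private theorem prep_div {K Ω : Type} [Field K] [Field Ω] [Algebra K Ω] {r : ℕ} (b : Fin r → K)
    (x : Ω) (hx : x ∈ DivG Ω b) (t : ℕ) : x ^ t ∈ DivG Ω b := by
  obtain ⟨N, hN, m, hm⟩ := hx
  refine ⟨N, hN, fun i => m i * t, ?_⟩
  rw [← pow_mul, mul_comm t N, pow_mul, hm, ← Finset.prod_pow]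
  refine Finset.prod_congr rfl fun i _ => ?_
  rw [zpow_mul, zpow_natCast]

private theorem prep_zsum {G ι : Type} [CommGroup G] (g : G) (s : Finset ι) (f : ι → ℤ) :
    g ^ (∑ i ∈ s, f i) = ∏ i ∈ s, g ^ f i := by
  classical
  induction s using Finset.induction_on with
  | empty => simp
  | insert a s ha ih => rw [Finset.sum_insert ha, Finset.prod_insert ha, zpow_add, ih]

/-- independence passes to roots of independent monomials -/
private theorem prep_ind {K Ω : Type} [Field K] [Field Ω] [Algebra K Ω] {r k : ℕ} (b : Fin r → K)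
    (γ : Fin k → Ωˣ) (hind : ∀ a : Fin k → ℤ, a ≠ 0 → ((∏ i, γ i ^ a i : Ωˣ) : Ω) ∉ DivG Ω b)
    (e : Fin k → Fin k → ℤ) (hdet : Matrix.det (Matrix.of e) ≠ 0) (v : Fin k → Ωˣ) (t : Fin k → ℕ)
    (ht : ∀ i, 1 ≤ t i) (hv : ∀ i, v i ^ t i = ∏ j, γ j ^ e i j) (a : Fin k → ℤ) (ha : a ≠ 0) :
    ((∏ i, v i ^ a i : Ωˣ) : Ω) ∉ DivG Ω b := by
  classical
  intro hx
  have h1 := prep_div b _ hx (∏ i, t i)
  set s : Fin k → ℕ := fun i => ∏ j ∈ Finset.univ.erase i, t j with hs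
  have hts : ∀ i, ∏ j, t j = t i * s i := fun i => by
    rw [hs]
    exact (Finset.mul_prod_erase Finset.univ t (Finset.mem_univ i)).symm
  have hs1 : ∀ i, s i ≠ 0 := fun i => Finset.prod_ne_zero_iff.2 fun j _ => by
    have := ht j
    omega
  set c : Fin k → ℤ := Matrix.vecMul (fun i => a i * (s i : ℤ)) (Matrix.of e) with hc
  have h2 : (∏ i, v i ^ a i) ^ (∏ i, t i) = ∏ j, γ j ^ c j := by
    rw [← Finset.prod_pow]
    have e1 : ∀ i, (v i ^ a i) ^ (∏ i, t i) = ∏ j, γ j ^ (a i * (s i : ℤ) * e i j) := by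
      intro i
      rw [hts i, ← zpow_natCast, ← zpow_mul, mul_comm (a i)]
      push_cast
      rw [mul_assoc, zpow_mul, zpow_natCast, hv i, ← Finset.prod_zpow]
      refine Finset.prod_congr rfl fun j _ => ?_
      rw [← zpow_mul]
      congr 1
      ring
    rw [Finset.prod_congr rfl fun i _ => e1 i, Finset.prod_comm]
    refine Finset.prod_congr rfl fun j _ => ?_
    rw [hc]
    exact (prep_zsum (γ j) Finset.univ fun i => a i * (s i : ℤ) * e i j).symm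
  have h3 : c ≠ 0 := by
    intro h0
    have h4 := Matrix.eq_zero_of_vecMul_eq_zero hdet h0
    apply ha
    funext i
    have h5 := congrFun h4 i
    simp only [Pi.zero_apply, mul_eq_zero, Nat.cast_eq_zero] at h5
    rcases h5 with h5 | h5
    · exact h5
    · exact absurd h5 (hs1 i)
  apply hind c h3
  rw [← h2]
  exact_mod_cast h1

theorem prep {K Ω : Type} [Field K] [NumberField K] [Field Ω] [CharZero Ω] [IsAlgClosed Ω]
    [Algebra K Ω] [IsGalois K Ω] {r k : ℕ} (S : Finset ℕ) (hS : ∀ p ∈ S, p.Prime) (b : Fin r → K)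
    (𝓛 : IntermediateField K Ω)
    (hμ : ∀ N : ℕ, 1 ≤ N → (∀ q : ℕ, q.Prime → q ∣ N → q ∈ S) → ∀ ω : Ω, ω ^ N = 1 → ω ∈ 𝓛)
    (γ : Fin k → Ωˣ) (hind : ∀ a : Fin k → ℤ, a ≠ 0 → ((∏ i, γ i ^ a i : Ωˣ) : Ω) ∉ DivG Ω b)
    (h : ℝ) (hh : ∀ i, absLogHeight₁ (γ i : Ω) ≤ h) :
    ∃ v : Fin k → Ωˣ, (∀ a : Fin k → ℤ, a ≠ 0 → ((∏ i, v i ^ a i : Ωˣ) : Ω) ∉ DivG Ω b) ∧
      (∀ i, absLogHeight₁ (v i : Ω) ≤ k * h) ∧ STP S 𝓛 (fun i => (v i : Ω)) ∧
      dgT 𝓛 (fun i => (v i : Ω)) ≤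
        2 ^ (k ^ 2) * ((∏ p ∈ S, p) + 1) ^ k * dgT 𝓛 (fun i => (γ i : Ω)) := by
  classical
  obtain ⟨e, μ, hdet, hμ1, heμ, hdeg, hstp⟩ := her S hS 𝓛 hμ (fun i => (γ i : Ω))
    (fun i => (γ i).ne_zero)
  set u : Fin k → Ωˣ := fun i => ∏ j, γ j ^ e i j with hu
  have hui : ∀ i, ((u i : Ωˣ) : Ω) = ∏ j, (γ j : Ω) ^ e i j := fun i => by
    rw [hu]
    push_cast
    rfl
  have huf : (fun i => ((u i : Ωˣ) : Ω)) = fun i => ∏ j, (γ j : Ω) ^ e i j := funext hui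
  rw [← huf] at hdeg hstp
  obtain ⟨v, t, hvt, hvS, hvd⟩ := root_T S hS 𝓛 (fun i => ((u i : Ωˣ) : Ω))
    (fun i => (u i).ne_zero) μ hμ1 hstp
  have hv0 : ∀ i, v i ≠ 0 := fun i => (hvt i).1
  have hvu : ∀ i, (Units.mk0 (v i) (hv0 i)) ^ t i = u i := fun i => by
    apply Units.ext
    rw [Units.val_pow_eq_pow_val, Units.val_mk0]
    exact (hvt i).2.1
  have ht1 : ∀ i, 1 ≤ t i := fun i => (hμ1 i).trans (hvt i).2.2.1
  refine ⟨fun i => Units.mk0 (v i) (hv0 i), ?_, ?_, ?_, ?_⟩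
  · exact fun a ha => prep_ind b γ hind e hdet _ t ht1 hvu a ha
  · intro i
    rw [Units.val_mk0]
    have h0 : 0 ≤ h := (ht_nonneg _).trans (hh i)
    have h1 : (t i : ℝ) * absLogHeight₁ (v i) ≤ (t i : ℝ) * (k * h) := by
      rw [← Pool.Agent.H4.RR.absLogHeight_pow Ω (v i) (prep_int (K := K) _) (t i), (hvt i).2.1,
        hui i]
      refine (prep_prod (K := K) Finset.univ _).trans ?_
      have h2 : ∀ j ∈ (Finset.univ : Finset (Fin k)),
          absLogHeight₁ ((γ j : Ω) ^ e i j) ≤ (t i : ℝ) * h := by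
        intro j _
        rw [absLogHeight_zpow]
        have h3 : |((e i j : ℤ) : ℝ)| ≤ (t i : ℝ) := by
          have h4 : |e i j| ≤ (t i : ℤ) := (heμ i j).trans (by exact_mod_cast (hvt i).2.2.1)
          exact_mod_cast h4
        exact mul_le_mul h3 (hh j) (ht_nonneg _) (Nat.cast_nonneg _)
      refine (Finset.sum_le_sum h2).trans (le_of_eq ?_)
      rw [Finset.sum_const, Finset.card_univ, Fintype.card_fin, nsmul_eq_mul]
      ring
    have h5 : (0 : ℝ) < t i := by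
      have := ht1 i
      exact_mod_cast this
    exact le_of_mul_le_mul_left h1 h5
  · have e2 : (fun i => ((Units.mk0 (v i) (hv0 i) : Ωˣ) : Ω)) = v := by
      funext i
      rw [Units.val_mk0]
    rw [e2]
    exact hvS
  · have e2 : (fun i => ((Units.mk0 (v i) (hv0 i) : Ωˣ) : Ω)) = v := by
      funext i
      rw [Units.val_mk0]
    rw [e2]
    set P := ∏ p ∈ S, p with hP
    have h6 : ∏ i, t i ≤ (P + 1) ^ k * ∏ i, μ i := by
      have h7 : ∏ i, t i ≤ ∏ i : Fin k, ((P + 1) * μ i) :=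
        Finset.prod_le_prod' fun i _ => (hvt i).2.2.2
      refine h7.trans (le_of_eq ?_)
      rw [Finset.prod_mul_distrib, Finset.prod_const, Finset.card_univ, Fintype.card_fin]
    calc dgT 𝓛 v ≤ (∏ i, t i) * dgT 𝓛 (fun i => ((u i : Ωˣ) : Ω)) := hvd
      _ ≤ ((P + 1) ^ k * ∏ i, μ i) * dgT 𝓛 (fun i => ((u i : Ωˣ) : Ω)) :=
        Nat.mul_le_mul_right _ h6
      _ = (P + 1) ^ k * ((∏ i, μ i) * dgT 𝓛 (fun i => ((u i : Ωˣ) : Ω))) := by ring
      _ ≤ (P + 1) ^ k * (2 ^ (k ^ 2) * dgT 𝓛 (fun i => (γ i : Ω))) :=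
        Nat.mul_le_mul_left _ hdeg
      _ = 2 ^ (k ^ 2) * (P + 1) ^ k * dgT 𝓛 (fun i => (γ i : Ω)) := by ring

end Pool.Agent.H28.PT4
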