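import Pool.Agent.H28.PT4.LocO
import Pool.Agent.H28.PT4.OrbQ
import Pool.Agent.H28.PT4.Lap

/-!
# POINTS THEOREM, PART IV, Row: the size of the determinant at one embedding

`X = OrbT Lb (y^q)`, `q = p^s`, `TPT p Lt y`, `2 T^(k+1) ≤ p^l`. `Bd = {i ∈ X | θ^(p^l) i ∉ OrbT Lt i}`. `‖κ det (mn (C_j) (γ^q i))‖ ≤ e^(-(T log p/4) #Bd) ∏_i H_i^(T m)`.

PROOF. `lap` with `v` the norm of `C`, `π i = Cyc Lt θ i` as an element of the finite type `O` of these sets (e.g. `O = {P : Finset X // ..}`, or `π i := X.filter (· ∈ Cyc Lt θ i)` in `Finset (Fin k → Ω)` with `O := Fintype (image π)`, `↥(X.attach.image ..)`): `π i = π i'` iff `i' ∈ Cyc Lt θ i` (`cyc_eq`, `cyc_self`, `cyc_sub`: `Cyc Lt θ i ⊆ OrbT Lb i = X`).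
`A i j = κ (mn (C j) (γ^q i))`. For a block `o = π i₀`, `n_o` = number of its elements, `B o = G_o ∏_(i ∈ o) H_i^(T m)` with `G_o = e^(-(T log p/4) n_o)` if `i₀` is bad (`cyc_bad`: all elements of a block are bad or none), `G_o = 1` otherwise; `∏_o B_o` is the right-hand side (`Finset.prod_fiberwise`).
Minor of a block, `c` injective: number the rows by `Fin r`, `r = n_o` (`Matrix.det_submatrix_equiv_self` / `Matrix.det_reindex_self`, the columns by the same numbering; `Cc := C ∘ c ∘ e` injective). If `i₀` is not bad: all entries of row `i` are at most `H_i^(T m)`, ultrametric bound of a determinant (`loc_orb` also gives it if `T (r - ..) ≥ 0` as natural exponent: the factor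
`e^(-(log p/2))^(..) ≤ 1`; so `loc_orb` suffices in both cases). `loc_orb`: `i₀ = y₁^q` with `y₁ ∈ OrbT Lb y` (`orbT_pow`); `dgT Lt y₁ = dgT Lt y` (`dgT_map`, `y₁ = g y`), `TPT p Lt y₁` (`tpt_map`); every `x ∈ Cyc Lt θ i₀` is in `OrbT Lt (θ^j i₀) = θ^j '' OrbT Lt (y₁^q)` (`orbT_map`), i.e. `x = θ^j (v^q)`, `v ∈ OrbT Lt y₁` (`orbT_pow`): the hypothesis `hx`.
Bad case: `r = n_o = (Cyc Lt θ i₀).ncard ≥ p^l dgT Lt i₀ = p^l dgT Lt y₁` (`cyc_card`, `dgT_pow`), so `T^(k+1) dgT Lt y₁ ≤ r/2`, `r - T^(k+1) dgT Lt y₁ ≥ r/2` and `e^(-(log p/2) T (r - ..)) ≤ e^(-(T log p/4) r)`.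
-/

set_option autoImplicit false
set_option linter.unusedSectionVars false

open NumberField IntermediateField

namespace Pool.Agent.H28.PT4

open Pool.Agent.H33.TR Pool.Agent.H72.PB Pool.Agent.H72.RM Pool.Agent.H72.RG Pool.Agent.H11.TS

variable {p : ℕ} [Fact p.Prime] {C : Type} [NormedField C] [NormedAlgebra ℚ_[p] C]
  [IsUltrametricDist C] [IsAlgClosed C] [Algebra.IsAlgebraic ℚ_[p] C] [IsoEnv p C]
  {K Ω : Type} [Field K] [NumberField K] [Field Ω] [CharZero Ω] [IsAlgClosed Ω] [Algebra K Ω]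
  [IsGalois K Ω] {k : ℕ}

theorem row_boundT (κ : Ω →+* C) (Lb Lt : IntermediateField K Ω) (hle : Lb ≤ Lt)
    (hLt : ∀ σ : Ω ≃ₐ[K] Ω, ∀ x ∈ Lt, σ x ∈ Lt) (θ : Ω ≃ₐ[K] Ω) (hθb : ∀ x ∈ Lb, θ x = x)
    (k' : ℕ) (hθk : ∀ x ∈ Lt, (θ ^ (p ^ k')) x = x)
    (τ : C ≃ₐ[ℚ_[p]] C) (hτ : ∀ x : Ω, κ (θ x) = τ (κ x)) (ρ : ℝ) (hρ0 : 0 < ρ)
    (hcl : ∀ x ∈ Lt, x ≠ 0 → ‖τ (κ x) / κ x - 1‖ ≤ ρ) (s : ℕ)
    (hρs : ρ ^ (p ^ s) ≤ Real.exp (-(Real.log p / 2))) (γ y : Fin k → Ω) (hγ0 : ∀ i, γ i ≠ 0)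
    (hy0 : ∀ i, y i ≠ 0) (hTP : TPT p Lt y) (X : Finset (Fin k → Ω))
    (hX : (X : Set (Fin k → Ω)) = OrbT Lb (y ^ (p ^ s))) (m T l : ℕ) (hT : 1 ≤ T)
    (hTl : 2 * T ^ (k + 1) ≤ p ^ l) (Bd : Finset (Fin k → Ω))
    (hBd : ∀ i, i ∈ Bd ↔ i ∈ X ∧ act (θ ^ (p ^ l)) i ∉ OrbT Lt i) [DecidableEq X]
    (Cc : X → Bx k (T * m)) (hC : Function.Injective Cc) :
    ‖Matrix.det (Matrix.of fun i j : X => κ (mn (Cc j) (γ ^ (p ^ s) * (i : Fin k → Ω))))‖ ≤
      Real.exp (-((T : ℝ) * Real.log p / 4 * (Bd.card : ℝ))) *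
        ∏ i : X, ∏ l', (max 1 ‖κ ((γ ^ (p ^ s) * (i : Fin k → Ω)) l')‖) ^ (T * m) := by
  classical
  set q := p ^ s with hq
  have hθm : ∀ x ∈ Lt, (θ ^ (p ^ k')) x = x := hθk
  have hpp : p.Prime := Fact.out
  have hpk : 1 ≤ p ^ k' := Nat.one_le_pow _ _ hpp.pos
  have hlogp : 0 ≤ Real.log p := Real.log_nonneg (by exact_mod_cast hpp.one_le)
  let H : (Fin k → Ω) → ℝ := fun i => ∏ l', (max 1 ‖κ ((γ ^ q * i) l')‖) ^ (T * m)
  have hH : ∀ i, 0 ≤ H i := fun i =>
    Finset.prod_nonneg fun l' _ => pow_nonneg (le_trans zero_le_one (le_max_left _ _)) _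
  let g : (Fin k → Ω) → ℝ := fun i => if i ∈ Bd then Real.exp (-((T : ℝ) * Real.log p / 4)) else 1
  have hg : ∀ i, 0 ≤ g i := by
    intro i
    change 0 ≤ (if i ∈ Bd then Real.exp (-((T : ℝ) * Real.log p / 4)) else (1 : ℝ))
    split_ifs
    · exact (Real.exp_pos _).le
    · exact zero_le_one
  let π : X → Finset X := fun i => Finset.univ.filter fun x : X => (x : Fin k → Ω) ∈ Cyc Lt θ i
  have hπ : ∀ i x : X, π i = π x → (x : Fin k → Ω) ∈ Cyc Lt θ i := by
    intro i x h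
    have h1 : x ∈ π x := Finset.mem_filter.2 ⟨Finset.mem_univ _, cyc_self Lt θ _⟩
    rw [← h] at h1
    exact (Finset.mem_filter.1 h1).2
  have hπ' : ∀ i x : X, (x : Fin k → Ω) ∈ Cyc Lt θ i → π x = π i := by
    intro i x h
    have h1 := cyc_eq Lt hLt θ (p ^ k') hpk hθm h
    change (Finset.univ.filter fun z : X => (z : Fin k → Ω) ∈ Cyc Lt θ x) =
      Finset.univ.filter fun z : X => (z : Fin k → Ω) ∈ Cyc Lt θ i
    rw [h1]
  have hXmem : ∀ z : Fin k → Ω, z ∈ X ↔ z ∈ OrbT Lb (y ^ q) := by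
    intro z
    rw [← hX]
    exact Finset.mem_coe.symm
  have hcycX : ∀ i : X, ∀ z ∈ Cyc Lt θ (i : Fin k → Ω), z ∈ X := by
    intro i z hz
    rw [hXmem]
    have h1 := cyc_sub Lb Lt hle θ hθb (i : Fin k → Ω) hz
    rwa [orbT_eq ((hXmem i).1 i.2)] at h1
  let B : Finset X → ℝ := fun o => ∏ x ∈ Finset.univ.filter (fun x : X => π x = o),
    g (x : Fin k → Ω) * H (x : Fin k → Ω)
  have hB0 : ∀ o, 0 ≤ B o := fun o => Finset.prod_nonneg fun x _ => mul_nonneg (hg _) (hH _)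
  have hBprod : ∏ o, B o = ∏ x : X, g (x : Fin k → Ω) * H (x : Fin k → Ω) :=
    Finset.prod_fiberwise Finset.univ π fun x : X => g (x : Fin k → Ω) * H (x : Fin k → Ω)
  have hgprod : ∏ x : X, g (x : Fin k → Ω) =
      Real.exp (-((T : ℝ) * Real.log p / 4 * (Bd.card : ℝ))) := by
    have h1 : ∏ x : X, g (x : Fin k → Ω) = ∏ x ∈ X, g x := Finset.prod_coe_sort X g
    rw [h1]
    have h2 : X.filter (fun x => x ∈ Bd) = Bd := by
      ext x
      rw [Finset.mem_filter]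
      exact ⟨fun h => h.2, fun h => ⟨((hBd x).1 h).1, h⟩⟩
    have h3 : ∏ x ∈ X, g x = ∏ x ∈ X.filter (fun x => x ∈ Bd), Real.exp (-((T : ℝ) * Real.log p / 4)) := by
      rw [Finset.prod_filter]
    rw [h3, h2, Finset.prod_const, ← Real.exp_nat_mul]
    congr 1
    ring
  have hmain := lap (NormedField.toAbsoluteValue C)
    (IsUltrametricDist.isNonarchimedean_norm (R := C)) π
    (Matrix.of fun i j : X => κ (mn (Cc j) (γ ^ q * (i : Fin k → Ω)))) B hB0 ?_
  · refine le_trans hmain (le_of_eq ?_)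
    rw [hBprod, Finset.prod_mul_distrib, hgprod]
  · intro o c hc
    set r := Fintype.card {x : X // π x = o} with hr
    let e : Fin r ≃ {x : X // π x = o} := (Fintype.equivFin _).symm
    have hdet : Matrix.det (Matrix.of fun i j : {x : X // π x = o} =>
        (Matrix.of fun i j : X => κ (mn (Cc j) (γ ^ q * (i : Fin k → Ω)))) i (c j)) =
        Matrix.det (Matrix.of fun i j : Fin r =>
          κ (mn (Cc (c (e j))) (γ ^ q * ((e i : X) : Fin k → Ω)))) := by
      rw [← Matrix.det_submatrix_equiv_self e]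
      rfl
    change ‖Matrix.det (Matrix.of fun i j : {x : X // π x = o} =>
        (Matrix.of fun i j : X => κ (mn (Cc j) (γ ^ q * (i : Fin k → Ω)))) i (c j))‖ ≤ B o
    rw [hdet]
    have hprodH : ∀ f : (Fin k → Ω) → ℝ, ∏ i : Fin r, f ((e i : X) : Fin k → Ω) =
        ∏ x ∈ Finset.univ.filter (fun x : X => π x = o), f (x : Fin k → Ω) := by
      intro f
      rw [Equiv.prod_comp e (fun x : {x : X // π x = o} => f ((x : X) : Fin k → Ω))]
      exact (Finset.prod_subtype _ (fun x => by simp) (fun x : X => f (x : Fin k → Ω))).symm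
    have hBo : B o = (∏ i : Fin r, g ((e i : X) : Fin k → Ω)) *
        ∏ i : Fin r, H ((e i : X) : Fin k → Ω) := by
      rw [hprodH g, hprodH H, ← Finset.prod_mul_distrib]
    rcases Nat.eq_zero_or_pos r with hr0 | hr0
    · rw [hBo]
      have he : IsEmpty (Fin r) := by rw [hr0]; infer_instance
      rw [Matrix.det_isEmpty, Finset.prod_of_isEmpty, Finset.prod_of_isEmpty, norm_one, one_mul]
    · let i₀ : X := (e ⟨0, hr0⟩ : X)
      have hi₀ : π i₀ = o := (e ⟨0, hr0⟩).2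
      have hi₀X : (i₀ : Fin k → Ω) ∈ OrbT Lb (y ^ q) := (hXmem _).1 i₀.2
      rw [orbT_pow] at hi₀X
      obtain ⟨y₁, ⟨ρ₁, hρ₁, hρy⟩, hy₁⟩ := hi₀X
      have hy₁' : y₁ ^ q = (i₀ : Fin k → Ω) := hy₁
      have hT₁ : TPT p Lt y₁ := by
        rw [← hρy]
        exact tpt_map hLt ρ₁ hTP
      have hy₁0 : ∀ i, y₁ i ≠ 0 := by
        intro i
        rw [← hρy]
        exact (map_ne_zero ρ₁).2 (hy0 i)
      have hmemC : ∀ i : Fin r, ((e i : X) : Fin k → Ω) ∈ Cyc Lt θ (i₀ : Fin k → Ω) := by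
        intro i
        exact hπ _ _ (hi₀.trans (e i).2.symm)
      have hloc := loc_orb κ Lt θ τ hτ ρ hρ0 hcl s hρs γ y₁ hγ0 m T r hT
        (fun i => ((e i : X) : Fin k → Ω)) (fun i => ?_) (fun j => Cc (c (e j)))
        (fun a b hab => e.injective (hc (hC hab)))
      · refine le_trans hloc ?_
        rw [hBo]
        refine mul_le_mul_of_nonneg_right ?_ (Finset.prod_nonneg fun i _ => hH _)
        have hbadiff : ∀ i : Fin r, ((e i : X) : Fin k → Ω) ∈ Bd ↔ (i₀ : Fin k → Ω) ∈ Bd := by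
          intro i
          rw [hBd, hBd]
          have h1 := cyc_bad Lt hLt θ (p ^ l) (hmemC i)
          constructor
          · rintro ⟨_, h⟩
            exact ⟨i₀.2, fun h' => h (h1.2 h')⟩
          · rintro ⟨_, h⟩
            exact ⟨(e i : X).2, fun h' => h (h1.1 h')⟩
        by_cases hb : (i₀ : Fin k → Ω) ∈ Bd
        · have h1 : ∏ i : Fin r, g ((e i : X) : Fin k → Ω) =
              Real.exp (-((T : ℝ) * Real.log p / 4)) ^ r := by
            rw [Finset.prod_congr rfl (fun i _ => ?_), Finset.prod_const, Finset.card_univ,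
              Fintype.card_fin]
            exact if_pos ((hbadiff i).2 hb)
          rw [h1]
          have hcard : p ^ l * dgT Lt y₁ ≤ r := by
            have h2 := cyc_card Lt hLt θ p hpp k' l hθk (i₀ : Fin k → Ω) ((hBd _).1 hb).2
            rw [← hy₁', dgT_pow hy₁0 hT₁ s, hy₁'] at h2
            refine le_trans h2 ?_
            have h3 : (Cyc Lt θ (i₀ : Fin k → Ω)) =
                Set.range (fun x : {x : X // π x = o} => ((x : X) : Fin k → Ω)) := by
              ext z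
              constructor
              · intro hz
                exact ⟨⟨⟨z, hcycX i₀ z hz⟩, (hπ' i₀ ⟨z, hcycX i₀ z hz⟩ hz).trans hi₀⟩, rfl⟩
              · rintro ⟨x, rfl⟩
                exact hπ _ _ (hi₀.trans x.2.symm)
            rw [h3, ← Set.image_univ]
            refine le_trans (Set.ncard_image_le Set.finite_univ) ?_
            rw [Set.ncard_univ, Nat.card_eq_fintype_card]
          have h4 : 2 * (T ^ (k + 1) * dgT Lt y₁) ≤ r := by
            refine le_trans ?_ hcard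
            rw [← mul_assoc]
            exact Nat.mul_le_mul_right _ hTl
          rw [← Real.exp_nat_mul, ← Real.exp_nat_mul]
          refine Real.exp_le_exp.2 ?_
          have h5 : ((r - T ^ (k + 1) * dgT Lt y₁ : ℕ) : ℝ) =
              (r : ℝ) - ((T ^ (k + 1) * dgT Lt y₁ : ℕ) : ℝ) := by
            rw [Nat.cast_sub (by omega)]
          have h6 : (2 : ℝ) * ((T ^ (k + 1) * dgT Lt y₁ : ℕ) : ℝ) ≤ (r : ℝ) := by
            exact_mod_cast h4
          rw [Nat.cast_mul, h5]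
          have h7 : 0 ≤ (T : ℝ) * Real.log p := mul_nonneg (Nat.cast_nonneg _) hlogp
          nlinarith [mul_nonneg h7 (sub_nonneg.2 h6)]
        · have h1 : ∏ i : Fin r, g ((e i : X) : Fin k → Ω) = 1 := by
            refine Finset.prod_eq_one fun i _ => ?_
            exact if_neg (fun h => hb ((hbadiff i).1 h))
          rw [h1]
          refine pow_le_one₀ (Real.exp_pos _).le ?_
          rw [← Real.exp_zero]
          exact Real.exp_le_exp.2 (by linarith)
      · obtain ⟨j, hj⟩ := hmemC i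
        rw [orbT_map hLt, ← hy₁', orbT_pow] at hj
        obtain ⟨_, ⟨v, hv, rfl⟩, hj2⟩ := hj
        exact ⟨j, v, hv, hj2.symm⟩

end Pool.Agent.H28.PT4
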