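import Pool.Agent.H28.PT4.PTw
import Pool.Agent.H72.PB.STower3

/-!
# POINTS THEOREM, PART IV, STw: descent to a bounded level, for tuples

Model: `s_tower3` in `Pool/Agent/H72/PB/STower3.lean` (the same constants: `A = 1 + ∑ A_p`, `st_const`, `R = ∏ q^(R_q)`, `hNprod`, `hN₀p`, `hsplit`). `A_p` from `p_towerT` for `p ∈ S` (set `(S : Set ℕ)`). Claim, by induction on `T ⊆ S`: there is `g` with
`g i ∈ GammaS`, `g i ≠ 0`, `g i ∈ 𝓛` and `g * x ∈ OrbT (RF Ω b n' (N * N₁)) w` for all `x ∈ OrbT (RF Ω b n' (((∏ q ∈ T, q^(R_q)) * ∏ q ∈ S \ T, q^(k_q)) * N₁)) (w / g)`. `T = ∅`: `g = 1`. Step `insert p T`: `p_towerT` with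
`N₀ = (∏ q ∈ T, q^(R_q)) (∏ q ∈ S \ insert p T, q^(k_q)) N₁`, `kk = k_p`, `γ := g`, `y := w / g` (`γ i * y i = w i`; `TPT`: `tpt_sub` with `w = g * y`; `dgT ≤ dgT (RF Ω b n' (N * N₁)) w`: `dgT_sub`; `GPI 𝓛 y M₁`: `gpi_mul` with `c = g⁻¹`;
`RF Ω b n' (p^M * N₀) ≤ 𝓛`: `p^M * ∏ .. * ∏ ..` is composed of primes of `S`; the constant `(A_p L)^(A_p) ≤ (A L)^A`; if `h < 0` the height hypothesis is clear): `g'`; new `g := g * g'`, `w / (g * g') = (w / g) / g'`. Imports may be sorried.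
-/

set_option autoImplicit false
set_option linter.unusedSectionVars false

open NumberField IntermediateField

namespace Pool.Agent.H28.PT4

open Pool.Agent.H33.TR Pool.Agent.H72.PB Pool.Agent.H72.RM Pool.Agent.H72.RG

variable {K Ω : Type} [Field K] [NumberField K] [Field Ω] [CharZero Ω] [IsAlgClosed Ω]
  [Algebra K Ω] [IsGalois K Ω] {r : ℕ} {b : Fin r → K}

private lemma one_mem_gam (b : Fin r → K) (S : Set ℕ) : (1 : Ω) ∈ GammaS Ω b S := by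
  refine ⟨1, le_rfl, fun q hq hqd => absurd (Nat.dvd_one.1 hqd) hq.ne_one, 1, ⟨1, le_rfl, one_pow 1⟩,
    0, ?_⟩
  simp

theorem s_towerT (S : Finset ℕ) (k : ℕ)
    (hD : ∀ p ∈ S, ∃ (_ : Fact p.Prime) (ι : Ω →+* PadicAlgCl p) (h₀ J : ℕ),
      SX K Ω p (PadicAlgCl p) b ι h₀ J) :
    ∃ A : ℕ, 1 ≤ A ∧ ∀ Dm : ℕ, 1 ≤ Dm → ∃ R : ℕ, 1 ≤ R ∧
      (∀ q : ℕ, q.Prime → q ∣ R → q ∈ S) ∧
      (R : ℝ) ≤ (A * Real.log (3 * Dm)) ^ A ∧ ∀ n' N₁ : ℕ, 1 ≤ n' → 1 ≤ N₁ →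
      (∀ q ∈ S, ¬ q ∣ n') → (∀ q ∈ S, ¬ q ∣ N₁) →
      ∀ N : ℕ, 1 ≤ N → (∀ q : ℕ, q.Prime → q ∣ N → q ∈ S) →
      ∀ 𝓛 : IntermediateField K Ω,
      (∀ M : ℕ, 1 ≤ M → (∀ q : ℕ, q.Prime → q ∣ M → q ∈ S) → RF Ω b n' (M * N₁) ≤ 𝓛) →
      ∀ w : Fin k → Ω, (∀ i, w i ≠ 0) → (∀ p ∈ S, TPT p (RF Ω b n' (N * N₁)) w) →
      dgT (RF Ω b n' (N * N₁)) w ≤ Dm →
      ∀ (M₁ G : ℕ), GPI 𝓛 w M₁ → dgT (RF Ω b n' (N * N₁)) w ≤ G * (M₁ + 1) ^ k →
      ∀ h : ℝ, (∀ i, absLogHeight₁ (w i) ≤ h) →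
      (A * Real.log (3 * Dm)) ^ A * ((G : ℝ) ^ 2 * ((M₁ : ℝ) + 1) * h) ≤ 1 →
      ∃ g : Fin k → Ω, (∀ i, g i ∈ GammaS Ω b (S : Set ℕ)) ∧ (∀ i, g i ≠ 0) ∧ (∀ i, g i ∈ 𝓛) ∧
        ∀ x ∈ OrbT (RF Ω b n' (R * N₁)) (w / g), g * x ∈ OrbT (RF Ω b n' (N * N₁)) w := by
  classical
  have h1 : ∀ p ∈ S, ∃ A : ℕ, 1 ≤ A ∧ p.Prime ∧ ∀ Dm : ℕ, 1 ≤ Dm → ∃ R : ℕ,
      (p : ℝ) ^ R ≤ (A * Real.log (3 * Dm)) ^ A ∧
      ∀ n' N₀ : ℕ, 1 ≤ n' → 1 ≤ N₀ → ¬ p ∣ n' → ¬ p ∣ N₀ →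
      ∀ (kk : ℕ) (𝓛 : IntermediateField K Ω), (∀ M : ℕ, RF Ω b n' (p ^ M * N₀) ≤ 𝓛) →
      ∀ (γ y : Fin k → Ω), (∀ i, γ i ∈ GammaS Ω b (S : Set ℕ)) → (∀ i, y i ≠ 0) →
      TPT p (RF Ω b n' (p ^ kk * N₀)) y → dgT (RF Ω b n' (p ^ kk * N₀)) y ≤ Dm →
      ∀ (M₁ G : ℕ), GPI 𝓛 y M₁ → dgT (RF Ω b n' (p ^ kk * N₀)) y ≤ G * (M₁ + 1) ^ k →
      ∀ h : ℝ, (∀ i, absLogHeight₁ (γ i * y i) ≤ h) →
      (A * Real.log (3 * Dm)) ^ A * ((G : ℝ) ^ 2 * ((M₁ : ℝ) + 1) * h) ≤ 1 →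
      ∃ g : Fin k → Ω, (∀ i, g i ∈ GammaS Ω b (S : Set ℕ)) ∧ (∀ i, g i ≠ 0) ∧ (∀ i, g i ∈ 𝓛) ∧
        ∀ x ∈ OrbT (RF Ω b n' (p ^ R * N₀)) (y / g),
          g * x ∈ OrbT (RF Ω b n' (p ^ kk * N₀)) y := by
    intro p hpS
    obtain ⟨hp, ι, h₀, J, D⟩ := hD p hpS
    obtain ⟨A, hA, h⟩ := p_towerT D (S : Set ℕ) (Finset.mem_coe.mpr hpS) k
    exact ⟨A, hA, hp.out, h⟩
  choose! Af hAf hpr hstep using h1
  refine ⟨1 + ∑ q ∈ S, Af q, by omega, fun Dm hDm => ?_⟩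
  have hx : (1 : ℝ) ≤ Real.log (3 * Dm) := by
    have h2 : (1 : ℝ) ≤ Dm := by exact_mod_cast hDm
    have h3 : Real.exp 1 ≤ 3 * Dm := by
      have h4 := Real.exp_one_lt_d9
      linarith
    have h4 := Real.log_le_log (Real.exp_pos 1) h3
    rwa [Real.log_exp] at h4
  obtain ⟨hc1, hc2⟩ := st_const S Af hAf _ hx
  have h2 : ∀ p ∈ S, ∃ R : ℕ, (p : ℝ) ^ R ≤ (Af p * Real.log (3 * Dm)) ^ (Af p) ∧
      ∀ n' N₀ : ℕ, 1 ≤ n' → 1 ≤ N₀ → ¬ p ∣ n' → ¬ p ∣ N₀ →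
      ∀ (kk : ℕ) (𝓛 : IntermediateField K Ω), (∀ M : ℕ, RF Ω b n' (p ^ M * N₀) ≤ 𝓛) →
      ∀ (γ y : Fin k → Ω), (∀ i, γ i ∈ GammaS Ω b (S : Set ℕ)) → (∀ i, y i ≠ 0) →
      TPT p (RF Ω b n' (p ^ kk * N₀)) y → dgT (RF Ω b n' (p ^ kk * N₀)) y ≤ Dm →
      ∀ (M₁ G : ℕ), GPI 𝓛 y M₁ → dgT (RF Ω b n' (p ^ kk * N₀)) y ≤ G * (M₁ + 1) ^ k →
      ∀ h : ℝ, (∀ i, absLogHeight₁ (γ i * y i) ≤ h) →
      (Af p * Real.log (3 * Dm)) ^ (Af p) * ((G : ℝ) ^ 2 * ((M₁ : ℝ) + 1) * h) ≤ 1 →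
      ∃ g : Fin k → Ω, (∀ i, g i ∈ GammaS Ω b (S : Set ℕ)) ∧ (∀ i, g i ≠ 0) ∧ (∀ i, g i ∈ 𝓛) ∧
        ∀ x ∈ OrbT (RF Ω b n' (p ^ R * N₀)) (y / g),
          g * x ∈ OrbT (RF Ω b n' (p ^ kk * N₀)) y :=
    fun p hp => hstep p hp Dm hDm
  choose! Rf hRf hst using h2
  obtain ⟨B, hB⟩ : ∃ B : ℝ, B = (((1 + ∑ q ∈ S, Af q : ℕ) : ℝ) * Real.log (3 * Dm)) ^
    (1 + ∑ q ∈ S, Af q) := ⟨_, rfl⟩
  rw [← hB] at hc1 hc2 ⊢
  have hpos : ∀ q ∈ S, 0 < q := fun q hq => (hpr q hq).pos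
  refine ⟨∏ q ∈ S, q ^ Rf q, ?_, ?_, ?_, ?_⟩
  · exact Nat.one_le_iff_ne_zero.mpr (Finset.prod_ne_zero_iff.mpr
      fun q hq => pow_ne_zero _ (hpr q hq).ne_zero)
  · intro q hq hqR
    obtain ⟨q', hq', hqd⟩ := (Prime.dvd_finsetProd_iff hq.prime _).mp hqR
    rw [(Nat.prime_dvd_prime_iff_eq hq (hpr q' hq')).mp (hq.dvd_of_dvd_pow hqd)]
    exact hq'
  · refine le_trans ?_ hc2
    push_cast
    exact Finset.prod_le_prod (fun q _ => by positivity) hRf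
  intro n' N₁ hn' hN₁ hn'S hN₁S N hN hNS 𝓛 h𝓛 w hw0 hT hdg M₁ G hG hdG h hh hht
  have hNprod : ∏ q ∈ S, q ^ N.factorization q = N := by
    have h3 := Nat.prod_factorization_pow_eq_self (n := N) (by omega)
    rw [Finsupp.prod_of_support_subset N.factorization (s := S)] at h3
    · exact h3
    · intro q hq
      have h4 := Nat.mem_primeFactors.mp (by simpa using hq)
      exact hNS q h4.1 h4.2.1
    · intro q _
      exact pow_zero q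
  have hcomp : ∀ (T U : Finset ℕ) (f g : ℕ → ℕ) (p M : ℕ), T ⊆ S → U ⊆ S → p ∈ S →
      ∀ q : ℕ, q.Prime → q ∣ p ^ M * ((∏ q ∈ T, q ^ f q) * ∏ q ∈ U, q ^ g q) → q ∈ S := by
    intro T U f g p M hTS hUS hpS q hq hqd
    rcases (Nat.Prime.dvd_mul hq).mp hqd with h5 | h5
    · rw [(Nat.prime_dvd_prime_iff_eq hq (hpr p hpS)).mp (hq.dvd_of_dvd_pow h5)]
      exact hpS
    · rcases (Nat.Prime.dvd_mul hq).mp h5 with h6 | h6
      · obtain ⟨q', hq', hqd'⟩ := (Prime.dvd_finsetProd_iff hq.prime _).mp h6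
        rw [(Nat.prime_dvd_prime_iff_eq hq (hpr q' (hTS hq'))).mp (hq.dvd_of_dvd_pow hqd')]
        exact hTS hq'
      · obtain ⟨q', hq', hqd'⟩ := (Prime.dvd_finsetProd_iff hq.prime _).mp h6
        rw [(Nat.prime_dvd_prime_iff_eq hq (hpr q' (hUS hq'))).mp (hq.dvd_of_dvd_pow hqd')]
        exact hUS hq'
  have key : ∀ T : Finset ℕ, T ⊆ S →
      ∃ g : Fin k → Ω, (∀ i, g i ∈ GammaS Ω b (S : Set ℕ)) ∧ (∀ i, g i ≠ 0) ∧ (∀ i, g i ∈ 𝓛) ∧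
        ∀ x ∈ OrbT (RF Ω b n'
          (((∏ q ∈ T, q ^ Rf q) * ∏ q ∈ S \ T, q ^ N.factorization q) * N₁)) (w / g),
          g * x ∈ OrbT (RF Ω b n' (N * N₁)) w := by
    intro T
    induction T using Finset.induction_on with
    | empty =>
      intro _
      refine ⟨1, fun i => one_mem_gam _ _, fun i => one_ne_zero, fun i => one_mem 𝓛, ?_⟩
      rw [Finset.prod_empty, one_mul, Finset.sdiff_empty, hNprod, div_one]
      intro x hx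
      rw [one_mul]
      exact hx
    | insert p T hpT ih =>
      intro hTS
      have hpS : p ∈ S := hTS (Finset.mem_insert_self p T)
      have hTS' : T ⊆ S := fun q hq => hTS (Finset.mem_insert_of_mem hq)
      obtain ⟨g, hgΓ, hg0, hg𝓛, horb⟩ := ih hTS'
      set N₀ : ℕ := ((∏ q ∈ T, q ^ Rf q) * ∏ q ∈ S \ insert p T, q ^ N.factorization q) * N₁ with hN₀
      have hpp := hpr p hpS
      have hN₀1 : 1 ≤ N₀ := by
        rw [hN₀]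
        exact Nat.mul_pos (Nat.mul_pos (Finset.prod_pos fun q hq => pow_pos (hpos q (hTS' hq)) _)
          (Finset.prod_pos fun q hq => pow_pos (hpos q (Finset.mem_sdiff.mp hq).1) _)) hN₁
      have hne : ∀ q ∈ S, q ≠ p → ∀ k : ℕ, ¬ p ∣ q ^ k := by
        intro q hq hqp k hdiv
        exact hqp (((Nat.prime_dvd_prime_iff_eq hpp (hpr q hq)).mp
          (hpp.dvd_of_dvd_pow hdiv)).symm)
      have hN₀p : ¬ p ∣ N₀ := by
        intro hdiv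
        rw [hN₀] at hdiv
        rcases (Nat.Prime.dvd_mul hpp).mp hdiv with hdiv | hdiv
        · rcases (Nat.Prime.dvd_mul hpp).mp hdiv with h | h
          · obtain ⟨q, hq, hqd⟩ := (Prime.dvd_finsetProd_iff hpp.prime _).mp h
            exact hne q (hTS' hq) (fun h5 => hpT (h5 ▸ hq)) _ hqd
          · obtain ⟨q, hq, hqd⟩ := (Prime.dvd_finsetProd_iff hpp.prime _).mp h
            have hq' := Finset.mem_sdiff.mp hq
            exact hne q hq'.1 (fun h5 => hq'.2 (h5 ▸ Finset.mem_insert_self _ _)) _ hqd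
        · exact hN₁S p hpS hdiv
      have hsplit : ((∏ q ∈ T, q ^ Rf q) * ∏ q ∈ S \ T, q ^ N.factorization q) * N₁ =
          p ^ N.factorization p * N₀ := by
        have h6 : S \ T = insert p (S \ insert p T) := by
          ext q
          simp only [Finset.mem_sdiff, Finset.mem_insert, not_or]
          constructor
          · rintro ⟨h7, h8⟩
            by_cases h9 : q = p
            · exact Or.inl h9
            · exact Or.inr ⟨h7, h9, h8⟩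
          · rintro (h7 | ⟨h7, h8, h9⟩)
            · rw [h7]
              exact ⟨hpS, hpT⟩
            · exact ⟨h7, h9⟩
        rw [h6, Finset.prod_insert (by simp), hN₀]
        ring
      rw [hsplit] at horb
      have hwg : w = g * (w / g) := by
        funext i
        change w i = g i * (w i / g i)
        rw [mul_div_cancel₀ _ (hg0 i)]
      have hy0 : ∀ i, (w / g) i ≠ 0 := fun i => div_ne_zero (hw0 i) (hg0 i)
      have hG' : GPI 𝓛 (w / g) M₁ := by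
        have h7 := gpi_mul hG (c := g⁻¹) (fun i => inv_mem (hg𝓛 i)) (fun i => inv_ne_zero (hg0 i))
        have h8 : w / g = g⁻¹ * w := by
          rw [div_eq_mul_inv, mul_comm]
        rw [h8]
        exact h7
      have hd : dgT (RF Ω b n' (p ^ N.factorization p * N₀)) (w / g) ≤
          dgT (RF Ω b n' (N * N₁)) w := dgT_sub hg0 horb
      have hhp : (Af p * Real.log (3 * Dm)) ^ (Af p) *
          ((G : ℝ) ^ 2 * ((M₁ : ℝ) + 1) * h) ≤ 1 := by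
        have h9 : (0 : ℝ) ≤ (Af p * Real.log (3 * Dm)) ^ (Af p) := by positivity
        rcases lt_or_ge h 0 with h10 | h10
        · have h11 : (G : ℝ) ^ 2 * ((M₁ : ℝ) + 1) * h ≤ 0 :=
            mul_nonpos_of_nonneg_of_nonpos (by positivity) h10.le
          exact (mul_nonpos_of_nonneg_of_nonpos h9 h11).trans zero_le_one
        · refine le_trans (mul_le_mul_of_nonneg_right (hc1 p hpS) (by positivity)) hht
      obtain ⟨g', hgΓ', hg0', hg𝓛', horb'⟩ := hst p hpS n' N₀ hn' hN₀1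
        (hn'S p hpS) hN₀p (N.factorization p) 𝓛 (fun M => by
          have h12 := h𝓛 (p ^ M * ((∏ q ∈ T, q ^ Rf q) *
            ∏ q ∈ S \ insert p T, q ^ N.factorization q))
            (Nat.mul_pos (pow_pos hpp.pos _) (Nat.mul_pos
              (Finset.prod_pos fun q hq => pow_pos (hpos q (hTS' hq)) _)
              (Finset.prod_pos fun q hq => pow_pos (hpos q (Finset.mem_sdiff.mp hq).1) _)))
            (hcomp T (S \ insert p T) _ _ p M hTS' Finset.sdiff_subset hpS)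
          rw [hN₀, ← mul_assoc]
          exact h12) g (w / g) hgΓ hy0
        (tpt_sub hwg horb (hT p hpS)) (hd.trans hdg) M₁ G hG' (hd.trans hdG) h
        (fun i => by
          have h13 : g i * (w / g) i = w i := (congrFun hwg i).symm
          rw [h13]
          exact hh i) hhp
      refine ⟨g * g', fun i => gam_mul (hgΓ i) (hgΓ' i),
        fun i => mul_ne_zero (hg0 i) (hg0' i), fun i => mul_mem (hg𝓛 i) (hg𝓛' i), ?_⟩
      have h10 : ((∏ q ∈ insert p T, q ^ Rf q) *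
          ∏ q ∈ S \ insert p T, q ^ N.factorization q) * N₁ = p ^ Rf p * N₀ := by
        rw [Finset.prod_insert hpT, hN₀]
        ring
      rw [h10]
      intro x hx
      have h14 : w / (g * g') = w / g / g' := by
        rw [div_div]
      rw [h14] at hx
      have h15 := horb _ (horb' x hx)
      rw [mul_assoc]
      exact h15
  obtain ⟨g, hgΓ, hg0, hg𝓛, hfin⟩ := key S (Finset.Subset.refl S)
  refine ⟨g, hgΓ, hg0, hg𝓛, ?_⟩
  rw [Finset.sdiff_self, Finset.prod_empty, mul_one] at hfin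
  exact hfin

end Pool.Agent.H28.PT4
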