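import Pool.Agent.H28.PT4.Clu
import Pool.Agent.H28.PT4.OrbQ
import Pool.Agent.H28.PT4.OrbI
import Pool.Agent.H28.PT4.DesB
import Pool.Agent.H72.PB.StepB2

/-!
# POINTS THEOREM, PART IV, StB: lowering the level of the radicals by one, for tuples

Literally the proof of `step_b2` in `Pool/Agent/H72/PB/StepB2.lean` with `clusterT` (`Lb = Lf b F (p^n₂) (p^(n₂+J))`, `Lt = L`, `A = p^((r+1) e)`, `s = J + 1 + e + r e`, `m = r + 1`; `Lb ≤ L ≤ 𝓛`; no hypothesis `hs` there), `orb_idxT`, `orb_quotT`,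
`comm_sig`, `conj_sig`, `desc_bT`. `z = y^(p^s)` (a tuple), `act (ν j * (ψ⁻¹ * .. * ψ)) z = z`. `γ' t = (∏ i, (β i)^(m t i))⁻¹ ∈ L`, `γ' t ^ (p^(n+1)) = ∏ b_i^(- m t i)`, `y / γ' = y * fun t => ∏ i, (β i)^(m t i)`. Imports may be sorried.
-/

set_option autoImplicit false
set_option linter.unusedSectionVars false

open NumberField IntermediateField

namespace Pool.Agent.H28.PT4

open Pool.Agent.H33.TR Pool.Agent.H72.PB Pool.Agent.H72.RM Pool.Agent.H72.RG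

variable {p : ℕ} [Fact p.Prime] {C : Type} [NormedField C] [NormedAlgebra ℚ_[p] C]
  [IsUltrametricDist C] [IsAlgClosed C] [Algebra.IsAlgebraic ℚ_[p] C] [IsoEnv p C]
  {K Ω : Type} [Field K] [NumberField K] [Field Ω] [CharZero Ω] [IsAlgClosed Ω] [Algebra K Ω]
  [IsGalois K Ω] {r k : ℕ} {b : Fin r → K} {ι : Ω →+* C} {h₀ J : ℕ}

theorem step_bT (D : SX K Ω p C b ι h₀ J) (c₁ u : ℕ) (hu : ¬ p ∣ u)
    (hd : h₀ - 1 = p ^ c₁ * u) (l e : ℕ) (he : e = l + J + c₁ + 1) (Dm T : ℕ) (hT1 : 1 ≤ T)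
    (hTl : 2 * T ^ (k + 1) ≤ p ^ l)
    (hnum : 4 * (Module.finrank ℚ K : ℝ) * ((r + 1 : ℕ) : ℝ) *
      (Real.log ((p : ℝ) ^ ((r + 1) * e)) + Real.log Dm + 1) < (T : ℝ) * Real.log p)
    (n : ℕ) (hn : (r + 2) * e + 3 ≤ n) (n' N₀ : ℕ) (hn' : 1 ≤ n') (hN₀ : 1 ≤ N₀)
    (hpn' : ¬ p ∣ n') (hpN₀ : ¬ p ∣ N₀) (𝓛 : IntermediateField K Ω)
    (h𝓛 : Lf b (RF Ω b n' N₀) (p ^ (n + 1)) (p ^ (n + 1 + J)) ≤ 𝓛)
    (γ y : Fin k → Ω) (hγ0 : ∀ i, γ i ≠ 0) (hy0 : ∀ i, y i ≠ 0)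
    (hγ : ∀ i, ∀ θ : Ω ≃ₐ[K] Ω, ∃ a : ℕ, 1 ≤ a ∧ (θ (γ i)) ^ a = (γ i) ^ a)
    (hT : TPT p (Lf b (RF Ω b n' N₀) (p ^ (n + 1)) (p ^ (n + 1 + J))) y)
    (hdg : dgT (Lf b (RF Ω b n' N₀) (p ^ (n + 1)) (p ^ (n + 1 + J))) y ≤ Dm) (M₁ G : ℕ)
    (hG : GPI 𝓛 y M₁)
    (hD : dgT (Lf b (RF Ω b n' N₀) (p ^ (n + 1)) (p ^ (n + 1 + J))) y ≤ G * (M₁ + 1) ^ k)
    (h : ℝ) (hht : ∀ i, absLogHeight₁ (γ i * y i) ≤ h)
    (hh : ((k * T * (2 * (p ^ ((r + 1) * e) * G * (p ^ (J + 1 + e + r * e)) ^ k) ^ 2 * (M₁ + 1)) *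
      p ^ (J + 1 + e + r * e) : ℕ) : ℝ) * h ≤ 1) :
    ∃ γ' : Fin k → Ω, (∀ i, γ' i ≠ 0) ∧
      (∀ i, γ' i ∈ Lf b (RF Ω b n' N₀) (p ^ (n + 1)) (p ^ (n + 1 + J))) ∧
      (∀ i, ∃ m : Fin r → ℤ, γ' i ^ (p ^ (n + 1)) = ∏ j, (algebraMap K Ω (b j)) ^ (m j)) ∧
      OrbT (Lf b (RF Ω b n' N₀) (p ^ n) (p ^ (n + 1 + J))) (y / γ') =
        OrbT (Lf b (RF Ω b n' N₀) (p ^ (n + 1)) (p ^ (n + 1 + J))) (y / γ') := by
  have hpp : p.Prime := Fact.out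
  have hh1 := D.h_ge
  obtain ⟨n₂, hn₂⟩ : ∃ n₂, n + 1 = n₂ + e := ⟨n + 1 - e, by
    have : e ≤ (r + 2) * e := Nat.le_mul_of_pos_left e (by omega)
    omega⟩
  have hre : (r + 2) * e = r * e + e + e := by ring
  have hre1 : (r + 1) * e = r * e + e := by ring
  obtain ⟨s, hs⟩ : ∃ s, s = J + 1 + e + r * e := ⟨_, rfl⟩
  obtain ⟨M, hM⟩ : ∃ M, M = n + 1 + J := ⟨_, rfl⟩
  rw [← hs] at hh
  rw [← hM] at hT hdg hD h𝓛 ⊢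
  set F := RF Ω b n' N₀ with hFdef
  have hF : ∀ σ : Ω ≃ₐ[K] Ω, ∀ x ∈ F, σ x ∈ F := fun σ x hx => rf_stable b n' N₀ σ x hx
  have hFfin : FiniteDimensional K F := rf_finite b n' N₀ hn' hN₀
  have hLfin : FiniteDimensional K (Lf b F (p ^ (n + 1)) (p ^ M)) :=
    lf2_finite b _ _ _ (pow_pos hpp.pos _) (pow_pos hpp.pos _)
  obtain ⟨L, hL⟩ : ∃ L, L = Lf b F (p ^ (n + 1)) (p ^ M) := ⟨_, rfl⟩
  rw [← hL] at hT hdg hD h𝓛 hLfin ⊢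
  have hLst : ∀ σ : Ω ≃ₐ[K] Ω, ∀ x ∈ L, σ x ∈ L := by
    rw [hL]
    exact lf2_stable b F hF _ _
  -- the local data
  obtain ⟨τ, θ₀, hτ, hθb, hθm, hcl⟩ := D.loc e n₂ (by omega) n' N₀ hn' hN₀ hpn' hpN₀
  rw [← hs] at hcl
  obtain ⟨n₃, hn₃⟩ : ∃ n₃, n₃ = n₂ + l := ⟨_, rfl⟩
  have hnn₃ : n = n₃ + J + c₁ := by omega
  have hθ₁fix : ∀ x ∈ Lf b F (p ^ n₃) (p ^ (n₃ + J)), (θ₀ ^ (p ^ l)) x = x := by
    have h1 := theta_pow p b D.ne F n₂ (n₂ + J) l (by omega) θ₀ hθb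
    have e1 : n₂ + J + l = n₃ + J := by omega
    rw [e1, ← hn₃] at h1
    exact h1
  have hθ₁mov : ∀ ζ : Ω, IsPrimitiveRoot ζ (p ^ (n₃ + J + 1)) → (θ₀ ^ (p ^ l)) ζ ≠ ζ := by
    have h1 := theta_move p b F n₂ (n₂ + J) l (by omega) θ₀ hθb hθm
    have e1 : n₂ + J + l + 1 = n₃ + J + 1 := by omega
    rw [e1] at h1
    exact h1
  have hθk : ∀ x ∈ L, (θ₀ ^ (p ^ e)) x = x := by
    have h1 := theta_pow p b D.ne F n₂ (n₂ + J) e (by omega) θ₀ hθb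
    have e1 : n₂ + J + e = M := by omega
    rw [e1, ← hn₂, ← hL] at h1
    exact h1
  have hLbst : ∀ σ : Ω ≃ₐ[K] Ω, ∀ x ∈ Lf b F (p ^ n₂) (p ^ (n₂ + J)), σ x ∈ Lf b F (p ^ n₂) (p ^ (n₂ + J)) :=
    lf2_stable b F hF _ _
  have hLbL : Lf b F (p ^ n₂) (p ^ (n₂ + J)) ≤ L := by
    rw [hL]
    exact lf2_mono b F _ _ _ _ (pow_dvd_pow p (by omega)) (pow_dvd_pow p (by omega))
      (Nat.one_le_pow _ _ hpp.pos)
  have hcl' : ∀ x ∈ L, x ≠ 0 → ‖τ (ι x) / ι x - 1‖ ≤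
      Real.exp (-(Real.log p / (2 * (p : ℝ) ^ s))) := by
    intro x hx hx0
    refine hcl x ?_ hx0
    rw [hL] at hx
    exact lf2_mono b F _ _ _ _ (pow_dvd_pow p (by omega)) (pow_dvd_pow p (by omega))
      (Nat.one_le_pow _ _ hpp.pos) hx
  -- the radicals
  have hβex : ∀ i : Fin r, ∃ z : Ω, z ^ (p ^ (n + 1)) = algebraMap K Ω (b i) := fun i =>
    IsAlgClosed.exists_pow_nat_eq _ (pow_pos hpp.pos _)
  choose β hβ using hβex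
  have hβ0 : ∀ i, β i ≠ 0 := by
    intro i h
    have h1 := hβ i
    rw [h, zero_pow (pow_pos hpp.pos _).ne'] at h1
    exact D.ne i ((map_eq_zero (algebraMap K Ω)).1 h1.symm)
  have hβL : ∀ i, β i ∈ L := by
    intro i
    rw [hL]
    exact IntermediateField.subset_adjoin K _ (Or.inr (Or.inr ⟨i, hβ i⟩))
  have hrootL : ∀ x : Ω, x ^ (p ^ M) = 1 → x ∈ L := by
    intro x hx
    rw [hL]
    exact IntermediateField.subset_adjoin K _ (Or.inr (Or.inl hx))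
  have hFL : ∀ x ∈ F, x ∈ L := by
    intro x hx
    rw [hL]
    exact lf2_base b F _ _ hx
  obtain ⟨TT, ξ, hξ, hTT⟩ := comm_sig D.toSData c₁ u hu hd n' N₀ hn' hN₀ hpn' hpN₀ n₃ n hnn₃
    (θ₀ ^ (p ^ l)) hθ₁fix hθ₁mov β hβ
  rw [← hM] at hTT
  -- the index
  obtain ⟨z, hz⟩ : ∃ z, z = y ^ (p ^ s) := ⟨_, rfl⟩
  have hidx : dgT (Lf b F (p ^ n₂) (p ^ (n₂ + J))) (y ^ (p ^ s)) ≤
      p ^ ((r + 1) * e) * dgT L y := by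
    have h1 := orb_idxT p b D.ne F hF n₂ (n₂ + J) e e (by omega) (y ^ (p ^ s))
    have e1 : n₂ + J + e = M := by omega
    rw [e1, ← hn₂, ← hL] at h1
    have h2 : p ^ e * (p ^ e) ^ r = p ^ ((r + 1) * e) := by
      rw [← pow_mul, ← pow_add]
      congr 1
      ring
    rw [h2] at h1
    exact h1.trans (Nat.mul_le_mul_left _ (dgT_pow_le L y _))
  have hdgpos : 0 < dgT L y := dgT_pos L y
  have hcl2 := clusterT ι (Lf b F (p ^ n₂) (p ^ (n₂ + J))) L 𝓛 hLbL (hLbL.trans h𝓛) hLbst hLst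
    θ₀ hθb e hθk τ hτ
    (Real.exp (-(Real.log p / (2 * (p : ℝ) ^ s)))) (Real.exp_pos _) hcl' s
    (le_of_eq (rho_pow p s hpp.one_lt.le)) γ y hγ0 hy0 hγ hT
    (p ^ ((r + 1) * e)) (Nat.one_le_pow _ _ hpp.pos) hidx M₁ G hG hD T l hT1 hTl h hht hh
    (m := r + 1) (Fin.cons 1 (fun j => (TT j)⁻¹)) (by
      refine lt_of_le_of_lt ?_ hnum
      have h1 : Real.log (dgT L y) ≤ Real.log Dm := by
        apply Real.log_le_log (by exact_mod_cast hdgpos)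
        exact_mod_cast hdg
      have h2 : (0 : ℝ) ≤ 4 * (Module.finrank ℚ K : ℝ) * ((r + 1 : ℕ) : ℝ) := by positivity
      apply mul_le_mul_of_nonneg_left _ h2
      push_cast
      linarith)
  obtain ⟨ψ, hψ⟩ := hcl2
  rw [← hz] at hψ
  obtain ⟨θ₁, hθ₁⟩ : ∃ θ₁, θ₁ = θ₀ ^ (p ^ l) := ⟨_, rfl⟩
  rw [← hθ₁] at hψ hTT
  have hψ0 : act (ψ⁻¹ * θ₁ * ψ) z ∈ OrbT L z := by
    have h1 := hψ 0
    rw [Fin.cons_zero, one_mul] at h1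
    exact h1
  have hψj : ∀ j : Fin r, act (ψ⁻¹ * TT j * θ₁ * (TT j)⁻¹ * ψ) z ∈ OrbT L z := by
    intro j
    have h1 := hψ j.succ
    rw [Fin.cons_succ] at h1
    have h2 : ((TT j)⁻¹ * ψ)⁻¹ * θ₁ * ((TT j)⁻¹ * ψ) = ψ⁻¹ * TT j * θ₁ * (TT j)⁻¹ * ψ := by group
    rw [h2] at h1
    exact h1
  have hνex : ∀ j : Fin r, ∃ ν : Ω ≃ₐ[K] Ω, (∀ x ∈ L, ν x = x) ∧
      act (ν * (ψ⁻¹ * (TT j * θ₁ * (TT j)⁻¹ * θ₁⁻¹) * ψ)) z = z := by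
    intro j
    obtain ⟨ν, h1, h2⟩ := orb_quotT hLst _ _ z hψ0 (hψj j)
    refine ⟨ν, h1, ?_⟩
    have h3 : (ψ⁻¹ * TT j * θ₁ * (TT j)⁻¹ * ψ) * (ψ⁻¹ * θ₁ * ψ)⁻¹ =
        ψ⁻¹ * (TT j * θ₁ * (TT j)⁻¹ * θ₁⁻¹) * ψ := by group
    rw [h3] at h2
    exact h2
  choose ν hνL hνz using hνex
  have hconj : ∀ j : Fin r, _ := fun j => conj_sig b D.ne F hF p (n + 1) M hpp.one_lt.le (by omega) β hβ
    (TT j * θ₁ * (TT j)⁻¹ * θ₁⁻¹) ψ (hTT j).1 (hTT j).2.1 (fun i => if i = j then ξ else 1)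
    (hTT j).2.2
  have hξ' : IsPrimitiveRoot (ψ⁻¹ ξ) p := hξ.map_of_injective (f := (ψ⁻¹ : Ω ≃ₐ[K] Ω)) (ψ⁻¹).injective
  have hξM : (ψ⁻¹ ξ) ^ (p ^ M) = 1 := by
    have h1 : p ^ M = p * p ^ (M - 1) := by
      rw [← pow_succ']
      congr 1
      omega
    rw [h1, pow_mul, hξ'.pow_eq_one, one_pow]
  obtain ⟨m, hm⟩ := desc_bT p b D.ne F n M s (by omega) (by omega) β hβ (fun _ => ψ⁻¹ ξ)
    (fun _ => hξ') (fun j => ν j * (ψ⁻¹ * (TT j * θ₁ * (TT j)⁻¹ * θ₁⁻¹) * ψ))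
    (fun j x hx => by
      rw [AlgEquiv.mul_apply, (hconj j).1 x hx, hνL j x (hFL x hx)])
    (fun j x hx => by
      rw [AlgEquiv.mul_apply, (hconj j).2.1 x hx, hνL j x (hrootL x hx)])
    (fun j i => by
      rw [AlgEquiv.mul_apply, (hconj j).2.2 i]
      split_ifs with h
      · exact hνL j _ (mul_mem (hrootL _ hξM) (hβL i))
      · rw [map_one, one_mul]
        exact hνL j _ (hβL i)) y hy0
    (fun j => by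
      rw [← hz]
      exact hνz j) (by rw [← hL]; exact hT)
  rw [← hL] at hm
  have hne : ∀ t, ∏ i, (β i) ^ (m t i) ≠ 0 := fun t =>
    Finset.prod_ne_zero_iff.2 fun i _ => zpow_ne_zero _ (hβ0 i)
  refine ⟨fun t => (∏ i, (β i) ^ (m t i))⁻¹, fun t => inv_ne_zero (hne t),
    fun t => inv_mem (prod_mem fun i _ => zpow_mem (hβL i) _), fun t => ⟨fun i => - m t i, ?_⟩, ?_⟩
  · rw [inv_pow, ← Finset.prod_pow, ← Finset.prod_inv_distrib]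
    refine Finset.prod_congr rfl fun i _ => ?_
    rw [zpow_neg, ← hβ i, ← zpow_natCast, ← zpow_natCast, ← zpow_mul, ← zpow_mul, mul_comm]
  · have h1 : (y / fun t => (∏ i, (β i) ^ (m t i))⁻¹) = y * fun t => ∏ i, (β i) ^ (m t i) := by
      funext t
      exact div_inv_eq_mul _ _
    rw [h1]
    exact hm

end Pool.Agent.H28.PT4
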